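import Pool.Agent.Helper81.MIT.Box
import Pool.Agent.Helper21.CT.XBM
import Pool.Agent.Helper21.CT.XB

/-!
Row MIT: three tails, the line `Re x = x_B(κ)`.
-/

set_option autoImplicit false
set_option exponentiation.threshold 4000
noncomputable section
namespace Pool.Agent.Helper81.MIT

open Pool.Agent.Helper90.C75 (Vt)
open Pool.Agent.Helper86.C75 (Z)
open Pool.Agent.Helper86.CX (Hm Cx P9 VR)
open Pool.Agent.Helper86.CT (Rw Mo Mc Mq clsOK mkCls Vx LT2 CellT chkPcT)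
open Pool.Agent.Helper39.SLT (T4)
open Pool.Agent.Helper6.MONO (kk mm Kp xA kb Kp_mono thr_Kp2 FinAt g_FIN')
open Pool.Agent.Helper6.MONO.QTR (TCell Far QX qx_of_cells zf_of_qx)
open Pool.Agent.Helper21.KRN (TProg XM expand xOK PtR)
open Pool.Agent.Helper21.KTE (MZ KS wfK CLD sideT)
open Pool.Agent.Helper21.XB (xBr xBp K14_Kp x0_xB xBp_rot xBp_swap thr_xBp cert_xBp xBOK xBM)

section

variable {D : ℕ} {α β p' v γ : Type} {lC : α → Vt (D + 1) → Cx} {lf : α → Vt (D + 1) → ℂ}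
  {mf : (ℕ → ℝ) → β → (ℕ → ℝ) → ℝ} {lp : p' → Vt (D + 1) → P9} {lv : v → Vt (D + 1) → VR}
  {lg : γ → Vt (D + 1) → ℕ} {Sa : α → List Bool → Prop} {Sp : p' → List Bool → Prop}
  {Sv : v → List Bool → Prop} {Sg : γ → List Bool → Prop} {M : Mc α β p' v γ}
  {S : Pool.Agent.Helper86.CT.Sv p'} {W : Vx β} {yy : ℕ → ℕ → α} {qd : ℕ → Cx → Cx → Cx → α}
  {rt : α → Bool}

/-- **THE MODULE ON THE LINE `Re x = x_B(κ)`** -/
theorem tcell_TB {X : XM α v}
    (hZ : MZ D lC lf mf lp lv lg Sa Sp Sv Sg M X.Q X.c X.r S W yy qd rt)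
    {s0 s1 s2 : KS} {a b c : Lb} {C : α} {n : ℕ}
    (hd : MDT D M qd rt X (xBM M.A X.k0 X.k1 X.k2 C n) s0 s1 s2 a b c)
    (hC : rt C = true) (hok : xBOK M.A X.k0 X.k1 X.k2 C n = true)
    {l : List (CellT α β)} (hl : l ≠ []) {sl : List ℕ} {le : List LT2}
    (hs : l.all (sideT W le) = true) {kx : ℕ → T4 → ℕ} {BE BO : List ℕ} {G : TProg}
    (hM : modX kx a b c BE BO G sl le = true) {y e : ℕ}
    (H : chkPcT M S W yy (mkCls M.A X.k0 X.k1 X.k2) (expand X G)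
      (xBM M.A X.k0 X.k1 X.k2 C n) sl le e l y = true)
    {p q r : ℕ} (ha : a.has p) (hb : b.has q) (hc : c.has r) (hp : 14 ≤ p) (hq : 14 ≤ q)
    (hr : 14 ≤ r) : TCell p q r (xBp p q r) ((y : ℝ) / 2 ^ 48) ((e : ℝ) / 2 ^ 48) := by
  have hT := thr_xBp hp hq hr
  refine tcell_T hZ hd hl hs hM H ha hb hc hT.gt hT.le ?_
  have h := x0_xB hZ.m.a hZ.t (κ := kR p q r) (by rw [kR_0]; exact K14_Kp hp)
    (by rw [kR_1]; exact K14_Kp hq) (by rw [kR_2]; exact K14_Kp hr) hC hok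
  exact h

end

/-! ### the final statement -/

/-- THREE TAILS: the final statement from the quarters with the largest order in the last place -/
theorem fin_3 {N : ℕ} (hN : 14 ≤ N)
    (h : ∀ p q r : ℕ, N ≤ p → N ≤ q → p ≤ r → q ≤ r → QX p q r (xBp p q r)) :
    ∀ p q r : ℕ, N ≤ p → p ≤ q → q ≤ r → FinAt p q r := by
  intro p q r hp hpq hqr
  have hT := thr_xBp (hN.trans hp) (hN.trans (hp.trans hpq)) (hN.trans (hp.trans (hpq.trans hqr)))
  refine g_FIN' p q r (by omega) (by omega) (by omega) (cert_xBp (hN.trans hp) (by omega)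
    (by omega) ?_)
  refine zf_of_qx (by omega) hpq hqr (fun h => by omega) hT.gt hT.A1
    (h p q r hp (by omega) (hpq.trans hqr) hqr) ?_
  have h2 := h q p r (by omega) hp hqr (hpq.trans hqr)
  rw [xBp_swap] at h2
  exact h2

/-- the quarters from the cells -/
theorem qx_3 {N : ℕ} (hN : 14 ≤ N) {B : ℝ} (hB : 0 ≤ B)
    (h : ∀ p q r : ℕ, N ≤ p → N ≤ q → p ≤ r → q ≤ r → TCell p q r (xBp p q r) 0 B)
    (hF : ∀ p q r : ℕ, N ≤ p → N ≤ q → p ≤ r → q ≤ r → Far p q r (xBp p q r) B) :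
    ∀ p q r : ℕ, N ≤ p → N ≤ q → p ≤ r → q ≤ r → QX p q r (xBp p q r) := by
  intro p q r hp hq hpr hqr
  have hT := thr_xBp (hN.trans hp) (hN.trans hq) (hN.trans (hp.trans hpr))
  exact qx_of_cells (by omega) (by omega) (by omega) hT.gt hT.le hB (h p q r hp hq hpr hqr)
    (hF p q r hp hq hpr hqr)

/-- BOXES `[cut i, cut (i+1)]`, `i < n`, of the weights; only boxes with the last one largest -/
theorem boxes3 {N n : ℕ} {cut : ℕ → ℕ} (hn : n ≠ 0) (h10 : 10 ≤ N)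
    (h0 : (cut 0 : ℝ) ≤ 2 ^ 48 * Kp N) (h1 : 562949953421312 ≤ cut n) {P : ℕ → ℕ → ℕ → Prop}
    (h : ∀ i j k : ℕ, i ≤ k → j ≤ k → k < n → ∀ p q r : ℕ, (Lb.tl (cut i) (cut (i + 1))).has p →
      (Lb.tl (cut j) (cut (j + 1))).has q → (Lb.tl (cut k) (cut (k + 1))).has r → P p q r) :
    ∀ p q r : ℕ, N ≤ p → N ≤ q → p ≤ r → q ≤ r → P p q r := by
  classical
  have ex : ∀ M : ℕ, N ≤ M → ∃ i, i < n ∧ 2 ^ 48 * Kp M ≤ (cut (i + 1) : ℝ) := by
    intro M hM
    refine ⟨n - 1, by omega, ?_⟩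
    rw [Nat.sub_add_cancel (by omega)]
    have : (562949953421312 : ℝ) ≤ cut n := by exact_mod_cast h1
    exact (Kp_hi (by omega)).trans this
  have has : ∀ (M : ℕ) (hM : N ≤ M), (Lb.tl (cut (Nat.find (ex M hM)))
      (cut (Nat.find (ex M hM) + 1))).has M := by
    intro M hM
    refine ⟨by omega, ?_, (Nat.find_spec (ex M hM)).2⟩
    rcases Nat.eq_zero_or_pos (Nat.find (ex M hM)) with e | e
    · rw [e]
      exact h0.trans (mul_le_mul_of_nonneg_left (Kp_mono (by omega) hM) (by positivity))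
    · have hlt : Nat.find (ex M hM) - 1 < Nat.find (ex M hM) := by omega
      have h2 := Nat.find_min (ex M hM) hlt
      rw [Nat.sub_add_cancel e] at h2
      by_contra hc
      push Not at hc
      exact h2 ⟨by have := (Nat.find_spec (ex M hM)).1; omega, hc.le⟩
  have mono : ∀ (M M' : ℕ) (hM : N ≤ M) (hM' : N ≤ M'), M ≤ M' →
      Nat.find (ex M hM) ≤ Nat.find (ex M' hM') := by
    intro M M' hM hM' hMM
    refine Nat.find_min' _ ⟨(Nat.find_spec (ex M' hM')).1, ?_⟩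
    exact (mul_le_mul_of_nonneg_left (Kp_mono (by omega) hMM) (by positivity)).trans
      (Nat.find_spec (ex M' hM')).2
  intro p q r hp hq hpr hqr
  have hr : N ≤ r := hp.trans hpr
  exact h _ _ _ (mono p r hp hr hpr) (mono q r hq hr hqr) (Nat.find_spec (ex r hr)).1 p q r
    (has p hp) (has q hq) (has r hr)

/-- one box -/
theorem boxes1 {N a : ℕ} (h10 : 10 ≤ N) (h0 : (a : ℝ) ≤ 2 ^ 48 * Kp N) {b : ℕ}
    (h1 : 562949953421312 ≤ b) {P : ℕ → ℕ → ℕ → Prop}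
    (h : ∀ p q r : ℕ, (Lb.tl a b).has p → (Lb.tl a b).has q → (Lb.tl a b).has r → P p q r) :
    ∀ p q r : ℕ, N ≤ p → N ≤ q → N ≤ r → P p q r := by
  have key : ∀ M, N ≤ M → (Lb.tl a b).has M := by
    intro M hM
    refine ⟨by omega, h0.trans (mul_le_mul_of_nonneg_left (Kp_mono (by omega) hM)
      (by positivity)), ?_⟩
    have : (562949953421312 : ℝ) ≤ b := by exact_mod_cast h1
    exact (Kp_hi (by omega)).trans this
  exact fun p q r hp hq hr => h p q r (key p hp) (key q hq) (key r hr)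

end Pool.Agent.Helper81.MIT
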