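import Pool.Agent.Helper81.MIT.Cov

/-!
Row MIT: from the results of the tests of a cell at one point to the certificate of the point,
classes with tails.
-/

set_option autoImplicit false
noncomputable section
namespace Pool.Agent.Helper81.MIT

open Pool.Agent.Helper21.SUP (GS DG DG_nx)
open Pool.Agent.Helper21.SUP renaming nx → nxs
open Pool.Agent.Helper39.SLT (T4 ML)
open Pool.Agent.Helper6.MONO (V3 RV2 TCert mm kk Kp Rb Bm Cm RMb omS zw DYm DLm DTH LNI_mm)
open Pool.Agent.Helper6.MONO.QTR (V0 e0)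
open Pool.Agent.Helper6.MTC (NegD FCert RK DYm_CM DLm_val)
open Pool.Agent.Helper6.PRG (gsF giS tys tN gsF_giS mem_tys)
open Pool.Agent.Helper6.MID (oZ sE sO kO kap3 oZ_omS UY_vpq V0_vpq)
open Pool.Agent.Helper21.KRN (RI PI TProg eT oT rT lT RunIn KResT kap cκ)
open Pool.Agent.Helper86.CX (Hm ev CK CM ev_CK)
open Pool.Agent.Helper86.CT (LT2)
open Complex ComplexConjugate

variable {p q r : ℕ}

/-! ### reference tests, static tests -/

theorem covRT_at {G : TProg} (h : covRTs (rep p) (rep q) (rep r) G = true) {s : GS} (hs : DG s)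
    {T : T4} (hT : T.ok (ML p q r s)) (hT2 : T ≠ T4.two ∨ 4 ≤ ML p q r s) :
    kidxT p q r s T ∈ rT G (giS s) := by
  obtain ⟨e, hi⟩ := gsF_giS s hs
  unfold covRTs at h
  rw [List.all_eq_true] at h
  have h3 := h (giS s) (List.mem_range.2 hi)
  unfold covRT at h3
  rw [e, ML_rep p q r hs, tysT_rep, List.all_eq_true] at h3
  have h4 := h3 _ (cut_mem hT)
  rw [Bool.or_eq_true] at h4
  rcases h4 with h4 | h4
  · rw [Bool.and_eq_true, decide_eq_true_eq, decide_eq_true_eq] at h4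
    exfalso
    obtain ⟨h5, h6⟩ := h4
    have h7 : ML p q r s ≤ 3 := by
      unfold rep at h6
      omega
    rcases hT2 with h8 | h8
    · apply h8
      unfold cut at h5
      rw [if_neg fun h' => by omega] at h5
      exact h5
    · omega
  · rw [List.any_eq_true] at h4
    obtain ⟨x, hx, h6⟩ := h4
    rw [kidxT_rep p q r hs, kidxT_cut, beq_iff_eq] at h6
    rwa [← h6]

theorem coverLT_at {G : TProg} (h : coverLT (rep p) (rep q) (rep r) G = true) {s : GS} (hs : DG s)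
    (h3 : ML p q r s = 3) : kidxT p q r s T4.two ∈ lT G (giS s) := by
  obtain ⟨e, hi⟩ := gsF_giS s hs
  unfold coverLT at h
  rw [List.all_eq_true] at h
  have h4 := h (giS s) (List.mem_range.2 hi)
  have h5 : ML (rep p) (rep q) (rep r) s = 3 := by
    rw [ML_rep p q r hs, h3]
    rfl
  rw [e, if_pos h5, List.any_eq_true] at h4
  obtain ⟨x, hx, h6⟩ := h4
  rw [kidxT_rep p q r hs, beq_iff_eq] at h6
  rwa [← h6]

theorem covTT_at {l : List ℕ} (h : covTT (rep p) (rep q) (rep r) l = true) {s : GS} (hs : DG s)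
    {T : T4} (hT : T.ok (ML p q r s)) : kidxT p q r s T ∈ l := by
  obtain ⟨e, hi⟩ := gsF_giS s hs
  unfold covTT at h
  rw [List.all_eq_true] at h
  have h3 := h (giS s) (List.mem_range.2 hi)
  rw [e, ML_rep p q r hs, tysT_rep, List.all_eq_true] at h3
  have h4 := h3 _ (cut_mem hT)
  rw [List.any_eq_true] at h4
  obtain ⟨x, hx, h6⟩ := h4
  rw [kidxT_rep p q r hs, kidxT_cut, beq_iff_eq] at h6
  rwa [← h6]

/-! ### the `L` vector -/

/-- positivity at the `L` vector -/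
def LPosT (p q r : ℕ) (K : ℕ → Hm ℝ) (z : ℂ) : Prop :=
  ∀ s, DG s → ML p q r s = 3 → 0 < ev (K (kidxT p q r s T4.two))
    ((DLm (omS p q r s (zw z))).mulVec ![1, (V0.c : ℂ), (V0.d (kk p q r s.1 s.2.2) : ℂ)])

theorem lposT_of {z : ℂ} (hz : z ≠ 0) (hz1 : z + 1 ≠ 0) {K : ℕ → Hm ℝ} {G : TProg}
    (hc : coverLT (rep p) (rep q) (rep r) G = true) (h : KResT K (kR p q r) z G) :
    LPosT p q r K z := by
  intro s hs h3
  have h1 := h.l _ (gsF_giS s hs).2 _ (coverLT_at hc hs h3)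
  rw [cκ_kR] at h1
  rw [DLm_val, oZ_omS (p := p) (q := q) (r := r) hz hz1 s hs]
  have e : (![1, ((V0.c / 2 : ℝ) : ℂ) + ((V0.d (kk p q r s.1 s.2.2) - V0.c : ℝ) : ℂ) *
      oZ (kap3 p q r) z (giS s), ((V0.c / 2 : ℝ) : ℂ) - (V0.c : ℂ) *
      oZ (kap3 p q r) z (giS s)] : Fin 3 → ℂ) =
      ![1, 1 / 5 + oZ (kap3 p q r) z (giS s) / 10, 1 / 5 - 2 * oZ (kap3 p q r) z (giS s) / 5] := by
    funext j
    fin_cases j
    · rfl
    · show ((V0.c / 2 : ℝ) : ℂ) + ((V0.d (kk p q r s.1 s.2.2) - V0.c : ℝ) : ℂ) *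
        oZ (kap3 p q r) z (giS s) = 1 / 5 + oZ (kap3 p q r) z (giS s) / 10
      unfold V0
      push_cast
      ring
    · show ((V0.c / 2 : ℝ) : ℂ) - (V0.c : ℂ) * oZ (kap3 p q r) z (giS s) =
        1 / 5 - 2 * oZ (kap3 p q r) z (giS s) / 5
      unfold V0
      push_cast
      ring
  rw [e]
  exact h1

/-! ### the slit -/

/-- the slit condition of the form `K` at the star of weight `k` -/
def SlitOK (K : Hm ℝ) (k : ℝ) : Prop :=
  ∃ γ : ℂ, 0 ≤ γ.re ∧ ∀ v : Fin 3 → ℂ, ev K v ≤ (γ * (conj (v 0) * DTH k v)).re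

/-- WHAT THE SLIT TESTS GIVE at the point with the weights `p q r`: labels `a b c` -/
def SlitT (p q r : ℕ) (a b c : Lb) (K : ℕ → Hm ℝ) (le : List LT2) : Prop :=
  ∀ x ∈ le, ∀ i j : Fin 3, i ≠ j → tOK (lbE a b c (edN i j)) x.ta x.tb = true →
    SlitOK (K x.k) (kk p q r i j)

theorem lb_rp {B : Lb} {M : ℕ} (h : B.has M) : B.rp = rep M := by
  cases B with
  | ex N =>
    obtain ⟨rfl, h3, h9⟩ := h
    have h10 : M < 10 := by omega
    exact (rep_of_lt h10).symm
  | tl lo hi => exact (rep_of_ge h.1).symm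

theorem covLT_at {a b c : Lb} (ha : a.has p) (hb : b.has q) (hc : c.has r) {l : List LT2}
    (h : covLT a b c l = true) {s : GS} (hs : DG s) {K : ℕ → Hm ℝ} (hK : SlitT p q r a b c K l) :
    SlitOK (K (kidxT p q r s T4.two)) (kk p q r s.1 s.2.1) ∧
      SlitOK (K (kidxT p q r s T4.three)) (kk p q r s.1 s.2.1) := by
  obtain ⟨e, hi⟩ := gsF_giS s hs
  unfold covLT at h
  rw [List.all_eq_true] at h
  have h3 := h (giS s) (List.mem_range.2 hi)
  rw [e, lb_rp ha, lb_rp hb, lb_rp hc, kidxT_rep p q r hs, kidxT_rep p q r hs,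
    Bool.and_eq_true] at h3
  have key : ∀ k, hasLT (lbE a b c (edN s.1 s.2.1)) l k = true →
      SlitOK (K k) (kk p q r s.1 s.2.1) := by
    intro k hk
    unfold hasLT at hk
    rw [List.any_eq_true] at hk
    obtain ⟨x, hx, h6⟩ := hk
    rw [Bool.and_eq_true, beq_iff_eq] at h6
    rw [← h6.1]
    exact hK x hx _ _ hs.1 h6.2
  exact ⟨key _ h3.1, key _ h3.2⟩

/-! ### the certificate -/

/-- everything of the certificate except the runs -/
theorem fcert_ofT (hp : 3 ≤ p) (hq : 3 ≤ q) (hr : 3 ≤ r) {a b c : Lb} (ha : a.has p)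
    (hb : b.has q) (hc : c.has r) {z : ℂ} (hz : z ≠ 0) (hz1 : z + 1 ≠ 0) {K : ℕ → Hm ℝ}
    {G : TProg} (hK : KResT K (kR p q r) z G) (hR : covRTs (rep p) (rep q) (rep r) G = true)
    {κ M : ℝ} {sl : List ℕ} (hs : covTT (rep p) (rep q) (rep r) sl = true)
    (neg : ∀ k ∈ sl, NegD κ (K k))
    (bd : ∀ k, |(K k).a| ≤ M ∧ ‖(K k).x‖ ≤ M ∧ ‖(K k).y‖ ≤ M)
    (hLP : LPosT p q r K z) {le : List LT2} (hL : covLT a b c le = true)
    (slit : SlitT p q r a b c K le) :
    FCert V0 e0 p q r κ M (zw z) (fun s T => K (kidxT p q r s T)) := by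
  have hom := fun s hs => oZ_omS (p := p) (q := q) (r := r) hz hz1 s hs
  refine ⟨fun s h T hT => neg _ (covTT_at hs h hT), fun s h T hT => (bd _).1,
    fun s h T hT => (bd _).2.1, fun s h T hT => (bd _).2.2, ?_, ?_, ?_, ?_, ?_⟩
  · intro s h T hT hT2
    have hx := covRT_at hR h hT (Or.inl hT2)
    have h1 := hK.r _ (gsF_giS s h).2 _ hx _ (Or.inl rfl)
    rw [cκ_kR] at h1
    rw [V0_vpq, DYm_CM, ev_CK, hom s h]
    exact h1
  · intro s h h3
    exact hLP s h h3
  · intro s h h4 i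
    have key : ∀ T : T4, T.ok (ML p q r s) → 0 < ev (K (kidxT p q r s T))
        ((DYm (omS p q r s (zw z))).mulVec (Pool.Agent.Helper6.MONO.SV.UY V0.al V0.be e0 i)) := by
      intro T hT
      have hx := covRT_at hR h hT (Or.inr h4)
      have h1 := hK.r _ (gsF_giS s h).2 _ hx _ (UY_vpq i)
      rw [cκ_kR] at h1
      rw [DYm_CM, ev_CK, hom s h]
      exact h1
    exact ⟨key T4.two trivial, key T4.three trivial⟩
  · intro s h
    exact (covLT_at ha hb hc hL h slit).2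
  · intro s h
    exact (covLT_at ha hb hc hL h slit).1

/-- THE CERTIFICATE OF A POINT OF A MIDDLE CELL -/
theorem tcert_ofT (hp : 3 ≤ p) (hq : 3 ≤ q) (hr : 3 ≤ r) {a b c : Lb} (ha : a.has p)
    (hb : b.has q) (hc : c.has r) {BE BO : List ℕ} {z : ℂ} (hz : z ≠ 0) (hz1 : z + 1 ≠ 0)
    {K : ℕ → Hm ℝ} {G : TProg} (hK : KResT K (kR p q r) z G)
    (hcov : coverT (rep p) (rep q) (rep r) BE BO G = true)
    (hR : covRTs (rep p) (rep q) (rep r) G = true)
    {κ M : ℝ} (hκ : 0 < κ) {sl : List ℕ} (hs : covTT (rep p) (rep q) (rep r) sl = true)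
    (neg : ∀ k ∈ sl, NegD κ (K k))
    (bd : ∀ k, |(K k).a| ≤ M ∧ ‖(K k).x‖ ≤ M ∧ ‖(K k).y‖ ≤ M)
    (hLP : LPosT p q r K z) {le : List LT2} (hL : covLT a b c le = true)
    (slit : SlitT p q r a b c K le) :
    TCert V0 e0 p q r (5 * M / κ + 1) (zw z) (RK fun s T => K (kidxT p q r s T)) := by
  refine (fcert_ofT hp hq hr ha hb hc hz hz1 hK hR hs neg bd hLP hL slit).tcert_mid hp hq hr hκ ?_
  intro s h T hT m hl hm v hv
  have hB : brOK BE BO = true := by
    unfold coverT at hcov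
    rw [Bool.and_eq_true] at hcov
    exact hcov.1
  exact run_ofT hp hq hr hB hz hz1 hK h ((low_ge2 _ T).trans hl) hm
    (coverT_run hcov hp hq hr h hT hl hm) v hv

end Pool.Agent.Helper81.MIT
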