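import Pool.Agent.Helper81.MIT.Top
import Pool.Agent.Helper21.CT.KTN
import Pool.Agent.Helper12.CX.THR

/-!
Row MIT: THE THEOREMS OF A MODULE of middle cells of a class with tails, for all machines and all
orders of the labels.
-/

set_option autoImplicit false
set_option exponentiation.threshold 4000
noncomputable section
namespace Pool.Agent.Helper81.MIT

open Pool.Agent.Helper90.C75 (Vt)
open Pool.Agent.Helper90.KMT (TOK)
open Pool.Agent.Helper90.KMO (zv)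
open Pool.Agent.Helper86.C75 (Z)
open Pool.Agent.Helper86.CX (Hm Cx P9 VR)
open Pool.Agent.Helper86.CT (Rw Mo Mc Mq clsOK mkCls Vx LT2 CellT chkPcT xAM xAOK)
open Pool.Agent.Helper39.SLT (T4)
open Pool.Agent.Helper6.MONO (kk mm Kp xA xA_gt xA_le2 xA_swap kb kap_enc)
open Pool.Agent.Helper6.MONO.QTR (TCell)
open Pool.Agent.Helper21.KRN (TProg XM expand xOK PtR)
open Pool.Agent.Helper21.KTE (MZ KS wfK CLD sideT cls_pt TOK_xA TOK_xC)
open Complex ComplexConjugate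

/-- the kappa has the label; a thin tail label may have a constant kappa -/
def mat : KS → Lb → Bool
  | KS.E n, Lb.ex M => Nat.beq n (kb M)
  | KS.E n, Lb.tl lo hi => Nat.ble n (Nat.succ lo) && Nat.ble hi (Nat.succ n)
  | KS.T _ a b, Lb.tl lo hi => Nat.beq a lo && Nat.beq b hi
  | _, _ => false

theorem mat_ok {s : KS} {B : Lb} {M : ℕ} (h : mat s B = true) (hB : B.has M) : s.ok (Kp M) := by
  cases s with
  | E n =>
    cases B with
    | ex N =>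
      obtain ⟨e, h3, h9⟩ := hB
      have e1 : n = kb N := Nat.eq_of_beq_eq_true h
      show |2 ^ 48 * Kp M - (n : ℝ)| ≤ 1
      rw [e, e1]
      have h1 := kap_enc N h3 (by omega)
      have e2 : 2 ^ 48 * Kp N - (kb N : ℝ) = 2 ^ 48 * (Kp N - (kb N : ℝ) / 2 ^ 48) := by
        field_simp
      rw [e2, abs_mul, abs_of_pos (by positivity : (0 : ℝ) < 2 ^ 48)]
      have h2 := mul_le_mul_of_nonneg_left h1 (by positivity : (0 : ℝ) ≤ 2 ^ 48)
      refine h2.trans (le_of_eq ?_)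
      norm_num
    | tl lo hi =>
      have h' : (Nat.ble n (Nat.succ lo) && Nat.ble hi (Nat.succ n)) = true := h
      rw [Bool.and_eq_true] at h'
      have e1 : (n : ℝ) ≤ lo + 1 := by exact_mod_cast Nat.le_of_ble_eq_true h'.1
      have e2 : (hi : ℝ) ≤ n + 1 := by exact_mod_cast Nat.le_of_ble_eq_true h'.2
      show |2 ^ 48 * Kp M - (n : ℝ)| ≤ 1
      rw [abs_le]
      constructor
      · linarith [hB.2.1]
      · linarith [hB.2.2]
  | T j a b =>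
    cases B with
    | ex N => exact absurd h (by simp [mat])
    | tl lo hi =>
      have h' : (Nat.beq a lo && Nat.beq b hi) = true := h
      rw [Bool.and_eq_true] at h'
      have e1 : a = lo := Nat.eq_of_beq_eq_true h'.1
      have e2 : b = hi := Nat.eq_of_beq_eq_true h'.2
      rw [e1, e2]
      exact ⟨hB.2.1, hB.2.2⟩

/-- the side test of the kappas and the labels -/
def wfL (D : ℕ) (s0 s1 s2 : KS) (a b c : Lb) : Bool :=
  Nat.ble D 3 && (wfK D s0 s1 s2 && (mat s0 a && (mat s1 b && mat s2 c)))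

theorem kR_0 (p q r : ℕ) : kR p q r 0 = Kp p := rfl
theorem kR_1 (p q r : ℕ) : kR p q r 1 = Kp q := rfl
theorem kR_2 (p q r : ℕ) : kR p q r 2 = Kp r := rfl

theorem xA_eq (p q r : ℕ) : xA p q r =
    (4 - (kR p q r 0 * kR p q r 1) ^ 2 - kR p q r 2 ^ 2) / (kR p q r 0 * kR p q r 1 * kR p q r 2) := by
  unfold xA
  show (4 - kk p q r 2 0 ^ 2 - kk p q r 0 1 ^ 2 * kk p q r 1 2 ^ 2) /
    (kk p q r 0 1 * kk p q r 1 2 * kk p q r 2 0) = (4 - (kk p q r 0 1 * kk p q r 1 2) ^ 2 -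
      kk p q r 2 0 ^ 2) / (kk p q r 0 1 * kk p q r 1 2 * kk p q r 2 0)
  congr 1
  ring

section

variable {D : ℕ} {α β p' v γ : Type} {lC : α → Vt (D + 1) → Cx} {lf : α → Vt (D + 1) → ℂ}
  {mf : (ℕ → ℝ) → β → (ℕ → ℝ) → ℝ} {lp : p' → Vt (D + 1) → P9} {lv : v → Vt (D + 1) → VR}
  {lg : γ → Vt (D + 1) → ℕ} {Sa : α → List Bool → Prop} {Sp : p' → List Bool → Prop}
  {Sv : v → List Bool → Prop} {Sg : γ → List Bool → Prop} {M : Mc α β p' v γ}
  {S : Pool.Agent.Helper86.CT.Sv p'} {W : Vx β} {yy : ℕ → ℕ → α} {qd : ℕ → Cx → Cx → Cx → α}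
  {rt : α → Bool}

/-- the data of a module: kappas, labels, side tests, without `x0` -/
structure MDT (D : ℕ) (M : Mc α β p' v γ) (qd : ℕ → Cx → Cx → Cx → α) (rt : α → Bool)
    (X : XM α v) (Xo : Mo α) (s0 s1 s2 : KS) (a b c : Lb) : Prop where
  w : wfL D s0 s1 s2 a b c = true
  e0 : X.k0 = s0.mo M.A qd
  e1 : X.k1 = s1.mo M.A qd
  e2 : X.k2 = s2.mo M.A qd
  k : xOK X = true
  c : clsOK M.A X.k0 X.k1 X.k2 = true
  r : rt Xo.v = true

/-- THE MODULE, a line given by a model -/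
theorem tcell_T {X : XM α v}
    (hZ : MZ D lC lf mf lp lv lg Sa Sp Sv Sg M X.Q X.c X.r S W yy qd rt) {Xo : Mo α}
    {s0 s1 s2 : KS} {a b c : Lb} (hd : MDT D M qd rt X Xo s0 s1 s2 a b c)
    {l : List (CellT α β)} (hl : l ≠ []) {sl : List ℕ} {le : List LT2}
    (hs : l.all (sideT W le) = true) {kx : ℕ → T4 → ℕ} {BE BO : List ℕ} {G : TProg}
    (hM : modX kx a b c BE BO G sl le = true) {y e : ℕ}
    (H : chkPcT M S W yy (mkCls M.A X.k0 X.k1 X.k2) (expand X G) Xo sl le e l y = true)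
    {p q r : ℕ} (ha : a.has p) (hb : b.has q) (hc : c.has r) {x0 : ℝ} (hx : -2 < x0) (hx2 : x0 ≤ 2)
    (hx0 : ∀ t, Pool.Agent.Helper90.KMT.PT (D + 1) t → TOK (D + 1) lf t (kR p q r 0 : ℂ) X.k0 →
      TOK (D + 1) lf t (kR p q r 1 : ℂ) X.k1 → TOK (D + 1) lf t (kR p q r 2 : ℂ) X.k2 →
      TOK (D + 1) lf t (x0 : ℂ) Xo) :
    TCell p q r x0 ((y : ℝ) / 2 ^ 48) ((e : ℝ) / 2 ^ 48) := by
  have hw := hd.w
  unfold wfL at hw
  simp only [Bool.and_eq_true] at hw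
  obtain ⟨w1, w2, w3, w4, w5⟩ := hw
  have hC : CLD D lf M qd rt X Xo s0 s1 s2 (kR p q r) x0 :=
    ⟨Nat.le_of_ble_eq_true w1, w2, by rw [kR_0]; exact mat_ok w3 ha,
      by rw [kR_1]; exact mat_ok w4 hb, by rw [kR_2]; exact mat_ok w5 hc, hd.e0, hd.e1, hd.e2,
      hd.k, hd.c, hd.r, hx0⟩
  refine tcellX ha hb hc hM hx hx2 ?_
  intro z h h0 h1 h2 hz hui hE
  have p48 : (0 : ℝ) < 2 ^ 48 := by positivity
  exact cls_pt hZ hC hl hs H (h := h) (by rw [div_le_iff₀ p48] at h1; linarith)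
    (by rw [le_div_iff₀ p48] at h2; linarith) hz hE hui

/-- **THE MODULE ON THE EXACT LINE** -/
theorem tcell_TA {X : XM α v}
    (hZ : MZ D lC lf mf lp lv lg Sa Sp Sv Sg M X.Q X.c X.r S W yy qd rt)
    {s0 s1 s2 : KS} {a b c : Lb}
    (hd : MDT D M qd rt X (xAM M.A X.k0 X.k1 X.k2) s0 s1 s2 a b c)
    (hA : xAOK M.A X.k0 X.k1 X.k2 = true)
    {l : List (CellT α β)} (hl : l ≠ []) {sl : List ℕ} {le : List LT2}
    (hs : l.all (sideT W le) = true) {kx : ℕ → T4 → ℕ} {BE BO : List ℕ} {G : TProg}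
    (hM : modX kx a b c BE BO G sl le = true) {y e : ℕ}
    (H : chkPcT M S W yy (mkCls M.A X.k0 X.k1 X.k2) (expand X G) (xAM M.A X.k0 X.k1 X.k2)
      sl le e l y = true)
    {p q r : ℕ} (ha : a.has p) (hb : b.has q) (hc : c.has r) (hqr : p ≤ r ∨ q ≤ r) :
    TCell p q r (xA p q r) ((y : ℝ) / 2 ^ 48) ((e : ℝ) / 2 ^ 48) := by
  refine tcell_T hZ hd hl hs hM H ha hb hc ?_ (xA_le2 ha.ge3 hb.ge3 hc.ge3) ?_
  · rcases hqr with h | h
    · rw [← xA_swap]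
      exact xA_gt hb.ge3 ha.ge3 h
    · exact xA_gt ha.ge3 hb.ge3 h
  · intro t ht k0 k1 k2
    rw [xA_eq]
    exact TOK_xA hZ.m.a ht k0 k1 k2 hA

/-- **THE MODULE ON A CONSTANT LINE** -/
theorem tcell_TC {X : XM α v}
    (hZ : MZ D lC lf mf lp lv lg Sa Sp Sv Sg M X.Q X.c X.r S W yy qd rt)
    {s0 s1 s2 : KS} {a b c : Lb} {Xz : Z} {n : ℕ}
    (hd : MDT D M qd rt X (Pool.Agent.Helper86.CT.mk M.A (M.A.cs ⟨Xz, Z.p (nat_lit 0)⟩) n)
      s0 s1 s2 a b c)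
    {l : List (CellT α β)} (hl : l ≠ []) {sl : List ℕ} {le : List LT2}
    (hs : l.all (sideT W le) = true) {kx : ℕ → T4 → ℕ} {BE BO : List ℕ} {G : TProg}
    (hM : modX kx a b c BE BO G sl le = true) {y e : ℕ}
    (H : chkPcT M S W yy (mkCls M.A X.k0 X.k1 X.k2) (expand X G)
      (Pool.Agent.Helper86.CT.mk M.A (M.A.cs ⟨Xz, Z.p (nat_lit 0)⟩) n) sl le e l y = true)
    {p q r : ℕ} (ha : a.has p) (hb : b.has q) (hc : c.has r) {x0 : ℝ} (hx : -2 < x0) (hx2 : x0 ≤ 2)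
    (hX : |2 ^ 48 * x0 - (zv Xz : ℝ)| ≤ (n : ℝ)) :
    TCell p q r x0 ((y : ℝ) / 2 ^ 48) ((e : ℝ) / 2 ^ 48) :=
  tcell_T hZ hd hl hs hM H ha hb hc hx hx2 fun _ ht _ _ _ => TOK_xC hZ.m.a ht hX

end

end Pool.Agent.Helper81.MIT
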