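import Pool.Agent.Helper12.CX.KAP15

/-!
`Kp 13` with 48 bits; all weights up to order `15`.
-/

set_option autoImplicit false
noncomputable section
namespace Pool.Agent.Helper81.MIT

open Pool.Agent.Helper6.MONO (Kp kb kap_enc kap_mono kap_14 kap_15 kap_le2 Kp_ge1)

/-- `2^48 * Kp M`, rounded, up to `15` -/
def kbx : ℕ → ℕ
  | 13 => 546591650894800
  | 14 => 548835622751895
  | 15 => 550648146272264
  | M => kb M

theorem Kp13_eq : Kp 13 ^ 6 - Kp 13 ^ 5 - 5 * Kp 13 ^ 4 + 4 * Kp 13 ^ 3 + 6 * Kp 13 ^ 2 -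
    3 * Kp 13 - 1 = 0 := by
  have h3 : 1 ≤ Kp 13 := Kp_ge1 (by norm_num)
  have e1 : Real.cos (7 * (Real.pi / 13)) = -Real.cos (6 * (Real.pi / 13)) := by
    rw [← Real.cos_pi_sub]
    congr 1
    ring
  have d2 : Real.cos (2 * (Real.pi / 13)) = 2 * Real.cos (Real.pi / 13) ^ 2 - 1 :=
    Real.cos_two_mul _
  have d3 : Real.cos (3 * (Real.pi / 13)) =
      4 * Real.cos (Real.pi / 13) ^ 3 - 3 * Real.cos (Real.pi / 13) := Real.cos_three_mul _
  have d4 : Real.cos (4 * (Real.pi / 13)) = 2 * Real.cos (2 * (Real.pi / 13)) ^ 2 - 1 := by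
    rw [← Real.cos_two_mul]
    congr 1
    ring
  have d6 : Real.cos (6 * (Real.pi / 13)) = 2 * Real.cos (3 * (Real.pi / 13)) ^ 2 - 1 := by
    rw [← Real.cos_two_mul]
    congr 1
    ring
  have d7 : Real.cos (7 * (Real.pi / 13)) =
      2 * Real.cos (4 * (Real.pi / 13)) * Real.cos (3 * (Real.pi / 13)) -
        Real.cos (Real.pi / 13) := by
    have a := Real.cos_add (4 * (Real.pi / 13)) (3 * (Real.pi / 13))
    have b := Real.cos_sub (4 * (Real.pi / 13)) (3 * (Real.pi / 13))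
    have c1 : 4 * (Real.pi / 13) + 3 * (Real.pi / 13) = 7 * (Real.pi / 13) := by ring
    have c2 : 4 * (Real.pi / 13) - 3 * (Real.pi / 13) = Real.pi / 13 := by ring
    rw [c1] at a
    rw [c2] at b
    linarith
  have hk : Kp 13 = 2 * Real.cos (Real.pi / 13) := by
    unfold Kp
    rw [Nat.cast_ofNat]
  rw [d7, d6, d4, d3, d2] at e1
  set c := Real.cos (Real.pi / 13) with hc
  have hf : (Kp 13 + 2) * (Kp 13 ^ 6 - Kp 13 ^ 5 - 5 * Kp 13 ^ 4 + 4 * Kp 13 ^ 3 +
      6 * Kp 13 ^ 2 - 3 * Kp 13 - 1) = 0 := by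
    rw [hk]
    linear_combination 2 * e1
  rcases mul_eq_zero.1 hf with h | h
  · linarith
  · exact h

/-- the polynomial increases -/
theorem p13_mono {x y : ℝ} (hx : (1.93 : ℝ) ≤ x) (hxy : x < y) :
    x ^ 6 - x ^ 5 - 5 * x ^ 4 + 4 * x ^ 3 + 6 * x ^ 2 - 3 * x - 1 <
      y ^ 6 - y ^ 5 - 5 * y ^ 4 + 4 * y ^ 3 + 6 * y ^ 2 - 3 * y - 1 := by
  obtain ⟨u, hu⟩ : ∃ u, u = x - 1.93 := ⟨_, rfl⟩
  obtain ⟨v, hv⟩ : ∃ v, v = y - 1.93 := ⟨_, rfl⟩
  have u0 : 0 ≤ u := by linarith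
  have uv : u < v := by linarith
  have e : ∀ w : ℝ, (w + 1.93) ^ 6 - (w + 1.93) ^ 5 - 5 * (w + 1.93) ^ 4 + 4 * (w + 1.93) ^ 3 +
      6 * (w + 1.93) ^ 2 - 3 * (w + 1.93) - 1 = -154749920051 / 1000000000000 +
      61871852329 / 5000000000 * w + 1072912603 / 20000000 * w ^ 2 + 3596607 / 50000 * w ^ 3 +
      82447 / 2000 * w ^ 4 + 529 / 50 * w ^ 5 + w ^ 6 := by
    intro w
    ring
  have hx' : x = u + 1.93 := by linarith
  have hy' : y = v + 1.93 := by linarith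
  rw [hx', hy', e, e]
  have m2 := pow_le_pow_left₀ u0 uv.le 2
  have m3 := pow_le_pow_left₀ u0 uv.le 3
  have m4 := pow_le_pow_left₀ u0 uv.le 4
  have m5 := pow_le_pow_left₀ u0 uv.le 5
  have m6 := pow_le_pow_left₀ u0 uv.le 6
  linarith

theorem kap_13 : |Kp 13 - 546591650894800 / 2 ^ 48| ≤ 1 / 2 ^ 48 := by
  have h12 := kap_enc 12 (by norm_num) (by norm_num)
  have hm := kap_mono (M := 12) (N := 13) (by norm_num) (by norm_num)
  have hlo : (1.93 : ℝ) ≤ Kp 13 := by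
    rw [abs_le] at h12
    simp only [kb] at h12
    push_cast at h12
    linarith [h12.1]
  have h0 := Kp13_eq
  have c1 : ((546591650894799 : ℝ)) / 2 ^ 48 ≤ Kp 13 := by
    by_contra h
    push Not at h
    have := p13_mono hlo h
    rw [h0] at this
    norm_num at this
  have c2 : Kp 13 ≤ (546591650894801 : ℝ) / 2 ^ 48 := by
    by_contra h
    push Not at h
    have := p13_mono (by norm_num) h
    rw [h0] at this
    norm_num at this
  rw [abs_le]
  constructor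
  · have e : (546591650894799 : ℝ) / 2 ^ 48 = 546591650894800 / 2 ^ 48 - 1 / 2 ^ 48 := by norm_num
    linarith
  · have e : (546591650894801 : ℝ) / 2 ^ 48 = 546591650894800 / 2 ^ 48 + 1 / 2 ^ 48 := by norm_num
    linarith

/-- all weights up to order `15` -/
theorem kapx (M : ℕ) (h3 : 3 ≤ M) (h15 : M ≤ 15) :
    |Kp M - (kbx M : ℝ) / 2 ^ 48| ≤ 1 / 2 ^ 48 := by
  rcases Nat.lt_or_ge M 13 with h | h
  · have e : kbx M = kb M := by
      unfold kbx
      split <;> first | omega | rfl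
    rw [e]
    exact kap_enc M h3 (by omega)
  · interval_cases M
    · exact_mod_cast kap_13
    · exact_mod_cast kap_14
    · exact_mod_cast kap_15

/-- the equation `kbx.eq_4`, made here once -/
theorem eqn_kbx_eq_4 : True := by
  have h := @kbx.eq_4
  trivial

end Pool.Agent.Helper81.MIT
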