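import Pool.Agent.Helper81.MIT.K15

/-!
All weights up to order `40` with 48 bits, by signs of the sequence `sin (k t) / sin t`.
-/

set_option autoImplicit false
set_option exponentiation.threshold 4000
noncomputable section
namespace Pool.Agent.Helper81.MIT

open Pool.Agent.Helper6.MONO (Kp kb)

/-- the sequence `S 0 = 0`, `S 1 = 1`, `S (k + 2) = a S (k + 1) - 2 ^ 96 S k` -/
def sU (a : ℤ) : ℕ → ℤ × ℤ
  | 0 => (0, 1)
  | k + 1 => ((sU a k).2, a * (sU a k).2 - 2 ^ 96 * (sU a k).1)

theorem sU_sin (a : ℤ) (t : ℝ) (h : (a : ℝ) = 2 ^ 48 * (2 * Real.cos t)) (k : ℕ) :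
    ((sU a k).1 : ℝ) * (Real.sin t * 2 ^ 48) = 2 ^ (48 * k) * Real.sin (k * t) ∧
    ((sU a k).2 : ℝ) * (Real.sin t * 2 ^ 48) = 2 ^ (48 * (k + 1)) * Real.sin ((k + 1) * t) := by
  induction k with
  | zero =>
    constructor
    · simp [sU]
    · simp [sU]
      ring
  | succ k ih =>
    obtain ⟨i1, i2⟩ := ih
    constructor
    · show ((sU a k).2 : ℝ) * _ = _
      rw [i2]
      push_cast
      ring
    · show ((a * (sU a k).2 - 2 ^ 96 * (sU a k).1 : ℤ) : ℝ) * _ = _
      have e0 := Real.sin_add ((k + 1) * t) t
      have e1 := Real.sin_sub ((k + 1) * t) t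
      have c0 : ((k + 1 : ℕ) + 1 : ℝ) * t = (k + 1) * t + t := by push_cast; ring
      have c1 : ((k : ℝ) + 1) * t - t = k * t := by ring
      rw [c1] at e1
      rw [c0, e0]
      have e2 : Real.cos ((k + 1) * t) * Real.sin t =
          Real.sin ((k + 1) * t) * Real.cos t - Real.sin (k * t) := by linarith
      rw [e2]
      push_cast
      have p1 : (2 : ℝ) ^ (48 * (k + 1 + 1)) = 2 ^ (48 * (k + 1)) * 2 ^ 48 := by rw [← pow_add]; congr 1
      have p2 : (2 : ℝ) ^ (48 * (k + 1 + 1)) = 2 ^ (48 * k) * 2 ^ 96 := by rw [← pow_add]; congr 1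
      have f1 : (2 : ℝ) ^ (48 * (k + 1 + 1)) * (Real.sin ((k + 1) * t) * Real.cos t +
          (Real.sin ((k + 1) * t) * Real.cos t - Real.sin (k * t))) =
          2 ^ (48 * (k + 1 + 1)) * (2 * Real.cos t * Real.sin ((k + 1) * t)) -
            2 ^ (48 * (k + 1 + 1)) * Real.sin (k * t) := by ring
      rw [f1]
      nth_rewrite 2 [p2]
      rw [p1]
      linear_combination (a : ℝ) * i2 - 2 ^ 96 * i1 + 2 ^ (48 * (k + 1)) * Real.sin ((k + 1) * t) * h

/-- all terms `1 .. M` are positive -/
def okU (a : ℤ) : ℕ → Bool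
  | 0 => true
  | k + 1 => decide (0 < (sU a k).2) && okU a k

theorem okU_pos {a : ℤ} {M : ℕ} (h : okU a M = true) : ∀ k, 1 ≤ k → k ≤ M → 0 < (sU a k).1 := by
  induction M with
  | zero => intro k h1 h2; omega
  | succ M ih =>
    unfold okU at h
    rw [Bool.and_eq_true, decide_eq_true_iff] at h
    intro k h1 h2
    rcases Nat.eq_or_lt_of_le h2 with e | e
    · rw [e]
      exact h.1
    · exact ih h.2 k h1 (by omega)

/-- the two signs -/
def chU (M n : ℕ) : Bool := okU ((n : ℤ) + 1) M && decide ((sU ((n : ℤ) - 1) M).1 < 0)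

theorem ang {c : ℝ} (c0 : 0 < c) (c2 : c < 2) : ∃ t : ℝ, 0 < t ∧ t < Real.pi / 2 ∧
    2 * Real.cos t = c := by
  refine ⟨Real.arccos (c / 2), Real.arccos_pos.2 (by linarith), ?_, ?_⟩
  · exact Real.arccos_lt_pi_div_two.2 (by linarith)
  · rw [Real.cos_arccos (by linarith) (by linarith)]
    ring

theorem kap_up {M : ℕ} {a : ℤ} (hM : 3 ≤ M) (h0 : 0 < a) (h2 : a < 2 ^ 49)
    (h : okU a M = true) : Kp M ≤ (a : ℝ) / 2 ^ 48 := by
  have h0' : (0 : ℝ) < a := by exact_mod_cast h0
  have h2' : (a : ℝ) < 2 ^ 49 := by exact_mod_cast h2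
  obtain ⟨t, t0, t1, ht⟩ := ang (c := (a : ℝ) / 2 ^ 48) (by positivity)
    (by rw [div_lt_iff₀ (by positivity)]; linarith)
  have ha : (a : ℝ) = 2 ^ 48 * (2 * Real.cos t) := by rw [ht]; field_simp
  have st : 0 < Real.sin t := Real.sin_pos_of_pos_of_lt_pi t0 (by linarith [Real.pi_pos])
  have hM' : (0 : ℝ) < M := by positivity
  have key : t ≤ Real.pi / M := by
    by_contra hc
    push Not at hc
    have hk := okU_pos h
    set k := ⌈Real.pi / t⌉₊ with hkd
    have k1 : Real.pi / t ≤ k := Nat.le_ceil _
    have k2 : (k : ℝ) < Real.pi / t + 1 := Nat.ceil_lt_add_one (by positivity)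
    have k3 : k ≤ M := by
      rw [hkd, Nat.ceil_le, div_le_iff₀ t0]
      rw [div_lt_iff₀ hM'] at hc
      linarith
    have k4 : 1 ≤ k := by
      rw [Nat.one_le_iff_ne_zero]
      intro e
      rw [e] at k1
      have := div_pos Real.pi_pos t0
      norm_num at k1
      linarith
    have k5 := hk k k4 k3
    have k6 := (sU_sin a t ha k).1
    have k7 : (0 : ℝ) < ((sU a k).1 : ℝ) * (Real.sin t * 2 ^ 48) := by
      have : (0 : ℝ) < ((sU a k).1 : ℝ) := by exact_mod_cast k5
      positivity
    rw [k6] at k7
    have k8 : 0 < Real.sin (k * t) := by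
      by_contra hn
      push Not at hn
      have := mul_nonpos_of_nonneg_of_nonpos (by positivity : (0 : ℝ) ≤ 2 ^ (48 * k)) hn
      linarith
    rw [div_le_iff₀ t0] at k1
    have k9 : (k : ℝ) * t < Real.pi + t := by
      have := mul_lt_mul_of_pos_right k2 t0
      rw [add_mul, div_mul_cancel₀ _ t0.ne'] at this
      linarith
    have k10 : Real.sin (k * t) = -Real.sin (k * t - Real.pi) := by
      rw [Real.sin_sub_pi]
      ring
    have k11 : 0 ≤ Real.sin (k * t - Real.pi) :=
      Real.sin_nonneg_of_nonneg_of_le_pi (by linarith) (by linarith [Real.pi_pos])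
    linarith
  rw [← ht]
  unfold Kp
  have := Real.cos_le_cos_of_nonneg_of_le_pi t0.le (y := Real.pi / M)
    (by rw [div_le_iff₀ hM']; have : (3 : ℝ) ≤ M := by exact_mod_cast hM
        nlinarith [Real.pi_pos]) key
  linarith

theorem kap_lo {M : ℕ} {a : ℤ} (hM : 3 ≤ M) (h0 : 0 < a) (h2 : a < 2 ^ 49)
    (h : (sU a M).1 < 0) : (a : ℝ) / 2 ^ 48 ≤ Kp M := by
  have h0' : (0 : ℝ) < a := by exact_mod_cast h0
  have h2' : (a : ℝ) < 2 ^ 49 := by exact_mod_cast h2
  obtain ⟨t, t0, t1, ht⟩ := ang (c := (a : ℝ) / 2 ^ 48) (by positivity)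
    (by rw [div_lt_iff₀ (by positivity)]; linarith)
  have ha : (a : ℝ) = 2 ^ 48 * (2 * Real.cos t) := by rw [ht]; field_simp
  have st : 0 < Real.sin t := Real.sin_pos_of_pos_of_lt_pi t0 (by linarith [Real.pi_pos])
  have hM' : (0 : ℝ) < M := by positivity
  have key : Real.pi / M ≤ t := by
    by_contra hc
    push Not at hc
    rw [lt_div_iff₀ hM'] at hc
    have k6 := (sU_sin a t ha M).1
    have k7 : ((sU a M).1 : ℝ) * (Real.sin t * 2 ^ 48) < 0 := by
      have : ((sU a M).1 : ℝ) < 0 := by exact_mod_cast h
      exact mul_neg_of_neg_of_pos this (by positivity)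
    rw [k6] at k7
    have k8 : 0 ≤ Real.sin (M * t) := Real.sin_nonneg_of_nonneg_of_le_pi (by positivity) (by linarith)
    have := mul_nonneg (by positivity : (0 : ℝ) ≤ 2 ^ (48 * M)) k8
    linarith
  rw [← ht]
  unfold Kp
  have := Real.cos_le_cos_of_nonneg_of_le_pi (x := Real.pi / M) (y := t) (by positivity)
    (by linarith) key
  linarith

theorem kap_ch {M n : ℕ} (hM : 3 ≤ M) (h1 : 1 < n) (h2 : n + 1 < 2 ^ 49) (h : chU M n = true) :
    |Kp M - (n : ℝ) / 2 ^ 48| ≤ 1 / 2 ^ 48 := by
  unfold chU at h
  rw [Bool.and_eq_true, decide_eq_true_iff] at h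
  have a1 := kap_up hM (by positivity) (by exact_mod_cast h2) h.1
  have a2 := kap_lo hM (by omega) (by have : ((n : ℤ) + 1) < 2 ^ 49 := by exact_mod_cast h2
                                      omega) h.2
  push_cast at a1 a2
  rw [add_div] at a1
  rw [sub_div] at a2
  rw [abs_le]
  constructor <;> linarith

/-- `2^48 * Kp M`, rounded, up to `40` -/
def kby : ℕ → ℕ
  | 16 => 552133027919307
  | 17 => 553364660681455
  | 18 => 554397478687169
  | 19 => 555272049807147
  | 20 => 556019105332806
  | 21 => 556662267564994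
  | 22 => 557219934602287
  | 23 => 557706607176301
  | 24 => 558133838530186
  | 25 => 558510924893584
  | 26 => 558845414434423
  | 27 => 559143487227087
  | 28 => 559410242273590
  | 29 => 559649916674405
  | 30 => 559866054674044
  | 31 => 560061639263760
  | 32 => 560239195525714
  | 33 => 560400872444742
  | 34 => 560548508165298
  | 35 => 560683682413444
  | 36 => 560807758889306
  | 37 => 560921919764128
  | 38 => 561027193918507
  | 39 => 561124480186506
  | 40 => 561214566589963
  | M => kbx M

theorem kby_low {M : ℕ} (h : M ≤ 15) : kby M = kbx M := by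
  unfold kby
  split <;> first | omega | rfl

theorem chU_16 : chU 16 552133027919307 = true := by decide +kernel
theorem chU_17 : chU 17 553364660681455 = true := by decide +kernel
theorem chU_18 : chU 18 554397478687169 = true := by decide +kernel
theorem chU_19 : chU 19 555272049807147 = true := by decide +kernel
theorem chU_20 : chU 20 556019105332806 = true := by decide +kernel
theorem chU_21 : chU 21 556662267564994 = true := by decide +kernel
theorem chU_22 : chU 22 557219934602287 = true := by decide +kernel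
theorem chU_23 : chU 23 557706607176301 = true := by decide +kernel
theorem chU_24 : chU 24 558133838530186 = true := by decide +kernel
theorem chU_25 : chU 25 558510924893584 = true := by decide +kernel
theorem chU_26 : chU 26 558845414434423 = true := by decide +kernel
theorem chU_27 : chU 27 559143487227087 = true := by decide +kernel
theorem chU_28 : chU 28 559410242273590 = true := by decide +kernel
theorem chU_29 : chU 29 559649916674405 = true := by decide +kernel
theorem chU_30 : chU 30 559866054674044 = true := by decide +kernel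
theorem chU_31 : chU 31 560061639263760 = true := by decide +kernel
theorem chU_32 : chU 32 560239195525714 = true := by decide +kernel
theorem chU_33 : chU 33 560400872444742 = true := by decide +kernel
theorem chU_34 : chU 34 560548508165298 = true := by decide +kernel
theorem chU_35 : chU 35 560683682413444 = true := by decide +kernel
theorem chU_36 : chU 36 560807758889306 = true := by decide +kernel
theorem chU_37 : chU 37 560921919764128 = true := by decide +kernel
theorem chU_38 : chU 38 561027193918507 = true := by decide +kernel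
theorem chU_39 : chU 39 561124480186506 = true := by decide +kernel
theorem chU_40 : chU 40 561214566589963 = true := by decide +kernel

/-- all weights up to order `40` -/
theorem kapy (M : ℕ) (h3 : 3 ≤ M) (h40 : M ≤ 40) :
    |Kp M - (kby M : ℝ) / 2 ^ 48| ≤ 1 / 2 ^ 48 := by
  rcases Nat.lt_or_ge M 16 with h | h
  · rw [kby_low (by omega)]
    exact kapx M h3 (by omega)
  · interval_cases M
    · exact kap_ch (by norm_num) (by norm_num [kby]) (by norm_num [kby]) chU_16
    · exact kap_ch (by norm_num) (by norm_num [kby]) (by norm_num [kby]) chU_17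
    · exact kap_ch (by norm_num) (by norm_num [kby]) (by norm_num [kby]) chU_18
    · exact kap_ch (by norm_num) (by norm_num [kby]) (by norm_num [kby]) chU_19
    · exact kap_ch (by norm_num) (by norm_num [kby]) (by norm_num [kby]) chU_20
    · exact kap_ch (by norm_num) (by norm_num [kby]) (by norm_num [kby]) chU_21
    · exact kap_ch (by norm_num) (by norm_num [kby]) (by norm_num [kby]) chU_22
    · exact kap_ch (by norm_num) (by norm_num [kby]) (by norm_num [kby]) chU_23
    · exact kap_ch (by norm_num) (by norm_num [kby]) (by norm_num [kby]) chU_24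
    · exact kap_ch (by norm_num) (by norm_num [kby]) (by norm_num [kby]) chU_25
    · exact kap_ch (by norm_num) (by norm_num [kby]) (by norm_num [kby]) chU_26
    · exact kap_ch (by norm_num) (by norm_num [kby]) (by norm_num [kby]) chU_27
    · exact kap_ch (by norm_num) (by norm_num [kby]) (by norm_num [kby]) chU_28
    · exact kap_ch (by norm_num) (by norm_num [kby]) (by norm_num [kby]) chU_29
    · exact kap_ch (by norm_num) (by norm_num [kby]) (by norm_num [kby]) chU_30
    · exact kap_ch (by norm_num) (by norm_num [kby]) (by norm_num [kby]) chU_31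
    · exact kap_ch (by norm_num) (by norm_num [kby]) (by norm_num [kby]) chU_32
    · exact kap_ch (by norm_num) (by norm_num [kby]) (by norm_num [kby]) chU_33
    · exact kap_ch (by norm_num) (by norm_num [kby]) (by norm_num [kby]) chU_34
    · exact kap_ch (by norm_num) (by norm_num [kby]) (by norm_num [kby]) chU_35
    · exact kap_ch (by norm_num) (by norm_num [kby]) (by norm_num [kby]) chU_36
    · exact kap_ch (by norm_num) (by norm_num [kby]) (by norm_num [kby]) chU_37
    · exact kap_ch (by norm_num) (by norm_num [kby]) (by norm_num [kby]) chU_38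
    · exact kap_ch (by norm_num) (by norm_num [kby]) (by norm_num [kby]) chU_39
    · exact kap_ch (by norm_num) (by norm_num [kby]) (by norm_num [kby]) chU_40

end Pool.Agent.Helper81.MIT
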