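import Pool.Agent.Helper81.MIT.Tri

/-!
Gluing of cells: heights, boxes of the weights, quarters.
-/

set_option autoImplicit false
set_option exponentiation.threshold 4000
noncomputable section
namespace Pool.Agent.Helper81.MIT

open Pool.Agent.Helper6.MONO (kk mm Kp xA xA_gt xA_le2 xA_swap kb Kp_mono thr_Kp2)
open Pool.Agent.Helper6.MONO.QTR (TCell Far QX qx_of_cells)
open Pool.Agent.Helper21.XB (xBp thr_xBp)

theorem tc_sub {p q r : ℕ} {x0 a b a' b' : ℝ} (h : TCell p q r x0 a b) (ha : a ≤ a')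
    (hb : b' ≤ b) : TCell p q r x0 a' b' := by
  obtain ⟨C, h⟩ := h
  exact ⟨C, fun w hw h1 h2 => h w hw (ha.trans h1) (h2.trans hb)⟩

/-- cells on the line `X` for all orders of the labels; heights in units `2 ^ (-48)` -/
def Tc (X : ℕ → ℕ → ℕ → ℝ) (a b c : Lb) (y e : ℕ) : Prop :=
  ∀ p q r : ℕ, a.has p → b.has q → c.has r →
    TCell p q r (X p q r) ((y : ℝ) / 2 ^ 48) ((e : ℝ) / 2 ^ 48)

variable {X : ℕ → ℕ → ℕ → ℝ} {a b c : Lb} {y e y' e' : ℕ}

theorem Tc.join (h1 : Tc X a b c y e) (h2 : Tc X a b c y' e') (h : y' ≤ e) (h' : y' ≤ e') :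
    Tc X a b c y e' := by
  intro p q r hp hq hr
  have k1 := h1 p q r hp hq hr
  have k2 := h2 p q r hp hq hr
  have g : (y' : ℝ) / 2 ^ 48 ≤ (e : ℝ) / 2 ^ 48 := by
    have : (y' : ℝ) ≤ e := by exact_mod_cast h
    exact div_le_div_of_nonneg_right this (by positivity)
  rcases le_total ((e : ℝ) / 2 ^ 48) ((e' : ℝ) / 2 ^ 48) with g2 | g2
  · exact k1.join (tc_sub k2 g le_rfl)
  · exact tc_sub k1 le_rfl g2

theorem Tc.sub (h1 : Tc X a b c y e) (h : y ≤ y') (h' : e' ≤ e) : Tc X a b c y' e' := by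
  intro p q r hp hq hr
  have g1 : (y : ℝ) ≤ y' := by exact_mod_cast h
  have g2 : (e' : ℝ) ≤ e := by exact_mod_cast h'
  exact tc_sub (h1 p q r hp hq hr) (div_le_div_of_nonneg_right g1 (by positivity))
    (div_le_div_of_nonneg_right g2 (by positivity))

/-- `B` contains all orders of `A` -/
def Lb.le (A B : Lb) : Prop := ∀ M, A.has M → B.has M

theorem Lb.le_refl (A : Lb) : A.le A := fun _ h => h

theorem Lb.le_tl {l m l' m' : ℕ} (h1 : l' ≤ l) (h2 : m ≤ m') : (Lb.tl l m).le (Lb.tl l' m') := by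
  intro M hM
  have g1 : (l' : ℝ) ≤ l := by exact_mod_cast h1
  have g2 : (m : ℝ) ≤ m' := by exact_mod_cast h2
  exact ⟨hM.1, g1.trans hM.2.1, hM.2.2.trans g2⟩

theorem Tc.box {a' b' c' : Lb} (h1 : Tc X a b c y e) (ha : a'.le a) (hb : b'.le b)
    (hc : c'.le c) : Tc X a' b' c' y e := fun p q r hp hq hr =>
  h1 p q r (ha p hp) (hb q hq) (hc r hr)

/-- two boxes of the third label -/
theorem Tc.join3 {l m m' n : ℕ} (h1 : Tc X a b (Lb.tl l m) y e)
    (h2 : Tc X a b (Lb.tl m' n) y e) (hm : ∀ M : ℕ, 10 ≤ M → 2 ^ 48 * Kp M ≤ (m : ℝ) ∨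
      (m' : ℝ) ≤ 2 ^ 48 * Kp M) : Tc X a b (Lb.tl l n) y e := by
  intro p q r hp hq hr
  rcases hm r hr.1 with h | h
  · exact h1 p q r hp hq ⟨hr.1, hr.2.1, h⟩
  · exact h2 p q r hp hq ⟨hr.1, h, hr.2.2⟩

/-- two boxes of the second label -/
theorem Tc.join2 {l m m' n : ℕ} (h1 : Tc X a (Lb.tl l m) c y e)
    (h2 : Tc X a (Lb.tl m' n) c y e) (hm : ∀ M : ℕ, 10 ≤ M → 2 ^ 48 * Kp M ≤ (m : ℝ) ∨
      (m' : ℝ) ≤ 2 ^ 48 * Kp M) : Tc X a (Lb.tl l n) c y e := by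
  intro p q r hp hq hr
  rcases hm q hq.1 with h | h
  · exact h1 p q r hp ⟨hq.1, hq.2.1, h⟩ hr
  · exact h2 p q r hp ⟨hq.1, h, hq.2.2⟩ hr

/-- touching boxes -/
theorem touch (m : ℕ) : ∀ M : ℕ, 10 ≤ M → 2 ^ 48 * Kp M ≤ (m : ℝ) ∨ (m : ℝ) ≤ 2 ^ 48 * Kp M :=
  fun M _ => le_total _ _

/-- the gap between the orders `14` and `15` -/
theorem gap15 {m m' : ℕ} (h1 : 548835622751896 ≤ m) (h2 : m' ≤ 550648146272263) : ∀ M : ℕ,
    10 ≤ M → 2 ^ 48 * Kp M ≤ (m : ℝ) ∨ (m' : ℝ) ≤ 2 ^ 48 * Kp M := by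
  intro M hM
  rcases Nat.lt_or_ge M 15 with h | h
  · left
    have h3 := (Pool.Agent.Helper6.MONO.kap_1014 M hM (by omega)).2
    have : (548835622751896 : ℝ) ≤ m := by exact_mod_cast h1
    rw [le_div_iff₀ (by positivity)] at h3
    linarith
  · right
    have h3 := (Pool.Agent.Helper6.MONO.kap_15t M h).1
    have : (m' : ℝ) ≤ 550648146272263 := by exact_mod_cast h2
    rw [div_le_iff₀ (by positivity)] at h3
    linarith

/-- a gap between two consecutive orders `N`, `N + 1` -/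
theorem gapN {N m m' : ℕ} (h10 : 10 ≤ N) (h15 : N + 1 ≤ 15) (h1 : kbx N + 1 ≤ m)
    (h2 : m' + 1 ≤ kbx (N + 1)) : ∀ M : ℕ,
    10 ≤ M → 2 ^ 48 * Kp M ≤ (m : ℝ) ∨ (m' : ℝ) ≤ 2 ^ 48 * Kp M := by
  intro M hM
  rcases Nat.lt_or_ge N M with h | h
  · exact Or.inr (lo_of (by omega) h15 h2 h)
  · left
    have h3 := kapx N (by omega) (by omega)
    rw [abs_le] at h3
    have h4 := Kp_mono (M := M) (N := N) (by omega) h
    have h5 : (kbx N : ℝ) + 1 ≤ m := by exact_mod_cast h1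
    have h6 : Kp M ≤ ((kbx N : ℝ) + 1) / 2 ^ 48 := by
      rw [add_div]
      linarith [h3.2]
    rw [le_div_iff₀ (by positivity)] at h6
    linarith

theorem tl_all {l n N M : ℕ} (h10 : 10 ≤ N) (h15 : N ≤ 15) (hl : l + 1 ≤ kbx N)
    (hn : 562949953421312 ≤ n) (hM : N ≤ M) : (Lb.tl l n).has M := by
  refine ⟨by omega, lo_of h10 h15 hl hM, ?_⟩
  have : (562949953421312 : ℝ) ≤ n := by exact_mod_cast hn
  exact (Kp_hi (by omega)).trans this

theorem ex_has {N : ℕ} (h3 : 3 ≤ N) (h9 : N ≤ 9) : (Lb.ex N).has N := ⟨rfl, h3, h9⟩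

theorem has_le {N l h M M' : ℕ} (h1 : (Lb.ex N).has M) (h2 : (Lb.tl l h).has M') : M ≤ M' := by
  obtain ⟨e, -, h9⟩ := h1
  have := h2.1
  omega

/-- the orders of a box to the right of the weight of `N` -/
theorem gt_of_box {N l h M : ℕ} (h3 : 3 ≤ N) (h15 : N ≤ 15) (hl : kbx N + 1 < l)
    (hM : (Lb.tl l h).has M) : N < M := by
  by_contra hc
  push Not at hc
  have h1 := kapx N h3 h15
  rw [abs_le] at h1
  have h2 := Kp_mono (M := M) (N := N) (by have := hM.1; omega) hc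
  have h4 : (kbx N : ℝ) + 1 < l := by exact_mod_cast hl
  have h5 : Kp M ≤ ((kbx N : ℝ) + 1) / 2 ^ 48 := by
    rw [add_div]
    linarith [h1.2]
  rw [le_div_iff₀ (by positivity)] at h5
  linarith [hM.2.1]

/-- ONE TAIL: the quarters -/
theorem qx_of_T {m n l h e : ℕ} (hm : 3 ≤ m) (hm9 : m ≤ 9) (hn : 3 ≤ n) (hn9 : n ≤ 9)
    (hc : Tc xA (Lb.ex m) (Lb.ex n) (Lb.tl l h) 0 e) (he : 2251799813685248 ≤ e)
    (hl : l ≤ 535397221549391) (hh : 562949953421312 ≤ h)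
    (hF : ∀ r, 10 ≤ r → Far m n r (xA m n r) 8) : ∀ r, 10 ≤ r → QX m n r (xA m n r) := by
  intro r hr
  refine qx_T hm hn (by omega) (by norm_num) (fun r hr => ?_) hF r hr
  have h1 := hc m n r (ex_has hm hm9) (ex_has hn hn9) (tl_all le_rfl (by norm_num)
    (by show l + 1 ≤ 535397221549392; omega) hh hr)
  refine tc_sub h1 (by norm_num) ?_
  rw [le_div_iff₀ (by positivity)]
  have : (2251799813685248 : ℝ) ≤ e := by exact_mod_cast he
  linarith

/-- the constant line -/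
def Xc (N : ℕ) : ℕ → ℕ → ℕ → ℝ := fun _ _ _ => -(N : ℝ) / 2 ^ 48

/-- TWO TAILS, exact first order: the quarters on a constant line -/
theorem qx_of_TT {m N l h l' h' e : ℕ} (hm : 3 ≤ m) (hm9 : m ≤ 9)
    (hc : Tc (Xc N) (Lb.ex m) (Lb.tl l h) (Lb.tl l' h') 0 e) (he : 2251799813685248 ≤ e)
    (hl : l ≤ 535397221549391) (hh : 562949953421312 ≤ h) (hl' : l' ≤ 535397221549391)
    (hh' : 562949953421312 ≤ h') (hN : N < 2 ^ 49)
    (hF : ∀ q r, 10 ≤ q → 10 ≤ r → Far m q r (-(N : ℝ) / 2 ^ 48) 8) :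
    ∀ q r, 10 ≤ q → 10 ≤ r → QX m q r (-(N : ℝ) / 2 ^ 48) := by
  have hN' : (N : ℝ) < 2 ^ 49 := by exact_mod_cast hN
  refine qx_TT hm ?_ ?_ (by norm_num : (0 : ℝ) ≤ 8) (fun q r hq hr => ?_) hF
  · rw [lt_div_iff₀ (by positivity)]
    linarith
  · rw [div_le_iff₀ (by positivity)]
    have : (0 : ℝ) ≤ N := by positivity
    linarith
  · have h1 := hc m q r (ex_has hm hm9) (tl_all le_rfl (by norm_num)
      (by show l + 1 ≤ 535397221549392; omega) hh hq) (tl_all le_rfl (by norm_num)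
      (by show l' + 1 ≤ 535397221549392; omega) hh' hr)
    refine tc_sub h1 (by norm_num) ?_
    rw [le_div_iff₀ (by positivity)]
    have : (2251799813685248 : ℝ) ≤ e := by exact_mod_cast he
    linarith

/-- TWO TAILS, thin first label of order `10 ≤ m ≤ 15`, the other orders `≥ m` -/
theorem qx_of_PP {m N u v l h l' h' e : ℕ} (hm : 10 ≤ m) (hm15 : m ≤ 15)
    (hc : Tc (Xc N) (Lb.tl u v) (Lb.tl l h) (Lb.tl l' h') 0 e) (he : 2251799813685248 ≤ e)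
    (hu : u + 1 ≤ kbx m) (hv : kbx m + 1 ≤ v) (hl : l + 1 ≤ kbx m) (hh : 562949953421312 ≤ h)
    (hl' : l' + 1 ≤ kbx m) (hh' : 562949953421312 ≤ h') (hN : N < 2 ^ 49)
    (hF : ∀ q r, m ≤ q → m ≤ r → Far m q r (-(N : ℝ) / 2 ^ 48) 8) :
    ∀ q r, m ≤ q → m ≤ r → QX m q r (-(N : ℝ) / 2 ^ 48) := by
  have hN' : (N : ℝ) < 2 ^ 49 := by exact_mod_cast hN
  intro q r hq hr
  refine qx_of_cells (by omega) (by omega) (by omega) ?_ ?_ (by norm_num : (0 : ℝ) ≤ 8) ?_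
    (hF q r hq hr)
  · rw [lt_div_iff₀ (by positivity)]
    linarith
  · rw [div_le_iff₀ (by positivity)]
    have : (0 : ℝ) ≤ N := by positivity
    linarith
  · have h1 := hc m q r (has_thin hm hm15 hu hv) (tl_all hm hm15 hl hh hq)
      (tl_all hm hm15 hl' hh' hr)
    refine tc_sub h1 (by norm_num) ?_
    rw [le_div_iff₀ (by positivity)]
    have : (2251799813685248 : ℝ) ≤ e := by exact_mod_cast he
    linarith

end Pool.Agent.Helper81.MIT
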