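import Pool.Agent.Helper81.MIT.K30
import Pool.Agent.Helper81.MIT.Glu

/-!
Weights up to order `48`; pieces of the orders, covers of all triples of orders by boxes.
-/

set_option autoImplicit false
set_option exponentiation.threshold 4000
noncomputable section
namespace Pool.Agent.Helper81.MIT

open Pool.Agent.Helper6.MONO (Kp kap_mono)
open Pool.Agent.Helper6.MONO.QTR (TCell)

/-- `2^48 * Kp M`, rounded, up to `48` -/
def kbz : ℕ → ℕ
  | 41 => 561298146334370
  | 42 => 561375831174701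
  | 43 => 561448162633967
  | 44 => 561515621459831
  | 45 => 561578635628543
  | 46 => 561637587145712
  | 47 => 561692817846232
  | 48 => 561744634358212
  | M => kby M

theorem kbz_low {M : ℕ} (h : M ≤ 40) : kbz M = kby M := by
  unfold kbz
  split <;> first | omega | rfl

theorem chU_41 : chU 41 561298146334370 = true := by decide +kernel
theorem chU_42 : chU 42 561375831174701 = true := by decide +kernel
theorem chU_43 : chU 43 561448162633967 = true := by decide +kernel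
theorem chU_44 : chU 44 561515621459831 = true := by decide +kernel
theorem chU_45 : chU 45 561578635628543 = true := by decide +kernel
theorem chU_46 : chU 46 561637587145712 = true := by decide +kernel
theorem chU_47 : chU 47 561692817846232 = true := by decide +kernel
theorem chU_48 : chU 48 561744634358212 = true := by decide +kernel

/-- all weights up to order `48` -/
theorem kapz (M : ℕ) (h3 : 3 ≤ M) (h48 : M ≤ 48) :
    |Kp M - (kbz M : ℝ) / 2 ^ 48| ≤ 1 / 2 ^ 48 := by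
  rcases Nat.lt_or_ge M 41 with h | h
  · rw [kbz_low (by omega)]
    exact kapy M h3 (by omega)
  · interval_cases M
    · exact kap_ch (by norm_num) (by norm_num [kbz]) (by norm_num [kbz]) chU_41
    · exact kap_ch (by norm_num) (by norm_num [kbz]) (by norm_num [kbz]) chU_42
    · exact kap_ch (by norm_num) (by norm_num [kbz]) (by norm_num [kbz]) chU_43
    · exact kap_ch (by norm_num) (by norm_num [kbz]) (by norm_num [kbz]) chU_44
    · exact kap_ch (by norm_num) (by norm_num [kbz]) (by norm_num [kbz]) chU_45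
    · exact kap_ch (by norm_num) (by norm_num [kbz]) (by norm_num [kbz]) chU_46
    · exact kap_ch (by norm_num) (by norm_num [kbz]) (by norm_num [kbz]) chU_47
    · exact kap_ch (by norm_num) (by norm_num [kbz]) (by norm_num [kbz]) chU_48

/-- lower bound of the weights from order `N` on -/
def oLo (N : ℕ) : ℕ := Nat.pred (kbz N)
/-- upper bound of the weights up to order `N`; `0`: no bound -/
def oHi (N : ℕ) : ℕ := bif Nat.beq N 0 then 562949953421312 else Nat.succ (kbz N)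

theorem oLo_ok {N M : ℕ} (h3 : 3 ≤ N) (h48 : N ≤ 48) (hM : N ≤ M) :
    (oLo N : ℝ) ≤ 2 ^ 48 * Kp M := by
  have h := (abs_le.1 (kapz N h3 h48)).1
  have h1 : (kbz N : ℝ) - 1 ≤ 2 ^ 48 * Kp N := by
    have e : (2 : ℝ) ^ 48 * ((kbz N : ℝ) / 2 ^ 48) = kbz N := by field_simp
    have e2 : (2 : ℝ) ^ 48 * (1 / 2 ^ 48) = 1 := by norm_num
    nlinarith
  have h2 : (oLo N : ℝ) ≤ (kbz N : ℝ) - 1 ∨ kbz N = 0 := by
    rcases Nat.eq_zero_or_pos (kbz N) with h | h
    · exact Or.inr h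
    · left
      have : oLo N + 1 = kbz N := Nat.succ_pred_eq_of_pos h
      have : (oLo N : ℝ) + 1 = kbz N := by exact_mod_cast this
      linarith
  have h4 := kap_mono (M := N) (N := M) (by omega) hM
  have h5 : (oLo N : ℝ) ≤ 2 ^ 48 * Kp N := by
    rcases h2 with h2 | h2
    · linarith
    · have e : oLo N = 0 := by unfold oLo; rw [h2]; rfl
      rw [e]
      have := (Pool.Agent.Helper6.MONO.thr_Kp2 N h3).1
      push_cast
      positivity
  nlinarith

theorem oHi_ok {N M : ℕ} (h3 : 3 ≤ M) (h : N = 0 ∨ (N ≤ 48 ∧ M ≤ N)) :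
    2 ^ 48 * Kp M ≤ (oHi N : ℝ) := by
  rcases h with h | ⟨h48, hM⟩
  · subst h
    have e : (oHi 0 : ℝ) = 2 ^ 49 := by unfold oHi; norm_num
    rw [e]
    nlinarith [(Pool.Agent.Helper6.MONO.thr_Kp2 M h3).2]
  · have hN : Nat.beq N 0 = false := by
      rcases hN : Nat.beq N 0 with _ | _
      · rfl
      · have := Nat.eq_of_beq_eq_true hN
        omega
    have h := (abs_le.1 (kapz N (h3.trans hM) h48)).2
    have h1 : 2 ^ 48 * Kp N ≤ (kbz N : ℝ) + 1 := by
      have e : (2 : ℝ) ^ 48 * ((kbz N : ℝ) / 2 ^ 48) = kbz N := by field_simp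
      have e2 : (2 : ℝ) ^ 48 * (1 / 2 ^ 48) = 1 := by norm_num
      nlinarith
    have h4 := kap_mono (M := M) (N := N) (by omega) hM
    unfold oHi
    rw [hN, cond_false]
    push_cast
    nlinarith

/-- a piece of the orders: from `N` to `N'` (`0`: no end) -/
def Pce := ℕ × ℕ
/-- the order is in the piece -/
def inP (P : ℕ × ℕ) (M : ℕ) : Prop := P.1 ≤ M ∧ (P.2 = 0 ∨ M ≤ P.2)

/-- the box contains the piece -/
def inB (P b : ℕ × ℕ) : Bool := Nat.ble 10 P.1 && Nat.ble P.1 48 && Nat.ble P.2 48 &&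
  Nat.ble b.1 (oLo P.1) && Nat.ble (oHi P.2) b.2

theorem inB_ok {P b : ℕ × ℕ} (h : inB P b = true) {M : ℕ} (hM : inP P M) :
    (Lb.tl b.1 b.2).has M := by
  unfold inB at h
  simp only [Bool.and_eq_true] at h
  obtain ⟨⟨⟨⟨h1, h2⟩, h3⟩, h4⟩, h5⟩ := h
  have h1 := Nat.le_of_ble_eq_true h1
  have h2 := Nat.le_of_ble_eq_true h2
  have h3 := Nat.le_of_ble_eq_true h3
  have h4 : (b.1 : ℝ) ≤ oLo P.1 := by exact_mod_cast Nat.le_of_ble_eq_true h4
  have h5 : (oHi P.2 : ℝ) ≤ b.2 := by exact_mod_cast Nat.le_of_ble_eq_true h5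
  refine ⟨h1.trans hM.1, h4.trans (oLo_ok (by omega) h2 hM.1), le_trans ?_ h5⟩
  exact oHi_ok (by have := hM.1; omega) (hM.2.imp id (fun h => ⟨h3, h⟩))

/-- the pieces follow one another from `N` on to `E` (`0`: all orders) -/
def chP (N E : ℕ) : List (ℕ × ℕ) → Bool
  | [] => false
  | P :: l => Nat.beq P.1 N && ((Nat.beq P.2 0 || (Nat.beq P.2 E && Nat.ble N E)) ||
      (Nat.ble N P.2 && chP (Nat.succ P.2) E l))

theorem chP_ok {E : ℕ} (l : List (ℕ × ℕ)) : ∀ {N : ℕ}, chP N E l = true → ∀ M, N ≤ M →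
    (E = 0 ∨ M ≤ E) → ∃ P ∈ l, inP P M := by
  induction l with
  | nil => intro N h; exact absurd h (by simp [chP])
  | cons P l ih =>
    intro N h M hM hE
    unfold chP at h
    simp only [Bool.and_eq_true, Bool.or_eq_true] at h
    obtain ⟨h1, h2⟩ := h
    have e1 := Nat.eq_of_beq_eq_true h1
    rcases h2 with (h2 | ⟨h2, h2'⟩) | ⟨h2, h3⟩
    · exact ⟨P, List.mem_cons_self, by rw [← e1] at hM; exact hM, Or.inl (Nat.eq_of_beq_eq_true h2)⟩
    · have e2 := Nat.eq_of_beq_eq_true h2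
      refine ⟨P, List.mem_cons_self, by rw [← e1] at hM; exact hM, ?_⟩
      rcases hE with h | h
      · exact Or.inl (e2.trans h)
      · exact Or.inr (by omega)
    · rcases Nat.lt_or_ge P.2 M with h | h
      · obtain ⟨Q, hQ, hQ'⟩ := ih h3 M h hE
        exact ⟨Q, List.mem_cons_of_mem _ hQ, hQ'⟩
      · exact ⟨P, List.mem_cons_self, by rw [← e1] at hM; exact hM, Or.inr h⟩

/-- a box of three labels -/
abbrev B3 := (ℕ × ℕ) × (ℕ × ℕ) × (ℕ × ℕ)
def B3.has (b : B3) (p q r : ℕ) : Prop :=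
  (Lb.tl b.1.1 b.1.2).has p ∧ (Lb.tl b.2.1.1 b.2.1.2).has q ∧ (Lb.tl b.2.2.1 b.2.2.2).has r

/-- `P` lies after `Q` -/
def aft (P Q : ℕ × ℕ) : Bool := (!(Nat.beq Q.2 0)) && Nat.ble (Nat.succ Q.2) P.1

theorem aft_ok {P Q : ℕ × ℕ} (h : aft P Q = true) {M N : ℕ} (hM : inP P M) (hN : inP Q N)
    (hMN : M ≤ N) : False := by
  unfold aft at h
  rw [Bool.and_eq_true, Bool.not_eq_true'] at h
  have h1 := Nat.le_of_ble_eq_true h.2
  have h2 := hN.2
  have h3 := hM.1
  rcases h2 with h2 | h2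
  · rw [h2] at h
    exact absurd h.1 (by decide)
  · omega

/-- every triple of pieces with the last piece not before the others is in a box of the list -/
def cov3 (P Q R : List (ℕ × ℕ)) (l : List B3) : Bool :=
  R.all fun k => P.all fun i => Q.all fun j => aft i k || aft j k ||
    l.any fun b => inB i b.1 && (inB j b.2.1 && inB k b.2.2)

theorem cov3_ok {P Q R : List (ℕ × ℕ)} {l : List B3} (h : cov3 P Q R l = true) {p q r : ℕ}
    {i j k : ℕ × ℕ} (hi : i ∈ P) (hj : j ∈ Q) (hk : k ∈ R) (hp : inP i p) (hq : inP j q)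
    (hr : inP k r) (hpr : p ≤ r) (hqr : q ≤ r) : ∃ b ∈ l, b.has p q r := by
  unfold cov3 at h
  rw [List.all_eq_true] at h
  have h := h k hk
  rw [List.all_eq_true] at h
  have h := h i hi
  rw [List.all_eq_true] at h
  have h := h j hj
  simp only [Bool.or_eq_true] at h
  rcases h with (h | h) | h
  · exact absurd hpr (fun h' => aft_ok h hp hr h')
  · exact absurd hqr (fun h' => aft_ok h hq hr h')
  · rw [List.any_eq_true] at h
    obtain ⟨b, hb, h⟩ := h
    simp only [Bool.and_eq_true] at h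
    exact ⟨b, hb, inB_ok h.1 hp, inB_ok h.2.1 hq, inB_ok h.2.2 hr⟩

/-- THREE TAILS: all orders from `N` on, the largest in the last place -/
theorem boxes_tail {N : ℕ} {P : List (ℕ × ℕ)} {l : List B3} (hP : chP N 0 P = true)
    (h : cov3 P P P l = true) {p q r : ℕ} (hp : N ≤ p) (hq : N ≤ q) (hpr : p ≤ r) (hqr : q ≤ r) :
    ∃ b ∈ l, b.has p q r := by
  obtain ⟨i, hi, hi'⟩ := chP_ok P hP p hp (Or.inl rfl)
  obtain ⟨j, hj, hj'⟩ := chP_ok P hP q hq (Or.inl rfl)
  obtain ⟨k, hk, hk'⟩ := chP_ok P hP r (hp.trans hpr) (Or.inl rfl)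
  exact cov3_ok h hi hj hk hi' hj' hk' hpr hqr

/-- the cells of all orders from `N` on from the cells of the boxes -/
theorem tc_tail {X : ℕ → ℕ → ℕ → ℝ} {N y e : ℕ} {P : List (ℕ × ℕ)} {l : List B3}
    (hP : chP N 0 P = true) (h : cov3 P P P l = true)
    (hl : ∀ b ∈ l, Tc X (Lb.tl b.1.1 b.1.2) (Lb.tl b.2.1.1 b.2.1.2) (Lb.tl b.2.2.1 b.2.2.2) y e)
    {p q r : ℕ} (hp : N ≤ p) (hq : N ≤ q) (hpr : p ≤ r) (hqr : q ≤ r) :
    TCell p q r (X p q r) ((y : ℝ) / 2 ^ 48) ((e : ℝ) / 2 ^ 48) := by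
  obtain ⟨b, hb, h1, h2, h3⟩ := boxes_tail hP h hp hq hpr hqr
  exact hl b hb p q r h1 h2 h3

/-! ### two tails: a rectangle of the orders `q`, `r` -/

/-- a box of two labels -/
abbrev B2 := (ℕ × ℕ) × (ℕ × ℕ)
def B2.has (b : B2) (q r : ℕ) : Prop :=
  (Lb.tl b.1.1 b.1.2).has q ∧ (Lb.tl b.2.1 b.2.2).has r

/-- every pair of pieces with `q ≤ r` possible is in a box of the list -/
def cov2 (Q R : List (ℕ × ℕ)) (l : List B2) : Bool :=
  R.all fun k => Q.all fun j => aft j k || l.any fun b => inB j b.1 && inB k b.2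

theorem cov2_ok {q0 q1 r0 r1 : ℕ} {Q R : List (ℕ × ℕ)} {l : List B2} (hQ : chP q0 q1 Q = true)
    (hR : chP r0 r1 R = true) (h : cov2 Q R l = true) {q r : ℕ} (hq : q0 ≤ q)
    (hq' : q1 = 0 ∨ q ≤ q1) (hr : r0 ≤ r) (hr' : r1 = 0 ∨ r ≤ r1) (hqr : q ≤ r) :
    ∃ b ∈ l, b.has q r := by
  obtain ⟨j, hj, hj'⟩ := chP_ok Q hQ q hq hq'
  obtain ⟨k, hk, hk'⟩ := chP_ok R hR r hr hr'
  unfold cov2 at h
  rw [List.all_eq_true] at h
  have h := h k hk
  rw [List.all_eq_true] at h
  have h := h j hj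
  rw [Bool.or_eq_true] at h
  rcases h with h | h
  · exact absurd hqr (fun h' => aft_ok h hj' hk' h')
  · rw [List.any_eq_true] at h
    obtain ⟨b, hb, h⟩ := h
    rw [Bool.and_eq_true] at h
    exact ⟨b, hb, inB_ok h.1 hj', inB_ok h.2 hk'⟩

end Pool.Agent.Helper81.MIT
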