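import Pool.Agent.Helper81.MIT.Crt
import Pool.Agent.Helper21.CT.KTI

/-!
Row MIT: static and slit tests at the vertices of the trees give the conditions at every point.
-/

set_option autoImplicit false
noncomputable section
namespace Pool.Agent.Helper81.MIT

open Pool.Agent.Helper86.CX (Hm ev andB kf u32 v32 sl2 stT st1 M2)
open Pool.Agent.Helper86.CT (Pr Vx nxW W0 W1 W2 W3 W4 LT2 slV ssV)
open Pool.Agent.Helper90.KMT (PT KTab mf0 nmf sgv)
open Pool.Agent.Helper21.KTE (MN)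
open Pool.Agent.Helper17.PAK (kz sc nrm ev_lin slR sl2_ev st1_ev stT_sound)
open Pool.Agent.Helper6.MTC (NegD)
open Pool.Agent.Helper6.MONO (mm kk Kp SbP DTH)
open Pool.Agent.Helper6.PRG (tN)
open Pool.Agent.Helper6.KPF (tZ tN_rep tZ_bd sE sOK sOK_iff slR_le)
open Complex ComplexConjugate

/-! ### trees of vertices -/

/-- evaluation of a function of the leaves of two trees -/
def mg0 (g : ℕ → ℕ → ℝ) (x y : ℕ) (_ : ℕ → ℝ) : ℝ := g x y
def nmg {β : Type} (D : ℕ) (mg : (ℕ → ℕ → ℝ) → β → β → (ℕ → ℝ) → ℝ) (g : ℕ → ℕ → ℝ)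
    (T S : Pr β) (t : ℕ → ℝ) : ℝ := (1 - t D) * mg g T.a S.a t + t D * mg g T.b S.b t

/-- a property of all pairs of leaves -/
def al0 (P : ℕ → ℕ → Prop) (x y : ℕ) : Prop := P x y
def nal {β : Type} (al : (ℕ → ℕ → Prop) → β → β → Prop) (P : ℕ → ℕ → Prop) (T S : Pr β) : Prop :=
  al P T.a S.a ∧ al P T.b S.b

/-- the laws -/
structure WOK (D : ℕ) {β : Type} (mf : (ℕ → ℝ) → β → (ℕ → ℝ) → ℝ)
    (mg : (ℕ → ℕ → ℝ) → β → β → (ℕ → ℝ) → ℝ) (al : (ℕ → ℕ → Prop) → β → β → Prop)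
    (W : Vx β) : Prop where
  add : ∀ g h T t, mf (fun x => g x + h x) T t = mf g T t + mf h T t
  smul : ∀ (c : ℝ) g T t, mf (fun x => c * g x) T t = c * mf g T t
  one : ∀ T t, mf (fun _ => 1) T t = 1
  fst : ∀ g T S t, mg (fun x _ => g x) T S t = mf g T t
  snd : ∀ g T S t, mg (fun _ y => g y) T S t = mf g S t
  mono : ∀ (P : ℕ → ℕ → Prop) g h T S t, PT D t → al P T S → (∀ x y, P x y → g x y ≤ h x y) →
    mg g T S t ≤ mg h T S t
  tst : ∀ f T S, W.al f T S = true → al (fun x y => f x y = true) T S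
  and : ∀ P Q T S, al P T S → al Q T S → al (fun x y => P x y ∧ Q x y) T S

theorem WOK0 : WOK 0 mf0 mg0 al0 W0 :=
  ⟨fun _ _ _ _ => rfl, fun _ _ _ _ => rfl, fun _ _ => rfl, fun _ _ _ _ => rfl,
    fun _ _ _ _ => rfl, fun _ _ _ _ _ _ _ h1 h2 => h2 _ _ h1, fun _ _ _ h => h,
    fun _ _ _ _ h1 h2 => ⟨h1, h2⟩⟩

theorem andB_tt' {x y : Bool} (h : andB x y = true) : x = true ∧ y = true := by
  cases x <;> cases y <;> first | exact ⟨rfl, rfl⟩ | exact absurd h Bool.false_ne_true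

theorem WOK.nx {D : ℕ} {β : Type} {mf : (ℕ → ℝ) → β → (ℕ → ℝ) → ℝ}
    {mg : (ℕ → ℕ → ℝ) → β → β → (ℕ → ℝ) → ℝ} {al : (ℕ → ℕ → Prop) → β → β → Prop}
    {W : Vx β} (h : WOK D mf mg al W) :
    WOK (D + 1) (nmf D mf) (nmg D mg) (nal al) (nxW W) := by
  refine ⟨?_, ?_, ?_, ?_, ?_, ?_, ?_, ?_⟩
  · intro g k T t
    show (1 - t D) * mf (fun x => g x + k x) T.a t + t D * mf (fun x => g x + k x) T.b t =
      ((1 - t D) * mf g T.a t + t D * mf g T.b t) + ((1 - t D) * mf k T.a t + t D * mf k T.b t)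
    rw [h.add, h.add]
    ring
  · intro c g T t
    show (1 - t D) * mf (fun x => c * g x) T.a t + t D * mf (fun x => c * g x) T.b t =
      c * ((1 - t D) * mf g T.a t + t D * mf g T.b t)
    rw [h.smul, h.smul]
    ring
  · intro T t
    show (1 - t D) * mf (fun _ => 1) T.a t + t D * mf (fun _ => 1) T.b t = 1
    rw [h.one, h.one]
    ring
  · intro g T S t
    show (1 - t D) * mg (fun x _ => g x) T.a S.a t + t D * mg (fun x _ => g x) T.b S.b t = _
    rw [h.fst, h.fst]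
    rfl
  · intro g T S t
    show (1 - t D) * mg (fun _ y => g y) T.a S.a t + t D * mg (fun _ y => g y) T.b S.b t = _
    rw [h.snd, h.snd]
    rfl
  · intro P g k T S t ht hP hgk
    have h0 := ht.h0 D (by omega)
    have h1 := ht.h1 D (by omega)
    have ht' : PT D t := ⟨fun j hj => ht.h0 j (by omega), fun j hj => ht.h1 j (by omega), by
      have := ht.hD
      omega⟩
    have a := h.mono P g k T.a S.a t ht' hP.1 hgk
    have b := h.mono P g k T.b S.b t ht' hP.2 hgk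
    exact add_le_add (mul_le_mul_of_nonneg_left a (by linarith)) (mul_le_mul_of_nonneg_left b h0)
  · intro f T S hf
    obtain ⟨a, b⟩ := andB_tt' hf
    exact ⟨h.tst f _ _ a, h.tst f _ _ b⟩
  · intro P Q T S a b
    exact ⟨h.and P Q _ _ a.1 b.1, h.and P Q _ _ a.2 b.2⟩

theorem WOK1 : WOK 1 (nmf 0 mf0) (nmg 0 mg0) (nal al0) W1 := WOK0.nx
theorem WOK2 : WOK 2 (nmf 1 (nmf 0 mf0)) (nmg 1 (nmg 0 mg0)) (nal (nal al0)) W2 := WOK1.nx
theorem WOK3 : WOK 3 (nmf 2 (nmf 1 (nmf 0 mf0))) (nmg 2 (nmg 1 (nmg 0 mg0)))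
    (nal (nal (nal al0))) W3 := WOK2.nx
theorem WOK4 : WOK 4 (nmf 3 (nmf 2 (nmf 1 (nmf 0 mf0)))) (nmg 3 (nmg 2 (nmg 1 (nmg 0 mg0))))
    (nal (nal (nal (nal al0)))) W4 := WOK3.nx

section

variable {D : ℕ} {β : Type} {mf : (ℕ → ℝ) → β → (ℕ → ℝ) → ℝ}
  {mg : (ℕ → ℕ → ℝ) → β → β → (ℕ → ℝ) → ℝ} {al : (ℕ → ℕ → Prop) → β → β → Prop} {W : Vx β}
  {t : ℕ → ℝ}

/-- the value of the form at a vertex -/
def evL (k : ℕ) (v : Fin 3 → ℂ) (x : ℕ) : ℝ := ev (sc (2 ^ 20) (kz (kf x k))) v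

theorem evL_eq (k : ℕ) (v : Fin 3 → ℂ) (x : ℕ) : evL k v x =
    (normSq (v 0) / 1048576) * sgv k 0 x + ((normSq (v 1) / 1048576) * sgv k 32 x +
    ((normSq (v 2) / 1048576) * sgv k 64 x +
    ((2 * (conj (v 0) * v 1).re / 1048576) * sgv k 96 x +
    ((-(2 * (conj (v 0) * v 1).im) / 1048576) * sgv k 128 x +
    ((2 * (conj (v 0) * v 2).re / 1048576) * sgv k 160 x +
    ((-(2 * (conj (v 0) * v 2).im) / 1048576) * sgv k 192 x +
    ((2 * (conj (v 1) * v 2).re / 1048576) * sgv k 224 x +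
    (-(2 * (conj (v 1) * v 2).im) / 1048576) * sgv k 256 x))))))) := by
  unfold evL
  rw [ev_lin]
  simp only [sc, kz, sgv]
  push_cast
  norm_num
  ring

/-- the form at a point is the multi-affine combination of the vertices -/
theorem ev_KTab (h : WOK D mf mg al W) (T : β) (k : ℕ) (v : Fin 3 → ℂ) :
    ev (KTab mf T k t) v = mf (evL k v) T t := by
  have e : evL k v = fun x => (normSq (v 0) / 1048576) * sgv k 0 x +
    ((normSq (v 1) / 1048576) * sgv k 32 x +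
    ((normSq (v 2) / 1048576) * sgv k 64 x +
    ((2 * (conj (v 0) * v 1).re / 1048576) * sgv k 96 x +
    ((-(2 * (conj (v 0) * v 1).im) / 1048576) * sgv k 128 x +
    ((2 * (conj (v 0) * v 2).re / 1048576) * sgv k 160 x +
    ((-(2 * (conj (v 0) * v 2).im) / 1048576) * sgv k 192 x +
    ((2 * (conj (v 1) * v 2).re / 1048576) * sgv k 224 x +
    (-(2 * (conj (v 1) * v 2).im) / 1048576) * sgv k 256 x))))))) := funext (evL_eq k v)
  rw [e, h.add, h.add, h.add, h.add, h.add, h.add, h.add, h.add, h.smul, h.smul, h.smul, h.smul,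
    h.smul, h.smul, h.smul, h.smul, h.smul, ev_lin]
  simp only [KTab]
  ring

theorem sgv_bd (k i x : ℕ) : |sgv k i x| ≤ 2 ^ 31 := by
  have h := Pool.Agent.Helper17.PAK.u32_sub_bd (kf x k) i
  have h2 : ((|(u32 (kf x k) i : ℤ) - 2 ^ 31| : ℤ) : ℝ) ≤ ((2 ^ 31 : ℤ) : ℝ) := by exact_mod_cast h
  rw [Int.cast_abs] at h2
  push_cast at h2
  unfold sgv
  norm_num at h2 ⊢
  exact h2

theorem mf_sgv (h : WOK D mf mg al W) (hn : MN D mf) (ht : PT D t) (T : β) (k i : ℕ) :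
    |mf (sgv k i) T t| ≤ 2 ^ 31 := by
  have c : ∀ c : ℝ, mf (fun _ => c) T t = c := by
    intro c
    have e : (fun _ : ℕ => c) = fun _ => c * 1 := by
      funext _
      rw [mul_one]
    rw [e, h.smul c (fun _ => 1), h.one, mul_one]
  have a1 := hn (fun x => 2 ^ 31 + sgv k i x) T t ht fun x => by
    have := (abs_le.1 (sgv_bd k i x)).1
    linarith
  have a2 := hn (fun x => 2 ^ 31 + (-1) * sgv k i x) T t ht fun x => by
    have := (abs_le.1 (sgv_bd k i x)).2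
    linarith
  rw [h.add (fun _ => 2 ^ 31) (sgv k i), c] at a1
  rw [h.add (fun _ => 2 ^ 31) (fun x => (-1) * sgv k i x), c, h.smul] at a2
  exact abs_le.2 ⟨by linarith, by linarith⟩

/-- the bounds of the entries -/
theorem KTab_bd (h : WOK D mf mg al W) (hn : MN D mf) (ht : PT D t) (T : β) (k : ℕ) :
    |(KTab mf T k t).a| ≤ 2 ^ 12 ∧ ‖(KTab mf T k t).x‖ ≤ 2 ^ 12 ∧ ‖(KTab mf T k t).y‖ ≤ 2 ^ 12 := by
  have key : ∀ i, |mf (sgv k i) T t / 1048576| ≤ 2 ^ 11 := by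
    intro i
    rw [abs_div, abs_of_pos (by norm_num : (0 : ℝ) < 1048576), div_le_iff₀ (by norm_num)]
    refine (mf_sgv h hn ht T k i).trans ?_
    norm_num
  have key2 : ∀ a b : ℝ, |a| ≤ 2 ^ 11 → |b| ≤ 2 ^ 11 → ‖(a : ℂ) + (b : ℂ) * I‖ ≤ 2 ^ 12 := by
    intro a b ha hb
    refine (norm_add_le _ _).trans ?_
    rw [norm_mul, Complex.norm_I, mul_one, Complex.norm_real, Complex.norm_real,
      Real.norm_eq_abs, Real.norm_eq_abs]
    linarith
  refine ⟨(key 0).trans (by norm_num), ?_, ?_⟩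
  · exact key2 _ _ (key 96) (key 128)
  · exact key2 _ _ (key 160) (key 192)

/-! ### the tests of a vertex -/

theorem ssV_st {sl : List ℕ} {le : List LT2} {x y : ℕ} (h : ssV sl le x y = true) {k : ℕ}
    (hk : k ∈ sl) : st1 (kf x k) = true :=
  stT_sound (andB_tt' h).1 k hk

theorem slV_mem {x y : ℕ} : ∀ {le : List LT2}, slV le x y = true → ∀ e ∈ le,
    sl2 (v32 y (64 * e.l)) (v32 y (64 * e.l + 32)) e.ta (kf x e.k) = true ∧
    sl2 (v32 y (64 * e.l)) (v32 y (64 * e.l + 32)) e.tb (kf x e.k) = true := by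
  intro le
  induction le with
  | nil => intro _ e he; cases he
  | cons a l ih =>
    intro h e he
    have h' : andB (sl2 (v32 y (64 * a.l)) (v32 y (64 * a.l + 32)) a.ta (kf x a.k))
      (andB (sl2 (v32 y (64 * a.l)) (v32 y (64 * a.l + 32)) a.tb (kf x a.k)) (slV l x y)) = true := h
    obtain ⟨h1, h2⟩ := andB_tt' h'
    obtain ⟨h2, h3⟩ := andB_tt' h2
    rcases List.mem_cons.1 he with rfl | he
    · exact ⟨h1, h2⟩
    · exact ih h3 e he

/-- THE FORMS ARE NEGATIVE ON `v 0 = 0` -/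
theorem negD_KTab (h : WOK D mf mg al W) (ht : PT D t) {KT ST : β} {sl : List ℕ}
    {le : List LT2} (ht1 : W.al (ssV sl le) KT ST = true) {k : ℕ} (hk : k ∈ sl) :
    NegD (1 / 2 ^ 10) (KTab mf KT k t) := by
  intro x y
  set v : Fin 3 → ℂ := ![0, x, y] with hv
  have v0 : v 0 = 0 := rfl
  have v1 : v 1 = x := rfl
  have v2 : v 2 = y := rfl
  have e : ev (KTab mf KT k t) v = (KTab mf KT k t).b * normSq x +
      (KTab mf KT k t).c * normSq y +
      2 * (conj x * (KTab mf KT k t).w * y).re := by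
    simp only [ev, v0, v1, v2, map_zero, mul_zero, zero_mul, Complex.zero_re, Hm.w]
    ring
  rw [← e, ev_KTab h, ← h.fst _ KT ST]
  have c : ∀ c : ℝ, mf (fun _ => c) KT t = c := by
    intro c
    have e : (fun _ : ℕ => c) = fun _ => c * 1 := by
      funext _
      rw [mul_one]
    rw [e, h.smul c (fun _ => 1), h.one, mul_one]
  have h1 := h.mono _ (fun x _ => evL k v x) (fun _ _ => -(1 / 2 ^ 10) * nrm v) KT ST t ht
    (h.tst _ _ _ ht1) (fun a b hab => st1_ev (ssV_st hab hk) v0)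
  refine h1.trans (le_of_eq ?_)
  rw [h.fst (fun _ => -(1 / 2 ^ 10) * nrm v), c]
  have en : nrm v = normSq x + normSq y := by
    unfold nrm
    rw [v0, v1, v2, map_zero, zero_add]
  rw [en]

/-! ### the slit -/

/-- `ta ≤ 2 ^ 48 (1 - S)/2 ≤ tb` with the exact ends for a label -/
def TIN (ta tb : ℤ) (k : ℝ) : Prop := (ta : ℝ) ≤ 2 ^ 47 * (1 - SbP k) ∧ 2 ^ 47 * (1 - SbP k) ≤ (tb : ℝ)

theorem slR_aff (ST k : ℕ) (t : ℤ) (v : Fin 3 → ℂ) : slR ST k t v =
    (sE ST k * conj (v 0) * (v 0 + 2 * v 1)).re + ((t : ℝ) / 2 ^ 47) *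
      (sE ST k * conj (v 0) * v 2).re := by
  have e1 : slR ST k t v = (sE ST k * conj (v 0) *
      (v 0 + 2 * v 1 + 2 * (((t : ℝ) / 2 ^ 48 : ℝ) : ℂ) * v 2)).re := by
    unfold slR sE Pool.Agent.Helper21.KCE.gz
    norm_num
  have e2 : sE ST k * conj (v 0) * (v 0 + 2 * v 1 + 2 * (((t : ℝ) / 2 ^ 48 : ℝ) : ℂ) * v 2) =
      sE ST k * conj (v 0) * (v 0 + 2 * v 1) +
        (((t : ℝ) / 2 ^ 47 : ℝ) : ℂ) * (sE ST k * conj (v 0) * v 2) := by
    push_cast
    ring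
  rw [e1, e2, Complex.add_re, Complex.re_ofReal_mul]

/-- the functional of the test for a tail star -/
theorem tail_vertex {x y l ta tb k : ℕ} {κ : ℝ} (ht : TIN ta tb κ) (ba : ta ≤ 2 ^ 50)
    (bb : tb ≤ 2 ^ 50)
    (h1 : sl2 (v32 y (64 * l)) (v32 y (64 * l + 32)) ta (kf x k) = true)
    (h2 : sl2 (v32 y (64 * l)) (v32 y (64 * l + 32)) tb (kf x k) = true) (v : Fin 3 → ℂ) :
    evL k v x ≤ (sE y (64 * l) * (conj (v 0) * DTH κ v)).re := by
  have bd : ∀ n : ℕ, n ≤ 2 ^ 50 → |(n : ℤ)| ≤ 2 ^ 100 := by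
    intro n hn
    rw [abs_of_nonneg (by positivity)]
    calc (n : ℤ) ≤ 2 ^ 50 := by exact_mod_cast hn
      _ ≤ 2 ^ 100 := by norm_num
  have g1 := sl2_ev (Pool.Agent.Helper17.PAK.Rep.nat M2 ta) (bd ta ba) h1 v
  have g2 := sl2_ev (Pool.Agent.Helper17.PAK.Rep.nat M2 tb) (bd tb bb) h2 v
  have n0 := Pool.Agent.Helper17.PAK.nrm_nonneg v
  rw [slR_aff] at g1 g2
  have e : sE y (64 * l) * (conj (v 0) * DTH κ v) =
      sE y (64 * l) * conj (v 0) * (v 0 + 2 * v 1) +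
        ((1 - SbP κ : ℝ) : ℂ) * (sE y (64 * l) * conj (v 0) * v 2) := by
    unfold DTH
    push_cast
    ring
  rw [e, Complex.add_re, Complex.re_ofReal_mul]
  set A := (sE y (64 * l) * conj (v 0) * (v 0 + 2 * v 1)).re
  set B := (sE y (64 * l) * conj (v 0) * v 2).re
  obtain ⟨t1, t2⟩ := ht
  have hg1 : evL k v x ≤ A + (((ta : ℤ) : ℝ) / 2 ^ 47) * B := by
    unfold evL
    have : (0 : ℝ) ≤ 1 / 2 ^ 38 * nrm v := by positivity
    linarith
  have hg2 : evL k v x ≤ A + (((tb : ℤ) : ℝ) / 2 ^ 47) * B := by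
    unfold evL
    have : (0 : ℝ) ≤ 1 / 2 ^ 38 * nrm v := by positivity
    linarith
  have s1 : ((ta : ℤ) : ℝ) / 2 ^ 47 ≤ 1 - SbP κ := by
    rw [div_le_iff₀ (by positivity)]
    linarith
  have s2 : 1 - SbP κ ≤ ((tb : ℤ) : ℝ) / 2 ^ 47 := by
    rw [le_div_iff₀ (by positivity)]
    linarith
  rcases le_total 0 B with hB | hB
  · have := mul_le_mul_of_nonneg_right s1 hB
    linarith
  · have := mul_le_mul_of_nonpos_right s2 hB
    linarith

/-- the functional of the test for an exact star -/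
theorem exact_vertex {x y l N k : ℕ} (h3 : 3 ≤ N) (h9 : N ≤ 9) (hs : sOK y (64 * l) = true)
    (h1 : sl2 (v32 y (64 * l)) (v32 y (64 * l + 32)) (tN N) (kf x k) = true) (v : Fin 3 → ℂ) :
    evL k v x ≤ (sE y (64 * l) * (conj (v 0) * DTH (Kp N) v)).re := by
  have g1 := sl2_ev (tN_rep h3 h9) (tZ_bd h3 h9) h1 v
  have g2 := slR_le h3 h9 hs v
  unfold evL
  have g3 := g1.trans (sub_le_iff_le_add.1 g2)
  exact le_of_add_le_add_right g3

/-- the side condition on the multipliers at a vertex -/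
def sOKv (le : List LT2) (_ y : ℕ) : Bool := le.all fun e => sOK y (64 * e.l)

/-- the interval of `(1 - S)/2` of a label -/
theorem tin_of {B : Lb} {M ta tb : ℕ} (hB : B.has M) (h : tOK B ta tb = true) :
    (∃ N, 3 ≤ N ∧ N ≤ 9 ∧ Kp M = Kp N ∧ ta = tN N ∧ tb = tN N) ∨
      (TIN ta tb (Kp M) ∧ ta ≤ 2 ^ 50 ∧ tb ≤ 2 ^ 50) := by
  cases B with
  | ex N =>
    obtain ⟨e, h3, h9⟩ := hB
    unfold tOK at h
    rw [Bool.and_eq_true, beq_iff_eq, beq_iff_eq] at h
    exact Or.inl ⟨N, h3, h9, by rw [e], h.1, h.2⟩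
  | tl lo hi =>
    obtain ⟨h10, hlo, hhi⟩ := hB
    unfold tOK at h
    simp only [Bool.and_eq_true, decide_eq_true_eq] at h
    obtain ⟨h1, h2, h3⟩ := h
    right
    have kpos : 0 < Kp M := by
      have := Pool.Agent.Helper6.MONO.Kp_ge1 (M := M) (by omega)
      linarith
    have g1 : (ta : ℝ) * ((lo : ℝ) * lo) + 2 ^ 145 ≤ 2 ^ 48 * ((lo : ℝ) * lo) := by exact_mod_cast h1
    have g2 : (2 ^ 48 : ℝ) * ((hi : ℝ) * hi) ≤ (tb : ℝ) * ((hi : ℝ) * hi) + 2 ^ 145 := by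
      exact_mod_cast h2
    have l0 : (0 : ℝ) < lo := by
      rcases Nat.eq_zero_or_pos lo with h0 | h0
      · subst h0
        norm_num at h1
      · exact_mod_cast h0
    have eS : 2 ^ 47 * (1 - SbP (Kp M)) = 2 ^ 48 - 2 ^ 49 / (Kp M) ^ 2 := by
      unfold SbP
      field_simp
      ring
    set κ := Kp M
    have hta : (ta : ℝ) ≤ 2 ^ 48 := by
      by_contra hc
      push Not at hc
      have := mul_lt_mul_of_pos_right hc (mul_pos l0 l0)
      linarith [show (0 : ℝ) < 2 ^ 145 by positivity]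
    have t1 : (ta : ℝ) ≤ 2 ^ 48 - 2 ^ 49 / κ ^ 2 := by
      -- (2^48 - ta) κ² ≥ 2^49
      have a1 : (2 : ℝ) ^ 145 ≤ (2 ^ 48 - ta) * ((lo : ℝ) * lo) := by linarith
      have a2 : ((lo : ℝ) * lo) ≤ (2 ^ 48 * κ) * (2 ^ 48 * κ) :=
        mul_le_mul hlo hlo l0.le (by positivity)
      have a3 := mul_le_mul_of_nonneg_left a2 (by linarith : (0 : ℝ) ≤ 2 ^ 48 - ta)
      have a4 : (2 : ℝ) ^ 145 ≤ (2 ^ 48 - ta) * (2 ^ 96 * κ ^ 2) := by
        refine a1.trans (a3.trans (le_of_eq ?_))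
        ring
      have a5 : (2 : ℝ) ^ 49 ≤ (2 ^ 48 - ta) * κ ^ 2 := by
        have e9 : (2 : ℝ) ^ 145 = 2 ^ 96 * 2 ^ 49 := by norm_num
        rw [e9] at a4
        have e10 : (2 ^ 48 - (ta : ℝ)) * (2 ^ 96 * κ ^ 2) = 2 ^ 96 * ((2 ^ 48 - ta) * κ ^ 2) := by ring
        rw [e10] at a4
        exact le_of_mul_le_mul_left a4 (by positivity)
      have a6 : 2 ^ 49 / κ ^ 2 ≤ 2 ^ 48 - (ta : ℝ) := by
        rw [div_le_iff₀ (by positivity)]
        exact a5
      linarith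
    have t2 : 2 ^ 48 - 2 ^ 49 / κ ^ 2 ≤ (tb : ℝ) := by
      rcases le_total ((2 : ℝ) ^ 48) tb with hb | hb
      · have : (0 : ℝ) ≤ 2 ^ 49 / κ ^ 2 := by positivity
        linarith
      · have a1 : (2 ^ 48 - (tb : ℝ)) * ((hi : ℝ) * hi) ≤ 2 ^ 145 := by linarith
        have a2 : (2 ^ 48 * κ) * (2 ^ 48 * κ) ≤ ((hi : ℝ) * hi) :=
          mul_le_mul hhi hhi (by positivity) (by positivity)
        have a3 := mul_le_mul_of_nonneg_left a2 (by linarith : (0 : ℝ) ≤ 2 ^ 48 - tb)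
        have a5 : (2 ^ 48 - (tb : ℝ)) * κ ^ 2 ≤ 2 ^ 49 := by
          have a4 : (2 ^ 96 : ℝ) * ((2 ^ 48 - tb) * κ ^ 2) ≤ 2 ^ 96 * 2 ^ 49 := by
            refine le_trans (le_of_eq ?_) (a3.trans (a1.trans (le_of_eq ?_)))
            · ring
            · norm_num
          exact le_of_mul_le_mul_left a4 (by positivity)
        have a6 : 2 ^ 48 - (tb : ℝ) ≤ 2 ^ 49 / κ ^ 2 := by
          rw [le_div_iff₀ (by positivity)]
          exact a5
        linarith
    refine ⟨⟨?_, ?_⟩, ?_, h3⟩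
    · rw [eS]
      exact_mod_cast t1
    · rw [eS]
      exact_mod_cast t2
    · have : ta ≤ 2 ^ 48 := by exact_mod_cast hta
      exact this.trans (by norm_num)

/-- the order on an edge has the label of the edge -/
theorem lbE_has {p q r : ℕ} {a b c : Lb} (ha : a.has p) (hb : b.has q) (hc : c.has r)
    (i j : Fin 3) (hij : i ≠ j) : (lbE a b c (edN i j)).has (mm p q r i j) := by
  fin_cases i <;> fin_cases j <;>
    first
    | exact absurd rfl hij
    | exact ha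
    | exact hb
    | exact hc

/-- THE SLIT CONDITIONS AT A POINT -/
theorem slitT_KTab (h : WOK D mf mg al W) (ht : PT D t) {KT ST : β} {sl : List ℕ}
    {le : List LT2} (h1 : W.al (ssV sl le) KT ST = true) (h2 : W.al (sOKv le) KT ST = true)
    {p q r : ℕ} {a b c : Lb} (ha : a.has p) (hb : b.has q) (hc : c.has r) :
    SlitT p q r a b c (fun k => KTab mf KT k t) le := by
  intro e he i j hij hE
  have hal := h.and _ _ _ _ (h.tst _ _ _ h1) (h.tst _ _ _ h2)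
  have hv : ∀ x y : ℕ, (ssV sl le x y = true ∧ sOKv le x y = true) →
      0 ≤ (sE y (64 * e.l)).re ∧ ∀ v : Fin 3 → ℂ,
        evL e.k v x ≤ (sE y (64 * e.l) * (conj (v 0) * DTH (kk p q r i j) v)).re := by
    intro x y hxy
    obtain ⟨g1, g2⟩ := slV_mem (andB_tt' hxy.1).2 e he
    have g3 : sOK y (64 * e.l) = true := by
      have h3 := hxy.2
      unfold sOKv at h3
      rw [List.all_eq_true] at h3
      exact h3 e he
    refine ⟨(sOK_iff g3).1, fun v => ?_⟩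
    rcases tin_of (lbE_has ha hb hc i j hij) hE with ⟨N, h3, h9, eN, ea, eb⟩ | ⟨hT, b1, b2⟩
    · rw [ea] at g1
      have g4 := exact_vertex h3 h9 g3 g1 v
      rw [← eN] at g4
      exact g4
    · exact tail_vertex hT b1 b2 g1 g2 v
  refine ⟨((mf (fun y => (sE y (64 * e.l)).re) ST t : ℝ) : ℂ) +
    ((mf (fun y => (sE y (64 * e.l)).im) ST t : ℝ) : ℂ) * I, ?_, ?_⟩
  · have e1 : (((mf (fun y => (sE y (64 * e.l)).re) ST t : ℝ) : ℂ) +
        ((mf (fun y => (sE y (64 * e.l)).im) ST t : ℝ) : ℂ) * I).re =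
        mf (fun y => (sE y (64 * e.l)).re) ST t := by simp
    rw [e1, ← h.snd _ KT ST]
    have z0 : mg (fun _ _ => 0) KT ST t = 0 := by
      have := h.fst (fun _ => 0 * 1) KT ST t
      rw [h.smul 0 (fun _ => 1), zero_mul] at this
      simpa using this
    rw [← z0]
    exact h.mono _ (fun _ _ => 0) (fun _ y => (sE y (64 * e.l)).re) KT ST t ht hal
      (fun x y hxy => (hv x y hxy).1)
  · intro v
    rw [ev_KTab h, ← h.fst _ KT ST]
    refine (h.mono _ (fun x _ => evL e.k v x)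
      (fun _ y => (sE y (64 * e.l) * (conj (v 0) * DTH (kk p q r i j) v)).re) KT ST t ht hal
      (fun x y hxy => (hv x y hxy).2 v)).trans (le_of_eq ?_)
    set c0 := conj (v 0) * DTH (kk p q r i j) v
    rw [h.snd (fun y => (sE y (64 * e.l) * c0).re)]
    have e2 : (fun y => (sE y (64 * e.l) * c0).re) = fun y =>
        c0.re * (sE y (64 * e.l)).re + (-c0.im) * (sE y (64 * e.l)).im := by
      funext y
      rw [Complex.mul_re]
      ring
    rw [e2, h.add, h.smul, h.smul]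
    simp
    ring

end

end Pool.Agent.Helper81.MIT
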