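import Pool.Agent.Helper81.MIT.Gen
import Pool.Agent.Helper81.MIT.Sta

/-!
Row MIT: what the tests of a cell give at its points (`PtR`) and the test `modX` of the lists give
the certificate of the point, and the cell.
-/

set_option autoImplicit false
noncomputable section
namespace Pool.Agent.Helper81.MIT

open Pool.Agent.Helper21.SUP (GS DG DG_nx)
open Pool.Agent.Helper21.SUP renaming nx → nxs
open Pool.Agent.Helper39.SLT (T4 ML)
open Pool.Agent.Helper6.MONO (V3 TCert mm kk Kp RMb omS zw LNI_mm SbP DYm DLm DTH)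
open Pool.Agent.Helper6.MONO.QTR (V0 e0 TCell tcell_of_z)
open Pool.Agent.Helper6.MTC (NegD FCert RK DYm_CM DLm_val)
open Pool.Agent.Helper6.PRG (gsF giS tys tN gsF_giS mem_tys)
open Pool.Agent.Helper6.MID (oZ sE sO kO kap3 oZ_omS UY_vpq V0_vpq)
open Pool.Agent.Helper21.KRN (RI PI TProg eT oT rT lT RunIn KResT kap cκ SlK SlK_E PtR)
open Pool.Agent.Helper86.CX (Hm ev CK CM ev_CK M2)
open Pool.Agent.Helper86.CT (LT2)

open Complex ComplexConjugate

/-! ### the slit -/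

theorem slK_of {B : Lb} {M ta tb : ℕ} (hB : B.has M) (h : tOK B ta tb = true) :
    SlK (Kp M) ta tb := by
  cases B with
  | ex N =>
    obtain ⟨e, h3, h9⟩ := hB
    unfold tOK at h
    rw [Bool.and_eq_true, beq_iff_eq, beq_iff_eq] at h
    rw [e, h.1, h.2]
    exact SlK_E h3 h9
  | tl lo hi =>
    obtain ⟨h10, hlo, hhi⟩ := hB
    unfold tOK at h
    simp only [Bool.and_eq_true, decide_eq_true_eq] at h
    obtain ⟨h1, h2, h3⟩ := h
    have g1 : (ta : ℝ) * ((lo : ℝ) * lo) + 2 ^ 145 ≤ 2 ^ 48 * ((lo : ℝ) * lo) := by exact_mod_cast h1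
    have g2 : (2 ^ 48 : ℝ) * ((hi : ℝ) * hi) ≤ (tb : ℝ) * ((hi : ℝ) * hi) + 2 ^ 145 := by
      exact_mod_cast h2
    have kpos : 0 < Kp M := by
      have := Pool.Agent.Helper6.MONO.Kp_ge1 (M := M) (by omega)
      linarith
    have l0 : (0 : ℝ) < lo := by
      rcases Nat.eq_zero_or_pos lo with h0 | h0
      · subst h0
        norm_num at h1
      · exact_mod_cast h0
    set κ := Kp M
    have hta : (ta : ℝ) ≤ 2 ^ 48 := by
      by_contra hc
      push Not at hc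
      have := mul_lt_mul_of_pos_right hc (mul_pos l0 l0)
      linarith [show (0 : ℝ) < 2 ^ 145 by positivity]
    have hta' : ta ≤ 2 ^ 48 := by exact_mod_cast hta
    have bd : ∀ n : ℕ, n ≤ 2 ^ 50 → |((n : ℕ) : ℤ)| ≤ 2 ^ 100 := by
      intro n hn
      rw [abs_of_nonneg (by positivity)]
      have : (n : ℤ) ≤ 2 ^ 50 := by exact_mod_cast hn
      exact this.trans (by norm_num)
    have t1 : (ta : ℝ) ≤ 2 ^ 48 - 2 ^ 49 / κ ^ 2 := by
      have a1 : (2 : ℝ) ^ 145 ≤ (2 ^ 48 - ta) * ((lo : ℝ) * lo) := by linarith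
      have a2 : ((lo : ℝ) * lo) ≤ (2 ^ 48 * κ) * (2 ^ 48 * κ) :=
        mul_le_mul hlo hlo l0.le (by positivity)
      have a3 := mul_le_mul_of_nonneg_left a2 (by linarith : (0 : ℝ) ≤ 2 ^ 48 - ta)
      have a4 : (2 : ℝ) ^ 145 ≤ (2 ^ 48 - ta) * (2 ^ 96 * κ ^ 2) := by
        refine a1.trans (a3.trans (le_of_eq ?_))
        ring
      have a5 : (2 : ℝ) ^ 49 ≤ (2 ^ 48 - ta) * κ ^ 2 := by
        have e9 : (2 : ℝ) ^ 145 = 2 ^ 96 * 2 ^ 49 := by norm_num
        rw [e9] at a4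
        have e10 : (2 ^ 48 - (ta : ℝ)) * (2 ^ 96 * κ ^ 2) = 2 ^ 96 * ((2 ^ 48 - ta) * κ ^ 2) := by ring
        rw [e10] at a4
        exact le_of_mul_le_mul_left a4 (by positivity)
      have a6 : 2 ^ 49 / κ ^ 2 ≤ 2 ^ 48 - (ta : ℝ) := by
        rw [div_le_iff₀ (by positivity)]
        exact a5
      linarith
    have t2 : 2 ^ 48 - 2 ^ 49 / κ ^ 2 ≤ (tb : ℝ) := by
      rcases le_total ((2 : ℝ) ^ 48) tb with hb | hb
      · have : (0 : ℝ) ≤ 2 ^ 49 / κ ^ 2 := by positivity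
        linarith
      · have a1 : (2 ^ 48 - (tb : ℝ)) * ((hi : ℝ) * hi) ≤ 2 ^ 145 := by linarith
        have a2 : (2 ^ 48 * κ) * (2 ^ 48 * κ) ≤ ((hi : ℝ) * hi) :=
          mul_le_mul hhi hhi (by positivity) (by positivity)
        have a3 := mul_le_mul_of_nonneg_left a2 (by linarith : (0 : ℝ) ≤ 2 ^ 48 - tb)
        have a5 : (2 ^ 48 - (tb : ℝ)) * κ ^ 2 ≤ 2 ^ 49 := by
          have a4 : (2 ^ 96 : ℝ) * ((2 ^ 48 - tb) * κ ^ 2) ≤ 2 ^ 96 * 2 ^ 49 := by
            refine le_trans (le_of_eq ?_) (a3.trans (a1.trans (le_of_eq ?_)))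
            · ring
            · norm_num
          exact le_of_mul_le_mul_left a4 (by positivity)
        have a6 : 2 ^ 48 - (tb : ℝ) ≤ 2 ^ 49 / κ ^ 2 := by
          rw [le_div_iff₀ (by positivity)]
          exact a5
        linarith
    refine ⟨ta, tb, Int.ModEq.refl _, Int.ModEq.refl _, bd ta (hta'.trans (by norm_num)),
      bd tb h3, 2 ^ 48 - 2 ^ 49 / κ ^ 2, by exact_mod_cast t1, by exact_mod_cast t2, ?_⟩
    have e : 2 * ((2 ^ 48 - 2 ^ 49 / κ ^ 2) / 2 ^ 48) - (1 - SbP κ) = 0 := by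
      unfold SbP
      field_simp
      ring
    rw [e, abs_zero]
    positivity

variable {p q r : ℕ} {kx : ℕ → T4 → ℕ} {K : ℕ → Hm ℝ} {z : ℂ} {G : TProg} {sl : List ℕ}
  {le : List LT2} {a b c : Lb}

/-- the slit conditions from the results at a point -/
theorem slitT_pt (h : PtR K (kR p q r) z G sl le) (ha : a.has p) (hb : b.has q) (hc : c.has r) :
    SlitT p q r a b c K le := by
  intro x hx i j hij hE
  exact h.slit x hx _ (slK_of (lbE_has ha hb hc i j hij) hE)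

/-! ### the certificate -/

/-- positivity at the `L` vector -/
def LPosX (kx : ℕ → T4 → ℕ) (p q r : ℕ) (K : ℕ → Hm ℝ) (z : ℂ) : Prop :=
  ∀ s, DG s → ML p q r s = 3 → 0 < ev (K (kE kx p q r s T4.two))
    ((DLm (omS p q r s (zw z))).mulVec ![1, (V0.c : ℂ), (V0.d (kk p q r s.1 s.2.2) : ℂ)])

theorem lposX_of (hz : z ≠ 0) (hz1 : z + 1 ≠ 0)
    (hc : ∀ i < 6, covPX kx (rep p) (rep q) (rep r) G i = true) (h : KResT K (kR p q r) z G) :
    LPosX kx p q r K z := by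
  intro s hs h3
  have h1 := h.l _ (gsF_giS s hs).2 _ (covPX_at hc hs h3)
  rw [cκ_kR] at h1
  rw [DLm_val, oZ_omS (p := p) (q := q) (r := r) hz hz1 s hs]
  have e : (![1, ((V0.c / 2 : ℝ) : ℂ) + ((V0.d (kk p q r s.1 s.2.2) - V0.c : ℝ) : ℂ) *
      oZ (kap3 p q r) z (giS s), ((V0.c / 2 : ℝ) : ℂ) - (V0.c : ℂ) *
      oZ (kap3 p q r) z (giS s)] : Fin 3 → ℂ) =
      ![1, 1 / 5 + oZ (kap3 p q r) z (giS s) / 10, 1 / 5 - 2 * oZ (kap3 p q r) z (giS s) / 5] := by
    funext j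
    fin_cases j
    · rfl
    · show ((V0.c / 2 : ℝ) : ℂ) + ((V0.d (kk p q r s.1 s.2.2) - V0.c : ℝ) : ℂ) *
        oZ (kap3 p q r) z (giS s) = 1 / 5 + oZ (kap3 p q r) z (giS s) / 10
      unfold V0
      push_cast
      ring
    · show ((V0.c / 2 : ℝ) : ℂ) - (V0.c : ℂ) * oZ (kap3 p q r) z (giS s) =
        1 / 5 - 2 * oZ (kap3 p q r) z (giS s) / 5
      unfold V0
      push_cast
      ring
  rw [e]
  exact h1

/-- the parts of the test of the lists -/
theorem modX_parts {BE BO : List ℕ} (h : modX kx a b c BE BO G sl le = true) (ha : a.has p)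
    (hb : b.has q) (hc : c.has r) : brOK BE BO = true ∧
      (∀ i < 6, covSX kx (rep p) (rep q) (rep r) BE BO G i = true) ∧
      (∀ i < 6, covRX kx (rep p) (rep q) (rep r) G i = true) ∧
      (∀ i < 6, covPX kx (rep p) (rep q) (rep r) G i = true) ∧
      (∀ i < 6, covTX kx (rep p) (rep q) (rep r) sl i = true) ∧
      (∀ i < 6, covLX kx a b c le i = true) := by
  unfold modX at h
  rw [Bool.and_eq_true, List.all_eq_true, lb_rp ha, lb_rp hb, lb_rp hc] at h
  obtain ⟨h1, h2⟩ := h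
  have h3 : ∀ i < 6, covSX kx (rep p) (rep q) (rep r) BE BO G i = true ∧
      covRX kx (rep p) (rep q) (rep r) G i = true ∧
      covPX kx (rep p) (rep q) (rep r) G i = true ∧
      covTX kx (rep p) (rep q) (rep r) sl i = true ∧ covLX kx a b c le i = true := by
    intro i hi
    have h4 := h2 i (List.mem_range.2 hi)
    simpa only [Bool.and_eq_true] using h4
  exact ⟨h1, fun i hi => (h3 i hi).1, fun i hi => (h3 i hi).2.1, fun i hi => (h3 i hi).2.2.1,
    fun i hi => (h3 i hi).2.2.2.1, fun i hi => (h3 i hi).2.2.2.2⟩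

/-- everything of the certificate except the runs -/
theorem fcertX (hp : 3 ≤ p) (hq : 3 ≤ q) (hr : 3 ≤ r) (hz : z ≠ 0) (hz1 : z + 1 ≠ 0)
    (hK : KResT K (kR p q r) z G)
    (hR : ∀ i < 6, covRX kx (rep p) (rep q) (rep r) G i = true)
    {κ M : ℝ} (hs : ∀ i < 6, covTX kx (rep p) (rep q) (rep r) sl i = true)
    (neg : ∀ k ∈ sl, NegD κ (K k))
    (bd : ∀ k, |(K k).a| ≤ M ∧ ‖(K k).x‖ ≤ M ∧ ‖(K k).y‖ ≤ M)
    (hLP : LPosX kx p q r K z) (hL : ∀ i < 6, covLX kx a b c le i = true)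
    (slit : SlitT p q r a b c K le) :
    FCert V0 e0 p q r κ M (zw z) (fun s T => K (kE kx p q r s T)) := by
  have hom := fun s hs => oZ_omS (p := p) (q := q) (r := r) hz hz1 s hs
  refine ⟨fun s h T hT => neg _ (covTX_at hs h hT), fun s h T hT => (bd _).1,
    fun s h T hT => (bd _).2.1, fun s h T hT => (bd _).2.2, ?_, ?_, ?_, ?_, ?_⟩
  · intro s h T hT hT2
    have hx := covRX_at hR h hT (Or.inl hT2)
    have h1 := hK.r _ (gsF_giS s h).2 _ hx _ (Or.inl rfl)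
    rw [cκ_kR] at h1
    rw [V0_vpq, DYm_CM, ev_CK, hom s h]
    exact h1
  · intro s h h3
    exact hLP s h h3
  · intro s h h4 i
    have key : ∀ T : T4, T.ok (ML p q r s) → 0 < ev (K (kE kx p q r s T))
        ((DYm (omS p q r s (zw z))).mulVec (Pool.Agent.Helper6.MONO.SV.UY V0.al V0.be e0 i)) := by
      intro T hT
      have hx := covRX_at hR h hT (Or.inr h4)
      have h1 := hK.r _ (gsF_giS s h).2 _ hx _ (UY_vpq i)
      rw [cκ_kR] at h1
      rw [DYm_CM, ev_CK, hom s h]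
      exact h1
    exact ⟨key T4.two trivial, key T4.three trivial⟩
  · intro s h
    exact (covLX_at hL h slit).2
  · intro s h
    exact (covLX_at hL h slit).1

/-- the constant of the certificates -/
def CX : ℝ := 5 * 2 ^ 12 / (1 / 2 ^ 10) + 1

/-- THE CERTIFICATE OF A POINT OF A MIDDLE CELL -/
theorem tcertX (hp : 3 ≤ p) (hq : 3 ≤ q) (hr : 3 ≤ r) (ha : a.has p) (hb : b.has q)
    (hc : c.has r) {BE BO : List ℕ} (hz : z ≠ 0) (hz1 : z + 1 ≠ 0)
    (hP : PtR K (kR p q r) z G sl le) (hM : modX kx a b c BE BO G sl le = true) :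
    TCert V0 e0 p q r CX (zw z) (RK fun s T => K (kE kx p q r s T)) := by
  obtain ⟨hB, hS, hR, hL3, hT, hL⟩ := modX_parts hM ha hb hc
  refine (fcertX hp hq hr hz hz1 hP.res hR hT hP.neg hP.bd (lposX_of hz hz1 hL3 hP.res) hL
    (slitT_pt hP ha hb hc)).tcert_mid hp hq hr (by positivity) ?_
  intro s h T hT m hl hm v hv
  exact run_ofT hp hq hr hB hz hz1 hP.res h ((low_ge2 _ T).trans hl) hm
    (covSX_run hS hp hq hr h hT hl hm) v hv

theorem Lb.has.ge3 {B : Lb} {M : ℕ} (h : B.has M) : 3 ≤ M := by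
  cases B with
  | ex N => exact h.1 ▸ h.2.1
  | tl lo hi => exact le_trans (by norm_num) h.1

/-- THE CELL FROM THE RESULTS AT ITS POINTS -/
theorem tcellX (ha : a.has p) (hb : b.has q) (hc : c.has r) {BE BO : List ℕ}
    (hM : modX kx a b c BE BO G sl le = true) {x0 ya yb : ℝ} (hx : -2 < x0) (hx2 : x0 ≤ 2)
    (h : ∀ (z : ℂ) (y : ℝ), 0 ≤ y → ya ≤ y → y ≤ yb → z ≠ 0 → (z⁻¹).im ≤ 0 →
      z + z⁻¹ = (x0 : ℂ) + (y : ℂ) * Complex.I → ∃ K : ℕ → Hm ℝ, PtR K (kR p q r) z G sl le) :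
    TCell p q r x0 ya yb := by
  refine tcell_of_z hx hx2 CX ?_
  intro z y h0 h1 h2 hz hz1 hzi hui hE
  have hz2 : z + 1 ≠ 0 := by
    intro h'
    have e : z = -1 := by linear_combination h'
    rw [e] at hE
    have h3 := congrArg Complex.re hE
    simp at h3
    linarith
  obtain ⟨K, hK⟩ := h z y h0 h1 h2 hz hui hE
  exact ⟨_, tcertX ha.ge3 hb.ge3 hc.ge3 ha hb hc hz hz2 hK hM⟩

end Pool.Agent.Helper81.MIT
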