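import Pool.Agent.Helper81.MIT.RowB

/-!
The line given by a quadratic polynomial of the weight of the tail: restriction to a sub-interval
of the box of the weight.
-/

set_option autoImplicit false
noncomputable section
namespace Pool.Agent.Helper81.MIT

open Pool.Agent.Helper6.MONO
open Pool.Agent.Helper84.XL (XH q3 par)
open Pool.Agent.Helper86.C75 (Z)
open Pool.Agent.Helper90.KMO (zv)

/-- one control of the restricted polynomial, times the square of the width -/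
def sQ (D u v x y z : ℤ) : ℤ :=
  (D - u) * (D - v) * x + (u * (D - v) + v * (D - u)) * y + u * v * z

/-- a control within one unit -/
def sN (D u v x y z w : ℤ) : Bool :=
  decide (sQ D u v x y z ≤ D * D * (w + 1) ∧ D * D * (w - 1) ≤ sQ D u v x y z)

/-- the controls `x' y' z'` on `[a, b]` are within one unit of the restriction of the polynomial
with the controls `x y z` on `[lo, hi]` -/
def subQ (lo hi a b : ℕ) (x y z x' y' z' : ℤ) : Bool :=
  Nat.ble lo a && (Nat.ble (Nat.succ a) b && (Nat.ble b hi &&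
    (sN ((hi : ℤ) - lo) ((a : ℤ) - lo) ((a : ℤ) - lo) x y z x' &&
      (sN ((hi : ℤ) - lo) ((a : ℤ) - lo) ((b : ℤ) - lo) x y z y' &&
        sN ((hi : ℤ) - lo) ((b : ℤ) - lo) ((b : ℤ) - lo) x y z z'))))

theorem sN_ok {D u v x y z w : ℤ} (h : sN D u v x y z w = true) (hD : (0 : ℝ) < D) :
    |(sQ D u v x y z : ℝ) / ((D : ℝ) * D) - w| ≤ 1 := by
  obtain ⟨h1, h2⟩ := of_decide_eq_true h
  have g1 : (sQ D u v x y z : ℝ) ≤ (D : ℝ) * D * ((w : ℝ) + 1) := by exact_mod_cast h1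
  have g2 : (D : ℝ) * D * ((w : ℝ) - 1) ≤ (sQ D u v x y z : ℝ) := by exact_mod_cast h2
  have hp : (0 : ℝ) < (D : ℝ) * D := by positivity
  rw [abs_le]
  constructor
  · have : (w : ℝ) - 1 ≤ (sQ D u v x y z : ℝ) / ((D : ℝ) * D) := by
      rw [le_div_iff₀ hp, mul_comm]
      exact g2
    linarith
  · have : (sQ D u v x y z : ℝ) / ((D : ℝ) * D) ≤ (w : ℝ) + 1 := by
      rw [div_le_iff₀ hp, mul_comm]
      exact g1
    linarith

theorem q3_diff {a0 a1 a2 b0 b1 b2 t : ℝ} (h0 : |a0 - b0| ≤ 1) (h1 : |a1 - b1| ≤ 1)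
    (h2 : |a2 - b2| ≤ 1) (t0 : 0 ≤ t) (t1 : t ≤ 1) : |q3 a0 a1 a2 t - q3 b0 b1 b2 t| ≤ 1 := by
  obtain ⟨u0, v0⟩ := abs_le.1 h0
  obtain ⟨u1, v1⟩ := abs_le.1 h1
  obtain ⟨u2, v2⟩ := abs_le.1 h2
  have e : q3 a0 a1 a2 t - q3 b0 b1 b2 t =
      (1 - t) ^ 2 * (a0 - b0) + 2 * t * (1 - t) * (a1 - b1) + t ^ 2 * (a2 - b2) := by
    unfold q3
    ring
  have c0 : (0 : ℝ) ≤ (1 - t) ^ 2 := sq_nonneg _
  have c1 : (0 : ℝ) ≤ 2 * t * (1 - t) := by
    have := mul_nonneg t0 (by linarith : (0 : ℝ) ≤ 1 - t)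
    linarith
  have c2 : (0 : ℝ) ≤ t ^ 2 := sq_nonneg _
  rw [e, abs_le]
  constructor
  · have k0 := mul_le_mul_of_nonneg_left u0 c0
    have k1 := mul_le_mul_of_nonneg_left u1 c1
    have k2 := mul_le_mul_of_nonneg_left u2 c2
    nlinarith
  · have k0 := mul_le_mul_of_nonneg_left v0 c0
    have k1 := mul_le_mul_of_nonneg_left v1 c1
    have k2 := mul_le_mul_of_nonneg_left v2 c2
    nlinarith

/-- the hypothesis on the line from the one on a sub-interval -/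
theorem xh_sub {A B C A' B' C' : Z} {lo hi a b n n' r : ℕ} {x0 : ℝ}
    (h : subQ lo hi a b (zv A) (zv B) (zv C) (zv A') (zv B') (zv C') = true) (hn : n' + 1 ≤ n)
    (h1 : (a : ℝ) ≤ 2 ^ 48 * Kp r) (h2 : 2 ^ 48 * Kp r ≤ (b : ℝ)) (hX : XH A' B' C' a b n' r x0) :
    XH A B C lo hi n r x0 := by
  unfold subQ at h
  simp only [Bool.and_eq_true] at h
  obtain ⟨g1, g2, g3, g4, g5, g6⟩ := h
  have k1 : (lo : ℝ) ≤ a := by exact_mod_cast Nat.le_of_ble_eq_true g1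
  have k2 : (a : ℝ) < b := by exact_mod_cast Nat.lt_of_succ_le (Nat.le_of_ble_eq_true g2)
  have k3 : (b : ℝ) ≤ hi := by exact_mod_cast Nat.le_of_ble_eq_true g3
  have hD : (0 : ℝ) < (((hi : ℤ) - lo : ℤ) : ℝ) := by
    push_cast
    linarith
  have m0 := sN_ok g4 hD
  have m1 := sN_ok g5 hD
  have m2 := sN_ok g6 hD
  unfold XH at hX ⊢
  set κ : ℝ := Kp r with hκ
  set t : ℝ := par a b κ with ht
  have hba : (0 : ℝ) < b - a := by linarith
  have t0 : 0 ≤ t := by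
    rw [ht]
    unfold par
    exact div_nonneg (by linarith) hba.le
  have t1 : t ≤ 1 := by
    rw [ht]
    unfold par
    rw [div_le_one hba]
    linarith
  have et : 2 ^ 48 * κ = a + (b - a) * t := by
    rw [ht]
    unfold par
    field_simp
    ring
  have es : par lo hi κ = ((a - lo) * (1 - t) + (b - lo) * t) / (hi - lo) := by
    unfold par
    rw [et]
    congr 1
    ring
  have hD' : (hi : ℝ) - lo ≠ 0 := by
    push_cast at hD
    exact hD.ne'
  have key : q3 (zv A : ℤ) (zv B : ℤ) (zv C : ℤ) (par lo hi κ) =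
      q3 ((sQ ((hi : ℤ) - lo) ((a : ℤ) - lo) ((a : ℤ) - lo) (zv A) (zv B) (zv C) : ℝ) /
          ((((hi : ℤ) - lo : ℤ) : ℝ) * (((hi : ℤ) - lo : ℤ) : ℝ)))
        ((sQ ((hi : ℤ) - lo) ((a : ℤ) - lo) ((b : ℤ) - lo) (zv A) (zv B) (zv C) : ℝ) /
          ((((hi : ℤ) - lo : ℤ) : ℝ) * (((hi : ℤ) - lo : ℤ) : ℝ)))
        ((sQ ((hi : ℤ) - lo) ((b : ℤ) - lo) ((b : ℤ) - lo) (zv A) (zv B) (zv C) : ℝ) /
          ((((hi : ℤ) - lo : ℤ) : ℝ) * (((hi : ℤ) - lo : ℤ) : ℝ))) t := by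
    rw [es]
    unfold q3 sQ
    push_cast
    field_simp
    ring
  have d := q3_diff m0 m1 m2 t0 t1
  rw [← key] at d
  have e1 := abs_le.1 hX
  have e2 := abs_le.1 d
  have hn' : (n' : ℝ) + 1 ≤ n := by exact_mod_cast hn
  rw [abs_le]
  constructor <;> linarith [e1.1, e1.2, e2.1, e2.2]

end Pool.Agent.Helper81.MIT
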