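import Pool.Agent.Helper81.MIT.Fin2
import Pool.Agent.Helper81.MIT.Gbx

/-!
Small lemmas for the assembly of single triples: the hypothesis on the threshold in the form of the
near modules, the labels of known orders, and the quarters of one triple.
-/

set_option autoImplicit false
set_option exponentiation.threshold 4000
noncomputable section
namespace Pool.Agent.Helper81.MIT

open Pool.Agent.Helper6.MONO (Kp xA fB Thr FinAt ZF)
open Pool.Agent.Helper6.MONO.QTR (QX TCell Far)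
open Pool.Agent.Helper57.U2 (TCellU)
open Pool.Agent.Helper90.KMO (zv)
open Pool.Agent.Helper86.C75 (Z)
open Pool.Agent.Helper84.ST (QXS)

/-- the threshold hypothesis as the near modules state it -/
theorem zvX {n m : ℕ} {x0 : ℝ} (h : |2 ^ 48 * x0 - (-(n : ℝ))| ≤ (m : ℝ)) :
    |2 ^ 48 * x0 - ((zv (Z.m n) : ℤ) : ℝ)| ≤ ((m : ℕ) : ℝ) := by
  have e : ((zv (Z.m n) : ℤ) : ℝ) = -(n : ℝ) := by
    show (((-(n : ℤ)) : ℤ) : ℝ) = -(n : ℝ)
    push_cast
    ring
  rw [e]
  exact h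

/-- a known order is in its label -/
theorem hasP {N lo hi : ℕ} (h : inB (N, N) (lo, hi) = true) : (Lb.tl lo hi).has N :=
  inB_ok h ⟨le_rfl, Or.inr le_rfl⟩

/-- the quarter of one triple (regions of the twins allowed) -/
theorem qxS_pt {p q r : ℕ} {x0 : ℝ} (hp : 3 ≤ p) (hq : 10 ≤ q) (hr : 10 ≤ r) (hT : Thr p q r x0)
    {X n : ℕ} (hX : |2 ^ 48 * x0 - (-(X : ℝ))| ≤ (n : ℝ)) {A B C : Lb} {a e : ℕ}
    (m : TcE X n A B C a e) (hA : A.has p) (hB : B.has q) (hC : C.has r) {y : ℕ}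
    (hn : TCellU p q r x0 0 ((y : ℝ) / 2 ^ 48)) (hy : a ≤ y) (hy8 : y ≤ 2251799813685248)
    (he : 2251799813685248 ≤ e) {lo hi : ℕ} (hF : FarI p lo hi) (h1 : lo + n ≤ X)
    (h2 : X + n ≤ hi) : QXS p q r x0 := by
  have g1 : (a : ℝ) ≤ y := by exact_mod_cast hy
  have g2 : (y : ℝ) ≤ 2251799813685248 := by exact_mod_cast hy8
  have g3 : (2251799813685248 : ℝ) ≤ e := by exact_mod_cast he
  refine qxS_nm hp (by omega) (by omega) hT.gt hT.le hn (m p q r hA hB hC x0 hT.gt hT.le hX)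
    ?_ ?_ ?_ (far_pt hF hq hr hX h1 h2)
  · exact div_le_div_of_nonneg_right g1 (by positivity)
  · rw [div_le_iff₀ (by positivity)]
    linarith
  · rw [le_div_iff₀ (by positivity)]
    linarith

end Pool.Agent.Helper81.MIT
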