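import Pool.Agent.Helper81.MIT.Pt2

/-!
Single triples: the final statement from the statement on the lines close to a number.
-/

set_option autoImplicit false
set_option exponentiation.threshold 4000
noncomputable section
namespace Pool.Agent.Helper81.MIT

open Pool.Agent.Helper6.MONO (Kp xA fB fBx Thr FinAt ZF)

/-- type A -/
theorem z_9_10_10 (h : ∀ x0 : ℝ, |2 ^ 48 * x0 - (-513188308445256)| ≤ 64 → Thr 9 10 10 x0 →
    ZF 9 10 10 x0) : FinAt 9 10 10 := by
  refine fin_ptAZ (KV.of (by norm_num) (by norm_num)) (KV.of (by norm_num) (by norm_num))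
    (KV.of (by norm_num) (by norm_num)) (by norm_num) (by norm_num) (by norm_num) (X := -513188308445256)
    (n := 64) (by norm_num) (by norm_num) (by norm_num) ?_ ?_ ?_ h
  · norm_num [kby, kbx, Pool.Agent.Helper6.MONO.kb]
  · norm_num [kby, kbx, Pool.Agent.Helper6.MONO.kb]
  · norm_num [fBx, kby, kbx, Pool.Agent.Helper6.MONO.kb]

/-- type A -/
theorem z_9_10_11 (h : ∀ x0 : ℝ, |2 ^ 48 * x0 - (-511321456285798)| ≤ 64 → Thr 9 10 11 x0 →
    ZF 9 10 11 x0) : FinAt 9 10 11 := by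
  refine fin_ptAZ (KV.of (by norm_num) (by norm_num)) (KV.of (by norm_num) (by norm_num))
    (KV.of (by norm_num) (by norm_num)) (by norm_num) (by norm_num) (by norm_num) (X := -511321456285798)
    (n := 64) (by norm_num) (by norm_num) (by norm_num) ?_ ?_ ?_ h
  · norm_num [kby, kbx, Pool.Agent.Helper6.MONO.kb]
  · norm_num [kby, kbx, Pool.Agent.Helper6.MONO.kb]
  · norm_num [fBx, kby, kbx, Pool.Agent.Helper6.MONO.kb]

/-- type A -/
theorem z_9_11_11 (h : ∀ x0 : ℝ, |2 ^ 48 * x0 - (-516087294570829)| ≤ 64 → Thr 9 11 11 x0 →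
    ZF 9 11 11 x0) : FinAt 9 11 11 := by
  refine fin_ptAZ (KV.of (by norm_num) (by norm_num)) (KV.of (by norm_num) (by norm_num))
    (KV.of (by norm_num) (by norm_num)) (by norm_num) (by norm_num) (by norm_num) (X := -516087294570829)
    (n := 64) (by norm_num) (by norm_num) (by norm_num) ?_ ?_ ?_ h
  · norm_num [kby, kbx, Pool.Agent.Helper6.MONO.kb]
  · norm_num [kby, kbx, Pool.Agent.Helper6.MONO.kb]
  · norm_num [fBx, kby, kbx, Pool.Agent.Helper6.MONO.kb]

/-- type A -/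
theorem z_10_10_10 (h : ∀ x0 : ℝ, |2 ^ 48 * x0 - (-519774541169504)| ≤ 64 → Thr 10 10 10 x0 →
    ZF 10 10 10 x0) : FinAt 10 10 10 := by
  refine fin_ptAZ (KV.of (by norm_num) (by norm_num)) (KV.of (by norm_num) (by norm_num))
    (KV.of (by norm_num) (by norm_num)) (by norm_num) (by norm_num) (by norm_num) (X := -519774541169504)
    (n := 64) (by norm_num) (by norm_num) (by norm_num) ?_ ?_ ?_ h
  · norm_num [kby, kbx, Pool.Agent.Helper6.MONO.kb]
  · norm_num [kby, kbx, Pool.Agent.Helper6.MONO.kb]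
  · norm_num [fBx, kby, kbx, Pool.Agent.Helper6.MONO.kb]

/-- type A -/
theorem z_10_10_11 (h : ∀ x0 : ℝ, |2 ^ 48 * x0 - (-517818169445998)| ≤ 64 → Thr 10 10 11 x0 →
    ZF 10 10 11 x0) : FinAt 10 10 11 := by
  refine fin_ptAZ (KV.of (by norm_num) (by norm_num)) (KV.of (by norm_num) (by norm_num))
    (KV.of (by norm_num) (by norm_num)) (by norm_num) (by norm_num) (by norm_num) (X := -517818169445998)
    (n := 64) (by norm_num) (by norm_num) (by norm_num) ?_ ?_ ?_ h
  · norm_num [kby, kbx, Pool.Agent.Helper6.MONO.kb]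
  · norm_num [kby, kbx, Pool.Agent.Helper6.MONO.kb]
  · norm_num [fBx, kby, kbx, Pool.Agent.Helper6.MONO.kb]

/-- type A -/
theorem z_10_10_12 (h : ∀ x0 : ℝ, |2 ^ 48 * x0 - (-516364795247852)| ≤ 64 → Thr 10 10 12 x0 →
    ZF 10 10 12 x0) : FinAt 10 10 12 := by
  refine fin_ptAZ (KV.of (by norm_num) (by norm_num)) (KV.of (by norm_num) (by norm_num))
    (KV.of (by norm_num) (by norm_num)) (by norm_num) (by norm_num) (by norm_num) (X := -516364795247852)
    (n := 64) (by norm_num) (by norm_num) (by norm_num) ?_ ?_ ?_ h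
  · norm_num [kby, kbx, Pool.Agent.Helper6.MONO.kb]
  · norm_num [kby, kbx, Pool.Agent.Helper6.MONO.kb]
  · norm_num [fBx, kby, kbx, Pool.Agent.Helper6.MONO.kb]

/-- type A -/
theorem z_10_10_13 (h : ∀ x0 : ℝ, |2 ^ 48 * x0 - (-515254098229016)| ≤ 64 → Thr 10 10 13 x0 →
    ZF 10 10 13 x0) : FinAt 10 10 13 := by
  refine fin_ptAZ (KV.of (by norm_num) (by norm_num)) (KV.of (by norm_num) (by norm_num))
    (KV.of (by norm_num) (by norm_num)) (by norm_num) (by norm_num) (by norm_num) (X := -515254098229016)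
    (n := 64) (by norm_num) (by norm_num) (by norm_num) ?_ ?_ ?_ h
  · norm_num [kby, kbx, Pool.Agent.Helper6.MONO.kb]
  · norm_num [kby, kbx, Pool.Agent.Helper6.MONO.kb]
  · norm_num [fBx, kby, kbx, Pool.Agent.Helper6.MONO.kb]

/-- type A -/
theorem z_10_10_14 (h : ∀ x0 : ℝ, |2 ^ 48 * x0 - (-514385329254072)| ≤ 64 → Thr 10 10 14 x0 →
    ZF 10 10 14 x0) : FinAt 10 10 14 := by
  refine fin_ptAZ (KV.of (by norm_num) (by norm_num)) (KV.of (by norm_num) (by norm_num))
    (KV.of (by norm_num) (by norm_num)) (by norm_num) (by norm_num) (by norm_num) (X := -514385329254072)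
    (n := 64) (by norm_num) (by norm_num) (by norm_num) ?_ ?_ ?_ h
  · norm_num [kby, kbx, Pool.Agent.Helper6.MONO.kb]
  · norm_num [kby, kbx, Pool.Agent.Helper6.MONO.kb]
  · norm_num [fBx, kby, kbx, Pool.Agent.Helper6.MONO.kb]

/-- type A -/
theorem z_10_11_11 (h : ∀ x0 : ℝ, |2 ^ 48 * x0 - (-522638888159706)| ≤ 64 → Thr 10 11 11 x0 →
    ZF 10 11 11 x0) : FinAt 10 11 11 := by
  refine fin_ptAZ (KV.of (by norm_num) (by norm_num)) (KV.of (by norm_num) (by norm_num))
    (KV.of (by norm_num) (by norm_num)) (by norm_num) (by norm_num) (by norm_num) (X := -522638888159706)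
    (n := 64) (by norm_num) (by norm_num) (by norm_num) ?_ ?_ ?_ h
  · norm_num [kby, kbx, Pool.Agent.Helper6.MONO.kb]
  · norm_num [kby, kbx, Pool.Agent.Helper6.MONO.kb]
  · norm_num [fBx, kby, kbx, Pool.Agent.Helper6.MONO.kb]

/-- type A -/
theorem z_10_11_12 (h : ∀ x0 : ℝ, |2 ^ 48 * x0 - (-521135866175654)| ≤ 64 → Thr 10 11 12 x0 →
    ZF 10 11 12 x0) : FinAt 10 11 12 := by
  refine fin_ptAZ (KV.of (by norm_num) (by norm_num)) (KV.of (by norm_num) (by norm_num))
    (KV.of (by norm_num) (by norm_num)) (by norm_num) (by norm_num) (by norm_num) (X := -521135866175654)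
    (n := 64) (by norm_num) (by norm_num) (by norm_num) ?_ ?_ ?_ h
  · norm_num [kby, kbx, Pool.Agent.Helper6.MONO.kb]
  · norm_num [kby, kbx, Pool.Agent.Helper6.MONO.kb]
  · norm_num [fBx, kby, kbx, Pool.Agent.Helper6.MONO.kb]

/-- type A -/
theorem z_10_11_13 (h : ∀ x0 : ℝ, |2 ^ 48 * x0 - (-519986832056917)| ≤ 64 → Thr 10 11 13 x0 →
    ZF 10 11 13 x0) : FinAt 10 11 13 := by
  refine fin_ptAZ (KV.of (by norm_num) (by norm_num)) (KV.of (by norm_num) (by norm_num))
    (KV.of (by norm_num) (by norm_num)) (by norm_num) (by norm_num) (by norm_num) (X := -519986832056917)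
    (n := 64) (by norm_num) (by norm_num) (by norm_num) ?_ ?_ ?_ h
  · norm_num [kby, kbx, Pool.Agent.Helper6.MONO.kb]
  · norm_num [kby, kbx, Pool.Agent.Helper6.MONO.kb]
  · norm_num [fBx, kby, kbx, Pool.Agent.Helper6.MONO.kb]

/-- type A -/
theorem z_10_12_12 (h : ∀ x0 : ℝ, |2 ^ 48 * x0 - (-524772724613697)| ≤ 64 → Thr 10 12 12 x0 →
    ZF 10 12 12 x0) : FinAt 10 12 12 := by
  refine fin_ptAZ (KV.of (by norm_num) (by norm_num)) (KV.of (by norm_num) (by norm_num))
    (KV.of (by norm_num) (by norm_num)) (by norm_num) (by norm_num) (by norm_num) (X := -524772724613697)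
    (n := 64) (by norm_num) (by norm_num) (by norm_num) ?_ ?_ ?_ h
  · norm_num [kby, kbx, Pool.Agent.Helper6.MONO.kb]
  · norm_num [kby, kbx, Pool.Agent.Helper6.MONO.kb]
  · norm_num [fBx, kby, kbx, Pool.Agent.Helper6.MONO.kb]

/-- type A -/
theorem z_10_12_13 (h : ∀ x0 : ℝ, |2 ^ 48 * x0 - (-523594624647192)| ≤ 64 → Thr 10 12 13 x0 →
    ZF 10 12 13 x0) : FinAt 10 12 13 := by
  refine fin_ptAZ (KV.of (by norm_num) (by norm_num)) (KV.of (by norm_num) (by norm_num))
    (KV.of (by norm_num) (by norm_num)) (by norm_num) (by norm_num) (by norm_num) (X := -523594624647192)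
    (n := 64) (by norm_num) (by norm_num) (by norm_num) ?_ ?_ ?_ h
  · norm_num [kby, kbx, Pool.Agent.Helper6.MONO.kb]
  · norm_num [kby, kbx, Pool.Agent.Helper6.MONO.kb]
  · norm_num [fBx, kby, kbx, Pool.Agent.Helper6.MONO.kb]

/-- type A -/
theorem z_10_13_13 (h : ∀ x0 : ℝ, |2 ^ 48 * x0 - (-526407229438343)| ≤ 64 → Thr 10 13 13 x0 →
    ZF 10 13 13 x0) : FinAt 10 13 13 := by
  refine fin_ptAZ (KV.of (by norm_num) (by norm_num)) (KV.of (by norm_num) (by norm_num))
    (KV.of (by norm_num) (by norm_num)) (by norm_num) (by norm_num) (by norm_num) (X := -526407229438343)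
    (n := 64) (by norm_num) (by norm_num) (by norm_num) ?_ ?_ ?_ h
  · norm_num [kby, kbx, Pool.Agent.Helper6.MONO.kb]
  · norm_num [kby, kbx, Pool.Agent.Helper6.MONO.kb]
  · norm_num [fBx, kby, kbx, Pool.Agent.Helper6.MONO.kb]

end Pool.Agent.Helper81.MIT
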