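import Pool.Agent.Helper81.MIT.Pt2

/-!
Single triples: the final statement from the statement on the lines close to a number.
-/

set_option autoImplicit false
set_option exponentiation.threshold 4000
noncomputable section
namespace Pool.Agent.Helper81.MIT

open Pool.Agent.Helper6.MONO (Kp xA fB fBx Thr FinAt ZF)

theorem zd60_11_13_15 : PtD (kby 11) (kby 13) (kby 15) (-528954800476117) 60 (-361858998852253949 / 2 ^ 60) (-361858998852139260 / 2 ^ 60) := by
  refine ⟨by norm_num, by norm_num, by norm_num, by norm_num, by norm_num, ?_, ?_, ?_, ?_⟩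
  · rintro c (rfl | rfl) <;> norm_num [NN, kby, kbx, Pool.Agent.Helper6.MONO.kb]
  · rintro c (rfl | rfl) <;> norm_num [NN, kby, kbx, Pool.Agent.Helper6.MONO.kb]
  · norm_num [HH, kby, kbx, Pool.Agent.Helper6.MONO.kb]
  · norm_num [NN, kby, kbx, Pool.Agent.Helper6.MONO.kb]

/-- type B -/
theorem z60_11_13_15 (h : ∀ x0 : ℝ, |2 ^ 48 * x0 - (-528954800476117)| ≤ 60 → Thr 11 13 15 x0 →
    fB 11 13 15 x0 = 0 → ZF 11 13 15 x0) : FinAt 11 13 15 :=
  fin_ptBZ (KW.of2 (by norm_num) (by norm_num)) (KW.of2 (by norm_num) (by norm_num))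
    (KW.of2 (by norm_num) (by norm_num)) (by norm_num) (by norm_num) (by norm_num) zd60_11_13_15 (by norm_num)
    (by norm_num [HH, kby, kbx, Pool.Agent.Helper6.MONO.kb])
    (by norm_num [HH, kby, kbx, Pool.Agent.Helper6.MONO.kb])
    (by norm_num [NN, kby, kbx, Pool.Agent.Helper6.MONO.kb]) h

theorem zd60_11_14_15 : PtD (kby 11) (kby 14) (kby 15) (-529304138217973) 60 (-359337670823591625 / 2 ^ 60) (-359337670823476936 / 2 ^ 60) := by
  refine ⟨by norm_num, by norm_num, by norm_num, by norm_num, by norm_num, ?_, ?_, ?_, ?_⟩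
  · rintro c (rfl | rfl) <;> norm_num [NN, kby, kbx, Pool.Agent.Helper6.MONO.kb]
  · rintro c (rfl | rfl) <;> norm_num [NN, kby, kbx, Pool.Agent.Helper6.MONO.kb]
  · norm_num [HH, kby, kbx, Pool.Agent.Helper6.MONO.kb]
  · norm_num [NN, kby, kbx, Pool.Agent.Helper6.MONO.kb]

/-- type B -/
theorem z60_11_14_15 (h : ∀ x0 : ℝ, |2 ^ 48 * x0 - (-529304138217973)| ≤ 60 → Thr 11 14 15 x0 →
    fB 11 14 15 x0 = 0 → ZF 11 14 15 x0) : FinAt 11 14 15 :=
  fin_ptBZ (KW.of2 (by norm_num) (by norm_num)) (KW.of2 (by norm_num) (by norm_num))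
    (KW.of2 (by norm_num) (by norm_num)) (by norm_num) (by norm_num) (by norm_num) zd60_11_14_15 (by norm_num)
    (by norm_num [HH, kby, kbx, Pool.Agent.Helper6.MONO.kb])
    (by norm_num [HH, kby, kbx, Pool.Agent.Helper6.MONO.kb])
    (by norm_num [NN, kby, kbx, Pool.Agent.Helper6.MONO.kb]) h

theorem zd60_11_14_16 : PtD (kby 11) (kby 14) (kby 16) (-529515083595698) 60 (-358358139522414448 / 2 ^ 60) (-358358139522299759 / 2 ^ 60) := by
  refine ⟨by norm_num, by norm_num, by norm_num, by norm_num, by norm_num, ?_, ?_, ?_, ?_⟩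
  · rintro c (rfl | rfl) <;> norm_num [NN, kby, kbx, Pool.Agent.Helper6.MONO.kb]
  · rintro c (rfl | rfl) <;> norm_num [NN, kby, kbx, Pool.Agent.Helper6.MONO.kb]
  · norm_num [HH, kby, kbx, Pool.Agent.Helper6.MONO.kb]
  · norm_num [NN, kby, kbx, Pool.Agent.Helper6.MONO.kb]

/-- type B -/
theorem z60_11_14_16 (h : ∀ x0 : ℝ, |2 ^ 48 * x0 - (-529515083595698)| ≤ 60 → Thr 11 14 16 x0 →
    fB 11 14 16 x0 = 0 → ZF 11 14 16 x0) : FinAt 11 14 16 :=
  fin_ptBZ (KW.of2 (by norm_num) (by norm_num)) (KW.of2 (by norm_num) (by norm_num))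
    (KW.of2 (by norm_num) (by norm_num)) (by norm_num) (by norm_num) (by norm_num) zd60_11_14_16 (by norm_num)
    (by norm_num [HH, kby, kbx, Pool.Agent.Helper6.MONO.kb])
    (by norm_num [HH, kby, kbx, Pool.Agent.Helper6.MONO.kb])
    (by norm_num [NN, kby, kbx, Pool.Agent.Helper6.MONO.kb]) h

theorem zd60_11_14_17 : PtD (kby 11) (kby 14) (kby 17) (-529684891631823) 60 (-357698469050619774 / 2 ^ 60) (-357698469050505085 / 2 ^ 60) := by
  refine ⟨by norm_num, by norm_num, by norm_num, by norm_num, by norm_num, ?_, ?_, ?_, ?_⟩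
  · rintro c (rfl | rfl) <;> norm_num [NN, kby, kbx, Pool.Agent.Helper6.MONO.kb]
  · rintro c (rfl | rfl) <;> norm_num [NN, kby, kbx, Pool.Agent.Helper6.MONO.kb]
  · norm_num [HH, kby, kbx, Pool.Agent.Helper6.MONO.kb]
  · norm_num [NN, kby, kbx, Pool.Agent.Helper6.MONO.kb]

/-- type B -/
theorem z60_11_14_17 (h : ∀ x0 : ℝ, |2 ^ 48 * x0 - (-529684891631823)| ≤ 60 → Thr 11 14 17 x0 →
    fB 11 14 17 x0 = 0 → ZF 11 14 17 x0) : FinAt 11 14 17 :=
  fin_ptBZ (KW.of2 (by norm_num) (by norm_num)) (KW.of2 (by norm_num) (by norm_num))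
    (KW.of2 (by norm_num) (by norm_num)) (by norm_num) (by norm_num) (by norm_num) zd60_11_14_17 (by norm_num)
    (by norm_num [HH, kby, kbx, Pool.Agent.Helper6.MONO.kb])
    (by norm_num [HH, kby, kbx, Pool.Agent.Helper6.MONO.kb])
    (by norm_num [NN, kby, kbx, Pool.Agent.Helper6.MONO.kb]) h

theorem zd60_11_14_18 : PtD (kby 11) (kby 14) (kby 18) (-529823765832619) 60 (-357249908601508619 / 2 ^ 60) (-357249908601393930 / 2 ^ 60) := by
  refine ⟨by norm_num, by norm_num, by norm_num, by norm_num, by norm_num, ?_, ?_, ?_, ?_⟩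
  · rintro c (rfl | rfl) <;> norm_num [NN, kby, kbx, Pool.Agent.Helper6.MONO.kb]
  · rintro c (rfl | rfl) <;> norm_num [NN, kby, kbx, Pool.Agent.Helper6.MONO.kb]
  · norm_num [HH, kby, kbx, Pool.Agent.Helper6.MONO.kb]
  · norm_num [NN, kby, kbx, Pool.Agent.Helper6.MONO.kb]

/-- type B -/
theorem z60_11_14_18 (h : ∀ x0 : ℝ, |2 ^ 48 * x0 - (-529823765832619)| ≤ 60 → Thr 11 14 18 x0 →
    fB 11 14 18 x0 = 0 → ZF 11 14 18 x0) : FinAt 11 14 18 :=
  fin_ptBZ (KW.of2 (by norm_num) (by norm_num)) (KW.of2 (by norm_num) (by norm_num))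
    (KW.of2 (by norm_num) (by norm_num)) (by norm_num) (by norm_num) (by norm_num) zd60_11_14_18 (by norm_num)
    (by norm_num [HH, kby, kbx, Pool.Agent.Helper6.MONO.kb])
    (by norm_num [HH, kby, kbx, Pool.Agent.Helper6.MONO.kb])
    (by norm_num [NN, kby, kbx, Pool.Agent.Helper6.MONO.kb]) h

theorem zd60_12_12_15 : PtD (kby 12) (kby 12) (kby 15) (-529136495601367) 60 (-358823941280728263 / 2 ^ 60) (-358823941280613574 / 2 ^ 60) := by
  refine ⟨by norm_num, by norm_num, by norm_num, by norm_num, by norm_num, ?_, ?_, ?_, ?_⟩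
  · rintro c (rfl | rfl) <;> norm_num [NN, kby, kbx, Pool.Agent.Helper6.MONO.kb]
  · rintro c (rfl | rfl) <;> norm_num [NN, kby, kbx, Pool.Agent.Helper6.MONO.kb]
  · norm_num [HH, kby, kbx, Pool.Agent.Helper6.MONO.kb]
  · norm_num [NN, kby, kbx, Pool.Agent.Helper6.MONO.kb]

/-- type B -/
theorem z60_12_12_15 (h : ∀ x0 : ℝ, |2 ^ 48 * x0 - (-529136495601367)| ≤ 60 → Thr 12 12 15 x0 →
    fB 12 12 15 x0 = 0 → ZF 12 12 15 x0) : FinAt 12 12 15 :=
  fin_ptBZ (KW.of2 (by norm_num) (by norm_num)) (KW.of2 (by norm_num) (by norm_num))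
    (KW.of2 (by norm_num) (by norm_num)) (by norm_num) (by norm_num) (by norm_num) zd60_12_12_15 (by norm_num)
    (by norm_num [HH, kby, kbx, Pool.Agent.Helper6.MONO.kb])
    (by norm_num [HH, kby, kbx, Pool.Agent.Helper6.MONO.kb])
    (by norm_num [NN, kby, kbx, Pool.Agent.Helper6.MONO.kb]) h

theorem zd60_12_12_16 : PtD (kby 12) (kby 12) (kby 16) (-529344915360475) 60 (-357989524319925605 / 2 ^ 60) (-357989524319810916 / 2 ^ 60) := by
  refine ⟨by norm_num, by norm_num, by norm_num, by norm_num, by norm_num, ?_, ?_, ?_, ?_⟩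
  · rintro c (rfl | rfl) <;> norm_num [NN, kby, kbx, Pool.Agent.Helper6.MONO.kb]
  · rintro c (rfl | rfl) <;> norm_num [NN, kby, kbx, Pool.Agent.Helper6.MONO.kb]
  · norm_num [HH, kby, kbx, Pool.Agent.Helper6.MONO.kb]
  · norm_num [NN, kby, kbx, Pool.Agent.Helper6.MONO.kb]

/-- type B -/
theorem z60_12_12_16 (h : ∀ x0 : ℝ, |2 ^ 48 * x0 - (-529344915360475)| ≤ 60 → Thr 12 12 16 x0 →
    fB 12 12 16 x0 = 0 → ZF 12 12 16 x0) : FinAt 12 12 16 :=
  fin_ptBZ (KW.of2 (by norm_num) (by norm_num)) (KW.of2 (by norm_num) (by norm_num))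
    (KW.of2 (by norm_num) (by norm_num)) (by norm_num) (by norm_num) (by norm_num) zd60_12_12_16 (by norm_num)
    (by norm_num [HH, kby, kbx, Pool.Agent.Helper6.MONO.kb])
    (by norm_num [HH, kby, kbx, Pool.Agent.Helper6.MONO.kb])
    (by norm_num [NN, kby, kbx, Pool.Agent.Helper6.MONO.kb]) h

theorem zd60_12_13_15 : PtD (kby 12) (kby 13) (kby 15) (-529606583307403) 60 (-354435055141639663 / 2 ^ 60) (-354435055141524974 / 2 ^ 60) := by
  refine ⟨by norm_num, by norm_num, by norm_num, by norm_num, by norm_num, ?_, ?_, ?_, ?_⟩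
  · rintro c (rfl | rfl) <;> norm_num [NN, kby, kbx, Pool.Agent.Helper6.MONO.kb]
  · rintro c (rfl | rfl) <;> norm_num [NN, kby, kbx, Pool.Agent.Helper6.MONO.kb]
  · norm_num [HH, kby, kbx, Pool.Agent.Helper6.MONO.kb]
  · norm_num [NN, kby, kbx, Pool.Agent.Helper6.MONO.kb]

/-- type B -/
theorem z60_12_13_15 (h : ∀ x0 : ℝ, |2 ^ 48 * x0 - (-529606583307403)| ≤ 60 → Thr 12 13 15 x0 →
    fB 12 13 15 x0 = 0 → ZF 12 13 15 x0) : FinAt 12 13 15 :=
  fin_ptBZ (KW.of2 (by norm_num) (by norm_num)) (KW.of2 (by norm_num) (by norm_num))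
    (KW.of2 (by norm_num) (by norm_num)) (by norm_num) (by norm_num) (by norm_num) zd60_12_13_15 (by norm_num)
    (by norm_num [HH, kby, kbx, Pool.Agent.Helper6.MONO.kb])
    (by norm_num [HH, kby, kbx, Pool.Agent.Helper6.MONO.kb])
    (by norm_num [NN, kby, kbx, Pool.Agent.Helper6.MONO.kb]) h

theorem zd60_12_13_16 : PtD (kby 12) (kby 13) (kby 16) (-529818423147563) 60 (-353361618966057781 / 2 ^ 60) (-353361618965943092 / 2 ^ 60) := by
  refine ⟨by norm_num, by norm_num, by norm_num, by norm_num, by norm_num, ?_, ?_, ?_, ?_⟩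
  · rintro c (rfl | rfl) <;> norm_num [NN, kby, kbx, Pool.Agent.Helper6.MONO.kb]
  · rintro c (rfl | rfl) <;> norm_num [NN, kby, kbx, Pool.Agent.Helper6.MONO.kb]
  · norm_num [HH, kby, kbx, Pool.Agent.Helper6.MONO.kb]
  · norm_num [NN, kby, kbx, Pool.Agent.Helper6.MONO.kb]

/-- type B -/
theorem z60_12_13_16 (h : ∀ x0 : ℝ, |2 ^ 48 * x0 - (-529818423147563)| ≤ 60 → Thr 12 13 16 x0 →
    fB 12 13 16 x0 = 0 → ZF 12 13 16 x0) : FinAt 12 13 16 :=
  fin_ptBZ (KW.of2 (by norm_num) (by norm_num)) (KW.of2 (by norm_num) (by norm_num))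
    (KW.of2 (by norm_num) (by norm_num)) (by norm_num) (by norm_num) (by norm_num) zd60_12_13_16 (by norm_num)
    (by norm_num [HH, kby, kbx, Pool.Agent.Helper6.MONO.kb])
    (by norm_num [HH, kby, kbx, Pool.Agent.Helper6.MONO.kb])
    (by norm_num [NN, kby, kbx, Pool.Agent.Helper6.MONO.kb]) h

theorem zd60_12_13_17 : PtD (kby 12) (kby 13) (kby 17) (-529989024541004) 60 (-352620393264174609 / 2 ^ 60) (-352620393264059920 / 2 ^ 60) := by
  refine ⟨by norm_num, by norm_num, by norm_num, by norm_num, by norm_num, ?_, ?_, ?_, ?_⟩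
  · rintro c (rfl | rfl) <;> norm_num [NN, kby, kbx, Pool.Agent.Helper6.MONO.kb]
  · rintro c (rfl | rfl) <;> norm_num [NN, kby, kbx, Pool.Agent.Helper6.MONO.kb]
  · norm_num [HH, kby, kbx, Pool.Agent.Helper6.MONO.kb]
  · norm_num [NN, kby, kbx, Pool.Agent.Helper6.MONO.kb]

/-- type B -/
theorem z60_12_13_17 (h : ∀ x0 : ℝ, |2 ^ 48 * x0 - (-529989024541004)| ≤ 60 → Thr 12 13 17 x0 →
    fB 12 13 17 x0 = 0 → ZF 12 13 17 x0) : FinAt 12 13 17 :=
  fin_ptBZ (KW.of2 (by norm_num) (by norm_num)) (KW.of2 (by norm_num) (by norm_num))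
    (KW.of2 (by norm_num) (by norm_num)) (by norm_num) (by norm_num) (by norm_num) zd60_12_13_17 (by norm_num)
    (by norm_num [HH, kby, kbx, Pool.Agent.Helper6.MONO.kb])
    (by norm_num [HH, kby, kbx, Pool.Agent.Helper6.MONO.kb])
    (by norm_num [NN, kby, kbx, Pool.Agent.Helper6.MONO.kb]) h

theorem zd60_12_13_18 : PtD (kby 12) (kby 13) (kby 18) (-530128600086724) 60 (-352100829061609254 / 2 ^ 60) (-352100829061494565 / 2 ^ 60) := by
  refine ⟨by norm_num, by norm_num, by norm_num, by norm_num, by norm_num, ?_, ?_, ?_, ?_⟩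
  · rintro c (rfl | rfl) <;> norm_num [NN, kby, kbx, Pool.Agent.Helper6.MONO.kb]
  · rintro c (rfl | rfl) <;> norm_num [NN, kby, kbx, Pool.Agent.Helper6.MONO.kb]
  · norm_num [HH, kby, kbx, Pool.Agent.Helper6.MONO.kb]
  · norm_num [NN, kby, kbx, Pool.Agent.Helper6.MONO.kb]

/-- type B -/
theorem z60_12_13_18 (h : ∀ x0 : ℝ, |2 ^ 48 * x0 - (-530128600086724)| ≤ 60 → Thr 12 13 18 x0 →
    fB 12 13 18 x0 = 0 → ZF 12 13 18 x0) : FinAt 12 13 18 :=
  fin_ptBZ (KW.of2 (by norm_num) (by norm_num)) (KW.of2 (by norm_num) (by norm_num))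
    (KW.of2 (by norm_num) (by norm_num)) (by norm_num) (by norm_num) (by norm_num) zd60_12_13_18 (by norm_num)
    (by norm_num [HH, kby, kbx, Pool.Agent.Helper6.MONO.kb])
    (by norm_num [HH, kby, kbx, Pool.Agent.Helper6.MONO.kb])
    (by norm_num [NN, kby, kbx, Pool.Agent.Helper6.MONO.kb]) h

theorem zd60_12_13_19 : PtD (kby 12) (kby 13) (kby 19) (-530244350772527) 60 (-351732459247175837 / 2 ^ 60) (-351732459247061148 / 2 ^ 60) := by
  refine ⟨by norm_num, by norm_num, by norm_num, by norm_num, by norm_num, ?_, ?_, ?_, ?_⟩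
  · rintro c (rfl | rfl) <;> norm_num [NN, kby, kbx, Pool.Agent.Helper6.MONO.kb]
  · rintro c (rfl | rfl) <;> norm_num [NN, kby, kbx, Pool.Agent.Helper6.MONO.kb]
  · norm_num [HH, kby, kbx, Pool.Agent.Helper6.MONO.kb]
  · norm_num [NN, kby, kbx, Pool.Agent.Helper6.MONO.kb]

/-- type B -/
theorem z60_12_13_19 (h : ∀ x0 : ℝ, |2 ^ 48 * x0 - (-530244350772527)| ≤ 60 → Thr 12 13 19 x0 →
    fB 12 13 19 x0 = 0 → ZF 12 13 19 x0) : FinAt 12 13 19 :=
  fin_ptBZ (KW.of2 (by norm_num) (by norm_num)) (KW.of2 (by norm_num) (by norm_num))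
    (KW.of2 (by norm_num) (by norm_num)) (by norm_num) (by norm_num) (by norm_num) zd60_12_13_19 (by norm_num)
    (by norm_num [HH, kby, kbx, Pool.Agent.Helper6.MONO.kb])
    (by norm_num [HH, kby, kbx, Pool.Agent.Helper6.MONO.kb])
    (by norm_num [NN, kby, kbx, Pool.Agent.Helper6.MONO.kb]) h

theorem zd60_12_13_20 : PtD (kby 12) (kby 13) (kby 20) (-530341481028471) 60 (-351469147281270703 / 2 ^ 60) (-351469147281156014 / 2 ^ 60) := by
  refine ⟨by norm_num, by norm_num, by norm_num, by norm_num, by norm_num, ?_, ?_, ?_, ?_⟩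
  · rintro c (rfl | rfl) <;> norm_num [NN, kby, kbx, Pool.Agent.Helper6.MONO.kb]
  · rintro c (rfl | rfl) <;> norm_num [NN, kby, kbx, Pool.Agent.Helper6.MONO.kb]
  · norm_num [HH, kby, kbx, Pool.Agent.Helper6.MONO.kb]
  · norm_num [NN, kby, kbx, Pool.Agent.Helper6.MONO.kb]

/-- type B -/
theorem z60_12_13_20 (h : ∀ x0 : ℝ, |2 ^ 48 * x0 - (-530341481028471)| ≤ 60 → Thr 12 13 20 x0 →
    fB 12 13 20 x0 = 0 → ZF 12 13 20 x0) : FinAt 12 13 20 :=
  fin_ptBZ (KW.of2 (by norm_num) (by norm_num)) (KW.of2 (by norm_num) (by norm_num))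
    (KW.of2 (by norm_num) (by norm_num)) (by norm_num) (by norm_num) (by norm_num) zd60_12_13_20 (by norm_num)
    (by norm_num [HH, kby, kbx, Pool.Agent.Helper6.MONO.kb])
    (by norm_num [HH, kby, kbx, Pool.Agent.Helper6.MONO.kb])
    (by norm_num [NN, kby, kbx, Pool.Agent.Helper6.MONO.kb]) h

theorem zd60_12_13_21 : PtD (kby 12) (kby 13) (kby 21) (-530423833341851) 60 (-351279990303620513 / 2 ^ 60) (-351279990303505824 / 2 ^ 60) := by
  refine ⟨by norm_num, by norm_num, by norm_num, by norm_num, by norm_num, ?_, ?_, ?_, ?_⟩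
  · rintro c (rfl | rfl) <;> norm_num [NN, kby, kbx, Pool.Agent.Helper6.MONO.kb]
  · rintro c (rfl | rfl) <;> norm_num [NN, kby, kbx, Pool.Agent.Helper6.MONO.kb]
  · norm_num [HH, kby, kbx, Pool.Agent.Helper6.MONO.kb]
  · norm_num [NN, kby, kbx, Pool.Agent.Helper6.MONO.kb]

/-- type B -/
theorem z60_12_13_21 (h : ∀ x0 : ℝ, |2 ^ 48 * x0 - (-530423833341851)| ≤ 60 → Thr 12 13 21 x0 →
    fB 12 13 21 x0 = 0 → ZF 12 13 21 x0) : FinAt 12 13 21 :=
  fin_ptBZ (KW.of2 (by norm_num) (by norm_num)) (KW.of2 (by norm_num) (by norm_num))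
    (KW.of2 (by norm_num) (by norm_num)) (by norm_num) (by norm_num) (by norm_num) zd60_12_13_21 (by norm_num)
    (by norm_num [HH, kby, kbx, Pool.Agent.Helper6.MONO.kb])
    (by norm_num [HH, kby, kbx, Pool.Agent.Helper6.MONO.kb])
    (by norm_num [NN, kby, kbx, Pool.Agent.Helper6.MONO.kb]) h

theorem zd60_12_14_15 : PtD (kby 12) (kby 14) (kby 15) (-529960520728047) 60 (-351532598335982470 / 2 ^ 60) (-351532598335867781 / 2 ^ 60) := by
  refine ⟨by norm_num, by norm_num, by norm_num, by norm_num, by norm_num, ?_, ?_, ?_, ?_⟩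
  · rintro c (rfl | rfl) <;> norm_num [NN, kby, kbx, Pool.Agent.Helper6.MONO.kb]
  · rintro c (rfl | rfl) <;> norm_num [NN, kby, kbx, Pool.Agent.Helper6.MONO.kb]
  · norm_num [HH, kby, kbx, Pool.Agent.Helper6.MONO.kb]
  · norm_num [NN, kby, kbx, Pool.Agent.Helper6.MONO.kb]

/-- type B -/
theorem z60_12_14_15 (h : ∀ x0 : ℝ, |2 ^ 48 * x0 - (-529960520728047)| ≤ 60 → Thr 12 14 15 x0 →
    fB 12 14 15 x0 = 0 → ZF 12 14 15 x0) : FinAt 12 14 15 :=
  fin_ptBZ (KW.of2 (by norm_num) (by norm_num)) (KW.of2 (by norm_num) (by norm_num))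
    (KW.of2 (by norm_num) (by norm_num)) (by norm_num) (by norm_num) (by norm_num) zd60_12_14_15 (by norm_num)
    (by norm_num [HH, kby, kbx, Pool.Agent.Helper6.MONO.kb])
    (by norm_num [HH, kby, kbx, Pool.Agent.Helper6.MONO.kb])
    (by norm_num [NN, kby, kbx, Pool.Agent.Helper6.MONO.kb]) h

theorem zd60_12_14_16 : PtD (kby 12) (kby 14) (kby 16) (-530175036216962) 60 (-350273913603997535 / 2 ^ 60) (-350273913603882846 / 2 ^ 60) := by
  refine ⟨by norm_num, by norm_num, by norm_num, by norm_num, by norm_num, ?_, ?_, ?_, ?_⟩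
  · rintro c (rfl | rfl) <;> norm_num [NN, kby, kbx, Pool.Agent.Helper6.MONO.kb]
  · rintro c (rfl | rfl) <;> norm_num [NN, kby, kbx, Pool.Agent.Helper6.MONO.kb]
  · norm_num [HH, kby, kbx, Pool.Agent.Helper6.MONO.kb]
  · norm_num [NN, kby, kbx, Pool.Agent.Helper6.MONO.kb]

/-- type B -/
theorem z60_12_14_16 (h : ∀ x0 : ℝ, |2 ^ 48 * x0 - (-530175036216962)| ≤ 60 → Thr 12 14 16 x0 →
    fB 12 14 16 x0 = 0 → ZF 12 14 16 x0) : FinAt 12 14 16 :=
  fin_ptBZ (KW.of2 (by norm_num) (by norm_num)) (KW.of2 (by norm_num) (by norm_num))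
    (KW.of2 (by norm_num) (by norm_num)) (by norm_num) (by norm_num) (by norm_num) zd60_12_14_16 (by norm_num)
    (by norm_num [HH, kby, kbx, Pool.Agent.Helper6.MONO.kb])
    (by norm_num [HH, kby, kbx, Pool.Agent.Helper6.MONO.kb])
    (by norm_num [NN, kby, kbx, Pool.Agent.Helper6.MONO.kb]) h

theorem zd60_12_14_17 : PtD (kby 12) (kby 14) (kby 17) (-530347869474520) 60 (-349378231356801758 / 2 ^ 60) (-349378231356687069 / 2 ^ 60) := by
  refine ⟨by norm_num, by norm_num, by norm_num, by norm_num, by norm_num, ?_, ?_, ?_, ?_⟩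
  · rintro c (rfl | rfl) <;> norm_num [NN, kby, kbx, Pool.Agent.Helper6.MONO.kb]
  · rintro c (rfl | rfl) <;> norm_num [NN, kby, kbx, Pool.Agent.Helper6.MONO.kb]
  · norm_num [HH, kby, kbx, Pool.Agent.Helper6.MONO.kb]
  · norm_num [NN, kby, kbx, Pool.Agent.Helper6.MONO.kb]

/-- type B -/
theorem z60_12_14_17 (h : ∀ x0 : ℝ, |2 ^ 48 * x0 - (-530347869474520)| ≤ 60 → Thr 12 14 17 x0 →
    fB 12 14 17 x0 = 0 → ZF 12 14 17 x0) : FinAt 12 14 17 :=
  fin_ptBZ (KW.of2 (by norm_num) (by norm_num)) (KW.of2 (by norm_num) (by norm_num))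
    (KW.of2 (by norm_num) (by norm_num)) (by norm_num) (by norm_num) (by norm_num) zd60_12_14_17 (by norm_num)
    (by norm_num [HH, kby, kbx, Pool.Agent.Helper6.MONO.kb])
    (by norm_num [HH, kby, kbx, Pool.Agent.Helper6.MONO.kb])
    (by norm_num [NN, kby, kbx, Pool.Agent.Helper6.MONO.kb]) h

theorem zd60_12_14_18 : PtD (kby 12) (kby 14) (kby 18) (-530489327585291) 60 (-348728359209129999 / 2 ^ 60) (-348728359209015310 / 2 ^ 60) := by
  refine ⟨by norm_num, by norm_num, by norm_num, by norm_num, by norm_num, ?_, ?_, ?_, ?_⟩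
  · rintro c (rfl | rfl) <;> norm_num [NN, kby, kbx, Pool.Agent.Helper6.MONO.kb]
  · rintro c (rfl | rfl) <;> norm_num [NN, kby, kbx, Pool.Agent.Helper6.MONO.kb]
  · norm_num [HH, kby, kbx, Pool.Agent.Helper6.MONO.kb]
  · norm_num [NN, kby, kbx, Pool.Agent.Helper6.MONO.kb]

/-- type B -/
theorem z60_12_14_18 (h : ∀ x0 : ℝ, |2 ^ 48 * x0 - (-530489327585291)| ≤ 60 → Thr 12 14 18 x0 →
    fB 12 14 18 x0 = 0 → ZF 12 14 18 x0) : FinAt 12 14 18 :=
  fin_ptBZ (KW.of2 (by norm_num) (by norm_num)) (KW.of2 (by norm_num) (by norm_num))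
    (KW.of2 (by norm_num) (by norm_num)) (by norm_num) (by norm_num) (by norm_num) zd60_12_14_18 (by norm_num)
    (by norm_num [HH, kby, kbx, Pool.Agent.Helper6.MONO.kb])
    (by norm_num [HH, kby, kbx, Pool.Agent.Helper6.MONO.kb])
    (by norm_num [NN, kby, kbx, Pool.Agent.Helper6.MONO.kb]) h

theorem zd60_12_14_19 : PtD (kby 12) (kby 14) (kby 19) (-530606681505165) 60 (-348248956020130107 / 2 ^ 60) (-348248956020015418 / 2 ^ 60) := by
  refine ⟨by norm_num, by norm_num, by norm_num, by norm_num, by norm_num, ?_, ?_, ?_, ?_⟩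
  · rintro c (rfl | rfl) <;> norm_num [NN, kby, kbx, Pool.Agent.Helper6.MONO.kb]
  · rintro c (rfl | rfl) <;> norm_num [NN, kby, kbx, Pool.Agent.Helper6.MONO.kb]
  · norm_num [HH, kby, kbx, Pool.Agent.Helper6.MONO.kb]
  · norm_num [NN, kby, kbx, Pool.Agent.Helper6.MONO.kb]

/-- type B -/
theorem z60_12_14_19 (h : ∀ x0 : ℝ, |2 ^ 48 * x0 - (-530606681505165)| ≤ 60 → Thr 12 14 19 x0 →
    fB 12 14 19 x0 = 0 → ZF 12 14 19 x0) : FinAt 12 14 19 :=
  fin_ptBZ (KW.of2 (by norm_num) (by norm_num)) (KW.of2 (by norm_num) (by norm_num))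
    (KW.of2 (by norm_num) (by norm_num)) (by norm_num) (by norm_num) (by norm_num) zd60_12_14_19 (by norm_num)
    (by norm_num [HH, kby, kbx, Pool.Agent.Helper6.MONO.kb])
    (by norm_num [HH, kby, kbx, Pool.Agent.Helper6.MONO.kb])
    (by norm_num [NN, kby, kbx, Pool.Agent.Helper6.MONO.kb]) h

theorem zd60_12_14_20 : PtD (kby 12) (kby 14) (kby 20) (-530705188631574) 60 (-347890217503327603 / 2 ^ 60) (-347890217503212914 / 2 ^ 60) := by
  refine ⟨by norm_num, by norm_num, by norm_num, by norm_num, by norm_num, ?_, ?_, ?_, ?_⟩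
  · rintro c (rfl | rfl) <;> norm_num [NN, kby, kbx, Pool.Agent.Helper6.MONO.kb]
  · rintro c (rfl | rfl) <;> norm_num [NN, kby, kbx, Pool.Agent.Helper6.MONO.kb]
  · norm_num [HH, kby, kbx, Pool.Agent.Helper6.MONO.kb]
  · norm_num [NN, kby, kbx, Pool.Agent.Helper6.MONO.kb]

/-- type B -/
theorem z60_12_14_20 (h : ∀ x0 : ℝ, |2 ^ 48 * x0 - (-530705188631574)| ≤ 60 → Thr 12 14 20 x0 →
    fB 12 14 20 x0 = 0 → ZF 12 14 20 x0) : FinAt 12 14 20 :=
  fin_ptBZ (KW.of2 (by norm_num) (by norm_num)) (KW.of2 (by norm_num) (by norm_num))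
    (KW.of2 (by norm_num) (by norm_num)) (by norm_num) (by norm_num) (by norm_num) zd60_12_14_20 (by norm_num)
    (by norm_num [HH, kby, kbx, Pool.Agent.Helper6.MONO.kb])
    (by norm_num [HH, kby, kbx, Pool.Agent.Helper6.MONO.kb])
    (by norm_num [NN, kby, kbx, Pool.Agent.Helper6.MONO.kb]) h

end Pool.Agent.Helper81.MIT
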