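import Pool.Agent.Helper81.MIT.RowB

/-!
Quarters with the near cells in one cyclic labelling and the middle cells in another one: the part
above a height as a far part, rotation of the labels.
-/

set_option autoImplicit false
noncomputable section
namespace Pool.Agent.Helper81.MIT

open Complex
open Pool.Agent.Helper6.MONO
open Pool.Agent.Helper6.MONO.QTR
open Pool.Agent.Helper21.SUP (mmOK_rot)
open Pool.Agent.Helper21.MIRI
open Pool.Agent.Helper84.ST
open Pool.Agent.Helper84.UC (CU cu_of_cell)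
open Pool.Agent.Helper57.U2 (TCellU)

section
variable {p q r : ℕ} {x0 a b : ℝ}

/-- cells above `a` and the far part above `b` are a far part above `a` -/
theorem farS_ext (hp : 3 ≤ p) (hq : 3 ≤ q) (hr : 3 ≤ r) (hx : -2 < x0) (hx2 : x0 ≤ 2)
    (hb : 0 ≤ b) (h1 : CU p q r x0 a b) (h2 : FarS p q r x0 b) : FarS p q r x0 a := by
  obtain ⟨C1, h1⟩ := h1
  obtain ⟨C2, h2⟩ := h2
  have hd : 0 < min (2 / (4 + b)) 1 := lt_min (by positivity) one_pos
  obtain ⟨C3, hC3⟩ := pcert_gcertS hp hq hr hx hd C1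
  refine ⟨max C2 C3, fun w hw hi hre h => ?_⟩
  by_cases hw1 : w = 1
  · obtain ⟨R, hR⟩ := h2 w hw hi hre (Or.inl hw1)
    exact ⟨R, hR.mono (le_max_left _ _)⟩
  · have hh := h.resolve_left hw1
    rcases le_total (xw w).im b with g | g
    · have hQ : Qt x0 w := ⟨hw, hi, hre, hw1⟩
      obtain ⟨R, hR⟩ := h1 w hQ hh g
      have k1 : 2 / (4 + b) ≤ ‖1 - w‖ := by
        rw [div_le_iff₀ (by linarith)]
        have := (hQ.z hx hx2).d
        nlinarith [norm_nonneg (1 - w)]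
      have k2 : 1 ≤ ‖1 + w‖ := by
        have h3 : (1 + w).re ≤ ‖1 + w‖ := Complex.re_le_norm _
        have h4 : (1 + w).re = 1 + w.re := by simp
        linarith
      obtain ⟨R', hR'⟩ := hC3 w hw ((min_le_left _ _).trans k1) ((min_le_right _ _).trans k2)
        _ _ _ _ R hR
      exact ⟨R', hR'.mono (le_max_right _ _)⟩
    · obtain ⟨R, hR⟩ := h2 w hw hi hre (Or.inr g)
      exact ⟨R, hR.mono (le_max_left _ _)⟩

/-- rotation of the labels -/
theorem farS_rot (h : FarS r p q x0 b) : FarS p q r x0 b := by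
  obtain ⟨C, h⟩ := h
  refine ⟨C, fun w hw hi hr hb => ?_⟩
  obtain ⟨R, hR⟩ := h w hw hi hr hb
  exact ⟨_, hR.rl (rle_rot p q r w) (Y0_rel _) (liveT_rl (mmOK_rot p q r))⟩

/-- the quarter from cells of any kind and a far part -/
theorem qxS_of_cuS (hp : 3 ≤ p) (hq : 3 ≤ q) (hr : 3 ≤ r) (hx : -2 < x0) (hx2 : x0 ≤ 2)
    (hb : 0 ≤ b) (h1 : CU p q r x0 0 b) (h2 : FarS p q r x0 b) : QXS p q r x0 := by
  obtain ⟨A1, A2, hA⟩ := parts_of_cellsS hx hx2 hb h1 h2
  exact gcert_of_partsS hp hq hr hx (by positivity : (0 : ℝ) < 2 / (4 + b)) A1 A2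
    (hA _ _ le_rfl le_rfl)

/-- **THE QUARTER `(p, r, q)`** from near cells of `(p, r, q)` and middle cells and far part of
`(q, p, r)` -/
theorem qxS_rm (hp : 3 ≤ p) (hq : 3 ≤ q) (hr : 3 ≤ r) (hx : -2 < x0) (hx2 : x0 ≤ 2)
    {y e : ℝ} (n : TCellU p r q x0 0 y) (m : TCell q p r x0 a e) (hy : a ≤ y) (h0 : 0 ≤ y)
    (he : 8 ≤ e) (f : Far q p r x0 8) : QXS p r q x0 := by
  have k : FarS q p r x0 y := farS_ext hq hp hr hx hx2 (by norm_num : (0 : ℝ) ≤ 8)
    (cu_of_cell hq hp hr (tc_sub m hy he)) (farS_of f)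
  exact qxS_of_cuS hp hr hq hx hx2 h0 (n.cu hp hr hq) (farS_rot k)
end

end Pool.Agent.Helper81.MIT
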