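import Pool.Agent.Helper81.MIT.SubX

/-!
The line given by a quadratic polynomial of the weight of the tail: from a number close to the
threshold of one triple, and from another quadratic polynomial.
-/

set_option autoImplicit false
noncomputable section
namespace Pool.Agent.Helper81.MIT

open Pool.Agent.Helper6.MONO
open Pool.Agent.Helper84.XL (XH q3 par)
open Pool.Agent.Helper86.C75 (Z)
open Pool.Agent.Helper90.KMO (zv)

/-- the polynomial with the controls `x y z` on `[lo, hi]` takes at `k` a value within `n - 65` of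
`-X` and has slope at most `1` -/
def ptQ (lo hi n k X : ℕ) (x y z : ℤ) : Bool :=
  Nat.ble (Nat.succ lo) k && (Nat.ble (Nat.succ k) hi &&
    (decide (-((hi : ℤ) - lo) ≤ 2 * (y - x) ∧ 2 * (y - x) ≤ (hi : ℤ) - lo) &&
      (decide (-((hi : ℤ) - lo) ≤ 2 * (z - y) ∧ 2 * (z - y) ≤ (hi : ℤ) - lo) &&
        decide (-(((hi : ℤ) - lo) * ((hi : ℤ) - lo) * ((n : ℤ) - 65)) ≤
            sQ ((hi : ℤ) - lo) ((k : ℤ) - lo) ((k : ℤ) - lo) x y z +
              (X : ℤ) * (((hi : ℤ) - lo) * ((hi : ℤ) - lo)) ∧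
          sQ ((hi : ℤ) - lo) ((k : ℤ) - lo) ((k : ℤ) - lo) x y z +
              (X : ℤ) * (((hi : ℤ) - lo) * ((hi : ℤ) - lo)) ≤
            ((hi : ℤ) - lo) * ((hi : ℤ) - lo) * ((n : ℤ) - 65)))))

/-- the hypothesis on the line from a number close to the threshold -/
theorem xh_pt {A B C : Z} {lo hi n k X r : ℕ} {x0 : ℝ}
    (h : ptQ lo hi n k X (zv A) (zv B) (zv C) = true) (h1 : (k : ℝ) - 1 ≤ 2 ^ 48 * Kp r)
    (h2 : 2 ^ 48 * Kp r ≤ (k : ℝ) + 1) (hX : |2 ^ 48 * x0 - (-(X : ℝ))| ≤ ((64 : ℕ) : ℝ)) :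
    XH A B C lo hi n r x0 := by
  unfold ptQ at h
  simp only [Bool.and_eq_true] at h
  obtain ⟨g1, g2, g3, g4, g5⟩ := h
  obtain ⟨y1, y2⟩ := of_decide_eq_true g3
  obtain ⟨z1, z2⟩ := of_decide_eq_true g4
  obtain ⟨w1, w2⟩ := of_decide_eq_true g5
  have k1 : (lo : ℝ) + 1 ≤ k := by exact_mod_cast Nat.le_of_ble_eq_true g1
  have k2 : (k : ℝ) + 1 ≤ hi := by exact_mod_cast Nat.le_of_ble_eq_true g2
  generalize hx : zv A = x at *
  generalize hy : zv B = y at *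
  generalize hz : zv C = z at *
  have y1' : -((hi : ℝ) - lo) ≤ 2 * ((y : ℝ) - x) := by exact_mod_cast y1
  have y2' : 2 * ((y : ℝ) - x) ≤ (hi : ℝ) - lo := by exact_mod_cast y2
  have z1' : -((hi : ℝ) - lo) ≤ 2 * ((z : ℝ) - y) := by exact_mod_cast z1
  have z2' : 2 * ((z : ℝ) - y) ≤ (hi : ℝ) - lo := by exact_mod_cast z2
  have w1' : -(((hi : ℝ) - lo) * ((hi : ℝ) - lo) * ((n : ℝ) - 65)) ≤
      ((sQ ((hi : ℤ) - lo) ((k : ℤ) - lo) ((k : ℤ) - lo) x y z : ℤ) : ℝ) +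
        (X : ℝ) * (((hi : ℝ) - lo) * ((hi : ℝ) - lo)) := by exact_mod_cast w1
  have w2' : ((sQ ((hi : ℤ) - lo) ((k : ℤ) - lo) ((k : ℤ) - lo) x y z : ℤ) : ℝ) +
        (X : ℝ) * (((hi : ℝ) - lo) * ((hi : ℝ) - lo)) ≤
      ((hi : ℝ) - lo) * ((hi : ℝ) - lo) * ((n : ℝ) - 65) := by exact_mod_cast w2
  have hD : (0 : ℝ) < (hi : ℝ) - lo := by linarith
  have hDD : (0 : ℝ) < ((hi : ℝ) - lo) * ((hi : ℝ) - lo) := by positivity
  unfold XH
  rw [hx, hy, hz]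
  set κ : ℝ := 2 ^ 48 * Kp r with hκ
  set D : ℝ := (hi : ℝ) - lo with hDe
  set s : ℝ := par lo hi (Kp r) with hs
  have es : s = (κ - lo) / D := rfl
  set t : ℝ := ((k : ℝ) - lo) / D with ht
  have s0 : 0 ≤ s := by
    rw [es]
    exact div_nonneg (by linarith) hD.le
  have s1 : s ≤ 1 := by
    rw [es, div_le_one hD]
    linarith
  have t0 : 0 ≤ t := div_nonneg (by linarith) hD.le
  have t1 : t ≤ 1 := by
    rw [ht, div_le_one hD]
    linarith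
  have hst : |(s - t) * D| ≤ 1 := by
    have : (s - t) * D = κ - k := by
      rw [es, ht]
      field_simp
      ring
    rw [this, abs_le]
    constructor <;> linarith
  -- the value at `k`
  have ev : q3 (x : ℝ) y z t = ((sQ ((hi : ℤ) - lo) ((k : ℤ) - lo) ((k : ℤ) - lo) x y z : ℤ) : ℝ) /
      (D * D) := by
    rw [ht]
    unfold q3 sQ
    push_cast
    rw [← hDe]
    field_simp
    ring
  have hv : |q3 (x : ℝ) y z t + X| ≤ (n : ℝ) - 65 := by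
    have e : q3 (x : ℝ) y z t + X =
        (((sQ ((hi : ℤ) - lo) ((k : ℤ) - lo) ((k : ℤ) - lo) x y z : ℤ) : ℝ) + X * (D * D)) /
          (D * D) := by
      rw [ev]
      field_simp
    rw [e, abs_le]
    constructor
    · rw [le_div_iff₀ hDD]
      linarith
    · rw [div_le_iff₀ hDD]
      linarith
  -- the slope
  have ed : q3 (x : ℝ) y z s - q3 (x : ℝ) y z t =
      (s - t) * (((y : ℝ) - x) * (2 - (s + t)) + ((z : ℝ) - y) * (s + t)) := by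
    unfold q3
    ring
  have hM : |((y : ℝ) - x) * (2 - (s + t)) + ((z : ℝ) - y) * (s + t)| ≤ D := by
    have c1 : 0 ≤ 2 - (s + t) := by linarith
    have c2 : 0 ≤ s + t := by linarith
    have a1 := mul_le_mul_of_nonneg_right y1' c1
    have a2 := mul_le_mul_of_nonneg_right y2' c1
    have b1 := mul_le_mul_of_nonneg_right z1' c2
    have b2 := mul_le_mul_of_nonneg_right z2' c2
    rw [abs_le]
    constructor <;> nlinarith
  have hsl : |q3 (x : ℝ) y z s - q3 (x : ℝ) y z t| ≤ 1 := by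
    rw [ed, abs_mul]
    calc |s - t| * |((y : ℝ) - x) * (2 - (s + t)) + ((z : ℝ) - y) * (s + t)| ≤ |s - t| * D :=
          mul_le_mul_of_nonneg_left hM (abs_nonneg _)
      _ = |(s - t) * D| := by rw [abs_mul, abs_of_pos hD]
      _ ≤ 1 := hst
  have hX' := abs_le.1 hX
  have hv' := abs_le.1 hv
  have hs' := abs_le.1 hsl
  have e64 : ((64 : ℕ) : ℝ) = 64 := by norm_num
  rw [e64] at hX'
  rw [abs_le]
  constructor <;> linarith [hX'.1, hX'.2, hv'.1, hv'.2, hs'.1, hs'.2]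

/-- two controls within `m` units -/
def cN (D u v x y z E u' v' x' y' z' m : ℤ) : Bool :=
  decide (-(D * D * (E * E) * m) ≤ sQ D u v x y z * (E * E) - sQ E u' v' x' y' z' * (D * D) ∧
    sQ D u v x y z * (E * E) - sQ E u' v' x' y' z' * (D * D) ≤ D * D * (E * E) * m)

/-- two quadratic polynomials (on `[lo, hi]` and `[a, b]`) within `m` units on `[c, d]` -/
def cmpQ (lo hi a b c d m : ℕ) (x y z x' y' z' : ℤ) : Bool :=
  Nat.ble (Nat.succ lo) hi && (Nat.ble (Nat.succ a) b && (Nat.ble (Nat.succ c) d &&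
    (cN ((hi : ℤ) - lo) ((c : ℤ) - lo) ((c : ℤ) - lo) x y z
        ((b : ℤ) - a) ((c : ℤ) - a) ((c : ℤ) - a) x' y' z' m &&
      (cN ((hi : ℤ) - lo) ((c : ℤ) - lo) ((d : ℤ) - lo) x y z
          ((b : ℤ) - a) ((c : ℤ) - a) ((d : ℤ) - a) x' y' z' m &&
        cN ((hi : ℤ) - lo) ((d : ℤ) - lo) ((d : ℤ) - lo) x y z
          ((b : ℤ) - a) ((d : ℤ) - a) ((d : ℤ) - a) x' y' z' m))))

theorem cN_ok {D u v x y z E u' v' x' y' z' m : ℤ}
    (h : cN D u v x y z E u' v' x' y' z' m = true) (hD : (0 : ℝ) < D) (hE : (0 : ℝ) < E) :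
    |((sQ D u v x y z : ℤ) : ℝ) / ((D : ℝ) * D) - ((sQ E u' v' x' y' z' : ℤ) : ℝ) / ((E : ℝ) * E)| ≤
      (m : ℝ) := by
  obtain ⟨h1, h2⟩ := of_decide_eq_true h
  have g1 : -((D : ℝ) * D * ((E : ℝ) * E) * m) ≤ ((sQ D u v x y z : ℤ) : ℝ) * ((E : ℝ) * E) -
      ((sQ E u' v' x' y' z' : ℤ) : ℝ) * ((D : ℝ) * D) := by exact_mod_cast h1
  have g2 : ((sQ D u v x y z : ℤ) : ℝ) * ((E : ℝ) * E) -
      ((sQ E u' v' x' y' z' : ℤ) : ℝ) * ((D : ℝ) * D) ≤ (D : ℝ) * D * ((E : ℝ) * E) * m := by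
    exact_mod_cast h2
  have hp : (0 : ℝ) < (D : ℝ) * D * ((E : ℝ) * E) := by positivity
  have e : ((sQ D u v x y z : ℤ) : ℝ) / ((D : ℝ) * D) - ((sQ E u' v' x' y' z' : ℤ) : ℝ) / ((E : ℝ) * E) =
      (((sQ D u v x y z : ℤ) : ℝ) * ((E : ℝ) * E) - ((sQ E u' v' x' y' z' : ℤ) : ℝ) * ((D : ℝ) * D)) /
        ((D : ℝ) * D * ((E : ℝ) * E)) := by
    field_simp
  rw [e, abs_le]
  constructor
  · rw [le_div_iff₀ hp]
    linarith
  · rw [div_le_iff₀ hp]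
    linarith

theorem q3_diffm {a0 a1 a2 b0 b1 b2 t m : ℝ} (h0 : |a0 - b0| ≤ m) (h1 : |a1 - b1| ≤ m)
    (h2 : |a2 - b2| ≤ m) (t0 : 0 ≤ t) (t1 : t ≤ 1) : |q3 a0 a1 a2 t - q3 b0 b1 b2 t| ≤ m := by
  obtain ⟨u0, v0⟩ := abs_le.1 h0
  obtain ⟨u1, v1⟩ := abs_le.1 h1
  obtain ⟨u2, v2⟩ := abs_le.1 h2
  have e : q3 a0 a1 a2 t - q3 b0 b1 b2 t =
      (1 - t) ^ 2 * (a0 - b0) + 2 * t * (1 - t) * (a1 - b1) + t ^ 2 * (a2 - b2) := by
    unfold q3
    ring
  have c0 : (0 : ℝ) ≤ (1 - t) ^ 2 := sq_nonneg _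
  have c1 : (0 : ℝ) ≤ 2 * t * (1 - t) := by
    have := mul_nonneg t0 (by linarith : (0 : ℝ) ≤ 1 - t)
    linarith
  have c2 : (0 : ℝ) ≤ t ^ 2 := sq_nonneg _
  have em : (1 - t) ^ 2 * m + 2 * t * (1 - t) * m + t ^ 2 * m = m := by ring
  rw [e, abs_le]
  constructor
  · have k0 := mul_le_mul_of_nonneg_left u0 c0
    have k1 := mul_le_mul_of_nonneg_left u1 c1
    have k2 := mul_le_mul_of_nonneg_left u2 c2
    linarith
  · have k0 := mul_le_mul_of_nonneg_left v0 c0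
    have k1 := mul_le_mul_of_nonneg_left v1 c1
    have k2 := mul_le_mul_of_nonneg_left v2 c2
    linarith

/-- the polynomial on `[lo, hi]` in the parameter of `[c, d]` -/
theorem q3_repar {lo hi c d : ℕ} {x y z : ℤ} {κ : ℝ} (hD : (0 : ℝ) < (hi : ℝ) - lo)
    (hc : (c : ℝ) < d) :
    q3 (x : ℝ) y z (par lo hi κ) =
      q3 (((sQ ((hi : ℤ) - lo) ((c : ℤ) - lo) ((c : ℤ) - lo) x y z : ℤ) : ℝ) /
          ((((hi : ℤ) - lo : ℤ) : ℝ) * (((hi : ℤ) - lo : ℤ) : ℝ)))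
        (((sQ ((hi : ℤ) - lo) ((c : ℤ) - lo) ((d : ℤ) - lo) x y z : ℤ) : ℝ) /
          ((((hi : ℤ) - lo : ℤ) : ℝ) * (((hi : ℤ) - lo : ℤ) : ℝ)))
        (((sQ ((hi : ℤ) - lo) ((d : ℤ) - lo) ((d : ℤ) - lo) x y z : ℤ) : ℝ) /
          ((((hi : ℤ) - lo : ℤ) : ℝ) * (((hi : ℤ) - lo : ℤ) : ℝ))) (par c d κ) := by
  have hdc : (0 : ℝ) < (d : ℝ) - c := by linarith
  have et : 2 ^ 48 * κ = c + (d - c) * par c d κ := by
    unfold par
    field_simp
    ring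
  have es : par lo hi κ = ((c - lo) * (1 - par c d κ) + (d - lo) * par c d κ) / (hi - lo) := by
    have : par lo hi κ = (2 ^ 48 * κ - lo) / (hi - lo) := rfl
    rw [this, et]
    congr 1
    ring
  have hD' : (hi : ℝ) - lo ≠ 0 := hD.ne'
  rw [es]
  unfold q3 sQ
  push_cast
  field_simp
  ring

/-- the hypothesis on the line from another polynomial -/
theorem xh_cmp {A B C A' B' C' : Z} {lo hi a b c d m n n' r : ℕ} {x0 : ℝ}
    (h : cmpQ lo hi a b c d m (zv A) (zv B) (zv C) (zv A') (zv B') (zv C') = true)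
    (hn : n' + m ≤ n) (h1 : (c : ℝ) ≤ 2 ^ 48 * Kp r) (h2 : 2 ^ 48 * Kp r ≤ (d : ℝ))
    (hX : XH A' B' C' a b n' r x0) : XH A B C lo hi n r x0 := by
  unfold cmpQ at h
  simp only [Bool.and_eq_true] at h
  obtain ⟨g1, g2, g3, g4, g5, g6⟩ := h
  have k1 : (lo : ℝ) < hi := by exact_mod_cast Nat.lt_of_succ_le (Nat.le_of_ble_eq_true g1)
  have k2 : (a : ℝ) < b := by exact_mod_cast Nat.lt_of_succ_le (Nat.le_of_ble_eq_true g2)
  have k3 : (c : ℝ) < d := by exact_mod_cast Nat.lt_of_succ_le (Nat.le_of_ble_eq_true g3)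
  have hD : (0 : ℝ) < (((hi : ℤ) - lo : ℤ) : ℝ) := by
    push_cast
    linarith
  have hE : (0 : ℝ) < (((b : ℤ) - a : ℤ) : ℝ) := by
    push_cast
    linarith
  have m0 := cN_ok g4 hD hE
  have m1 := cN_ok g5 hD hE
  have m2 := cN_ok g6 hD hE
  unfold XH at hX ⊢
  have t0 : 0 ≤ par c d (Kp r) := by
    unfold par
    exact div_nonneg (by linarith) (by linarith)
  have t1 : par c d (Kp r) ≤ 1 := by
    unfold par
    rw [div_le_one (by linarith)]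
    linarith
  have e1 := q3_repar (lo := lo) (hi := hi) (x := zv A) (y := zv B) (z := zv C) (κ := Kp r)
    (by linarith) k3
  have e2 := q3_repar (lo := a) (hi := b) (x := zv A') (y := zv B') (z := zv C') (κ := Kp r)
    (by linarith) k3
  have dd := q3_diffm m0 m1 m2 t0 t1
  rw [← e1, ← e2] at dd
  have u1 := abs_le.1 hX
  have u2 := abs_le.1 dd
  have hn' : (n' : ℝ) + m ≤ n := by exact_mod_cast hn
  have em : (((m : ℕ) : ℤ) : ℝ) = (m : ℝ) := by push_cast; rfl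
  rw [em] at u2
  rw [abs_le]
  constructor <;> linarith [u1.1, u1.2, u2.1, u2.2]

/-- the weight of an order up to `48` -/
theorem kz_pm {M K : ℕ} (h3 : 3 ≤ M) (h48 : M ≤ 48) (e : kbz M = K) :
    (K : ℝ) - 1 ≤ 2 ^ 48 * Kp M ∧ 2 ^ 48 * Kp M ≤ (K : ℝ) + 1 := by
  obtain ⟨g1, g2⟩ := abs_le.1 (kapz M h3 h48)
  rw [e] at g1 g2
  have e1 : (2 : ℝ) ^ 48 * ((K : ℝ) / 2 ^ 48) = K := by field_simp
  have e2 : (2 : ℝ) ^ 48 * (1 / 2 ^ 48) = 1 := by norm_num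
  constructor <;> nlinarith

end Pool.Agent.Helper81.MIT
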