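import Pool.Agent.Helper81.MIT.Pt2

/-!
Single triples: the final statement from the statement on the lines close to a number.
-/

set_option autoImplicit false
set_option exponentiation.threshold 4000
noncomputable section
namespace Pool.Agent.Helper81.MIT

open Pool.Agent.Helper6.MONO (Kp xA fB fBx Thr FinAt ZF)

theorem zd_11_11_11 : PtD (kby 11) (kby 11) (kby 11) (-526230987637360) 64 (-379741484041418876 / 2 ^ 60) (-379741484041304187 / 2 ^ 60) := by
  refine ⟨by norm_num, by norm_num, by norm_num, by norm_num, by norm_num, ?_, ?_, ?_, ?_⟩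
  · rintro c (rfl | rfl) <;> norm_num [NN, kby, kbx, Pool.Agent.Helper6.MONO.kb]
  · rintro c (rfl | rfl) <;> norm_num [NN, kby, kbx, Pool.Agent.Helper6.MONO.kb]
  · norm_num [HH, kby, kbx, Pool.Agent.Helper6.MONO.kb]
  · norm_num [NN, kby, kbx, Pool.Agent.Helper6.MONO.kb]

/-- type B -/
theorem z_11_11_11 (h : ∀ x0 : ℝ, |2 ^ 48 * x0 - (-526230987637360)| ≤ 64 → Thr 11 11 11 x0 →
    fB 11 11 11 x0 = 0 → ZF 11 11 11 x0) : FinAt 11 11 11 :=
  fin_ptBZ (KW.of2 (by norm_num) (by norm_num)) (KW.of2 (by norm_num) (by norm_num))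
    (KW.of2 (by norm_num) (by norm_num)) (by norm_num) (by norm_num) (by norm_num) zd_11_11_11 (by norm_num)
    (by norm_num [HH, kby, kbx, Pool.Agent.Helper6.MONO.kb])
    (by norm_num [HH, kby, kbx, Pool.Agent.Helper6.MONO.kb])
    (by norm_num [NN, kby, kbx, Pool.Agent.Helper6.MONO.kb]) h

/-- type A -/
theorem z_11_11_12 (h : ∀ x0 : ℝ, |2 ^ 48 * x0 - (-525947583595187)| ≤ 64 → Thr 11 11 12 x0 →
    ZF 11 11 12 x0) : FinAt 11 11 12 := by
  refine fin_ptAZ (KV.of (by norm_num) (by norm_num)) (KV.of (by norm_num) (by norm_num))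
    (KV.of (by norm_num) (by norm_num)) (by norm_num) (by norm_num) (by norm_num) (X := -525947583595187)
    (n := 64) (by norm_num) (by norm_num) (by norm_num) ?_ ?_ ?_ h
  · norm_num [kby, kbx, Pool.Agent.Helper6.MONO.kb]
  · norm_num [kby, kbx, Pool.Agent.Helper6.MONO.kb]
  · norm_num [fBx, kby, kbx, Pool.Agent.Helper6.MONO.kb]

/-- type A -/
theorem z_11_11_13 (h : ∀ x0 : ℝ, |2 ^ 48 * x0 - (-524760122756531)| ≤ 64 → Thr 11 11 13 x0 →
    ZF 11 11 13 x0) : FinAt 11 11 13 := by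
  refine fin_ptAZ (KV.of (by norm_num) (by norm_num)) (KV.of (by norm_num) (by norm_num))
    (KV.of (by norm_num) (by norm_num)) (by norm_num) (by norm_num) (by norm_num) (X := -524760122756531)
    (n := 64) (by norm_num) (by norm_num) (by norm_num) ?_ ?_ ?_ h
  · norm_num [kby, kbx, Pool.Agent.Helper6.MONO.kb]
  · norm_num [kby, kbx, Pool.Agent.Helper6.MONO.kb]
  · norm_num [fBx, kby, kbx, Pool.Agent.Helper6.MONO.kb]

/-- type A -/
theorem z_11_11_14 (h : ∀ x0 : ℝ, |2 ^ 48 * x0 - (-523830814316139)| ≤ 64 → Thr 11 11 14 x0 →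
    ZF 11 11 14 x0) : FinAt 11 11 14 := by
  refine fin_ptAZ (KV.of (by norm_num) (by norm_num)) (KV.of (by norm_num) (by norm_num))
    (KV.of (by norm_num) (by norm_num)) (by norm_num) (by norm_num) (by norm_num) (X := -523830814316139)
    (n := 64) (by norm_num) (by norm_num) (by norm_num) ?_ ?_ ?_ h
  · norm_num [kby, kbx, Pool.Agent.Helper6.MONO.kb]
  · norm_num [kby, kbx, Pool.Agent.Helper6.MONO.kb]
  · norm_num [fBx, kby, kbx, Pool.Agent.Helper6.MONO.kb]

/-- type A -/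
theorem z_11_11_15 (h : ∀ x0 : ℝ, |2 ^ 48 * x0 - (-523089339580849)| ≤ 64 → Thr 11 11 15 x0 →
    ZF 11 11 15 x0) : FinAt 11 11 15 := by
  refine fin_ptAZ (KV.of (by norm_num) (by norm_num)) (KV.of (by norm_num) (by norm_num))
    (KV.of (by norm_num) (by norm_num)) (by norm_num) (by norm_num) (by norm_num) (X := -523089339580849)
    (n := 64) (by norm_num) (by norm_num) (by norm_num) ?_ ?_ ?_ h
  · norm_num [kby, kbx, Pool.Agent.Helper6.MONO.kb]
  · norm_num [kby, kbx, Pool.Agent.Helper6.MONO.kb]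
  · norm_num [fBx, kby, kbx, Pool.Agent.Helper6.MONO.kb]

/-- type A -/
theorem z_11_11_16 (h : ∀ x0 : ℝ, |2 ^ 48 * x0 - (-522487933787010)| ≤ 64 → Thr 11 11 16 x0 →
    ZF 11 11 16 x0) : FinAt 11 11 16 := by
  refine fin_ptAZ (KV.of (by norm_num) (by norm_num)) (KV.of (by norm_num) (by norm_num))
    (KV.of (by norm_num) (by norm_num)) (by norm_num) (by norm_num) (by norm_num) (X := -522487933787010)
    (n := 64) (by norm_num) (by norm_num) (by norm_num) ?_ ?_ ?_ h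
  · norm_num [kby, kbx, Pool.Agent.Helper6.MONO.kb]
  · norm_num [kby, kbx, Pool.Agent.Helper6.MONO.kb]
  · norm_num [fBx, kby, kbx, Pool.Agent.Helper6.MONO.kb]

/-- type A -/
theorem z_11_11_17 (h : ∀ x0 : ℝ, |2 ^ 48 * x0 - (-521993189383060)| ≤ 64 → Thr 11 11 17 x0 →
    ZF 11 11 17 x0) : FinAt 11 11 17 := by
  refine fin_ptAZ (KV.of (by norm_num) (by norm_num)) (KV.of (by norm_num) (by norm_num))
    (KV.of (by norm_num) (by norm_num)) (by norm_num) (by norm_num) (by norm_num) (X := -521993189383060)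
    (n := 64) (by norm_num) (by norm_num) (by norm_num) ?_ ?_ ?_ h
  · norm_num [kby, kbx, Pool.Agent.Helper6.MONO.kb]
  · norm_num [kby, kbx, Pool.Agent.Helper6.MONO.kb]
  · norm_num [fBx, kby, kbx, Pool.Agent.Helper6.MONO.kb]

theorem zd_11_12_12 : PtD (kby 11) (kby 12) (kby 12) (-527450410111083) 64 (-370986246918980330 / 2 ^ 60) (-370986246918865641 / 2 ^ 60) := by
  refine ⟨by norm_num, by norm_num, by norm_num, by norm_num, by norm_num, ?_, ?_, ?_, ?_⟩
  · rintro c (rfl | rfl) <;> norm_num [NN, kby, kbx, Pool.Agent.Helper6.MONO.kb]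
  · rintro c (rfl | rfl) <;> norm_num [NN, kby, kbx, Pool.Agent.Helper6.MONO.kb]
  · norm_num [HH, kby, kbx, Pool.Agent.Helper6.MONO.kb]
  · norm_num [NN, kby, kbx, Pool.Agent.Helper6.MONO.kb]

/-- type B -/
theorem z_11_12_12 (h : ∀ x0 : ℝ, |2 ^ 48 * x0 - (-527450410111083)| ≤ 64 → Thr 11 12 12 x0 →
    fB 11 12 12 x0 = 0 → ZF 11 12 12 x0) : FinAt 11 12 12 :=
  fin_ptBZ (KW.of2 (by norm_num) (by norm_num)) (KW.of2 (by norm_num) (by norm_num))
    (KW.of2 (by norm_num) (by norm_num)) (by norm_num) (by norm_num) (by norm_num) zd_11_12_12 (by norm_num)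
    (by norm_num [HH, kby, kbx, Pool.Agent.Helper6.MONO.kb])
    (by norm_num [HH, kby, kbx, Pool.Agent.Helper6.MONO.kb])
    (by norm_num [NN, kby, kbx, Pool.Agent.Helper6.MONO.kb]) h

theorem zd_11_12_13 : PtD (kby 11) (kby 12) (kby 13) (-527896827314141) 64 (-368266556056037821 / 2 ^ 60) (-368266556055923132 / 2 ^ 60) := by
  refine ⟨by norm_num, by norm_num, by norm_num, by norm_num, by norm_num, ?_, ?_, ?_, ?_⟩
  · rintro c (rfl | rfl) <;> norm_num [NN, kby, kbx, Pool.Agent.Helper6.MONO.kb]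
  · rintro c (rfl | rfl) <;> norm_num [NN, kby, kbx, Pool.Agent.Helper6.MONO.kb]
  · norm_num [HH, kby, kbx, Pool.Agent.Helper6.MONO.kb]
  · norm_num [NN, kby, kbx, Pool.Agent.Helper6.MONO.kb]

/-- type B -/
theorem z_11_12_13 (h : ∀ x0 : ℝ, |2 ^ 48 * x0 - (-527896827314141)| ≤ 64 → Thr 11 12 13 x0 →
    fB 11 12 13 x0 = 0 → ZF 11 12 13 x0) : FinAt 11 12 13 :=
  fin_ptBZ (KW.of2 (by norm_num) (by norm_num)) (KW.of2 (by norm_num) (by norm_num))
    (KW.of2 (by norm_num) (by norm_num)) (by norm_num) (by norm_num) (by norm_num) zd_11_12_13 (by norm_num)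
    (by norm_num [HH, kby, kbx, Pool.Agent.Helper6.MONO.kb])
    (by norm_num [HH, kby, kbx, Pool.Agent.Helper6.MONO.kb])
    (by norm_num [NN, kby, kbx, Pool.Agent.Helper6.MONO.kb]) h

/-- type A -/
theorem z_11_12_14 (h : ∀ x0 : ℝ, |2 ^ 48 * x0 - (-527446562986805)| ≤ 64 → Thr 11 12 14 x0 →
    ZF 11 12 14 x0) : FinAt 11 12 14 := by
  refine fin_ptAZ (KV.of (by norm_num) (by norm_num)) (KV.of (by norm_num) (by norm_num))
    (KV.of (by norm_num) (by norm_num)) (by norm_num) (by norm_num) (by norm_num) (X := -527446562986805)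
    (n := 64) (by norm_num) (by norm_num) (by norm_num) ?_ ?_ ?_ h
  · norm_num [kby, kbx, Pool.Agent.Helper6.MONO.kb]
  · norm_num [kby, kbx, Pool.Agent.Helper6.MONO.kb]
  · norm_num [fBx, kby, kbx, Pool.Agent.Helper6.MONO.kb]

/-- type A -/
theorem z_11_12_15 (h : ∀ x0 : ℝ, |2 ^ 48 * x0 - (-526686641513452)| ≤ 64 → Thr 11 12 15 x0 →
    ZF 11 12 15 x0) : FinAt 11 12 15 := by
  refine fin_ptAZ (KV.of (by norm_num) (by norm_num)) (KV.of (by norm_num) (by norm_num))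
    (KV.of (by norm_num) (by norm_num)) (by norm_num) (by norm_num) (by norm_num) (X := -526686641513452)
    (n := 64) (by norm_num) (by norm_num) (by norm_num) ?_ ?_ ?_ h
  · norm_num [kby, kbx, Pool.Agent.Helper6.MONO.kb]
  · norm_num [kby, kbx, Pool.Agent.Helper6.MONO.kb]
  · norm_num [fBx, kby, kbx, Pool.Agent.Helper6.MONO.kb]

/-- type A -/
theorem z_11_12_16 (h : ∀ x0 : ℝ, |2 ^ 48 * x0 - (-526070197731336)| ≤ 64 → Thr 11 12 16 x0 →
    ZF 11 12 16 x0) : FinAt 11 12 16 := by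
  refine fin_ptAZ (KV.of (by norm_num) (by norm_num)) (KV.of (by norm_num) (by norm_num))
    (KV.of (by norm_num) (by norm_num)) (by norm_num) (by norm_num) (by norm_num) (X := -526070197731336)
    (n := 64) (by norm_num) (by norm_num) (by norm_num) ?_ ?_ ?_ h
  · norm_num [kby, kbx, Pool.Agent.Helper6.MONO.kb]
  · norm_num [kby, kbx, Pool.Agent.Helper6.MONO.kb]
  · norm_num [fBx, kby, kbx, Pool.Agent.Helper6.MONO.kb]

theorem zd_11_13_13 : PtD (kby 11) (kby 13) (kby 13) (-528350659227703) 64 (-365053832116466094 / 2 ^ 60) (-365053832116351405 / 2 ^ 60) := by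
  refine ⟨by norm_num, by norm_num, by norm_num, by norm_num, by norm_num, ?_, ?_, ?_, ?_⟩
  · rintro c (rfl | rfl) <;> norm_num [NN, kby, kbx, Pool.Agent.Helper6.MONO.kb]
  · rintro c (rfl | rfl) <;> norm_num [NN, kby, kbx, Pool.Agent.Helper6.MONO.kb]
  · norm_num [HH, kby, kbx, Pool.Agent.Helper6.MONO.kb]
  · norm_num [NN, kby, kbx, Pool.Agent.Helper6.MONO.kb]

/-- type B -/
theorem z_11_13_13 (h : ∀ x0 : ℝ, |2 ^ 48 * x0 - (-528350659227703)| ≤ 64 → Thr 11 13 13 x0 →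
    fB 11 13 13 x0 = 0 → ZF 11 13 13 x0) : FinAt 11 13 13 :=
  fin_ptBZ (KW.of2 (by norm_num) (by norm_num)) (KW.of2 (by norm_num) (by norm_num))
    (KW.of2 (by norm_num) (by norm_num)) (by norm_num) (by norm_num) (by norm_num) zd_11_13_13 (by norm_num)
    (by norm_num [HH, kby, kbx, Pool.Agent.Helper6.MONO.kb])
    (by norm_num [HH, kby, kbx, Pool.Agent.Helper6.MONO.kb])
    (by norm_num [NN, kby, kbx, Pool.Agent.Helper6.MONO.kb]) h

theorem zd_11_13_14 : PtD (kby 11) (kby 13) (kby 14) (-528691574506788) 64 (-363087734456976661 / 2 ^ 60) (-363087734456861972 / 2 ^ 60) := by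
  refine ⟨by norm_num, by norm_num, by norm_num, by norm_num, by norm_num, ?_, ?_, ?_, ?_⟩
  · rintro c (rfl | rfl) <;> norm_num [NN, kby, kbx, Pool.Agent.Helper6.MONO.kb]
  · rintro c (rfl | rfl) <;> norm_num [NN, kby, kbx, Pool.Agent.Helper6.MONO.kb]
  · norm_num [HH, kby, kbx, Pool.Agent.Helper6.MONO.kb]
  · norm_num [NN, kby, kbx, Pool.Agent.Helper6.MONO.kb]

/-- type B -/
theorem z_11_13_14 (h : ∀ x0 : ℝ, |2 ^ 48 * x0 - (-528691574506788)| ≤ 64 → Thr 11 13 14 x0 →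
    fB 11 13 14 x0 = 0 → ZF 11 13 14 x0) : FinAt 11 13 14 :=
  fin_ptBZ (KW.of2 (by norm_num) (by norm_num)) (KW.of2 (by norm_num) (by norm_num))
    (KW.of2 (by norm_num) (by norm_num)) (by norm_num) (by norm_num) (by norm_num) zd_11_13_14 (by norm_num)
    (by norm_num [HH, kby, kbx, Pool.Agent.Helper6.MONO.kb])
    (by norm_num [HH, kby, kbx, Pool.Agent.Helper6.MONO.kb])
    (by norm_num [NN, kby, kbx, Pool.Agent.Helper6.MONO.kb]) h

theorem zd_11_13_15 : PtD (kby 11) (kby 13) (kby 15) (-528954800476117) 64 (-361858998852253949 / 2 ^ 60) (-361858998852139260 / 2 ^ 60) := by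
  refine ⟨by norm_num, by norm_num, by norm_num, by norm_num, by norm_num, ?_, ?_, ?_, ?_⟩
  · rintro c (rfl | rfl) <;> norm_num [NN, kby, kbx, Pool.Agent.Helper6.MONO.kb]
  · rintro c (rfl | rfl) <;> norm_num [NN, kby, kbx, Pool.Agent.Helper6.MONO.kb]
  · norm_num [HH, kby, kbx, Pool.Agent.Helper6.MONO.kb]
  · norm_num [NN, kby, kbx, Pool.Agent.Helper6.MONO.kb]

/-- type B -/
theorem z_11_13_15 (h : ∀ x0 : ℝ, |2 ^ 48 * x0 - (-528954800476117)| ≤ 64 → Thr 11 13 15 x0 →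
    fB 11 13 15 x0 = 0 → ZF 11 13 15 x0) : FinAt 11 13 15 :=
  fin_ptBZ (KW.of2 (by norm_num) (by norm_num)) (KW.of2 (by norm_num) (by norm_num))
    (KW.of2 (by norm_num) (by norm_num)) (by norm_num) (by norm_num) (by norm_num) zd_11_13_15 (by norm_num)
    (by norm_num [HH, kby, kbx, Pool.Agent.Helper6.MONO.kb])
    (by norm_num [HH, kby, kbx, Pool.Agent.Helper6.MONO.kb])
    (by norm_num [NN, kby, kbx, Pool.Agent.Helper6.MONO.kb]) h

/-- type A -/
theorem z_11_13_16 (h : ∀ x0 : ℝ, |2 ^ 48 * x0 - (-528863090460729)| ≤ 64 → Thr 11 13 16 x0 →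
    ZF 11 13 16 x0) : FinAt 11 13 16 := by
  refine fin_ptAZ (KV.of (by norm_num) (by norm_num)) (KV.of (by norm_num) (by norm_num))
    (KV.of (by norm_num) (by norm_num)) (by norm_num) (by norm_num) (by norm_num) (X := -528863090460729)
    (n := 64) (by norm_num) (by norm_num) (by norm_num) ?_ ?_ ?_ h
  · norm_num [kby, kbx, Pool.Agent.Helper6.MONO.kb]
  · norm_num [kby, kbx, Pool.Agent.Helper6.MONO.kb]
  · norm_num [fBx, kby, kbx, Pool.Agent.Helper6.MONO.kb]

theorem zd_11_14_14 : PtD (kby 11) (kby 14) (kby 14) (-529037149815906) 64 (-360814211231617913 / 2 ^ 60) (-360814211231503224 / 2 ^ 60) := by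
  refine ⟨by norm_num, by norm_num, by norm_num, by norm_num, by norm_num, ?_, ?_, ?_, ?_⟩
  · rintro c (rfl | rfl) <;> norm_num [NN, kby, kbx, Pool.Agent.Helper6.MONO.kb]
  · rintro c (rfl | rfl) <;> norm_num [NN, kby, kbx, Pool.Agent.Helper6.MONO.kb]
  · norm_num [HH, kby, kbx, Pool.Agent.Helper6.MONO.kb]
  · norm_num [NN, kby, kbx, Pool.Agent.Helper6.MONO.kb]

/-- type B -/
theorem z_11_14_14 (h : ∀ x0 : ℝ, |2 ^ 48 * x0 - (-529037149815906)| ≤ 64 → Thr 11 14 14 x0 →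
    fB 11 14 14 x0 = 0 → ZF 11 14 14 x0) : FinAt 11 14 14 :=
  fin_ptBZ (KW.of2 (by norm_num) (by norm_num)) (KW.of2 (by norm_num) (by norm_num))
    (KW.of2 (by norm_num) (by norm_num)) (by norm_num) (by norm_num) (by norm_num) zd_11_14_14 (by norm_num)
    (by norm_num [HH, kby, kbx, Pool.Agent.Helper6.MONO.kb])
    (by norm_num [HH, kby, kbx, Pool.Agent.Helper6.MONO.kb])
    (by norm_num [NN, kby, kbx, Pool.Agent.Helper6.MONO.kb]) h

theorem zd_11_14_15 : PtD (kby 11) (kby 14) (kby 15) (-529304138217973) 64 (-359337670823591625 / 2 ^ 60) (-359337670823476936 / 2 ^ 60) := by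
  refine ⟨by norm_num, by norm_num, by norm_num, by norm_num, by norm_num, ?_, ?_, ?_, ?_⟩
  · rintro c (rfl | rfl) <;> norm_num [NN, kby, kbx, Pool.Agent.Helper6.MONO.kb]
  · rintro c (rfl | rfl) <;> norm_num [NN, kby, kbx, Pool.Agent.Helper6.MONO.kb]
  · norm_num [HH, kby, kbx, Pool.Agent.Helper6.MONO.kb]
  · norm_num [NN, kby, kbx, Pool.Agent.Helper6.MONO.kb]

/-- type B -/
theorem z_11_14_15 (h : ∀ x0 : ℝ, |2 ^ 48 * x0 - (-529304138217973)| ≤ 64 → Thr 11 14 15 x0 →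
    fB 11 14 15 x0 = 0 → ZF 11 14 15 x0) : FinAt 11 14 15 :=
  fin_ptBZ (KW.of2 (by norm_num) (by norm_num)) (KW.of2 (by norm_num) (by norm_num))
    (KW.of2 (by norm_num) (by norm_num)) (by norm_num) (by norm_num) (by norm_num) zd_11_14_15 (by norm_num)
    (by norm_num [HH, kby, kbx, Pool.Agent.Helper6.MONO.kb])
    (by norm_num [HH, kby, kbx, Pool.Agent.Helper6.MONO.kb])
    (by norm_num [NN, kby, kbx, Pool.Agent.Helper6.MONO.kb]) h

end Pool.Agent.Helper81.MIT
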