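import Pool.Agent.Helper81.MIT.Pt2

/-!
Single triples: the final statement from the statement on the lines close to a number.
-/

set_option autoImplicit false
set_option exponentiation.threshold 4000
noncomputable section
namespace Pool.Agent.Helper81.MIT

open Pool.Agent.Helper6.MONO (Kp xA fB fBx Thr FinAt ZF)

theorem zd60_12_14_21 : PtD (kby 12) (kby 14) (kby 21) (-530788732273873) 60 (-347618424593369820 / 2 ^ 60) (-347618424593255131 / 2 ^ 60) := by
  refine ⟨by norm_num, by norm_num, by norm_num, by norm_num, by norm_num, ?_, ?_, ?_, ?_⟩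
  · rintro c (rfl | rfl) <;> norm_num [NN, kby, kbx, Pool.Agent.Helper6.MONO.kb]
  · rintro c (rfl | rfl) <;> norm_num [NN, kby, kbx, Pool.Agent.Helper6.MONO.kb]
  · norm_num [HH, kby, kbx, Pool.Agent.Helper6.MONO.kb]
  · norm_num [NN, kby, kbx, Pool.Agent.Helper6.MONO.kb]

/-- type B -/
theorem z60_12_14_21 (h : ∀ x0 : ℝ, |2 ^ 48 * x0 - (-530788732273873)| ≤ 60 → Thr 12 14 21 x0 →
    fB 12 14 21 x0 = 0 → ZF 12 14 21 x0) : FinAt 12 14 21 :=
  fin_ptBZ (KW.of2 (by norm_num) (by norm_num)) (KW.of2 (by norm_num) (by norm_num))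
    (KW.of2 (by norm_num) (by norm_num)) (by norm_num) (by norm_num) (by norm_num) zd60_12_14_21 (by norm_num)
    (by norm_num [HH, kby, kbx, Pool.Agent.Helper6.MONO.kb])
    (by norm_num [HH, kby, kbx, Pool.Agent.Helper6.MONO.kb])
    (by norm_num [NN, kby, kbx, Pool.Agent.Helper6.MONO.kb]) h

theorem zd60_13_13_15 : PtD (kby 13) (kby 13) (kby 15) (-530081100026736) 60 (-349681332968538273 / 2 ^ 60) (-349681332968423584 / 2 ^ 60) := by
  refine ⟨by norm_num, by norm_num, by norm_num, by norm_num, by norm_num, ?_, ?_, ?_, ?_⟩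
  · rintro c (rfl | rfl) <;> norm_num [NN, kby, kbx, Pool.Agent.Helper6.MONO.kb]
  · rintro c (rfl | rfl) <;> norm_num [NN, kby, kbx, Pool.Agent.Helper6.MONO.kb]
  · norm_num [HH, kby, kbx, Pool.Agent.Helper6.MONO.kb]
  · norm_num [NN, kby, kbx, Pool.Agent.Helper6.MONO.kb]

/-- type B -/
theorem z60_13_13_15 (h : ∀ x0 : ℝ, |2 ^ 48 * x0 - (-530081100026736)| ≤ 60 → Thr 13 13 15 x0 →
    fB 13 13 15 x0 = 0 → ZF 13 13 15 x0) : FinAt 13 13 15 :=
  fin_ptBZ (KW.of2 (by norm_num) (by norm_num)) (KW.of2 (by norm_num) (by norm_num))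
    (KW.of2 (by norm_num) (by norm_num)) (by norm_num) (by norm_num) (by norm_num) zd60_13_13_15 (by norm_num)
    (by norm_num [HH, kby, kbx, Pool.Agent.Helper6.MONO.kb])
    (by norm_num [HH, kby, kbx, Pool.Agent.Helper6.MONO.kb])
    (by norm_num [NN, kby, kbx, Pool.Agent.Helper6.MONO.kb]) h

theorem zd60_13_13_16 : PtD (kby 13) (kby 13) (kby 16) (-530295963241258) 60 (-348386032399482203 / 2 ^ 60) (-348386032399367514 / 2 ^ 60) := by
  refine ⟨by norm_num, by norm_num, by norm_num, by norm_num, by norm_num, ?_, ?_, ?_, ?_⟩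
  · rintro c (rfl | rfl) <;> norm_num [NN, kby, kbx, Pool.Agent.Helper6.MONO.kb]
  · rintro c (rfl | rfl) <;> norm_num [NN, kby, kbx, Pool.Agent.Helper6.MONO.kb]
  · norm_num [HH, kby, kbx, Pool.Agent.Helper6.MONO.kb]
  · norm_num [NN, kby, kbx, Pool.Agent.Helper6.MONO.kb]

/-- type B -/
theorem z60_13_13_16 (h : ∀ x0 : ℝ, |2 ^ 48 * x0 - (-530295963241258)| ≤ 60 → Thr 13 13 16 x0 →
    fB 13 13 16 x0 = 0 → ZF 13 13 16 x0) : FinAt 13 13 16 :=
  fin_ptBZ (KW.of2 (by norm_num) (by norm_num)) (KW.of2 (by norm_num) (by norm_num))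
    (KW.of2 (by norm_num) (by norm_num)) (by norm_num) (by norm_num) (by norm_num) zd60_13_13_16 (by norm_num)
    (by norm_num [HH, kby, kbx, Pool.Agent.Helper6.MONO.kb])
    (by norm_num [HH, kby, kbx, Pool.Agent.Helper6.MONO.kb])
    (by norm_num [NN, kby, kbx, Pool.Agent.Helper6.MONO.kb]) h

theorem zd60_13_13_17 : PtD (kby 13) (kby 13) (kby 17) (-530469103060617) 60 (-347458760099384377 / 2 ^ 60) (-347458760099269688 / 2 ^ 60) := by
  refine ⟨by norm_num, by norm_num, by norm_num, by norm_num, by norm_num, ?_, ?_, ?_, ?_⟩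
  · rintro c (rfl | rfl) <;> norm_num [NN, kby, kbx, Pool.Agent.Helper6.MONO.kb]
  · rintro c (rfl | rfl) <;> norm_num [NN, kby, kbx, Pool.Agent.Helper6.MONO.kb]
  · norm_num [HH, kby, kbx, Pool.Agent.Helper6.MONO.kb]
  · norm_num [NN, kby, kbx, Pool.Agent.Helper6.MONO.kb]

/-- type B -/
theorem z60_13_13_17 (h : ∀ x0 : ℝ, |2 ^ 48 * x0 - (-530469103060617)| ≤ 60 → Thr 13 13 17 x0 →
    fB 13 13 17 x0 = 0 → ZF 13 13 17 x0) : FinAt 13 13 17 :=
  fin_ptBZ (KW.of2 (by norm_num) (by norm_num)) (KW.of2 (by norm_num) (by norm_num))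
    (KW.of2 (by norm_num) (by norm_num)) (by norm_num) (by norm_num) (by norm_num) zd60_13_13_17 (by norm_num)
    (by norm_num [HH, kby, kbx, Pool.Agent.Helper6.MONO.kb])
    (by norm_num [HH, kby, kbx, Pool.Agent.Helper6.MONO.kb])
    (by norm_num [NN, kby, kbx, Pool.Agent.Helper6.MONO.kb]) h

theorem zd60_13_13_18 : PtD (kby 13) (kby 13) (kby 18) (-530610830954608) 60 (-346781529868662004 / 2 ^ 60) (-346781529868547315 / 2 ^ 60) := by
  refine ⟨by norm_num, by norm_num, by norm_num, by norm_num, by norm_num, ?_, ?_, ?_, ?_⟩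
  · rintro c (rfl | rfl) <;> norm_num [NN, kby, kbx, Pool.Agent.Helper6.MONO.kb]
  · rintro c (rfl | rfl) <;> norm_num [NN, kby, kbx, Pool.Agent.Helper6.MONO.kb]
  · norm_num [HH, kby, kbx, Pool.Agent.Helper6.MONO.kb]
  · norm_num [NN, kby, kbx, Pool.Agent.Helper6.MONO.kb]

/-- type B -/
theorem z60_13_13_18 (h : ∀ x0 : ℝ, |2 ^ 48 * x0 - (-530610830954608)| ≤ 60 → Thr 13 13 18 x0 →
    fB 13 13 18 x0 = 0 → ZF 13 13 18 x0) : FinAt 13 13 18 :=
  fin_ptBZ (KW.of2 (by norm_num) (by norm_num)) (KW.of2 (by norm_num) (by norm_num))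
    (KW.of2 (by norm_num) (by norm_num)) (by norm_num) (by norm_num) (by norm_num) zd60_13_13_18 (by norm_num)
    (by norm_num [HH, kby, kbx, Pool.Agent.Helper6.MONO.kb])
    (by norm_num [HH, kby, kbx, Pool.Agent.Helper6.MONO.kb])
    (by norm_num [NN, kby, kbx, Pool.Agent.Helper6.MONO.kb]) h

theorem zd60_13_13_19 : PtD (kby 13) (kby 13) (kby 19) (-530728422421504) 60 (-346278330035229197 / 2 ^ 60) (-346278330035114508 / 2 ^ 60) := by
  refine ⟨by norm_num, by norm_num, by norm_num, by norm_num, by norm_num, ?_, ?_, ?_, ?_⟩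
  · rintro c (rfl | rfl) <;> norm_num [NN, kby, kbx, Pool.Agent.Helper6.MONO.kb]
  · rintro c (rfl | rfl) <;> norm_num [NN, kby, kbx, Pool.Agent.Helper6.MONO.kb]
  · norm_num [HH, kby, kbx, Pool.Agent.Helper6.MONO.kb]
  · norm_num [NN, kby, kbx, Pool.Agent.Helper6.MONO.kb]

/-- type B -/
theorem z60_13_13_19 (h : ∀ x0 : ℝ, |2 ^ 48 * x0 - (-530728422421504)| ≤ 60 → Thr 13 13 19 x0 →
    fB 13 13 19 x0 = 0 → ZF 13 13 19 x0) : FinAt 13 13 19 :=
  fin_ptBZ (KW.of2 (by norm_num) (by norm_num)) (KW.of2 (by norm_num) (by norm_num))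
    (KW.of2 (by norm_num) (by norm_num)) (by norm_num) (by norm_num) (by norm_num) zd60_13_13_19 (by norm_num)
    (by norm_num [HH, kby, kbx, Pool.Agent.Helper6.MONO.kb])
    (by norm_num [HH, kby, kbx, Pool.Agent.Helper6.MONO.kb])
    (by norm_num [NN, kby, kbx, Pool.Agent.Helper6.MONO.kb]) h

theorem zd60_13_13_20 : PtD (kby 13) (kby 13) (kby 20) (-530827139099825) 60 (-345898798318060509 / 2 ^ 60) (-345898798317945820 / 2 ^ 60) := by
  refine ⟨by norm_num, by norm_num, by norm_num, by norm_num, by norm_num, ?_, ?_, ?_, ?_⟩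
  · rintro c (rfl | rfl) <;> norm_num [NN, kby, kbx, Pool.Agent.Helper6.MONO.kb]
  · rintro c (rfl | rfl) <;> norm_num [NN, kby, kbx, Pool.Agent.Helper6.MONO.kb]
  · norm_num [HH, kby, kbx, Pool.Agent.Helper6.MONO.kb]
  · norm_num [NN, kby, kbx, Pool.Agent.Helper6.MONO.kb]

/-- type B -/
theorem z60_13_13_20 (h : ∀ x0 : ℝ, |2 ^ 48 * x0 - (-530827139099825)| ≤ 60 → Thr 13 13 20 x0 →
    fB 13 13 20 x0 = 0 → ZF 13 13 20 x0) : FinAt 13 13 20 :=
  fin_ptBZ (KW.of2 (by norm_num) (by norm_num)) (KW.of2 (by norm_num) (by norm_num))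
    (KW.of2 (by norm_num) (by norm_num)) (by norm_num) (by norm_num) (by norm_num) zd60_13_13_20 (by norm_num)
    (by norm_num [HH, kby, kbx, Pool.Agent.Helper6.MONO.kb])
    (by norm_num [HH, kby, kbx, Pool.Agent.Helper6.MONO.kb])
    (by norm_num [NN, kby, kbx, Pool.Agent.Helper6.MONO.kb]) h

theorem zd60_13_13_21 : PtD (kby 13) (kby 13) (kby 21) (-530910868077600) 60 (-345608753845903927 / 2 ^ 60) (-345608753845789238 / 2 ^ 60) := by
  refine ⟨by norm_num, by norm_num, by norm_num, by norm_num, by norm_num, ?_, ?_, ?_, ?_⟩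
  · rintro c (rfl | rfl) <;> norm_num [NN, kby, kbx, Pool.Agent.Helper6.MONO.kb]
  · rintro c (rfl | rfl) <;> norm_num [NN, kby, kbx, Pool.Agent.Helper6.MONO.kb]
  · norm_num [HH, kby, kbx, Pool.Agent.Helper6.MONO.kb]
  · norm_num [NN, kby, kbx, Pool.Agent.Helper6.MONO.kb]

/-- type B -/
theorem z60_13_13_21 (h : ∀ x0 : ℝ, |2 ^ 48 * x0 - (-530910868077600)| ≤ 60 → Thr 13 13 21 x0 →
    fB 13 13 21 x0 = 0 → ZF 13 13 21 x0) : FinAt 13 13 21 :=
  fin_ptBZ (KW.of2 (by norm_num) (by norm_num)) (KW.of2 (by norm_num) (by norm_num))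
    (KW.of2 (by norm_num) (by norm_num)) (by norm_num) (by norm_num) (by norm_num) zd60_13_13_21 (by norm_num)
    (by norm_num [HH, kby, kbx, Pool.Agent.Helper6.MONO.kb])
    (by norm_num [HH, kby, kbx, Pool.Agent.Helper6.MONO.kb])
    (by norm_num [NN, kby, kbx, Pool.Agent.Helper6.MONO.kb]) h

theorem zd60_13_13_22 : PtD (kby 13) (kby 13) (kby 22) (-530982534813139) 60 (-345384506379403551 / 2 ^ 60) (-345384506379288862 / 2 ^ 60) := by
  refine ⟨by norm_num, by norm_num, by norm_num, by norm_num, by norm_num, ?_, ?_, ?_, ?_⟩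
  · rintro c (rfl | rfl) <;> norm_num [NN, kby, kbx, Pool.Agent.Helper6.MONO.kb]
  · rintro c (rfl | rfl) <;> norm_num [NN, kby, kbx, Pool.Agent.Helper6.MONO.kb]
  · norm_num [HH, kby, kbx, Pool.Agent.Helper6.MONO.kb]
  · norm_num [NN, kby, kbx, Pool.Agent.Helper6.MONO.kb]

/-- type B -/
theorem z60_13_13_22 (h : ∀ x0 : ℝ, |2 ^ 48 * x0 - (-530982534813139)| ≤ 60 → Thr 13 13 22 x0 →
    fB 13 13 22 x0 = 0 → ZF 13 13 22 x0) : FinAt 13 13 22 :=
  fin_ptBZ (KW.of2 (by norm_num) (by norm_num)) (KW.of2 (by norm_num) (by norm_num))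
    (KW.of2 (by norm_num) (by norm_num)) (by norm_num) (by norm_num) (by norm_num) zd60_13_13_22 (by norm_num)
    (by norm_num [HH, kby, kbx, Pool.Agent.Helper6.MONO.kb])
    (by norm_num [HH, kby, kbx, Pool.Agent.Helper6.MONO.kb])
    (by norm_num [NN, kby, kbx, Pool.Agent.Helper6.MONO.kb]) h

theorem zd60_13_13_23 : PtD (kby 13) (kby 13) (kby 23) (-531044377346227) 60 (-345209330091457944 / 2 ^ 60) (-345209330091343255 / 2 ^ 60) := by
  refine ⟨by norm_num, by norm_num, by norm_num, by norm_num, by norm_num, ?_, ?_, ?_, ?_⟩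
  · rintro c (rfl | rfl) <;> norm_num [NN, kby, kbx, Pool.Agent.Helper6.MONO.kb]
  · rintro c (rfl | rfl) <;> norm_num [NN, kby, kbx, Pool.Agent.Helper6.MONO.kb]
  · norm_num [HH, kby, kbx, Pool.Agent.Helper6.MONO.kb]
  · norm_num [NN, kby, kbx, Pool.Agent.Helper6.MONO.kb]

/-- type B -/
theorem z60_13_13_23 (h : ∀ x0 : ℝ, |2 ^ 48 * x0 - (-531044377346227)| ≤ 60 → Thr 13 13 23 x0 →
    fB 13 13 23 x0 = 0 → ZF 13 13 23 x0) : FinAt 13 13 23 :=
  fin_ptBZ (KW.of2 (by norm_num) (by norm_num)) (KW.of2 (by norm_num) (by norm_num))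
    (KW.of2 (by norm_num) (by norm_num)) (by norm_num) (by norm_num) (by norm_num) zd60_13_13_23 (by norm_num)
    (by norm_num [HH, kby, kbx, Pool.Agent.Helper6.MONO.kb])
    (by norm_num [HH, kby, kbx, Pool.Agent.Helper6.MONO.kb])
    (by norm_num [NN, kby, kbx, Pool.Agent.Helper6.MONO.kb]) h

theorem zd60_13_13_24 : PtD (kby 13) (kby 13) (kby 24) (-531098132876667) 60 (-345071220147773486 / 2 ^ 60) (-345071220147658797 / 2 ^ 60) := by
  refine ⟨by norm_num, by norm_num, by norm_num, by norm_num, by norm_num, ?_, ?_, ?_, ?_⟩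
  · rintro c (rfl | rfl) <;> norm_num [NN, kby, kbx, Pool.Agent.Helper6.MONO.kb]
  · rintro c (rfl | rfl) <;> norm_num [NN, kby, kbx, Pool.Agent.Helper6.MONO.kb]
  · norm_num [HH, kby, kbx, Pool.Agent.Helper6.MONO.kb]
  · norm_num [NN, kby, kbx, Pool.Agent.Helper6.MONO.kb]

/-- type B -/
theorem z60_13_13_24 (h : ∀ x0 : ℝ, |2 ^ 48 * x0 - (-531098132876667)| ≤ 60 → Thr 13 13 24 x0 →
    fB 13 13 24 x0 = 0 → ZF 13 13 24 x0) : FinAt 13 13 24 :=
  fin_ptBZ (KW.of2 (by norm_num) (by norm_num)) (KW.of2 (by norm_num) (by norm_num))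
    (KW.of2 (by norm_num) (by norm_num)) (by norm_num) (by norm_num) (by norm_num) zd60_13_13_24 (by norm_num)
    (by norm_num [HH, kby, kbx, Pool.Agent.Helper6.MONO.kb])
    (by norm_num [HH, kby, kbx, Pool.Agent.Helper6.MONO.kb])
    (by norm_num [NN, kby, kbx, Pool.Agent.Helper6.MONO.kb]) h

theorem zd60_13_14_15 : PtD (kby 13) (kby 14) (kby 15) (-530438639769506) 60 (-346485855080450799 / 2 ^ 60) (-346485855080336110 / 2 ^ 60) := by
  refine ⟨by norm_num, by norm_num, by norm_num, by norm_num, by norm_num, ?_, ?_, ?_, ?_⟩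
  · rintro c (rfl | rfl) <;> norm_num [NN, kby, kbx, Pool.Agent.Helper6.MONO.kb]
  · rintro c (rfl | rfl) <;> norm_num [NN, kby, kbx, Pool.Agent.Helper6.MONO.kb]
  · norm_num [HH, kby, kbx, Pool.Agent.Helper6.MONO.kb]
  · norm_num [NN, kby, kbx, Pool.Agent.Helper6.MONO.kb]

/-- type B -/
theorem z60_13_14_15 (h : ∀ x0 : ℝ, |2 ^ 48 * x0 - (-530438639769506)| ≤ 60 → Thr 13 14 15 x0 →
    fB 13 14 15 x0 = 0 → ZF 13 14 15 x0) : FinAt 13 14 15 :=
  fin_ptBZ (KW.of2 (by norm_num) (by norm_num)) (KW.of2 (by norm_num) (by norm_num))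
    (KW.of2 (by norm_num) (by norm_num)) (by norm_num) (by norm_num) (by norm_num) zd60_13_14_15 (by norm_num)
    (by norm_num [HH, kby, kbx, Pool.Agent.Helper6.MONO.kb])
    (by norm_num [HH, kby, kbx, Pool.Agent.Helper6.MONO.kb])
    (by norm_num [NN, kby, kbx, Pool.Agent.Helper6.MONO.kb]) h

theorem zd60_13_14_16 : PtD (kby 13) (kby 14) (kby 16) (-530655875947127) 60 (-345018152592399291 / 2 ^ 60) (-345018152592284602 / 2 ^ 60) := by
  refine ⟨by norm_num, by norm_num, by norm_num, by norm_num, by norm_num, ?_, ?_, ?_, ?_⟩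
  · rintro c (rfl | rfl) <;> norm_num [NN, kby, kbx, Pool.Agent.Helper6.MONO.kb]
  · rintro c (rfl | rfl) <;> norm_num [NN, kby, kbx, Pool.Agent.Helper6.MONO.kb]
  · norm_num [HH, kby, kbx, Pool.Agent.Helper6.MONO.kb]
  · norm_num [NN, kby, kbx, Pool.Agent.Helper6.MONO.kb]

/-- type B -/
theorem z60_13_14_16 (h : ∀ x0 : ℝ, |2 ^ 48 * x0 - (-530655875947127)| ≤ 60 → Thr 13 14 16 x0 →
    fB 13 14 16 x0 = 0 → ZF 13 14 16 x0) : FinAt 13 14 16 :=
  fin_ptBZ (KW.of2 (by norm_num) (by norm_num)) (KW.of2 (by norm_num) (by norm_num))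
    (KW.of2 (by norm_num) (by norm_num)) (by norm_num) (by norm_num) (by norm_num) zd60_13_14_16 (by norm_num)
    (by norm_num [HH, kby, kbx, Pool.Agent.Helper6.MONO.kb])
    (by norm_num [HH, kby, kbx, Pool.Agent.Helper6.MONO.kb])
    (by norm_num [NN, kby, kbx, Pool.Agent.Helper6.MONO.kb]) h

theorem zd60_13_14_17 : PtD (kby 13) (kby 14) (kby 17) (-530830998719520) 60 (-343947079129501689 / 2 ^ 60) (-343947079129387000 / 2 ^ 60) := by
  refine ⟨by norm_num, by norm_num, by norm_num, by norm_num, by norm_num, ?_, ?_, ?_, ?_⟩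
  · rintro c (rfl | rfl) <;> norm_num [NN, kby, kbx, Pool.Agent.Helper6.MONO.kb]
  · rintro c (rfl | rfl) <;> norm_num [NN, kby, kbx, Pool.Agent.Helper6.MONO.kb]
  · norm_num [HH, kby, kbx, Pool.Agent.Helper6.MONO.kb]
  · norm_num [NN, kby, kbx, Pool.Agent.Helper6.MONO.kb]

/-- type B -/
theorem z60_13_14_17 (h : ∀ x0 : ℝ, |2 ^ 48 * x0 - (-530830998719520)| ≤ 60 → Thr 13 14 17 x0 →
    fB 13 14 17 x0 = 0 → ZF 13 14 17 x0) : FinAt 13 14 17 :=
  fin_ptBZ (KW.of2 (by norm_num) (by norm_num)) (KW.of2 (by norm_num) (by norm_num))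
    (KW.of2 (by norm_num) (by norm_num)) (by norm_num) (by norm_num) (by norm_num) zd60_13_14_17 (by norm_num)
    (by norm_num [HH, kby, kbx, Pool.Agent.Helper6.MONO.kb])
    (by norm_num [HH, kby, kbx, Pool.Agent.Helper6.MONO.kb])
    (by norm_num [NN, kby, kbx, Pool.Agent.Helper6.MONO.kb]) h

theorem zd60_13_14_18 : PtD (kby 13) (kby 14) (kby 18) (-530974401583718) 60 (-343148512440848292 / 2 ^ 60) (-343148512440733603 / 2 ^ 60) := by
  refine ⟨by norm_num, by norm_num, by norm_num, by norm_num, by norm_num, ?_, ?_, ?_, ?_⟩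
  · rintro c (rfl | rfl) <;> norm_num [NN, kby, kbx, Pool.Agent.Helper6.MONO.kb]
  · rintro c (rfl | rfl) <;> norm_num [NN, kby, kbx, Pool.Agent.Helper6.MONO.kb]
  · norm_num [HH, kby, kbx, Pool.Agent.Helper6.MONO.kb]
  · norm_num [NN, kby, kbx, Pool.Agent.Helper6.MONO.kb]

/-- type B -/
theorem z60_13_14_18 (h : ∀ x0 : ℝ, |2 ^ 48 * x0 - (-530974401583718)| ≤ 60 → Thr 13 14 18 x0 →
    fB 13 14 18 x0 = 0 → ZF 13 14 18 x0) : FinAt 13 14 18 :=
  fin_ptBZ (KW.of2 (by norm_num) (by norm_num)) (KW.of2 (by norm_num) (by norm_num))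
    (KW.of2 (by norm_num) (by norm_num)) (by norm_num) (by norm_num) (by norm_num) zd60_13_14_18 (by norm_num)
    (by norm_num [HH, kby, kbx, Pool.Agent.Helper6.MONO.kb])
    (by norm_num [HH, kby, kbx, Pool.Agent.Helper6.MONO.kb])
    (by norm_num [NN, kby, kbx, Pool.Agent.Helper6.MONO.kb]) h

theorem zd60_13_14_19 : PtD (kby 13) (kby 14) (kby 19) (-531093421093543) 60 (-342541923502029347 / 2 ^ 60) (-342541923501914658 / 2 ^ 60) := by
  refine ⟨by norm_num, by norm_num, by norm_num, by norm_num, by norm_num, ?_, ?_, ?_, ?_⟩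
  · rintro c (rfl | rfl) <;> norm_num [NN, kby, kbx, Pool.Agent.Helper6.MONO.kb]
  · rintro c (rfl | rfl) <;> norm_num [NN, kby, kbx, Pool.Agent.Helper6.MONO.kb]
  · norm_num [HH, kby, kbx, Pool.Agent.Helper6.MONO.kb]
  · norm_num [NN, kby, kbx, Pool.Agent.Helper6.MONO.kb]

/-- type B -/
theorem z60_13_14_19 (h : ∀ x0 : ℝ, |2 ^ 48 * x0 - (-531093421093543)| ≤ 60 → Thr 13 14 19 x0 →
    fB 13 14 19 x0 = 0 → ZF 13 14 19 x0) : FinAt 13 14 19 :=
  fin_ptBZ (KW.of2 (by norm_num) (by norm_num)) (KW.of2 (by norm_num) (by norm_num))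
    (KW.of2 (by norm_num) (by norm_num)) (by norm_num) (by norm_num) (by norm_num) zd60_13_14_19 (by norm_num)
    (by norm_num [HH, kby, kbx, Pool.Agent.Helper6.MONO.kb])
    (by norm_num [HH, kby, kbx, Pool.Agent.Helper6.MONO.kb])
    (by norm_num [NN, kby, kbx, Pool.Agent.Helper6.MONO.kb]) h

theorem zd60_13_14_20 : PtD (kby 13) (kby 14) (kby 20) (-531193365298394) 60 (-342073542693395589 / 2 ^ 60) (-342073542693280900 / 2 ^ 60) := by
  refine ⟨by norm_num, by norm_num, by norm_num, by norm_num, by norm_num, ?_, ?_, ?_, ?_⟩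
  · rintro c (rfl | rfl) <;> norm_num [NN, kby, kbx, Pool.Agent.Helper6.MONO.kb]
  · rintro c (rfl | rfl) <;> norm_num [NN, kby, kbx, Pool.Agent.Helper6.MONO.kb]
  · norm_num [HH, kby, kbx, Pool.Agent.Helper6.MONO.kb]
  · norm_num [NN, kby, kbx, Pool.Agent.Helper6.MONO.kb]

/-- type B -/
theorem z60_13_14_20 (h : ∀ x0 : ℝ, |2 ^ 48 * x0 - (-531193365298394)| ≤ 60 → Thr 13 14 20 x0 →
    fB 13 14 20 x0 = 0 → ZF 13 14 20 x0) : FinAt 13 14 20 :=
  fin_ptBZ (KW.of2 (by norm_num) (by norm_num)) (KW.of2 (by norm_num) (by norm_num))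
    (KW.of2 (by norm_num) (by norm_num)) (by norm_num) (by norm_num) (by norm_num) zd60_13_14_20 (by norm_num)
    (by norm_num [HH, kby, kbx, Pool.Agent.Helper6.MONO.kb])
    (by norm_num [HH, kby, kbx, Pool.Agent.Helper6.MONO.kb])
    (by norm_num [NN, kby, kbx, Pool.Agent.Helper6.MONO.kb]) h

theorem zd60_13_14_21 : PtD (kby 13) (kby 14) (kby 21) (-531278157173963) 60 (-341706568755887825 / 2 ^ 60) (-341706568755773136 / 2 ^ 60) := by
  refine ⟨by norm_num, by norm_num, by norm_num, by norm_num, by norm_num, ?_, ?_, ?_, ?_⟩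
  · rintro c (rfl | rfl) <;> norm_num [NN, kby, kbx, Pool.Agent.Helper6.MONO.kb]
  · rintro c (rfl | rfl) <;> norm_num [NN, kby, kbx, Pool.Agent.Helper6.MONO.kb]
  · norm_num [HH, kby, kbx, Pool.Agent.Helper6.MONO.kb]
  · norm_num [NN, kby, kbx, Pool.Agent.Helper6.MONO.kb]

/-- type B -/
theorem z60_13_14_21 (h : ∀ x0 : ℝ, |2 ^ 48 * x0 - (-531278157173963)| ≤ 60 → Thr 13 14 21 x0 →
    fB 13 14 21 x0 = 0 → ZF 13 14 21 x0) : FinAt 13 14 21 :=
  fin_ptBZ (KW.of2 (by norm_num) (by norm_num)) (KW.of2 (by norm_num) (by norm_num))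
    (KW.of2 (by norm_num) (by norm_num)) (by norm_num) (by norm_num) (by norm_num) zd60_13_14_21 (by norm_num)
    (by norm_num [HH, kby, kbx, Pool.Agent.Helper6.MONO.kb])
    (by norm_num [HH, kby, kbx, Pool.Agent.Helper6.MONO.kb])
    (by norm_num [NN, kby, kbx, Pool.Agent.Helper6.MONO.kb]) h

theorem zd60_13_14_22 : PtD (kby 13) (kby 14) (kby 22) (-531350750330893) 60 (-341415263781938066 / 2 ^ 60) (-341415263781823377 / 2 ^ 60) := by
  refine ⟨by norm_num, by norm_num, by norm_num, by norm_num, by norm_num, ?_, ?_, ?_, ?_⟩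
  · rintro c (rfl | rfl) <;> norm_num [NN, kby, kbx, Pool.Agent.Helper6.MONO.kb]
  · rintro c (rfl | rfl) <;> norm_num [NN, kby, kbx, Pool.Agent.Helper6.MONO.kb]
  · norm_num [HH, kby, kbx, Pool.Agent.Helper6.MONO.kb]
  · norm_num [NN, kby, kbx, Pool.Agent.Helper6.MONO.kb]

/-- type B -/
theorem z60_13_14_22 (h : ∀ x0 : ℝ, |2 ^ 48 * x0 - (-531350750330893)| ≤ 60 → Thr 13 14 22 x0 →
    fB 13 14 22 x0 = 0 → ZF 13 14 22 x0) : FinAt 13 14 22 :=
  fin_ptBZ (KW.of2 (by norm_num) (by norm_num)) (KW.of2 (by norm_num) (by norm_num))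
    (KW.of2 (by norm_num) (by norm_num)) (by norm_num) (by norm_num) (by norm_num) zd60_13_14_22 (by norm_num)
    (by norm_num [HH, kby, kbx, Pool.Agent.Helper6.MONO.kb])
    (by norm_num [HH, kby, kbx, Pool.Agent.Helper6.MONO.kb])
    (by norm_num [NN, kby, kbx, Pool.Agent.Helper6.MONO.kb]) h

end Pool.Agent.Helper81.MIT
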