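import Pool.Agent.Helper81.MIT.Pt2

/-!
Single triples: the final statement from the statement on the lines close to a number.
-/

set_option autoImplicit false
set_option exponentiation.threshold 4000
noncomputable section
namespace Pool.Agent.Helper81.MIT

open Pool.Agent.Helper6.MONO (Kp xA fB fBx Thr FinAt ZF)

theorem zd_12_12_12 : PtD (kby 12) (kby 12) (kby 12) (-528076481262331) 64 (-365461472675740159 / 2 ^ 60) (-365461472675625470 / 2 ^ 60) := by
  refine ⟨by norm_num, by norm_num, by norm_num, by norm_num, by norm_num, ?_, ?_, ?_, ?_⟩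
  · rintro c (rfl | rfl) <;> norm_num [NN, kby, kbx, Pool.Agent.Helper6.MONO.kb]
  · rintro c (rfl | rfl) <;> norm_num [NN, kby, kbx, Pool.Agent.Helper6.MONO.kb]
  · norm_num [HH, kby, kbx, Pool.Agent.Helper6.MONO.kb]
  · norm_num [NN, kby, kbx, Pool.Agent.Helper6.MONO.kb]

/-- type B -/
theorem z_12_12_12 (h : ∀ x0 : ℝ, |2 ^ 48 * x0 - (-528076481262331)| ≤ 64 → Thr 12 12 12 x0 →
    fB 12 12 12 x0 = 0 → ZF 12 12 12 x0) : FinAt 12 12 12 :=
  fin_ptBZ (KW.of2 (by norm_num) (by norm_num)) (KW.of2 (by norm_num) (by norm_num))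
    (KW.of2 (by norm_num) (by norm_num)) (by norm_num) (by norm_num) (by norm_num) zd_12_12_12 (by norm_num)
    (by norm_num [HH, kby, kbx, Pool.Agent.Helper6.MONO.kb])
    (by norm_num [HH, kby, kbx, Pool.Agent.Helper6.MONO.kb])
    (by norm_num [NN, kby, kbx, Pool.Agent.Helper6.MONO.kb]) h

theorem zd_12_12_13 : PtD (kby 12) (kby 12) (kby 13) (-528531034854177) 64 (-362162506950634969 / 2 ^ 60) (-362162506950520280 / 2 ^ 60) := by
  refine ⟨by norm_num, by norm_num, by norm_num, by norm_num, by norm_num, ?_, ?_, ?_, ?_⟩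
  · rintro c (rfl | rfl) <;> norm_num [NN, kby, kbx, Pool.Agent.Helper6.MONO.kb]
  · rintro c (rfl | rfl) <;> norm_num [NN, kby, kbx, Pool.Agent.Helper6.MONO.kb]
  · norm_num [HH, kby, kbx, Pool.Agent.Helper6.MONO.kb]
  · norm_num [NN, kby, kbx, Pool.Agent.Helper6.MONO.kb]

/-- type B -/
theorem z_12_12_13 (h : ∀ x0 : ℝ, |2 ^ 48 * x0 - (-528531034854177)| ≤ 64 → Thr 12 12 13 x0 →
    fB 12 12 13 x0 = 0 → ZF 12 12 13 x0) : FinAt 12 12 13 :=
  fin_ptBZ (KW.of2 (by norm_num) (by norm_num)) (KW.of2 (by norm_num) (by norm_num))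
    (KW.of2 (by norm_num) (by norm_num)) (by norm_num) (by norm_num) (by norm_num) zd_12_12_13 (by norm_num)
    (by norm_num [HH, kby, kbx, Pool.Agent.Helper6.MONO.kb])
    (by norm_num [HH, kby, kbx, Pool.Agent.Helper6.MONO.kb])
    (by norm_num [NN, kby, kbx, Pool.Agent.Helper6.MONO.kb]) h

theorem zd_12_12_14 : PtD (kby 12) (kby 12) (kby 14) (-528872639422534) 64 (-360119779915219405 / 2 ^ 60) (-360119779915104716 / 2 ^ 60) := by
  refine ⟨by norm_num, by norm_num, by norm_num, by norm_num, by norm_num, ?_, ?_, ?_, ?_⟩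
  · rintro c (rfl | rfl) <;> norm_num [NN, kby, kbx, Pool.Agent.Helper6.MONO.kb]
  · rintro c (rfl | rfl) <;> norm_num [NN, kby, kbx, Pool.Agent.Helper6.MONO.kb]
  · norm_num [HH, kby, kbx, Pool.Agent.Helper6.MONO.kb]
  · norm_num [NN, kby, kbx, Pool.Agent.Helper6.MONO.kb]

/-- type B -/
theorem z_12_12_14 (h : ∀ x0 : ℝ, |2 ^ 48 * x0 - (-528872639422534)| ≤ 64 → Thr 12 12 14 x0 →
    fB 12 12 14 x0 = 0 → ZF 12 12 14 x0) : FinAt 12 12 14 :=
  fin_ptBZ (KW.of2 (by norm_num) (by norm_num)) (KW.of2 (by norm_num) (by norm_num))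
    (KW.of2 (by norm_num) (by norm_num)) (by norm_num) (by norm_num) (by norm_num) zd_12_12_14 (by norm_num)
    (by norm_num [HH, kby, kbx, Pool.Agent.Helper6.MONO.kb])
    (by norm_num [HH, kby, kbx, Pool.Agent.Helper6.MONO.kb])
    (by norm_num [NN, kby, kbx, Pool.Agent.Helper6.MONO.kb]) h

theorem zd_12_12_15 : PtD (kby 12) (kby 12) (kby 15) (-529136495601367) 64 (-358823941280728263 / 2 ^ 60) (-358823941280613574 / 2 ^ 60) := by
  refine ⟨by norm_num, by norm_num, by norm_num, by norm_num, by norm_num, ?_, ?_, ?_, ?_⟩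
  · rintro c (rfl | rfl) <;> norm_num [NN, kby, kbx, Pool.Agent.Helper6.MONO.kb]
  · rintro c (rfl | rfl) <;> norm_num [NN, kby, kbx, Pool.Agent.Helper6.MONO.kb]
  · norm_num [HH, kby, kbx, Pool.Agent.Helper6.MONO.kb]
  · norm_num [NN, kby, kbx, Pool.Agent.Helper6.MONO.kb]

/-- type B -/
theorem z_12_12_15 (h : ∀ x0 : ℝ, |2 ^ 48 * x0 - (-529136495601367)| ≤ 64 → Thr 12 12 15 x0 →
    fB 12 12 15 x0 = 0 → ZF 12 12 15 x0) : FinAt 12 12 15 :=
  fin_ptBZ (KW.of2 (by norm_num) (by norm_num)) (KW.of2 (by norm_num) (by norm_num))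
    (KW.of2 (by norm_num) (by norm_num)) (by norm_num) (by norm_num) (by norm_num) zd_12_12_15 (by norm_num)
    (by norm_num [HH, kby, kbx, Pool.Agent.Helper6.MONO.kb])
    (by norm_num [HH, kby, kbx, Pool.Agent.Helper6.MONO.kb])
    (by norm_num [NN, kby, kbx, Pool.Agent.Helper6.MONO.kb]) h

theorem zd_12_12_16 : PtD (kby 12) (kby 12) (kby 16) (-529344915360475) 64 (-357989524319925605 / 2 ^ 60) (-357989524319810916 / 2 ^ 60) := by
  refine ⟨by norm_num, by norm_num, by norm_num, by norm_num, by norm_num, ?_, ?_, ?_, ?_⟩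
  · rintro c (rfl | rfl) <;> norm_num [NN, kby, kbx, Pool.Agent.Helper6.MONO.kb]
  · rintro c (rfl | rfl) <;> norm_num [NN, kby, kbx, Pool.Agent.Helper6.MONO.kb]
  · norm_num [HH, kby, kbx, Pool.Agent.Helper6.MONO.kb]
  · norm_num [NN, kby, kbx, Pool.Agent.Helper6.MONO.kb]

/-- type B -/
theorem z_12_12_16 (h : ∀ x0 : ℝ, |2 ^ 48 * x0 - (-529344915360475)| ≤ 64 → Thr 12 12 16 x0 →
    fB 12 12 16 x0 = 0 → ZF 12 12 16 x0) : FinAt 12 12 16 :=
  fin_ptBZ (KW.of2 (by norm_num) (by norm_num)) (KW.of2 (by norm_num) (by norm_num))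
    (KW.of2 (by norm_num) (by norm_num)) (by norm_num) (by norm_num) (by norm_num) zd_12_12_16 (by norm_num)
    (by norm_num [HH, kby, kbx, Pool.Agent.Helper6.MONO.kb])
    (by norm_num [HH, kby, kbx, Pool.Agent.Helper6.MONO.kb])
    (by norm_num [NN, kby, kbx, Pool.Agent.Helper6.MONO.kb]) h

/-- type A -/
theorem z_12_12_17 (h : ∀ x0 : ℝ, |2 ^ 48 * x0 - (-529156337793878)| ≤ 64 → Thr 12 12 17 x0 →
    ZF 12 12 17 x0) : FinAt 12 12 17 := by
  refine fin_ptAZ (KV.of (by norm_num) (by norm_num)) (KV.of (by norm_num) (by norm_num))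
    (KV.of (by norm_num) (by norm_num)) (by norm_num) (by norm_num) (by norm_num) (X := -529156337793878)
    (n := 64) (by norm_num) (by norm_num) (by norm_num) ?_ ?_ ?_ h
  · norm_num [kby, kbx, Pool.Agent.Helper6.MONO.kb]
  · norm_num [kby, kbx, Pool.Agent.Helper6.MONO.kb]
  · norm_num [fBx, kby, kbx, Pool.Agent.Helper6.MONO.kb]

/-- type A -/
theorem z_12_12_18 (h : ∀ x0 : ℝ, |2 ^ 48 * x0 - (-528723512859925)| ≤ 64 → Thr 12 12 18 x0 →
    ZF 12 12 18 x0) : FinAt 12 12 18 := by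
  refine fin_ptAZ (KV.of (by norm_num) (by norm_num)) (KV.of (by norm_num) (by norm_num))
    (KV.of (by norm_num) (by norm_num)) (by norm_num) (by norm_num) (by norm_num) (X := -528723512859925)
    (n := 64) (by norm_num) (by norm_num) (by norm_num) ?_ ?_ ?_ h
  · norm_num [kby, kbx, Pool.Agent.Helper6.MONO.kb]
  · norm_num [kby, kbx, Pool.Agent.Helper6.MONO.kb]
  · norm_num [fBx, kby, kbx, Pool.Agent.Helper6.MONO.kb]

/-- type A -/
theorem z_12_12_19 (h : ∀ x0 : ℝ, |2 ^ 48 * x0 - (-528359068685825)| ≤ 64 → Thr 12 12 19 x0 →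
    ZF 12 12 19 x0) : FinAt 12 12 19 := by
  refine fin_ptAZ (KV.of (by norm_num) (by norm_num)) (KV.of (by norm_num) (by norm_num))
    (KV.of (by norm_num) (by norm_num)) (by norm_num) (by norm_num) (by norm_num) (X := -528359068685825)
    (n := 64) (by norm_num) (by norm_num) (by norm_num) ?_ ?_ ?_ h
  · norm_num [kby, kbx, Pool.Agent.Helper6.MONO.kb]
  · norm_num [kby, kbx, Pool.Agent.Helper6.MONO.kb]
  · norm_num [fBx, kby, kbx, Pool.Agent.Helper6.MONO.kb]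

/-- type A -/
theorem z_12_12_20 (h : ∀ x0 : ℝ, |2 ^ 48 * x0 - (-528049253502657)| ≤ 64 → Thr 12 12 20 x0 →
    ZF 12 12 20 x0) : FinAt 12 12 20 := by
  refine fin_ptAZ (KV.of (by norm_num) (by norm_num)) (KV.of (by norm_num) (by norm_num))
    (KV.of (by norm_num) (by norm_num)) (by norm_num) (by norm_num) (by norm_num) (X := -528049253502657)
    (n := 64) (by norm_num) (by norm_num) (by norm_num) ?_ ?_ ?_ h
  · norm_num [kby, kbx, Pool.Agent.Helper6.MONO.kb]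
  · norm_num [kby, kbx, Pool.Agent.Helper6.MONO.kb]
  · norm_num [fBx, kby, kbx, Pool.Agent.Helper6.MONO.kb]

/-- type A -/
theorem z_12_12_21 (h : ∀ x0 : ℝ, |2 ^ 48 * x0 - (-527783620959293)| ≤ 64 → Thr 12 12 21 x0 →
    ZF 12 12 21 x0) : FinAt 12 12 21 := by
  refine fin_ptAZ (KV.of (by norm_num) (by norm_num)) (KV.of (by norm_num) (by norm_num))
    (KV.of (by norm_num) (by norm_num)) (by norm_num) (by norm_num) (by norm_num) (X := -527783620959293)
    (n := 64) (by norm_num) (by norm_num) (by norm_num) ?_ ?_ ?_ h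
  · norm_num [kby, kbx, Pool.Agent.Helper6.MONO.kb]
  · norm_num [kby, kbx, Pool.Agent.Helper6.MONO.kb]
  · norm_num [fBx, kby, kbx, Pool.Agent.Helper6.MONO.kb]

theorem zd_12_13_13 : PtD (kby 12) (kby 13) (kby 13) (-528991923336971) 64 (-358417484904953364 / 2 ^ 60) (-358417484904838675 / 2 ^ 60) := by
  refine ⟨by norm_num, by norm_num, by norm_num, by norm_num, by norm_num, ?_, ?_, ?_, ?_⟩
  · rintro c (rfl | rfl) <;> norm_num [NN, kby, kbx, Pool.Agent.Helper6.MONO.kb]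
  · rintro c (rfl | rfl) <;> norm_num [NN, kby, kbx, Pool.Agent.Helper6.MONO.kb]
  · norm_num [HH, kby, kbx, Pool.Agent.Helper6.MONO.kb]
  · norm_num [NN, kby, kbx, Pool.Agent.Helper6.MONO.kb]

/-- type B -/
theorem z_12_13_13 (h : ∀ x0 : ℝ, |2 ^ 48 * x0 - (-528991923336971)| ≤ 64 → Thr 12 13 13 x0 →
    fB 12 13 13 x0 = 0 → ZF 12 13 13 x0) : FinAt 12 13 13 :=
  fin_ptBZ (KW.of2 (by norm_num) (by norm_num)) (KW.of2 (by norm_num) (by norm_num))
    (KW.of2 (by norm_num) (by norm_num)) (by norm_num) (by norm_num) (by norm_num) zd_12_13_13 (by norm_num)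
    (by norm_num [HH, kby, kbx, Pool.Agent.Helper6.MONO.kb])
    (by norm_num [HH, kby, kbx, Pool.Agent.Helper6.MONO.kb])
    (by norm_num [NN, kby, kbx, Pool.Agent.Helper6.MONO.kb]) h

theorem zd_12_13_14 : PtD (kby 12) (kby 13) (kby 14) (-529338595097013) 64 (-356019776453183497 / 2 ^ 60) (-356019776453068808 / 2 ^ 60) := by
  refine ⟨by norm_num, by norm_num, by norm_num, by norm_num, by norm_num, ?_, ?_, ?_, ?_⟩
  · rintro c (rfl | rfl) <;> norm_num [NN, kby, kbx, Pool.Agent.Helper6.MONO.kb]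
  · rintro c (rfl | rfl) <;> norm_num [NN, kby, kbx, Pool.Agent.Helper6.MONO.kb]
  · norm_num [HH, kby, kbx, Pool.Agent.Helper6.MONO.kb]
  · norm_num [NN, kby, kbx, Pool.Agent.Helper6.MONO.kb]

/-- type B -/
theorem z_12_13_14 (h : ∀ x0 : ℝ, |2 ^ 48 * x0 - (-529338595097013)| ≤ 64 → Thr 12 13 14 x0 →
    fB 12 13 14 x0 = 0 → ZF 12 13 14 x0) : FinAt 12 13 14 :=
  fin_ptBZ (KW.of2 (by norm_num) (by norm_num)) (KW.of2 (by norm_num) (by norm_num))
    (KW.of2 (by norm_num) (by norm_num)) (by norm_num) (by norm_num) (by norm_num) zd_12_13_14 (by norm_num)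
    (by norm_num [HH, kby, kbx, Pool.Agent.Helper6.MONO.kb])
    (by norm_num [HH, kby, kbx, Pool.Agent.Helper6.MONO.kb])
    (by norm_num [NN, kby, kbx, Pool.Agent.Helper6.MONO.kb]) h

theorem zd_12_13_15 : PtD (kby 12) (kby 13) (kby 15) (-529606583307403) 64 (-354435055141639663 / 2 ^ 60) (-354435055141524974 / 2 ^ 60) := by
  refine ⟨by norm_num, by norm_num, by norm_num, by norm_num, by norm_num, ?_, ?_, ?_, ?_⟩
  · rintro c (rfl | rfl) <;> norm_num [NN, kby, kbx, Pool.Agent.Helper6.MONO.kb]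
  · rintro c (rfl | rfl) <;> norm_num [NN, kby, kbx, Pool.Agent.Helper6.MONO.kb]
  · norm_num [HH, kby, kbx, Pool.Agent.Helper6.MONO.kb]
  · norm_num [NN, kby, kbx, Pool.Agent.Helper6.MONO.kb]

/-- type B -/
theorem z_12_13_15 (h : ∀ x0 : ℝ, |2 ^ 48 * x0 - (-529606583307403)| ≤ 64 → Thr 12 13 15 x0 →
    fB 12 13 15 x0 = 0 → ZF 12 13 15 x0) : FinAt 12 13 15 :=
  fin_ptBZ (KW.of2 (by norm_num) (by norm_num)) (KW.of2 (by norm_num) (by norm_num))
    (KW.of2 (by norm_num) (by norm_num)) (by norm_num) (by norm_num) (by norm_num) zd_12_13_15 (by norm_num)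
    (by norm_num [HH, kby, kbx, Pool.Agent.Helper6.MONO.kb])
    (by norm_num [HH, kby, kbx, Pool.Agent.Helper6.MONO.kb])
    (by norm_num [NN, kby, kbx, Pool.Agent.Helper6.MONO.kb]) h

theorem zd_12_13_16 : PtD (kby 12) (kby 13) (kby 16) (-529818423147563) 64 (-353361618966057781 / 2 ^ 60) (-353361618965943092 / 2 ^ 60) := by
  refine ⟨by norm_num, by norm_num, by norm_num, by norm_num, by norm_num, ?_, ?_, ?_, ?_⟩
  · rintro c (rfl | rfl) <;> norm_num [NN, kby, kbx, Pool.Agent.Helper6.MONO.kb]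
  · rintro c (rfl | rfl) <;> norm_num [NN, kby, kbx, Pool.Agent.Helper6.MONO.kb]
  · norm_num [HH, kby, kbx, Pool.Agent.Helper6.MONO.kb]
  · norm_num [NN, kby, kbx, Pool.Agent.Helper6.MONO.kb]

/-- type B -/
theorem z_12_13_16 (h : ∀ x0 : ℝ, |2 ^ 48 * x0 - (-529818423147563)| ≤ 64 → Thr 12 13 16 x0 →
    fB 12 13 16 x0 = 0 → ZF 12 13 16 x0) : FinAt 12 13 16 :=
  fin_ptBZ (KW.of2 (by norm_num) (by norm_num)) (KW.of2 (by norm_num) (by norm_num))
    (KW.of2 (by norm_num) (by norm_num)) (by norm_num) (by norm_num) (by norm_num) zd_12_13_16 (by norm_num)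
    (by norm_num [HH, kby, kbx, Pool.Agent.Helper6.MONO.kb])
    (by norm_num [HH, kby, kbx, Pool.Agent.Helper6.MONO.kb])
    (by norm_num [NN, kby, kbx, Pool.Agent.Helper6.MONO.kb]) h

theorem zd_12_13_17 : PtD (kby 12) (kby 13) (kby 17) (-529989024541004) 64 (-352620393264174609 / 2 ^ 60) (-352620393264059920 / 2 ^ 60) := by
  refine ⟨by norm_num, by norm_num, by norm_num, by norm_num, by norm_num, ?_, ?_, ?_, ?_⟩
  · rintro c (rfl | rfl) <;> norm_num [NN, kby, kbx, Pool.Agent.Helper6.MONO.kb]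
  · rintro c (rfl | rfl) <;> norm_num [NN, kby, kbx, Pool.Agent.Helper6.MONO.kb]
  · norm_num [HH, kby, kbx, Pool.Agent.Helper6.MONO.kb]
  · norm_num [NN, kby, kbx, Pool.Agent.Helper6.MONO.kb]

/-- type B -/
theorem z_12_13_17 (h : ∀ x0 : ℝ, |2 ^ 48 * x0 - (-529989024541004)| ≤ 64 → Thr 12 13 17 x0 →
    fB 12 13 17 x0 = 0 → ZF 12 13 17 x0) : FinAt 12 13 17 :=
  fin_ptBZ (KW.of2 (by norm_num) (by norm_num)) (KW.of2 (by norm_num) (by norm_num))
    (KW.of2 (by norm_num) (by norm_num)) (by norm_num) (by norm_num) (by norm_num) zd_12_13_17 (by norm_num)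
    (by norm_num [HH, kby, kbx, Pool.Agent.Helper6.MONO.kb])
    (by norm_num [HH, kby, kbx, Pool.Agent.Helper6.MONO.kb])
    (by norm_num [NN, kby, kbx, Pool.Agent.Helper6.MONO.kb]) h

theorem zd_12_13_18 : PtD (kby 12) (kby 13) (kby 18) (-530128600086724) 64 (-352100829061609254 / 2 ^ 60) (-352100829061494565 / 2 ^ 60) := by
  refine ⟨by norm_num, by norm_num, by norm_num, by norm_num, by norm_num, ?_, ?_, ?_, ?_⟩
  · rintro c (rfl | rfl) <;> norm_num [NN, kby, kbx, Pool.Agent.Helper6.MONO.kb]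
  · rintro c (rfl | rfl) <;> norm_num [NN, kby, kbx, Pool.Agent.Helper6.MONO.kb]
  · norm_num [HH, kby, kbx, Pool.Agent.Helper6.MONO.kb]
  · norm_num [NN, kby, kbx, Pool.Agent.Helper6.MONO.kb]

/-- type B -/
theorem z_12_13_18 (h : ∀ x0 : ℝ, |2 ^ 48 * x0 - (-530128600086724)| ≤ 64 → Thr 12 13 18 x0 →
    fB 12 13 18 x0 = 0 → ZF 12 13 18 x0) : FinAt 12 13 18 :=
  fin_ptBZ (KW.of2 (by norm_num) (by norm_num)) (KW.of2 (by norm_num) (by norm_num))
    (KW.of2 (by norm_num) (by norm_num)) (by norm_num) (by norm_num) (by norm_num) zd_12_13_18 (by norm_num)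
    (by norm_num [HH, kby, kbx, Pool.Agent.Helper6.MONO.kb])
    (by norm_num [HH, kby, kbx, Pool.Agent.Helper6.MONO.kb])
    (by norm_num [NN, kby, kbx, Pool.Agent.Helper6.MONO.kb]) h

theorem zd_12_13_19 : PtD (kby 12) (kby 13) (kby 19) (-530244350772527) 64 (-351732459247175837 / 2 ^ 60) (-351732459247061148 / 2 ^ 60) := by
  refine ⟨by norm_num, by norm_num, by norm_num, by norm_num, by norm_num, ?_, ?_, ?_, ?_⟩
  · rintro c (rfl | rfl) <;> norm_num [NN, kby, kbx, Pool.Agent.Helper6.MONO.kb]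
  · rintro c (rfl | rfl) <;> norm_num [NN, kby, kbx, Pool.Agent.Helper6.MONO.kb]
  · norm_num [HH, kby, kbx, Pool.Agent.Helper6.MONO.kb]
  · norm_num [NN, kby, kbx, Pool.Agent.Helper6.MONO.kb]

/-- type B -/
theorem z_12_13_19 (h : ∀ x0 : ℝ, |2 ^ 48 * x0 - (-530244350772527)| ≤ 64 → Thr 12 13 19 x0 →
    fB 12 13 19 x0 = 0 → ZF 12 13 19 x0) : FinAt 12 13 19 :=
  fin_ptBZ (KW.of2 (by norm_num) (by norm_num)) (KW.of2 (by norm_num) (by norm_num))
    (KW.of2 (by norm_num) (by norm_num)) (by norm_num) (by norm_num) (by norm_num) zd_12_13_19 (by norm_num)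
    (by norm_num [HH, kby, kbx, Pool.Agent.Helper6.MONO.kb])
    (by norm_num [HH, kby, kbx, Pool.Agent.Helper6.MONO.kb])
    (by norm_num [NN, kby, kbx, Pool.Agent.Helper6.MONO.kb]) h

theorem zd_12_13_20 : PtD (kby 12) (kby 13) (kby 20) (-530341481028471) 64 (-351469147281270703 / 2 ^ 60) (-351469147281156014 / 2 ^ 60) := by
  refine ⟨by norm_num, by norm_num, by norm_num, by norm_num, by norm_num, ?_, ?_, ?_, ?_⟩
  · rintro c (rfl | rfl) <;> norm_num [NN, kby, kbx, Pool.Agent.Helper6.MONO.kb]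
  · rintro c (rfl | rfl) <;> norm_num [NN, kby, kbx, Pool.Agent.Helper6.MONO.kb]
  · norm_num [HH, kby, kbx, Pool.Agent.Helper6.MONO.kb]
  · norm_num [NN, kby, kbx, Pool.Agent.Helper6.MONO.kb]

/-- type B -/
theorem z_12_13_20 (h : ∀ x0 : ℝ, |2 ^ 48 * x0 - (-530341481028471)| ≤ 64 → Thr 12 13 20 x0 →
    fB 12 13 20 x0 = 0 → ZF 12 13 20 x0) : FinAt 12 13 20 :=
  fin_ptBZ (KW.of2 (by norm_num) (by norm_num)) (KW.of2 (by norm_num) (by norm_num))
    (KW.of2 (by norm_num) (by norm_num)) (by norm_num) (by norm_num) (by norm_num) zd_12_13_20 (by norm_num)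
    (by norm_num [HH, kby, kbx, Pool.Agent.Helper6.MONO.kb])
    (by norm_num [HH, kby, kbx, Pool.Agent.Helper6.MONO.kb])
    (by norm_num [NN, kby, kbx, Pool.Agent.Helper6.MONO.kb]) h

theorem zd_12_14_14 : PtD (kby 12) (kby 14) (kby 14) (-529689281844237) 64 (-353342720134988549 / 2 ^ 60) (-353342720134873860 / 2 ^ 60) := by
  refine ⟨by norm_num, by norm_num, by norm_num, by norm_num, by norm_num, ?_, ?_, ?_, ?_⟩
  · rintro c (rfl | rfl) <;> norm_num [NN, kby, kbx, Pool.Agent.Helper6.MONO.kb]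
  · rintro c (rfl | rfl) <;> norm_num [NN, kby, kbx, Pool.Agent.Helper6.MONO.kb]
  · norm_num [HH, kby, kbx, Pool.Agent.Helper6.MONO.kb]
  · norm_num [NN, kby, kbx, Pool.Agent.Helper6.MONO.kb]

/-- type B -/
theorem z_12_14_14 (h : ∀ x0 : ℝ, |2 ^ 48 * x0 - (-529689281844237)| ≤ 64 → Thr 12 14 14 x0 →
    fB 12 14 14 x0 = 0 → ZF 12 14 14 x0) : FinAt 12 14 14 :=
  fin_ptBZ (KW.of2 (by norm_num) (by norm_num)) (KW.of2 (by norm_num) (by norm_num))
    (KW.of2 (by norm_num) (by norm_num)) (by norm_num) (by norm_num) (by norm_num) zd_12_14_14 (by norm_num)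
    (by norm_num [HH, kby, kbx, Pool.Agent.Helper6.MONO.kb])
    (by norm_num [HH, kby, kbx, Pool.Agent.Helper6.MONO.kb])
    (by norm_num [NN, kby, kbx, Pool.Agent.Helper6.MONO.kb]) h

theorem zd_12_14_15 : PtD (kby 12) (kby 14) (kby 15) (-529960520728047) 64 (-351532598335982470 / 2 ^ 60) (-351532598335867781 / 2 ^ 60) := by
  refine ⟨by norm_num, by norm_num, by norm_num, by norm_num, by norm_num, ?_, ?_, ?_, ?_⟩
  · rintro c (rfl | rfl) <;> norm_num [NN, kby, kbx, Pool.Agent.Helper6.MONO.kb]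
  · rintro c (rfl | rfl) <;> norm_num [NN, kby, kbx, Pool.Agent.Helper6.MONO.kb]
  · norm_num [HH, kby, kbx, Pool.Agent.Helper6.MONO.kb]
  · norm_num [NN, kby, kbx, Pool.Agent.Helper6.MONO.kb]

/-- type B -/
theorem z_12_14_15 (h : ∀ x0 : ℝ, |2 ^ 48 * x0 - (-529960520728047)| ≤ 64 → Thr 12 14 15 x0 →
    fB 12 14 15 x0 = 0 → ZF 12 14 15 x0) : FinAt 12 14 15 :=
  fin_ptBZ (KW.of2 (by norm_num) (by norm_num)) (KW.of2 (by norm_num) (by norm_num))
    (KW.of2 (by norm_num) (by norm_num)) (by norm_num) (by norm_num) (by norm_num) zd_12_14_15 (by norm_num)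
    (by norm_num [HH, kby, kbx, Pool.Agent.Helper6.MONO.kb])
    (by norm_num [HH, kby, kbx, Pool.Agent.Helper6.MONO.kb])
    (by norm_num [NN, kby, kbx, Pool.Agent.Helper6.MONO.kb]) h

theorem zd_12_14_16 : PtD (kby 12) (kby 14) (kby 16) (-530175036216962) 64 (-350273913603997535 / 2 ^ 60) (-350273913603882846 / 2 ^ 60) := by
  refine ⟨by norm_num, by norm_num, by norm_num, by norm_num, by norm_num, ?_, ?_, ?_, ?_⟩
  · rintro c (rfl | rfl) <;> norm_num [NN, kby, kbx, Pool.Agent.Helper6.MONO.kb]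
  · rintro c (rfl | rfl) <;> norm_num [NN, kby, kbx, Pool.Agent.Helper6.MONO.kb]
  · norm_num [HH, kby, kbx, Pool.Agent.Helper6.MONO.kb]
  · norm_num [NN, kby, kbx, Pool.Agent.Helper6.MONO.kb]

/-- type B -/
theorem z_12_14_16 (h : ∀ x0 : ℝ, |2 ^ 48 * x0 - (-530175036216962)| ≤ 64 → Thr 12 14 16 x0 →
    fB 12 14 16 x0 = 0 → ZF 12 14 16 x0) : FinAt 12 14 16 :=
  fin_ptBZ (KW.of2 (by norm_num) (by norm_num)) (KW.of2 (by norm_num) (by norm_num))
    (KW.of2 (by norm_num) (by norm_num)) (by norm_num) (by norm_num) (by norm_num) zd_12_14_16 (by norm_num)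
    (by norm_num [HH, kby, kbx, Pool.Agent.Helper6.MONO.kb])
    (by norm_num [HH, kby, kbx, Pool.Agent.Helper6.MONO.kb])
    (by norm_num [NN, kby, kbx, Pool.Agent.Helper6.MONO.kb]) h

theorem zd_12_14_17 : PtD (kby 12) (kby 14) (kby 17) (-530347869474520) 64 (-349378231356801758 / 2 ^ 60) (-349378231356687069 / 2 ^ 60) := by
  refine ⟨by norm_num, by norm_num, by norm_num, by norm_num, by norm_num, ?_, ?_, ?_, ?_⟩
  · rintro c (rfl | rfl) <;> norm_num [NN, kby, kbx, Pool.Agent.Helper6.MONO.kb]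
  · rintro c (rfl | rfl) <;> norm_num [NN, kby, kbx, Pool.Agent.Helper6.MONO.kb]
  · norm_num [HH, kby, kbx, Pool.Agent.Helper6.MONO.kb]
  · norm_num [NN, kby, kbx, Pool.Agent.Helper6.MONO.kb]

/-- type B -/
theorem z_12_14_17 (h : ∀ x0 : ℝ, |2 ^ 48 * x0 - (-530347869474520)| ≤ 64 → Thr 12 14 17 x0 →
    fB 12 14 17 x0 = 0 → ZF 12 14 17 x0) : FinAt 12 14 17 :=
  fin_ptBZ (KW.of2 (by norm_num) (by norm_num)) (KW.of2 (by norm_num) (by norm_num))
    (KW.of2 (by norm_num) (by norm_num)) (by norm_num) (by norm_num) (by norm_num) zd_12_14_17 (by norm_num)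
    (by norm_num [HH, kby, kbx, Pool.Agent.Helper6.MONO.kb])
    (by norm_num [HH, kby, kbx, Pool.Agent.Helper6.MONO.kb])
    (by norm_num [NN, kby, kbx, Pool.Agent.Helper6.MONO.kb]) h

theorem zd_12_15_15 : PtD (kby 12) (kby 15) (kby 15) (-530234377199175) 64 (-349541780104269157 / 2 ^ 60) (-349541780104154468 / 2 ^ 60) := by
  refine ⟨by norm_num, by norm_num, by norm_num, by norm_num, by norm_num, ?_, ?_, ?_, ?_⟩
  · rintro c (rfl | rfl) <;> norm_num [NN, kby, kbx, Pool.Agent.Helper6.MONO.kb]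
  · rintro c (rfl | rfl) <;> norm_num [NN, kby, kbx, Pool.Agent.Helper6.MONO.kb]
  · norm_num [HH, kby, kbx, Pool.Agent.Helper6.MONO.kb]
  · norm_num [NN, kby, kbx, Pool.Agent.Helper6.MONO.kb]

/-- type B -/
theorem z_12_15_15 (h : ∀ x0 : ℝ, |2 ^ 48 * x0 - (-530234377199175)| ≤ 64 → Thr 12 15 15 x0 →
    fB 12 15 15 x0 = 0 → ZF 12 15 15 x0) : FinAt 12 15 15 :=
  fin_ptBZ (KW.of2 (by norm_num) (by norm_num)) (KW.of2 (by norm_num) (by norm_num))
    (KW.of2 (by norm_num) (by norm_num)) (by norm_num) (by norm_num) (by norm_num) zd_12_15_15 (by norm_num)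
    (by norm_num [HH, kby, kbx, Pool.Agent.Helper6.MONO.kb])
    (by norm_num [HH, kby, kbx, Pool.Agent.Helper6.MONO.kb])
    (by norm_num [NN, kby, kbx, Pool.Agent.Helper6.MONO.kb]) h

theorem zd_12_15_16 : PtD (kby 12) (kby 15) (kby 16) (-530451038111360) 64 (-348135340593262758 / 2 ^ 60) (-348135340593148069 / 2 ^ 60) := by
  refine ⟨by norm_num, by norm_num, by norm_num, by norm_num, by norm_num, ?_, ?_, ?_, ?_⟩
  · rintro c (rfl | rfl) <;> norm_num [NN, kby, kbx, Pool.Agent.Helper6.MONO.kb]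
  · rintro c (rfl | rfl) <;> norm_num [NN, kby, kbx, Pool.Agent.Helper6.MONO.kb]
  · norm_num [HH, kby, kbx, Pool.Agent.Helper6.MONO.kb]
  · norm_num [NN, kby, kbx, Pool.Agent.Helper6.MONO.kb]

/-- type B -/
theorem z_12_15_16 (h : ∀ x0 : ℝ, |2 ^ 48 * x0 - (-530451038111360)| ≤ 64 → Thr 12 15 16 x0 →
    fB 12 15 16 x0 = 0 → ZF 12 15 16 x0) : FinAt 12 15 16 :=
  fin_ptBZ (KW.of2 (by norm_num) (by norm_num)) (KW.of2 (by norm_num) (by norm_num))
    (KW.of2 (by norm_num) (by norm_num)) (by norm_num) (by norm_num) (by norm_num) zd_12_15_16 (by norm_num)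
    (by norm_num [HH, kby, kbx, Pool.Agent.Helper6.MONO.kb])
    (by norm_num [HH, kby, kbx, Pool.Agent.Helper6.MONO.kb])
    (by norm_num [NN, kby, kbx, Pool.Agent.Helper6.MONO.kb]) h

end Pool.Agent.Helper81.MIT
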