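import Pool.Agent.Helper81.MIT.SubX

/-!
Weights of orders beyond `48`, for the pieces of the rows.
-/

set_option autoImplicit false
noncomputable section
namespace Pool.Agent.Helper81.MIT

open Pool.Agent.Helper6.MONO (Kp kap_mono)

/-- orders at most `N` -/
theorem ord_up {N n r : ℕ} (hN : 3 ≤ N) (h0 : 0 < n) (h2 : n < 2 ^ 49)
    (h : okU (n : ℤ) N = true) (h3 : 3 ≤ r) (hr : r ≤ N) : 2 ^ 48 * Kp r ≤ (n : ℝ) := by
  have h1 := kap_up (M := N) (a := (n : ℤ)) hN (by exact_mod_cast h0) (by exact_mod_cast h2) h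
  have k := (kap_mono (M := r) (N := N) (by omega) hr).trans h1
  rw [le_div_iff₀ (by positivity)] at k
  push_cast at k
  linarith

/-- orders at least `N` -/
theorem ord_lo {N n r : ℕ} (hN : 3 ≤ N) (h0 : 0 < n) (h2 : n < 2 ^ 49)
    (h : decide ((sU (n : ℤ) N).1 < 0) = true) (hr : N ≤ r) : (n : ℝ) ≤ 2 ^ 48 * Kp r := by
  have h1 := kap_lo (M := N) (a := (n : ℤ)) hN (by exact_mod_cast h0) (by exact_mod_cast h2)
    (of_decide_eq_true h)
  have k := h1.trans (kap_mono (M := N) (N := r) (by omega) hr)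
  rw [div_le_iff₀ (by positivity)] at k
  push_cast at k
  linarith

end Pool.Agent.Helper81.MIT
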