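import Pool.Agent.Helper81.MIT.XPt
import Pool.Agent.Helper81.MIT.Gbx

/-!
The line of the row `(13, 14, r)` for large `r`: quadratic polynomials of the weight.
-/

set_option autoImplicit false
set_option exponentiation.threshold 4000
noncomputable section
namespace Pool.Agent.Helper81.MIT

open Pool.Agent.Helper6.MONO (Thr fB Kp kap_mono)
open Pool.Agent.Helper84.XL (XH)
open Pool.Agent.Helper86.C75 (Z)
open Pool.Agent.Helper90.KMO (zv)
open Pool.Agent.Helper21.KTE (KS)
open Pool.Agent.Helper57.XL (chkX hX_of okx)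

theorem tl_t1 : chkX (-539000000000000) 8000000000000 (KS.E 546591650894800) (KS.E 548835622751895) 561298146334369 561515621459832 3458 (zv (Z.m (nat_lit 531856233447009))) (zv (Z.m (nat_lit 531869130983564))) (zv (Z.m (nat_lit 531881968115009))) = true := by decide +kernel
/-- the line on a piece of the weights -/
theorem tl_1 {r : ℕ} (h1 : ((561298146334369 : ℕ) : ℝ) ≤ 2 ^ 48 * Kp r) (h2 : 2 ^ 48 * Kp r ≤ ((561515621459832 : ℕ) : ℝ)) {x0 : ℝ}
    (hT : Thr 13 14 r x0) (tB : fB 13 14 r x0 = 0) :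
    XH (Z.m (nat_lit 531856233447009)) (Z.m (nat_lit 531869130983564)) (Z.m (nat_lit 531881968115009)) 561298146334369 561515621459832 3458 r x0 :=
  hX_of tl_t1 (by norm_num) (okx 13 (by norm_num) (by norm_num) rfl) (okx 14 (by norm_num) (by norm_num) rfl) h1 h2 hT tB

theorem tl_t2a : chkX (-539000000000000) 8000000000000 (KS.E 546591650894800) (KS.E 548835622751895) 561578635628542 561914399262719 12380 (zv (Z.m (nat_lit 531889402281550))) (zv (Z.m (nat_lit 531909194748872))) (zv (Z.m (nat_lit 531928843996127))) = true := by decide +kernel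
/-- the line on a piece of the weights -/
theorem tl_2a {r : ℕ} (h1 : ((561578635628542 : ℕ) : ℝ) ≤ 2 ^ 48 * Kp r) (h2 : 2 ^ 48 * Kp r ≤ ((561914399262719 : ℕ) : ℝ)) {x0 : ℝ}
    (hT : Thr 13 14 r x0) (tB : fB 13 14 r x0 = 0) :
    XH (Z.m (nat_lit 531889402281550)) (Z.m (nat_lit 531909194748872)) (Z.m (nat_lit 531928843996127)) 561578635628542 561914399262719 12380 r x0 :=
  hX_of tl_t2a (by norm_num) (okx 13 (by norm_num) (by norm_num) rfl) (okx 14 (by norm_num) (by norm_num) rfl) h1 h2 hT tB

theorem tl_t2b : chkX (-539000000000000) 8000000000000 (KS.E 546591650894800) (KS.E 548835622751895) 561914399262719 562250162896896 12192 (zv (Z.m (nat_lit 531928844011672))) (zv (Z.m (nat_lit 531948493259705))) (zv (Z.m (nat_lit 531968000033836))) = true := by decide +kernel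
/-- the line on a piece of the weights -/
theorem tl_2b {r : ℕ} (h1 : ((561914399262719 : ℕ) : ℝ) ≤ 2 ^ 48 * Kp r) (h2 : 2 ^ 48 * Kp r ≤ ((562250162896896 : ℕ) : ℝ)) {x0 : ℝ}
    (hT : Thr 13 14 r x0) (tB : fB 13 14 r x0 = 0) :
    XH (Z.m (nat_lit 531928844011672)) (Z.m (nat_lit 531948493259705)) (Z.m (nat_lit 531968000033836)) 561914399262719 562250162896896 12192 r x0 :=
  hX_of tl_t2b (by norm_num) (okx 13 (by norm_num) (by norm_num) rfl) (okx 14 (by norm_num) (by norm_num) rfl) h1 h2 hT tB

end Pool.Agent.Helper81.MIT
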