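import Pool.Agent.Helper81.MIT.XPt
import Pool.Agent.Helper81.MIT.Gbx

/-!
The line of the row `(13, 14, r)` for large `r`: quadratic polynomials of the weight.
-/

set_option autoImplicit false
set_option exponentiation.threshold 4000
noncomputable section
namespace Pool.Agent.Helper81.MIT

open Pool.Agent.Helper6.MONO (Thr fB Kp kap_mono)
open Pool.Agent.Helper84.XL (XH)
open Pool.Agent.Helper86.C75 (Z)
open Pool.Agent.Helper90.KMO (zv)
open Pool.Agent.Helper21.KTE (KS)
open Pool.Agent.Helper57.XL (chkX hX_of okx)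

theorem tl_t3 : chkX (-539000000000000) 8000000000000 (KS.E 546591650894800) (KS.E 548835622751895) 562271854788608 562387000000000 543 (zv (Z.m (nat_lit 531970519914335))) (zv (Z.m (nat_lit 531977206349427))) (zv (Z.m (nat_lit 531983876092679))) = true := by decide +kernel
/-- the line on a piece of the weights -/
theorem tl_3 {r : ℕ} (h1 : ((562271854788608 : ℕ) : ℝ) ≤ 2 ^ 48 * Kp r) (h2 : 2 ^ 48 * Kp r ≤ ((562387000000000 : ℕ) : ℝ)) {x0 : ℝ}
    (hT : Thr 13 14 r x0) (tB : fB 13 14 r x0 = 0) :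
    XH (Z.m (nat_lit 531970519914335)) (Z.m (nat_lit 531977206349427)) (Z.m (nat_lit 531983876092679)) 562271854788608 562387000000000 543 r x0 :=
  hX_of tl_t3 (by norm_num) (okx 13 (by norm_num) (by norm_num) rfl) (okx 14 (by norm_num) (by norm_num) rfl) h1 h2 hT tB

theorem tl_t4a : chkX (-539000000000000) 8000000000000 (KS.E 546591650894800) (KS.E 548835622751895) 562387000000000 562668476710656 7059 (zv (Z.m (nat_lit 531983876097445))) (zv (Z.m (nat_lit 532000180497129))) (zv (Z.m (nat_lit 532016385452778))) = true := by decide +kernel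
/-- the line on a piece of the weights -/
theorem tl_4a {r : ℕ} (h1 : ((562387000000000 : ℕ) : ℝ) ≤ 2 ^ 48 * Kp r) (h2 : 2 ^ 48 * Kp r ≤ ((562668476710656 : ℕ) : ℝ)) {x0 : ℝ}
    (hT : Thr 13 14 r x0) (tB : fB 13 14 r x0 = 0) :
    XH (Z.m (nat_lit 531983876097445)) (Z.m (nat_lit 532000180497129)) (Z.m (nat_lit 532016385452778)) 562387000000000 562668476710656 7059 r x0 :=
  hX_of tl_t4a (by norm_num) (okx 13 (by norm_num) (by norm_num) rfl) (okx 14 (by norm_num) (by norm_num) rfl) h1 h2 hT tB

theorem tl_t4b : chkX (-539000000000000) 8000000000000 (KS.E 546591650894800) (KS.E 548835622751895) 562668476710656 562949953421312 6969 (zv (Z.m (nat_lit 532016385461624))) (zv (Z.m (nat_lit 532032590417647))) (zv (Z.m (nat_lit 532048696354246))) = true := by decide +kernel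
/-- the line on a piece of the weights -/
theorem tl_4b {r : ℕ} (h1 : ((562668476710656 : ℕ) : ℝ) ≤ 2 ^ 48 * Kp r) (h2 : 2 ^ 48 * Kp r ≤ ((562949953421312 : ℕ) : ℝ)) {x0 : ℝ}
    (hT : Thr 13 14 r x0) (tB : fB 13 14 r x0 = 0) :
    XH (Z.m (nat_lit 532016385461624)) (Z.m (nat_lit 532032590417647)) (Z.m (nat_lit 532048696354246)) 562668476710656 562949953421312 6969 r x0 :=
  hX_of tl_t4b (by norm_num) (okx 13 (by norm_num) (by norm_num) rfl) (okx 14 (by norm_num) (by norm_num) rfl) h1 h2 hT tB

/-- the order `63` -/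
theorem tl_63 {r : ℕ} (h0 : 3 ≤ r) (h : r ≤ 63) : 2 ^ 48 * Kp r ≤ ((562250162896896 : ℕ) : ℝ) := by
  have h1 := kap_up (M := 63) (a := 562250162896896) (by norm_num) (by norm_num) (by norm_num) (by decide +kernel)
  have h2 := kap_mono (M := r) (N := 63) (by omega) h
  have h3 := h2.trans h1
  rw [le_div_iff₀ (by positivity)] at h3
  push_cast at h3 ⊢
  linarith

/-- the order `64` -/
theorem tl_64 {r : ℕ} (h : 64 ≤ r) : ((562271854788608 : ℕ) : ℝ) ≤ 2 ^ 48 * Kp r := by
  have h1 := kap_lo (M := 64) (a := 562271854788608) (by norm_num) (by norm_num) (by norm_num) (by decide +kernel)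
  have h2 := kap_mono (M := 64) (N := r) (by norm_num) h
  have h3 := h1.trans h2
  rw [div_le_iff₀ (by positivity)] at h3
  push_cast at h3 ⊢
  linarith

end Pool.Agent.Helper81.MIT
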