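import Pool.Agent.Helper81.MIT.Pt2

/-!
Single triples (radius 60): the final statement from the statement on the lines close to a number.
-/

set_option autoImplicit false
set_option exponentiation.threshold 4000
noncomputable section
namespace Pool.Agent.Helper81.MIT

open Pool.Agent.Helper6.MONO (Kp xA fB fBx Thr FinAt ZF)

/-- type A -/
theorem z60_9_10_10 (h : ∀ x0 : ℝ, |2 ^ 48 * x0 - (-513188308445256)| ≤ 60 → Thr 9 10 10 x0 →
    ZF 9 10 10 x0) : FinAt 9 10 10 := by
  refine fin_ptAZ (KV.of (by norm_num) (by norm_num)) (KV.of (by norm_num) (by norm_num))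
    (KV.of (by norm_num) (by norm_num)) (by norm_num) (by norm_num) (by norm_num) (X := -513188308445256)
    (n := 60) (by norm_num) (by norm_num) (by norm_num) ?_ ?_ ?_ h
  · norm_num [kby, kbx, Pool.Agent.Helper6.MONO.kb]
  · norm_num [kby, kbx, Pool.Agent.Helper6.MONO.kb]
  · norm_num [fBx, kby, kbx, Pool.Agent.Helper6.MONO.kb]

end Pool.Agent.Helper81.MIT
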