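import Pool.Agent.Helper81.MIT.HDl
import Pool.Agent.Helper57.XL.T

/-!
Rows (two known orders, one tail): the quarter on a line given by a quadratic polynomial of the
last weight, and the final statement from the quarters.
-/

set_option autoImplicit false
set_option exponentiation.threshold 4000
noncomputable section
namespace Pool.Agent.Helper81.MIT

open Pool.Agent.Helper6.MONO (Kp xA xA_gt xA_le2 fB Thr FinAt ZF CertAt g_FIN')
open Pool.Agent.Helper6.MONO.QTR (QX TCell Far)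
open Pool.Agent.Helper6.CXT (far_rot2)
open Pool.Agent.Helper57.U2 (TCellU)
open Pool.Agent.Helper90.KMO (zv)
open Pool.Agent.Helper86.C75 (Z)
open Pool.Agent.Helper84.ST (QXS)
open Pool.Agent.Helper84.XL (q3 par XH)

section
variable {p q r : ℕ} {x0 : ℝ}

theorem row_Bc (hp : 3 ≤ p) (hpq : p ≤ q) (hqr : q ≤ r) (hr : 4 ≤ r)
    (hC : (∀ x0 : ℝ, Thr p q r x0 → fB p q r x0 = 0 → ZF p q r x0) → CertAt p q r)
    (h1 : ∀ x0 : ℝ, Thr p q r x0 → fB p q r x0 = 0 → QXS p q r x0)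
    (h2 : ∀ x0 : ℝ, Thr p q r x0 → fB p q r x0 = 0 → QXS q p r x0) : FinAt p q r :=
  g_FIN' p q r hp (hp.trans hpq) (hp.trans (hpq.trans hqr))
    (hC fun x0 hT hf => zf_QS hp hpq hqr hr hT (h1 x0 hT hf) (h2 x0 hT hf))

theorem row_Ac (hp : 3 ≤ p) (hpq : p ≤ q) (hqr : q ≤ r) (hr : 10 ≤ r)
    (h1 : QXS p q r (xA p q r)) (h2 : QXS q p r (xA q p r)) : FinAt p q r :=
  fin_xAS hp hpq hqr hr h1 h2

/-- the quarter on a line given by a quadratic polynomial -/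
theorem qxS_O (hp : 3 ≤ p) (hq : 3 ≤ q) (hr : 10 ≤ r) (h1 : -2 < x0) (h2 : x0 ≤ 2)
    {XA XB XC : Z} {lo hi n : ℕ} (hX : XH XA XB XC lo hi n r x0) {A B C : Lb} {a e : ℕ}
    (m : TcO XA XB XC lo hi n A B C a e) (hA : A.has p) (hB : B.has q) (hC : C.has r) {y : ℕ}
    (hn : TCellU p q r x0 0 ((y : ℝ) / 2 ^ 48)) (hy : a ≤ y) (hy8 : y ≤ 2251799813685248)
    (he : 2251799813685248 ≤ e) (hF : Far p q r x0 8) : QXS p q r x0 := by
  have g1 : (a : ℝ) ≤ y := by exact_mod_cast hy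
  have g2 : (y : ℝ) ≤ 2251799813685248 := by exact_mod_cast hy8
  have g3 : (2251799813685248 : ℝ) ≤ e := by exact_mod_cast he
  refine qxS_nm hp hq (by omega) h1 h2 hn (m p q r hA hB hC x0 h1 h2 hX) ?_ ?_ ?_ hF
  · exact div_le_div_of_nonneg_right g1 (by positivity)
  · rw [div_le_iff₀ (by positivity)]
    linarith
  · rw [le_div_iff₀ (by positivity)]
    linarith

/-- the quarter on the exact line -/
theorem qxS_A (hp : 3 ≤ p) (hq : 3 ≤ q) (hr : 10 ≤ r) (hqr : q ≤ r) {A B C : Lb} {a e : ℕ}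
    (m : Tc xA A B C a e) (hA : A.has p) (hB : B.has q) (hC : C.has r) {y : ℕ}
    (hn : TCellU p q r (xA p q r) 0 ((y : ℝ) / 2 ^ 48)) (hy : a ≤ y)
    (hy8 : y ≤ 2251799813685248) (he : 2251799813685248 ≤ e) (hF : Far p q r (xA p q r) 8) :
    QXS p q r (xA p q r) := by
  have g1 : (a : ℝ) ≤ y := by exact_mod_cast hy
  have g2 : (y : ℝ) ≤ 2251799813685248 := by exact_mod_cast hy8
  have g3 : (2251799813685248 : ℝ) ≤ e := by exact_mod_cast he
  refine qxS_nm hp hq (by omega) (xA_gt hp hq hqr) (xA_le2 hp hq (by omega)) hn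
    (m p q r hA hB hC) ?_ ?_ ?_ hF
  · exact div_le_div_of_nonneg_right g1 (by positivity)
  · rw [div_le_iff₀ (by positivity)]
    linarith
  · rw [le_div_iff₀ (by positivity)]
    linarith

/-- the range of the line -/
theorem xh_rng {A B C : ℕ} {lo hi n : ℕ} (hX : XH (Z.m A) (Z.m B) (Z.m C) lo hi n r x0)
    (hlh : lo < hi) (h1 : (lo : ℝ) ≤ 2 ^ 48 * Kp r) (h2 : 2 ^ 48 * Kp r ≤ (hi : ℝ)) {L H : ℕ}
    (k1 : L + n ≤ A) (k2 : L + n ≤ B) (k3 : L + n ≤ C) (g1 : A + n ≤ H) (g2 : B + n ≤ H)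
    (g3 : C + n ≤ H) : (L : ℝ) ≤ -(2 ^ 48 * x0) ∧ -(2 ^ 48 * x0) ≤ (H : ℝ) := by
  obtain ⟨⟨s0, s1⟩, -⟩ := Pool.Agent.Helper57.XL.par_01 hlh h1 h2
  have e : ∀ N : ℕ, ((zv (Z.m N) : ℤ) : ℝ) = -(N : ℝ) := by
    intro N
    show (((-(N : ℤ)) : ℤ) : ℝ) = -(N : ℝ)
    push_cast
    ring
  unfold XH at hX
  rw [e, e, e] at hX
  obtain ⟨u, v⟩ := abs_le.1 hX
  have c1 : (L : ℝ) + n ≤ A := by exact_mod_cast k1
  have c2 : (L : ℝ) + n ≤ B := by exact_mod_cast k2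
  have c3 : (L : ℝ) + n ≤ C := by exact_mod_cast k3
  have d1 : (A : ℝ) + n ≤ H := by exact_mod_cast g1
  have d2 : (B : ℝ) + n ≤ H := by exact_mod_cast g2
  have d3 : (C : ℝ) + n ≤ H := by exact_mod_cast g3
  obtain ⟨w1, w2⟩ := q3_in (x := -(A : ℝ)) (y := -(B : ℝ)) (z := -(C : ℝ)) (l := -(H : ℝ) + n)
    (h := -(L : ℝ) - n) s0 s1 (by linarith) (by linarith) (by linarith) (by linarith)
    (by linarith) (by linarith)
  constructor <;> linarith

/-- the far part of a class of three orders at least `10` -/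
theorem far3 (hp : 10 ≤ p) (hq : 10 ≤ q) (hr : 10 ≤ r) {L H : ℕ}
    (h : (L : ℝ) ≤ -(2 ^ 48 * x0) ∧ -(2 ^ 48 * x0) ≤ (H : ℝ)) (h1 : 588282701325271 + H ≤ 2 ^ 50)
    (h2 : 2 ^ 50 ≤ 675539944105574 + L) : Far p q r x0 8 :=
  FarI_three hp h1 h2 q r hq hr x0 h.1 h.2

/-- the far part of a class of first order `9` -/
theorem far9 (hq : 10 ≤ q) (hr : 10 ≤ r) {L H : ℕ}
    (h : (L : ℝ) ≤ -(2 ^ 48 * x0) ∧ -(2 ^ 48 * x0) ≤ (H : ℝ)) (h1 : H ≤ 534802455750246)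
    (h2 : 475692710641009 ≤ L) : Far 9 q r x0 8 := by
  have g1 : (H : ℝ) ≤ 534802455750246 := by exact_mod_cast h1
  have g2 : (475692710641009 : ℝ) ≤ L := by exact_mod_cast h2
  exact FarI_two (lo := 475692710641009) (hi := 534802455750246) (by norm_num) (by norm_num)
    (by norm_num [Pool.Agent.Helper6.CXT.ln0]) (by norm_num [Pool.Agent.Helper6.CXT.ln1])
    (by norm_num) q r hq hr x0 (by push_cast; linarith) (by push_cast; linarith)

/-- the far part of the class `(q, 9, r)` -/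
theorem far9m (hq : 10 ≤ q) (hr : 10 ≤ r) {L H : ℕ}
    (h : (L : ℝ) ≤ -(2 ^ 48 * x0) ∧ -(2 ^ 48 * x0) ≤ (H : ℝ)) (h1 : H ≤ 534802455750246)
    (h2 : 475692710641009 ≤ L) : Far q 9 r x0 8 := far_rot2 (far9 hr hq h h1 h2)
end

end Pool.Agent.Helper81.MIT
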