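import Pool.Agent.Helper81.MIT.Mod
import Pool.Agent.Helper12.CX.ARC
import Pool.Agent.Helper12.CW.W2K
import Pool.Agent.Helper81.MIT.K15

/-!
Row MIT: the boxes of the weights cover all orders `≥ 10`; constant lines; the quarters of the
classes with tails.
-/

set_option autoImplicit false
set_option exponentiation.threshold 4000
noncomputable section
namespace Pool.Agent.Helper81.MIT

open Pool.Agent.Helper86.C75 (Z)
open Pool.Agent.Helper90.KMO (zv zv_m zv_p)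
open Pool.Agent.Helper39.SLT (T4 ML)
open Pool.Agent.Helper6.PRG (gsF)
open Pool.Agent.Helper6.MONO (kk mm Kp xA xA_gt xA_le2 xA_swap kb kap_enc Kp_mono thr_Kp2 FinAt finA
  finW)
open Pool.Agent.Helper6.MONO.QTR (TCell Far QX qx_of_cells)
open Pool.Agent.Helper6.MONO.W2 (Win)

/-! ### numbering with one form for every state, and one more for `full` at exact stars -/

/-- the number of the first form of the state number `i` -/
def off1 (p q r : ℕ) : ℕ → ℕ
  | 0 => 0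
  | i + 1 => off1 p q r i + (if ML p q r (gsF i) < 10 then 2 else 1)

/-- one form for every state, and one more for the type `full` at exact stars -/
def kx1 (p q r : ℕ) (i : ℕ) (T : T4) : ℕ :=
  off1 p q r i + (if T = T4.full ∧ ML p q r (gsF i) < 10 then 1 else 0)

/-! ### boxes -/

/-- all orders `≥ 10` with weight in the box -/
def Rg (a b : ℕ) (P : ℕ → Prop) : Prop := ∀ M, (Lb.tl a b).has M → P M

theorem Rg.join {a b c : ℕ} {P : ℕ → Prop} (h1 : Rg a b P) (h2 : Rg b c P) : Rg a c P := by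
  intro M hM
  rcases le_total (2 ^ 48 * Kp M) (b : ℝ) with h | h
  · exact h1 M ⟨hM.1, hM.2.1, h⟩
  · exact h2 M ⟨hM.1, h, hM.2.2⟩

theorem Rg.mono {a b : ℕ} {P Q : ℕ → Prop} (h1 : Rg a b P) (h : ∀ M, 10 ≤ M → P M → Q M) :
    Rg a b Q := fun M hM => h M hM.1 (h1 M hM)

theorem Kp_lo {M : ℕ} (hM : 10 ≤ M) : (535397221549391 : ℝ) ≤ 2 ^ 48 * Kp M := by
  have h1 := kap_enc 10 (by norm_num) (by norm_num)
  have h2 := Kp_mono (M := 10) (N := M) (by norm_num) hM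
  have h3 : (kb 10 : ℝ) = 535397221549392 := by norm_num [kb]
  rw [h3, abs_le] at h1
  have h4 := h1.1
  have h5 : (535397221549392 : ℝ) / 2 ^ 48 - 1 / 2 ^ 48 ≤ Kp M := by linarith
  have h6 := mul_le_mul_of_nonneg_left h5 (by positivity : (0 : ℝ) ≤ 2 ^ 48)
  refine le_trans (le_of_eq ?_) h6
  norm_num

theorem Kp_hi {M : ℕ} (hM : 10 ≤ M) : 2 ^ 48 * Kp M ≤ (562949953421312 : ℝ) := by
  have h := (thr_Kp2 M (by omega)).2
  nlinarith

theorem Rg.all {a b : ℕ} {P : ℕ → Prop} (h : Rg a b P) (ha : a ≤ 535397221549391)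
    (hb : 562949953421312 ≤ b) : ∀ M, 10 ≤ M → P M := by
  intro M hM
  refine h M ⟨hM, ?_, ?_⟩
  · have : (a : ℝ) ≤ 535397221549391 := by exact_mod_cast ha
    exact this.trans (Kp_lo hM)
  · have : (562949953421312 : ℝ) ≤ b := by exact_mod_cast hb
    exact (Kp_hi hM).trans this

/-- the boxes `10..14` and `15..` -/
theorem Rg.gap15 {a b c d : ℕ} {P : ℕ → Prop} (h1 : Rg a b P) (h2 : Rg c d P)
    (hb : 548835622751896 ≤ b) (hc : c ≤ 550648146272263) : Rg a d P := by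
  intro M hM
  rcases Nat.lt_or_ge M 15 with h | h
  · have h3 := (Pool.Agent.Helper6.MONO.kap_1014 M hM.1 (by omega)).2
    refine h1 M ⟨hM.1, hM.2.1, ?_⟩
    have : (548835622751896 : ℝ) ≤ b := by exact_mod_cast hb
    rw [le_div_iff₀ (by positivity)] at h3
    linarith
  · have h3 := (Pool.Agent.Helper6.MONO.kap_15t M h).1
    refine h2 M ⟨hM.1, ?_, hM.2.2⟩
    have : (c : ℝ) ≤ 550648146272263 := by exact_mod_cast hc
    rw [div_le_iff₀ (by positivity)] at h3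
    linarith

/-- a thin box contains its order -/
theorem has_thin {a b M : ℕ} (h10 : 10 ≤ M) (h15 : M ≤ 15) (ha : a + 1 ≤ kbx M)
    (hb : kbx M + 1 ≤ b) : (Lb.tl a b).has M := by
  have h1 := kapx M (by omega) h15
  rw [abs_le] at h1
  have a1 : (a : ℝ) + 1 ≤ kbx M := by exact_mod_cast ha
  have b1 : (kbx M : ℝ) + 1 ≤ b := by exact_mod_cast hb
  have p : (0 : ℝ) < 2 ^ 48 := by positivity
  refine ⟨h10, ?_, ?_⟩
  · have h2 : ((kbx M : ℝ) - 1) / 2 ^ 48 ≤ Kp M := by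
      have := h1.1
      rw [sub_div]
      linarith
    rw [div_le_iff₀ p] at h2
    linarith
  · have h2 : Kp M ≤ ((kbx M : ℝ) + 1) / 2 ^ 48 := by
      have := h1.2
      rw [add_div]
      linarith
    rw [le_div_iff₀ p] at h2
    linarith

/-- the lower end of a tail -/
theorem lo_of {a N M : ℕ} (h10 : 10 ≤ N) (h15 : N ≤ 15) (ha : a + 1 ≤ kbx N) (hM : N ≤ M) :
    (a : ℝ) ≤ 2 ^ 48 * Kp M := by
  have h1 := kapx N (by omega) h15
  rw [abs_le] at h1
  have a1 : (a : ℝ) + 1 ≤ kbx N := by exact_mod_cast ha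
  have p : (0 : ℝ) < 2 ^ 48 := by positivity
  have h3 := Kp_mono (M := N) (N := M) (by omega) hM
  have h2 : ((kbx N : ℝ) - 1) / 2 ^ 48 ≤ Kp M := by
    have := h1.1
    rw [sub_div]
    linarith
  rw [div_le_iff₀ p] at h2
  linarith

/-- all orders from `N` on -/
theorem Rg.from {a b N : ℕ} {P : ℕ → Prop} (h : Rg a b P) (h10 : 10 ≤ N) (h15 : N ≤ 15)
    (ha : a + 1 ≤ kbx N) (hb : 562949953421312 ≤ b) : ∀ M, N ≤ M → P M := by
  intro M hM
  refine h M ⟨by omega, lo_of h10 h15 ha hM, ?_⟩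
  have : (562949953421312 : ℝ) ≤ b := by exact_mod_cast hb
  exact (Kp_hi (by omega)).trans this

/-! ### constant lines -/

theorem xC_m (N : ℕ) : |2 ^ 48 * (-(N : ℝ) / 2 ^ 48) - (zv (Z.m N) : ℝ)| ≤ ((0 : ℕ) : ℝ) := by
  rw [zv_m]
  have e : 2 ^ 48 * (-(N : ℝ) / 2 ^ 48) - ((-(N : ℤ) : ℤ) : ℝ) = 0 := by
    push_cast
    field_simp
    ring
  rw [e, abs_zero]
  simp

/-! ### quarters -/

/-- the quarter from the cells, one tail (any predicate of the last order) -/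
theorem qx_T {a b : ℕ} (ha : 3 ≤ a) (hb : 3 ≤ b) (hab : a ≤ 10) {B : ℝ} (hB : 0 ≤ B)
    (h : ∀ r, 10 ≤ r → TCell a b r (xA a b r) 0 B) (hF : ∀ r, 10 ≤ r → Far a b r (xA a b r) B) :
    ∀ r, 10 ≤ r → QX a b r (xA a b r) := by
  intro r hr
  refine qx_of_cells ha hb (by omega) ?_ (xA_le2 ha hb (by omega)) hB (h r hr) (hF r hr)
  rw [← xA_swap]
  exact xA_gt hb ha (by omega)

/-- the quarter from the cells on a constant line, two tails -/
theorem qx_TT {a : ℕ} (ha : 3 ≤ a) {x0 : ℝ} (hx : -2 < x0) (hx2 : x0 ≤ 2) {B : ℝ} (hB : 0 ≤ B)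
    (h : ∀ q r, 10 ≤ q → 10 ≤ r → TCell a q r x0 0 B)
    (hF : ∀ q r, 10 ≤ q → 10 ≤ r → Far a q r x0 B) :
    ∀ q r, 10 ≤ q → 10 ≤ r → QX a q r x0 := fun q r hq hr =>
  qx_of_cells ha (by omega) (by omega) hx hx2 hB (h q r hq hr) (hF q r hq hr)

/-- ONE TAIL: the final statement for `p q r`, `r ≥ 10` -/
theorem fin_T {p q : ℕ} (hp : 3 ≤ p) (hpq : p ≤ q) (hq : q ≤ 9)
    (h1 : ∀ r, 10 ≤ r → QX p q r (xA p q r)) (h2 : ∀ r, 10 ≤ r → QX q p r (xA q p r)) :
    ∀ r, 10 ≤ r → FinAt p q r := by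
  intro r hr
  refine finA hp hpq (by omega) (fun h => by omega) (h1 r hr) ?_
  rw [← xA_swap]
  exact h2 r hr

/-- TWO TAILS, plan W: both quarters are in one class with all orders of the tails -/
theorem fin_TT {p : ℕ} (hp : 3 ≤ p) (hp9 : p ≤ 13) {m : ℝ} (hm2 : m ≤ 2)
    (hA : ∀ q r, 10 ≤ q → p ≤ q → q ≤ r → xA p q r ≤ m)
    (h1 : ∀ q r, 10 ≤ q → 10 ≤ r → QX p q r m)
    (hW : ∀ q r, 10 ≤ q → p ≤ q → q ≤ r → Win p q r (xA p q r) m) :
    ∀ q r, 10 ≤ q → p ≤ q → q ≤ r → FinAt p q r := by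
  intro q r hq hpq hqr
  exact finW hp hpq hqr (fun h => by omega) (hA q r hq hpq hqr) hm2 (h1 q r hq (by omega))
    (h1 r q (by omega) hq).rot2 (hW q r hq hpq hqr)

end Pool.Agent.Helper81.MIT
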