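import Pool.Agent.Helper81.MIT.Def
import Pool.Agent.Helper12.CX.RJT

/-!
Row MIT: the coverage lemmas; one run of a typed program gives the inclusion of the forms.
-/

set_option autoImplicit false
noncomputable section
namespace Pool.Agent.Helper81.MIT

open Pool.Agent.Helper21.SUP (GS DG DG_nx)
open Pool.Agent.Helper21.SUP renaming nx → nxs
open Pool.Agent.Helper39.SLT (T4 ML)
open Pool.Agent.Helper6.MONO (V3 mm kk Kp Rb Bm Cm RMb omS zw LNI_mm LNI_kk_symm RJ_one RJ_two
  RJ_tail3 RJ_tail4)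
open Pool.Agent.Helper6.PRG (gsF giS tys gsF_giS mem_tys)
open Pool.Agent.Helper6.MID (oZ sE sO kO kap3 oZ_omS src_odd src_even)
open Pool.Agent.Helper21.KRN (RI PI TProg eT oT rT lT RunIn KResT kap cκ)
open Pool.Agent.Helper86.CX (Hm ev CK CM ev_CK)
open Complex ComplexConjugate

/-! ### representatives -/

theorem rep_lt {M : ℕ} : rep M < 10 ↔ M < 10 := by unfold rep; omega
theorem rep_ge {M : ℕ} : 10 ≤ rep M ↔ 10 ≤ M := by unfold rep; omega
theorem rep_of_lt {M : ℕ} (h : M < 10) : rep M = M := by unfold rep; omega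
theorem rep_of_ge {M : ℕ} (h : 10 ≤ M) : rep M = 10 := by unfold rep; omega

theorem mm_rep (p q r : ℕ) (i j : Fin 3) (h : i ≠ j) :
    mm (rep p) (rep q) (rep r) i j = rep (mm p q r i j) := by
  fin_cases i <;> fin_cases j <;> simp_all [mm]

theorem ML_rep (p q r : ℕ) {s : GS} (h : DG s) :
    ML (rep p) (rep q) (rep r) s = rep (ML p q r s) :=
  mm_rep p q r _ _ (fun e => h.2.2 e.symm)

theorem tysT_rep (M : ℕ) : tysT (rep M) = tysT M := by
  unfold tysT
  by_cases h : 10 ≤ M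
  · rw [if_pos h, if_pos (rep_ge.2 h)]
  · rw [if_neg h, if_neg (fun h' => h (rep_ge.1 h')), rep_of_lt (by omega)]

theorem tposT_rep (M : ℕ) (T : T4) : tposT (rep M) T = tposT M T := by
  by_cases h : 10 ≤ M
  · cases T <;> simp [tposT, h, rep_ge.2 h]
  · rw [rep_of_lt (by omega)]

theorem DG_gsF : ∀ i : ℕ, DG (gsF i) := by
  intro i
  match i with
  | 0 => exact ⟨by decide, by decide, by decide⟩
  | 1 => exact ⟨by decide, by decide, by decide⟩
  | 2 => exact ⟨by decide, by decide, by decide⟩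
  | 3 => exact ⟨by decide, by decide, by decide⟩
  | 4 => exact ⟨by decide, by decide, by decide⟩
  | _ + 5 =>
    show DG ((2, 1, 0) : GS)
    exact ⟨by decide, by decide, by decide⟩

theorem offT_rep (p q r : ℕ) : ∀ i, offT (rep p) (rep q) (rep r) i = offT p q r i
  | 0 => rfl
  | i + 1 => by
    show offT (rep p) (rep q) (rep r) i + (tysT (ML (rep p) (rep q) (rep r) (gsF i))).length =
      offT p q r i + (tysT (ML p q r (gsF i))).length
    rw [offT_rep p q r i, ML_rep p q r (DG_gsF i), tysT_rep]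

theorem kidxT_rep (p q r : ℕ) {s : GS} (h : DG s) (T : T4) :
    kidxT (rep p) (rep q) (rep r) s T = kidxT p q r s T := by
  unfold kidxT
  rw [offT_rep, ML_rep p q r h, tposT_rep]

/-- the type tested for a type: `oth` for `full` of a tail -/
def cut (M : ℕ) (T : T4) : T4 := if 10 ≤ M ∧ T = T4.full then T4.oth else T

theorem cut_pos (M : ℕ) (T : T4) : tposT M (cut M T) = tposT M T := by
  unfold cut
  by_cases h : 10 ≤ M
  · cases T <;> simp [tposT, h]
  · rw [if_neg fun h' => h h'.1]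

theorem kidxT_cut (p q r : ℕ) (s : GS) (T : T4) :
    kidxT p q r s (cut (ML p q r s) T) = kidxT p q r s T := by
  unfold kidxT
  rw [cut_pos]

theorem cut_mem {M : ℕ} {T : T4} (h : T.ok M) : cut M T ∈ tysT M := by
  unfold cut tysT
  by_cases h10 : 10 ≤ M
  · rw [if_pos h10]
    cases T <;> simp [h10]
  · rw [if_neg h10, if_neg fun h' => h10 h'.1]
    exact mem_tys h

theorem cut_low {M : ℕ} (T : T4) : (cut M T).low M ≤ T.low M := by
  unfold cut
  split_ifs with h
  · rw [h.2]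
    show 2 ≤ 3
    norm_num
  · exact le_rfl

theorem low_rep (M : ℕ) (hM : 3 ≤ M) (T : T4) : T.low (rep M) = T.low M := by
  by_cases h : 10 ≤ M
  · rw [rep_of_ge h]
    cases T with
    | two => rfl
    | three =>
      show (if (10 : ℕ) = 3 then 3 else 2) = if M = 3 then 3 else 2
      rw [if_neg (by norm_num), if_neg (by omega)]
    | oth => rfl
    | full => rfl
  · rw [rep_of_lt (by omega)]

theorem low_ge2 (M : ℕ) (T : T4) : 2 ≤ T.low M := by
  cases T with
  | two => exact le_rfl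
  | three =>
    show 2 ≤ if M = 3 then 3 else 2
    split_ifs <;> norm_num
  | oth => exact le_rfl
  | full => exact (by norm_num : 2 ≤ 3)

theorem low_le3 (M : ℕ) (T : T4) : T.low M ≤ 3 := by
  cases T with
  | two => exact (by norm_num : 2 ≤ 3)
  | three =>
    show (if M = 3 then 3 else 2) ≤ 3
    split_ifs <;> norm_num
  | oth => exact (by norm_num : 2 ≤ 3)
  | full => exact le_rfl

/-! ### edges -/

theorem kap_edN (p q r : ℕ) (i j : Fin 3) (h : i ≠ j) : kap (kR p q r) (edN i j) = kk p q r i j := by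
  have s20 : kk p q r 0 2 = kk p q r 2 0 := LNI_kk_symm p q r 0 2
  have s10 : kk p q r 1 0 = kk p q r 0 1 := LNI_kk_symm p q r 1 0
  have s21 : kk p q r 2 1 = kk p q r 1 2 := LNI_kk_symm p q r 2 1
  fin_cases i <;> fin_cases j <;>
    first
    | exact absurd rfl h
    | rfl
    | exact s20.symm
    | exact s10.symm
    | exact s21.symm

theorem cκ_kR (p q r : ℕ) : cκ (kR p q r) = kap3 p q r := by
  funext i
  fin_cases i <;> rfl

/-! ### lists -/

theorem req_eq {i j : RI} (h : req i j = true) : i = j := by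
  cases i <;> cases j <;> simp_all [req]

theorem hasRT_iff {l : List PI} {k k' : ℕ} {i : RI} (h : hasRT l k i k' = true) :
    ∃ x ∈ l, x.k = k ∧ ∃ y ∈ x.b, y.id = i ∧ ∃ z ∈ y.s, z.k = k' := by
  unfold hasRT at h
  rw [List.any_eq_true] at h
  obtain ⟨x, hx, h⟩ := h
  rw [Bool.and_eq_true, beq_iff_eq, List.any_eq_true] at h
  obtain ⟨h1, y, hy, h⟩ := h
  rw [Bool.and_eq_true, List.any_eq_true] at h
  obtain ⟨h2, z, hz, h3⟩ := h
  exact ⟨x, hx, h1, y, hy, req_eq h2, z, hz, by simpa using h3⟩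

theorem ivs_find {X : ℝ} : ∀ (l : List ℕ) (a : ℕ), l ≠ [] → (a : ℝ) ≤ X →
    X ≤ ((l.getLastD 0 : ℕ) : ℝ) → ∃ x ∈ ivs a l, (x.1 : ℝ) ≤ X ∧ X ≤ (x.2 : ℝ) ∧ x.2 ∈ l
  | [], _, h, _, _ => absurd rfl h
  | [b], a, _, ha, hb => ⟨(a, b), by simp [ivs], ha, hb, by simp⟩
  | b :: c :: l, a, _, ha, hb => by
    rcases le_total X (b : ℝ) with h | h
    · exact ⟨(a, b), by simp [ivs], ha, h, by simp⟩
    · obtain ⟨x, hx, h1, h2, h3⟩ := ivs_find (c :: l) b (by simp) h (by simpa using hb)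
      exact ⟨x, List.mem_cons_of_mem _ hx, h1, h2, List.mem_cons_of_mem _ h3⟩

/-! ### one run -/

variable {p q r : ℕ}

/-- an odd run -/
theorem core_odd {z : ℂ} (hz : z ≠ 0) (hz1 : z + 1 ≠ 0) {K : ℕ → Hm ℝ} {G : TProg}
    (hK : KResT K (kR p q r) z G) {s : GS} (h : DG s) {m : ℕ} (hodd : m % 2 = 1) {k k' : ℕ} {i : RI}
    (hb : hasRT (eT G (giS (nxs s m))) k i k' = true)
    (hR : RunIn (kR p q r) i (kk p q r s.1 s.2.1) (Rb (mm p q r s.1 s.2.1) (m - 1)))
    (v : Fin 3 → ℂ) (hv : 0 < ev (K k') v) :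
    0 < ev (K k) ((RMb p q r s m (zw z)).mulVec v) := by
  have hom := fun s hs => oZ_omS (p := p) (q := q) (r := r) hz hz1 s hs
  obtain ⟨x, hx, hk, y, hy, hV, u, hu, hku⟩ := hasRT_iff hb
  rw [← hku] at hv
  have hsn : DG (nxs s m) := DG_nx s m h
  rw [← hk]
  have hcomp : ∀ A B : Matrix (Fin 3) (Fin 3) ℂ, (A * B).mulVec v = A.mulVec (B.mulVec v) :=
    fun A B => (Matrix.mulVec_mulVec v A B).symm
  unfold RMb
  rw [hcomp]
  obtain ⟨e1, e2⟩ := src_odd hodd s h
  rw [← hV] at hR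
  have h5 := hK.e _ e2 x hx y hy u hu _ _ hR v hv
  rw [cκ_kR, ← ev_CK, e1, ← hom s h, ← hom _ hsn] at h5
  have e3 : Cm (decide (m % 2 = 1)) (kk p q r s.1 s.2.1) (omS p q r s (zw z))
      (omS p q r (nxs s m) (zw z)) = CM 0 (omS p q r (nxs s m) (zw z))
        (omS p q r s (zw z) * omS p q r (nxs s m) (zw z)) := by
    unfold Cm CM
    rw [if_pos (by rw [hodd]; rfl)]
  rw [e3]
  exact h5

/-- an even run -/
theorem core_even {z : ℂ} (hz : z ≠ 0) (hz1 : z + 1 ≠ 0) {K : ℕ → Hm ℝ} {G : TProg}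
    (hK : KResT K (kR p q r) z G) {s : GS} (h : DG s) {m : ℕ} (hev : m % 2 = 0) {k k' : ℕ} {i : RI}
    (hb : hasRT (oT G (giS (nxs s m))) k i k' = true)
    (hR : RunIn (kR p q r) i (kk p q r s.1 s.2.1) (Rb (mm p q r s.1 s.2.1) (m - 1)))
    (v : Fin 3 → ℂ) (hv : 0 < ev (K k') v) :
    0 < ev (K k) ((RMb p q r s m (zw z)).mulVec v) := by
  have hom := fun s hs => oZ_omS (p := p) (q := q) (r := r) hz hz1 s hs
  obtain ⟨x, hx, hk, y, hy, hV, u, hu, hku⟩ := hasRT_iff hb
  rw [← hku] at hv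
  have hsn : DG (nxs s m) := DG_nx s m h
  rw [← hk]
  have hcomp : ∀ A B : Matrix (Fin 3) (Fin 3) ℂ, (A * B).mulVec v = A.mulVec (B.mulVec v) :=
    fun A B => (Matrix.mulVec_mulVec v A B).symm
  unfold RMb
  rw [hcomp]
  obtain ⟨e1, e2, e4⟩ := src_even (p := p) (q := q) (r := r) hev s h
  rw [← hV] at hR
  have h5 := hK.o _ e2 x hx y hy u hu _ _ hR v hv
  rw [cκ_kR, ← ev_CK, e1, e4, ← hom s h, ← hom _ hsn] at h5
  have e3 : Cm (decide (m % 2 = 1)) (kk p q r s.1 s.2.1) (omS p q r s (zw z))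
      (omS p q r (nxs s m) (zw z)) = CM ((kk p q r s.1 s.2.1 : ℂ) * omS p q r s (zw z) / 2 -
        (kk p q r s.1 s.2.1 : ℂ) ^ 2 / (4 * (2 + (kk p q r s.1 s.2.1 : ℂ))))
        (omS p q r (nxs s m) (zw z)) (omS p q r (nxs s m) (zw z) *
          ((kk p q r s.1 s.2.1 : ℂ) / 2) * (1 / 2 - omS p q r s (zw z))) := by
    unfold Cm CM
    rw [if_neg (by rw [hev]; decide)]
  rw [e3]
  exact h5

/-- ONE RUN: the entry of the program gives the inclusion of the forms -/
theorem run_ofT (hp : 3 ≤ p) (hq : 3 ≤ q) (hr : 3 ≤ r) {BE BO : List ℕ}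
    (hB : brOK BE BO = true) {z : ℂ} (hz : z ≠ 0) (hz1 : z + 1 ≠ 0) {K : ℕ → Hm ℝ} {G : TProg}
    (hK : KResT K (kR p q r) z G) {s : GS} (h : DG s) {m : ℕ} (hm2 : 2 ≤ m)
    (hm : m ≤ mm p q r s.1 s.2.1) {k k' : ℕ}
    (hb : hasRun (rep p) (rep q) (rep r) BE BO G s m k k' = true)
    (v : Fin 3 → ℂ) (hv : 0 < ev (K k') v) :
    0 < ev (K k) ((RMb p q r s m (zw z)).mulVec v) := by
  have hM3 := LNI_mm hp hq hr _ _ h.1
  unfold hasRun at hb
  rw [mm_rep p q r _ _ h.1] at hb
  by_cases hM : mm p q r s.1 s.2.1 < 10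
  · rw [if_pos (rep_lt.2 hM), rep_of_lt hM] at hb
    have hR : RunIn (kR p q r) (RI.ex (mm p q r s.1 s.2.1) m) (kk p q r s.1 s.2.1)
        (Rb (mm p q r s.1 s.2.1) (m - 1)) := ⟨hM3, by omega, hm2, hm, rfl, rfl⟩
    by_cases hodd : m % 2 = 1
    · rw [if_pos hodd] at hb
      exact core_odd hz hz1 hK h hodd hb hR v hv
    · rw [if_neg hodd] at hb
      exact core_even hz hz1 hK h (by omega) hb hR v hv
  · have hM10 : 10 ≤ mm p q r s.1 s.2.1 := by omega
    rw [if_neg fun h' => hM (rep_lt.1 h')] at hb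
    have hkap : kk p q r s.1 s.2.1 = kap (kR p q r) (edN s.1 s.2.1) :=
      (kap_edN p q r _ _ h.1).symm
    by_cases h2 : m = 2
    · subst h2
      rw [if_pos rfl] at hb
      refine core_even hz hz1 hK h rfl hb ⟨hkap, ?_⟩ v hv
      exact RJ_one _ hM3
    · rw [if_neg h2] at hb
      by_cases h3 : m = 3
      · subst h3
        rw [if_pos rfl] at hb
        refine core_odd hz hz1 hK h rfl hb ⟨hkap, ?_⟩ v hv
        exact RJ_two _ hM3
      · rw [if_neg h3] at hb
        unfold brOK at hB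
        simp only [Bool.and_eq_true, List.all_eq_true, decide_eq_true_eq] at hB
        obtain ⟨hB1, hB2, hB3, hB4⟩ := hB
        by_cases hodd : m % 2 = 1
        · rw [if_pos hodd, List.all_eq_true] at hb
          obtain ⟨r0, r1⟩ := RJ_tail4 (mm p q r s.1 s.2.1) (m - 1) (by omega) (by omega) (by omega)
          have hne : BO ≠ [] := by
            rintro rfl
            simp at hB4
          have h4 : ((2 ^ 47 : ℕ) : ℝ) ≤ ((BO.getLastD 0 : ℕ) : ℝ) := by exact_mod_cast hB4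
          obtain ⟨x, hx, x1, x2, x3⟩ := ivs_find (X := 2 ^ 48 * Rb (mm p q r s.1 s.2.1) (m - 1))
            BO 0 hne (by push_cast; positivity) (by
              refine le_trans ?_ h4
              push_cast
              nlinarith)
          exact core_odd hz hz1 hK h hodd (hb x hx) ⟨hkap, x1, x2, hB2 _ x3⟩ v hv
        · rw [if_neg hodd, List.all_eq_true] at hb
          obtain ⟨r0, r1⟩ := RJ_tail3 (mm p q r s.1 s.2.1) (m - 1) (by omega) (by omega) (by omega)
          have hne : BE ≠ [] := by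
            rintro rfl
            simp at hB3
          have h4 : ((2 ^ 49 : ℕ) : ℝ) ≤ ((3 * BE.getLastD 0 : ℕ) : ℝ) := by exact_mod_cast hB3
          push_cast at h4
          obtain ⟨x, hx, x1, x2, x3⟩ := ivs_find (X := 2 ^ 48 * Rb (mm p q r s.1 s.2.1) (m - 1))
            BE 0 hne (by push_cast; positivity) (by nlinarith)
          exact core_even hz hz1 hK h (by omega) (hb x hx) ⟨hkap, x1, x2, hB1 _ x3⟩ v hv

/-! ### all runs -/

/-- the length tested for a length -/
def cutm (M m : ℕ) : ℕ := if 10 ≤ M ∧ 4 ≤ m then 4 + m % 2 else m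

theorem nxs_par (s : GS) {m m' : ℕ} (h : m % 2 = m' % 2) : nxs s m = nxs s m' := by
  rcases Nat.mod_two_eq_zero_or_one m' with h0 | h0
  · rw [Pool.Agent.Helper21.SUP.nx_even s m (h.trans h0), Pool.Agent.Helper21.SUP.nx_even s m' h0]
  · rw [Pool.Agent.Helper21.SUP.nx_odd s m (h.trans h0), Pool.Agent.Helper21.SUP.nx_odd s m' h0]

theorem hasRun_cutm (BE BO : List ℕ) (G : TProg) (s : GS) (m k k' : ℕ) :
    hasRun p q r BE BO G s (cutm (mm p q r s.1 s.2.1) m) k k' = hasRun p q r BE BO G s m k k' := by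
  unfold cutm
  split_ifs with h
  · obtain ⟨h1, h2⟩ := h
    have e : (4 + m % 2) % 2 = m % 2 := by omega
    have e2 : nxs s (4 + m % 2) = nxs s m := nxs_par s e
    have a1 : ¬ mm p q r s.1 s.2.1 < 10 := by omega
    have a2 : ¬ 4 + m % 2 = 2 := by omega
    have a3 : ¬ 4 + m % 2 = 3 := by omega
    have a4 : ¬ m = 2 := by omega
    have a5 : ¬ m = 3 := by omega
    unfold hasRun
    rw [if_neg a1, if_neg a1, if_neg a2, if_neg a3, if_neg a4, if_neg a5, e, e2]
  · rfl

theorem cutm_mem {M m : ℕ} (h2 : 2 ≤ m) (hm : m ≤ M) : cutm M m ∈ msT M := by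
  unfold cutm msT
  by_cases h : 10 ≤ M
  · rw [if_neg (by omega)]
    split_ifs with h4
    · rcases Nat.mod_two_eq_zero_or_one m with h0 | h0 <;> rw [h0] <;> simp
    · have : m = 2 ∨ m = 3 := by omega
      rcases this with rfl | rfl <;> simp
  · rw [if_pos (by omega), if_neg fun h' => h h'.1]
    exact List.mem_range.2 (by omega)

theorem cutm_rep (M m : ℕ) : cutm (rep M) m = cutm M m := by
  unfold cutm
  by_cases h : 10 ≤ M
  · simp [h, rep_ge.2 h]
  · rw [rep_of_lt (by omega)]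

theorem msT_rep (M : ℕ) : msT (rep M) = msT M := by
  unfold msT
  by_cases h : M < 10
  · rw [rep_of_lt h]
  · rw [if_neg h, if_neg fun h' => h (rep_lt.1 h')]

/-- the number of the target form for the tested length -/
theorem kidxT_next {s : GS} (h : DG s) {m : ℕ} (h2 : 2 ≤ m) :
    kidxT p q r (nxs s (cutm (mm p q r s.1 s.2.1) m))
      (T4.next (rep (mm p q r s.1 s.2.1)) (cutm (mm p q r s.1 s.2.1) m)) =
    kidxT p q r (nxs s m) (T4.next (mm p q r s.1 s.2.1) m) := by
  by_cases h10 : 10 ≤ mm p q r s.1 s.2.1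
  · have hML : ML p q r (nxs s m) = mm p q r s.1 s.2.1 :=
      Pool.Agent.Helper39.SLT.ML_nx (p := p) (q := q) (r := r) s m
    unfold cutm
    split_ifs with h4
    · have e2 : nxs s (4 + m % 2) = nxs s m := nxs_par s (by omega)
      have e3 : T4.next (rep (mm p q r s.1 s.2.1)) (4 + m % 2) = T4.oth := by
        unfold T4.next
        rw [rep_of_ge h10, if_neg (by omega), if_neg (by omega), if_neg (by omega)]
      rw [e2, e3]
      have e4 : tposT (ML p q r (nxs s m)) T4.oth =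
          tposT (ML p q r (nxs s m)) (T4.next (mm p q r s.1 s.2.1) m) := by
        rw [hML]
        unfold T4.next
        rw [if_neg (by omega), if_neg (by omega)]
        split_ifs
        · simp [tposT, h10]
        · rfl
      unfold kidxT
      rw [e4]
    · have h5 : m = 2 ∨ m = 3 := by omega
      rcases h5 with rfl | rfl
      · rfl
      · rfl
  · rw [rep_of_lt (by omega)]
    unfold cutm
    rw [if_neg fun h' => h10 h'.1]

theorem coverT_run {BE BO : List ℕ} {G : TProg}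
    (hc : coverT (rep p) (rep q) (rep r) BE BO G = true) (hp : 3 ≤ p) (hq : 3 ≤ q) (hr : 3 ≤ r)
    {s : GS} (hs : DG s) {T : T4} (hT : T.ok (ML p q r s)) {m : ℕ}
    (h1 : T.low (ML p q r s) ≤ m) (h2 : m ≤ mm p q r s.1 s.2.1) :
    hasRun (rep p) (rep q) (rep r) BE BO G s m
      (kidxT p q r (nxs s m) (T4.next (mm p q r s.1 s.2.1) m)) (kidxT p q r s T) = true := by
  obtain ⟨e, hi⟩ := gsF_giS s hs
  unfold coverT at hc
  rw [Bool.and_eq_true, List.all_eq_true] at hc
  have h3 := hc.2 (giS s) (List.mem_range.2 hi)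
  unfold covST at h3
  rw [e, mm_rep p q r _ _ hs.1, msT_rep, List.all_eq_true] at h3
  have hm2 : 2 ≤ m := (low_ge2 _ T).trans h1
  have h5 := h3 _ (cutm_mem hm2 h2)
  rw [ML_rep p q r hs, tysT_rep, List.all_eq_true] at h5
  have h6 := h5 _ (cut_mem hT)
  have hM3 : 3 ≤ ML p q r s := LNI_mm hp hq hr _ _ (fun e => hs.2.2 e.symm)
  have hlow : (cut (ML p q r s) T).low (ML p q r s) ≤ cutm (mm p q r s.1 s.2.1) m := by
    refine (cut_low T).trans ?_
    unfold cutm
    split_ifs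
    · exact (low_le3 _ T).trans (by omega)
    · exact h1
  rw [low_rep _ hM3, if_pos hlow, kidxT_rep p q r hs, kidxT_cut,
    kidxT_rep p q r (DG_nx s _ hs), kidxT_next hs hm2] at h6
  have h7 := hasRun_cutm (p := rep p) (q := rep q) (r := rep r) BE BO G s m
    (kidxT p q r (nxs s m) (T4.next (mm p q r s.1 s.2.1) m)) (kidxT p q r s T)
  rw [mm_rep p q r _ _ hs.1, cutm_rep] at h7
  rw [← h7]
  exact h6

end Pool.Agent.Helper81.MIT
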