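import Pool.Agent.Helper6.CX.MID
import Pool.Agent.Helper21.CT.KRS
import Pool.Agent.Helper86.CT.PcT

/-!
Row MIT (middle cells of the classes with tails): numbers of the forms, coverage of the typed
program, of the static tests and of the slit tests. Definitions.
-/

set_option autoImplicit false
noncomputable section
namespace Pool.Agent.Helper81.MIT

open Pool.Agent.Helper21.SUP (GS DG nx)
open Pool.Agent.Helper39.SLT (T4 ML)
open Pool.Agent.Helper6.MONO (mm kk Kp)
open Pool.Agent.Helper6.PRG (gsF giS tys tN)
open Pool.Agent.Helper21.KRN (RI PI TProg eT oT rT lT)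
open Pool.Agent.Helper86.CT (LT2)

/-- the representative of an order: all orders `≥ 10` are tails -/
def rep (M : ℕ) : ℕ := min M 10

/-- the types of a state whose last star has order `M`, in the order of the checker; no type
`full` for tails -/
def tysT (M : ℕ) : List T4 := if 10 ≤ M then [T4.two, T4.three, T4.oth] else tys M

/-- the place of a type; `full` has the place of `oth` for tails -/
def tposT (M : ℕ) : T4 → ℕ
  | T4.two => 0
  | T4.three => 1
  | T4.oth => 2
  | T4.full => if 10 ≤ M then 2 else if 5 ≤ M then 3 else 2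

/-- the number of the first form of the state number `i` -/
def offT (p q r : ℕ) : ℕ → ℕ
  | 0 => 0
  | i + 1 => offT p q r i + (tysT (ML p q r (gsF i))).length

/-- the number of a form in the table -/
def kidxT (p q r : ℕ) (s : GS) (T : T4) : ℕ := offT p q r (giS s) + tposT (ML p q r s) T

/-- the number of the edge between `i` and `j` -/
def edN (i j : Fin 3) : ℕ := !![3, 0, 2; 0, 3, 1; 2, 1, 3] i j

/-- the three weights -/
def kR (p q r : ℕ) : Fin 3 → ℝ := ![kk p q r 0 1, kk p q r 1 2, kk p q r 2 0]

/-! ### runs -/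

/-- equality of names of runs -/
def req : RI → RI → Bool
  | RI.ex M m, RI.ex M' m' => M == M' && m == m'
  | RI.t2 e, RI.t2 e' => e == e'
  | RI.t3 e, RI.t3 e' => e == e'
  | RI.lr e a b, RI.lr e' a' b' => e == e' && (a == a' && b == b')
  | _, _ => false

/-- the list contains the run `i` from the form `k'` to the form `k` -/
def hasRT (l : List PI) (k : ℕ) (i : RI) (k' : ℕ) : Bool :=
  l.any fun x => x.k == k && x.b.any fun y => req y.id i && y.s.any fun z => z.k == k'

/-- consecutive intervals -/
def ivs : ℕ → List ℕ → List (ℕ × ℕ)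
  | _, [] => []
  | a, b :: l => (a, b) :: ivs b l

/-- the break points of the long runs: even runs `[0, 2/3]`, odd runs `[0, 1/2]` -/
def brOK (BE BO : List ℕ) : Bool :=
  (BE.all fun b => decide (b ≤ 2 ^ 50)) && ((BO.all fun b => decide (b ≤ 2 ^ 50)) &&
    (decide (2 ^ 49 ≤ 3 * BE.getLastD 0) && decide (2 ^ 47 ≤ BO.getLastD 0)))

/-- the run of `m` letters from the state `s`, source form `k'`, target form `k`, is in the
program -/
def hasRun (p q r : ℕ) (BE BO : List ℕ) (G : TProg) (s : GS) (m k k' : ℕ) : Bool :=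
  if mm p q r s.1 s.2.1 < 10 then
    hasRT (if m % 2 = 1 then eT G (giS (nx s m)) else oT G (giS (nx s m))) k
      (RI.ex (mm p q r s.1 s.2.1) m) k'
  else if m = 2 then hasRT (oT G (giS (nx s 2))) k (RI.t2 (edN s.1 s.2.1)) k'
  else if m = 3 then hasRT (eT G (giS (nx s 3))) k (RI.t3 (edN s.1 s.2.1)) k'
  else if m % 2 = 1 then
    (ivs 0 BO).all fun x => hasRT (eT G (giS (nx s m))) k (RI.lr (edN s.1 s.2.1) x.1 x.2) k'
  else
    (ivs 0 BE).all fun x => hasRT (oT G (giS (nx s m))) k (RI.lr (edN s.1 s.2.1) x.1 x.2) k'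

/-- the lengths of the runs to be tested in a star of order `M` -/
def msT (M : ℕ) : List ℕ := if M < 10 then List.range (M + 1) else [2, 3, 4, 5]

/-! ### coverage -/

/-- the runs from the state number `i` -/
def covST (p q r : ℕ) (BE BO : List ℕ) (G : TProg) (i : ℕ) : Bool :=
  (msT (mm p q r (gsF i).1 (gsF i).2.1)).all fun m =>
    (tysT (ML p q r (gsF i))).all fun T =>
      if T.low (ML p q r (gsF i)) ≤ m then
        hasRun p q r BE BO G (gsF i) m
          (kidxT p q r (nx (gsF i) m) (T4.next (mm p q r (gsF i).1 (gsF i).2.1) m))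
          (kidxT p q r (gsF i) T)
      else true

/-- the reference tests of the state number `i` -/
def covRT (p q r : ℕ) (G : TProg) (i : ℕ) : Bool :=
  (tysT (ML p q r (gsF i))).all fun T =>
    (decide (T = T4.two) && decide (ML p q r (gsF i) ≤ 3)) ||
      (rT G i).any fun x => x == kidxT p q r (gsF i) T

/-- the tests of the `L` vector at the states with label `3` -/
def coverLT (p q r : ℕ) (G : TProg) : Bool :=
  (List.range 6).all fun i => if ML p q r (gsF i) = 3 then
    (lT G i).any fun x => x == kidxT p q r (gsF i) T4.two else true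

/-- all reference tests -/
def covRTs (p q r : ℕ) (G : TProg) : Bool := (List.range 6).all fun i => covRT p q r G i

/-- THE PROGRAM COVERS ALL RUNS; the orders are representatives (`≤ 10`) -/
def coverT (p q r : ℕ) (BE BO : List ℕ) (G : TProg) : Bool :=
  brOK BE BO && (List.range 6).all fun i => covST p q r BE BO G i

/-- all forms of the class are in the list of the static tests -/
def covTT (p q r : ℕ) (l : List ℕ) : Bool :=
  (List.range 6).all fun i => (tysT (ML p q r (gsF i))).all fun T =>
    l.any fun k => k == kidxT p q r (gsF i) T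

/-! ### labels with boxes of the weights -/

/-- a label: an exact order or a tail with the interval of `2 ^ 48 κ` -/
inductive Lb where
  | ex (M : ℕ)
  | tl (lo hi : ℕ)

/-- the orders of a label -/
def Lb.has : Lb → ℕ → Prop
  | Lb.ex N, M => M = N ∧ 3 ≤ N ∧ N ≤ 9
  | Lb.tl lo hi, M => 10 ≤ M ∧ (lo : ℝ) ≤ 2 ^ 48 * Kp M ∧ 2 ^ 48 * Kp M ≤ (hi : ℝ)

/-- the representative order of a label -/
def Lb.rp : Lb → ℕ
  | Lb.ex N => N
  | Lb.tl _ _ => 10

/-- the label of the edge number `e` -/
def lbE (a b c : Lb) : ℕ → Lb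
  | 0 => a
  | 1 => b
  | _ => c

/-- the ends of the interval of `(1 - S)/2 = 1 - 2/κ²` -/
def tOK : Lb → ℕ → ℕ → Bool
  | Lb.ex N, ta, tb => ta == tN N && tb == tN N
  | Lb.tl lo hi, ta, tb => decide (ta * (lo * lo) + 2 ^ 145 ≤ 2 ^ 48 * (lo * lo)) &&
      (decide (2 ^ 48 * (hi * hi) ≤ tb * (hi * hi) + 2 ^ 145) && decide (tb ≤ 2 ^ 50))

/-- an entry of the list of the slit tests -/
def hasLT (B : Lb) (l : List LT2) (k : ℕ) : Bool := l.any fun x => x.k == k && tOK B x.ta x.tb

/-- every state has its slit tests for the types `two` and `three` -/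
def covLT (a b c : Lb) (l : List LT2) : Bool :=
  (List.range 6).all fun i =>
    hasLT (lbE a b c (edN (gsF i).1 (gsF i).2.1)) l (kidxT a.rp b.rp c.rp (gsF i) T4.two) &&
      hasLT (lbE a b c (edN (gsF i).1 (gsF i).2.1)) l (kidxT a.rp b.rp c.rp (gsF i) T4.three)

end Pool.Agent.Helper81.MIT
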