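import Pool.Agent.Helper81.MIT.Glu

/-!
Cells on all lines close to a number.
-/

set_option autoImplicit false
set_option exponentiation.threshold 4000
noncomputable section
namespace Pool.Agent.Helper81.MIT

open Pool.Agent.Helper86.C75 (Z)
open Pool.Agent.Helper90.KMO (zv zv_m)
open Pool.Agent.Helper6.MONO.QTR (TCell Far QX qx_of_cells)
open Pool.Agent.Helper6.MONO (Thr)

theorem xE_m {N n : ℕ} {x : ℝ} (h : |2 ^ 48 * x - (-((N : ℕ) : ℝ))| ≤ ((n : ℕ) : ℝ)) :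
    |2 ^ 48 * x - (zv (Z.m N) : ℝ)| ≤ ((n : ℕ) : ℝ) := by
  rw [zv_m]
  push_cast
  exact h

/-- cells on all lines `x` with `|2 ^ 48 x + N| ≤ n` -/
def TcE (N n : ℕ) (a b c : Lb) (y e : ℕ) : Prop :=
  ∀ p q r : ℕ, a.has p → b.has q → c.has r → ∀ x : ℝ, -2 < x → x ≤ 2 →
    |2 ^ 48 * x - (-((N : ℕ) : ℝ))| ≤ ((n : ℕ) : ℝ) →
    TCell p q r x ((y : ℝ) / 2 ^ 48) ((e : ℝ) / 2 ^ 48)

/-- the quarter of one triple: cells near the real line, cells of the middle, the far part -/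
theorem qx_of_E {N n p q r y e : ℕ} {a b c : Lb} (hM : TcE N n a b c y e) (ha : a.has p)
    (hb : b.has q) (hc : c.has r) (he : 2251799813685248 ≤ e) {x y1 : ℝ} (hT : Thr p q r x)
    (hX : |2 ^ 48 * x - (-((N : ℕ) : ℝ))| ≤ ((n : ℕ) : ℝ)) (hN : TCell p q r x 0 y1)
    (h1 : (y : ℝ) / 2 ^ 48 ≤ y1) (h8 : y1 ≤ 8) (hF : Far p q r x 8) (hp : 3 ≤ p) (hq : 3 ≤ q)
    (hr : 3 ≤ r) : QX p q r x := by
  have k := hM p q r ha hb hc x hT.gt hT.le hX
  refine qx_of_cells hp hq hr hT.gt hT.le (by norm_num) ?_ hF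
  refine hN.join (tc_sub k h1 ?_)
  rw [le_div_iff₀ (by positivity)]
  have : (2251799813685248 : ℝ) ≤ e := by exact_mod_cast he
  linarith

end Pool.Agent.Helper81.MIT
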