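import Pool.Agent.Helper81.MIT.LinX
import Pool.Agent.Helper6.CXT.CL4

/-!
THE QUARTERS OF A TASK (a range of the orders `q`, `r` with a line) from the modules of boxes.
-/

set_option autoImplicit false
set_option exponentiation.threshold 4000
noncomputable section
namespace Pool.Agent.Helper81.MIT

open Pool.Agent.Helper6.MONO (Kp xA)
open Pool.Agent.Helper6.MONO.QTR (TCell QX Far qx_of_cells)
open Pool.Agent.Helper6.CXT (far_two far_three ln0 ln1)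
open Pool.Agent.Helper30.W2 (Ln Lx Lx_a Lx_c Tk inT inR inR_t)

/-- a piece in the table of the weights -/
def okP (P : ℕ × ℕ) : Bool := Nat.ble 3 P.1 && Nat.ble P.1 48 && Nat.ble P.2 48

/-- `lo ≤ - 2 ^ 48 x ≤ hi` on a line for two pieces -/
def lnB (p E0 E1 E2 lo hi : ℕ) (j k : ℕ × ℕ) : Bool :=
  okP j && (okP k && (Nat.ble (Nat.add (Nat.mul lo (Nat.mul (Nat.mul (oHi p) (oHi j.2)) (oHi k.2)))
      (Nat.mul 22300745198530623141535718272648361505980416 E0))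
    (Nat.mul 281474976710656 (Nat.add (Nat.mul E1 (Nat.mul (oLo j.1) (oLo j.1)))
      (Nat.mul E2 (Nat.mul (oLo k.1) (oLo k.1))))) &&
  Nat.ble (Nat.mul 281474976710656 (Nat.add (Nat.mul E1 (Nat.mul (oHi j.2) (oHi j.2)))
      (Nat.mul E2 (Nat.mul (oHi k.2) (oHi k.2)))))
    (Nat.add (Nat.mul hi (Nat.mul (Nat.mul (oLo p) (oLo j.1)) (oLo k.1)))
      (Nat.mul 22300745198530623141535718272648361505980416 E0))))

theorem okP_ok {P : ℕ × ℕ} (h : okP P = true) {M : ℕ} (hM : inP P M) :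
    (oLo P.1 : ℝ) ≤ 2 ^ 48 * Kp M ∧ 2 ^ 48 * Kp M ≤ (oHi P.2 : ℝ) ∧ 3 ≤ M := by
  unfold okP at h
  simp only [Bool.and_eq_true] at h
  obtain ⟨⟨h1, h2⟩, h3⟩ := h
  have h1 := Nat.le_of_ble_eq_true h1
  have h2 := Nat.le_of_ble_eq_true h2
  have h3 := Nat.le_of_ble_eq_true h3
  have hM1 := hM.1
  exact ⟨oLo_ok h1 h2 hM.1, oHi_ok (by omega) (hM.2.imp id (fun h => ⟨h3, h⟩)), by omega⟩

theorem lnB_ok {p E0 E1 E2 lo hi : ℕ} {j k : ℕ × ℕ} (h : lnB p E0 E1 E2 lo hi j k = true)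
    (hp : 3 ≤ p) (hp48 : p ≤ 48) {q r : ℕ} (hq : inP j q) (hr : inP k r) :
    (lo : ℝ) ≤ -(2 ^ 48 * Lx (.a E0 E1 E2) p q r) ∧
      -(2 ^ 48 * Lx (.a E0 E1 E2) p q r) ≤ (hi : ℝ) := by
  unfold lnB at h
  simp only [Bool.and_eq_true] at h
  obtain ⟨g1, g2, g3, g4⟩ := h
  obtain ⟨a1, a2, q3⟩ := okP_ok g1 hq
  obtain ⟨b1, b2, r3⟩ := okP_ok g2 hr
  have c1 := oLo_ok (N := p) (M := p) hp hp48 le_rfl
  have c2 := oHi_ok (N := p) (M := p) hp (Or.inr ⟨hp48, le_rfl⟩)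
  have kp := (Pool.Agent.Helper6.MONO.thr_Kp2 p hp).1
  have kq := (Pool.Agent.Helper6.MONO.thr_Kp2 q q3).1
  have kr := (Pool.Agent.Helper6.MONO.thr_Kp2 r r3).1
  have kp0 : 0 < Kp p := by linarith
  have kq0 : 0 < Kp q := by linarith
  have kr0 : 0 < Kp r := by linarith
  have g3' := Nat.le_of_ble_eq_true g3
  have g4' := Nat.le_of_ble_eq_true g4
  have G3 : (lo : ℝ) * (((oHi p : ℝ) * oHi j.2) * oHi k.2) + 2 ^ 144 * E0 ≤
      2 ^ 48 * ((E1 : ℝ) * ((oLo j.1 : ℝ) * oLo j.1) + E2 * ((oLo k.1 : ℝ) * oLo k.1)) := by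
    have : (lo : ℝ) * (((oHi p : ℝ) * oHi j.2) * oHi k.2) +
        (22300745198530623141535718272648361505980416 : ℝ) * E0 ≤
      (281474976710656 : ℝ) * ((E1 : ℝ) * ((oLo j.1 : ℝ) * oLo j.1) +
        E2 * ((oLo k.1 : ℝ) * oLo k.1)) := by exact_mod_cast g3'
    norm_num at this ⊢
    exact this
  have G4 : 2 ^ 48 * ((E1 : ℝ) * ((oHi j.2 : ℝ) * oHi j.2) + E2 * ((oHi k.2 : ℝ) * oHi k.2)) ≤
      (hi : ℝ) * (((oLo p : ℝ) * oLo j.1) * oLo k.1) + 2 ^ 144 * E0 := by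
    have : (281474976710656 : ℝ) * ((E1 : ℝ) * ((oHi j.2 : ℝ) * oHi j.2) +
        E2 * ((oHi k.2 : ℝ) * oHi k.2)) ≤ (hi : ℝ) * (((oLo p : ℝ) * oLo j.1) * oLo k.1) +
        (22300745198530623141535718272648361505980416 : ℝ) * E0 := by exact_mod_cast g4'
    norm_num at this ⊢
    exact this
  rw [Lx_a]
  obtain ⟨u, hu⟩ : ∃ u, u = 2 ^ 48 * Kp q := ⟨_, rfl⟩
  obtain ⟨v, hv⟩ : ∃ v, v = 2 ^ 48 * Kp r := ⟨_, rfl⟩
  obtain ⟨w, hw⟩ : ∃ w, w = 2 ^ 48 * Kp p := ⟨_, rfl⟩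
  rw [← hu] at a1 a2
  rw [← hv] at b1 b2
  rw [← hw] at c1 c2
  have u0 : 0 < u := by rw [hu]; positivity
  have v0 : 0 < v := by rw [hv]; positivity
  have w0 : 0 < w := by rw [hw]; positivity
  have e1 : -(2 ^ 48 * (((E0 : ℝ) / 2 ^ 48 - (E1 : ℝ) / 2 ^ 48 * Kp q ^ 2 -
      (E2 : ℝ) / 2 ^ 48 * Kp r ^ 2) / (Kp p * Kp q * Kp r))) =
      (2 ^ 48 * (E1 * (u * u) + E2 * (v * v)) - 2 ^ 144 * E0) / (w * u * v) := by
    rw [hu, hv, hw]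
    field_simp
    ring
  rw [e1]
  have l0 : (0 : ℝ) ≤ oLo j.1 := by positivity
  have l1 : (0 : ℝ) ≤ oLo k.1 := by positivity
  have l2 : (0 : ℝ) ≤ oLo p := by positivity
  have E1' : (0 : ℝ) ≤ E1 := by positivity
  have E2' : (0 : ℝ) ≤ E2 := by positivity
  have k1 : (oLo j.1 : ℝ) * oLo j.1 ≤ u * u := mul_le_mul a1 a1 l0 u0.le
  have k2 : (oLo k.1 : ℝ) * oLo k.1 ≤ v * v := mul_le_mul b1 b1 l1 v0.le
  have k3 : u * u ≤ (oHi j.2 : ℝ) * oHi j.2 := mul_le_mul a2 a2 u0.le (by linarith)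
  have k4 : v * v ≤ (oHi k.2 : ℝ) * oHi k.2 := mul_le_mul b2 b2 v0.le (by linarith)
  have k5 : ((oLo p : ℝ) * oLo j.1) * oLo k.1 ≤ w * u * v :=
    mul_le_mul (mul_le_mul c1 a1 l0 w0.le) b1 l1 (by positivity)
  have k6 : w * u * v ≤ ((oHi p : ℝ) * oHi j.2) * oHi k.2 :=
    mul_le_mul (mul_le_mul c2 a2 u0.le (by linarith)) b2 v0.le
      (mul_nonneg (by linarith) (by linarith))
  have m1 := mul_le_mul_of_nonneg_left k1 E1'
  have m2 := mul_le_mul_of_nonneg_left k2 E2'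
  have m3 := mul_le_mul_of_nonneg_left k3 E1'
  have m4 := mul_le_mul_of_nonneg_left k4 E2'
  have m5 := mul_le_mul_of_nonneg_left k5 (by positivity : (0 : ℝ) ≤ hi)
  have m6 := mul_le_mul_of_nonneg_left k6 (by positivity : (0 : ℝ) ≤ lo)
  constructor
  · rw [le_div_iff₀ (by positivity)]
    linarith
  · rw [div_le_iff₀ (by positivity)]
    linarith

/-- the bounds over all pieces -/
def lnA (p E0 E1 E2 lo hi : ℕ) (Q R : List (ℕ × ℕ)) : Bool :=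
  R.all fun k => Q.all fun j => aft j k || lnB p E0 E1 E2 lo hi j k

theorem lnA_ok {p E0 E1 E2 lo hi : ℕ} {Q R : List (ℕ × ℕ)} (h : lnA p E0 E1 E2 lo hi Q R = true)
    (hp : 3 ≤ p) (hp48 : p ≤ 48) {q0 q1 r0 r1 : ℕ} (hQ : chP q0 q1 Q = true)
    (hR : chP r0 r1 R = true) {q r : ℕ} (hq : q0 ≤ q) (hq' : q1 = 0 ∨ q ≤ q1) (hr : r0 ≤ r)
    (hr' : r1 = 0 ∨ r ≤ r1) (hqr : q ≤ r) :
    (lo : ℝ) ≤ -(2 ^ 48 * Lx (.a E0 E1 E2) p q r) ∧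
      -(2 ^ 48 * Lx (.a E0 E1 E2) p q r) ≤ (hi : ℝ) := by
  obtain ⟨j, hj, hj'⟩ := chP_ok Q hQ q hq hq'
  obtain ⟨k, hk, hk'⟩ := chP_ok R hR r hr hr'
  unfold lnA at h
  rw [List.all_eq_true] at h
  have h := h k hk
  rw [List.all_eq_true] at h
  have h := h j hj
  rw [Bool.or_eq_true] at h
  rcases h with h | h
  · exact absurd hqr (fun h' => aft_ok h hj' hk' h')
  · exact lnB_ok h hp hp48 hj' hk'

/-- the far part for a class: all lines between two numbers -/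
def FarI (p lo hi : ℕ) : Prop := ∀ q r : ℕ, 10 ≤ q → 10 ≤ r → ∀ x0 : ℝ,
  (lo : ℝ) ≤ -(2 ^ 48 * x0) → -(2 ^ 48 * x0) ≤ (hi : ℝ) → Far p q r x0 8

theorem FarI_two {p lo hi : ℕ} (hp : 3 ≤ p) (hp9 : p ≤ 9) (h1 : ln0 p + hi ≤ 2 ^ 50)
    (h2 : 2 ^ 50 ≤ ln1 p + lo) (h3 : hi < 2 ^ 49) : FarI p lo hi := by
  intro q r hq hr x0 k1 k2
  have g1 : (ln0 p : ℝ) + hi ≤ 2 ^ 50 := by exact_mod_cast h1
  have g2 : (2 : ℝ) ^ 50 ≤ ln1 p + lo := by exact_mod_cast h2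
  have g3 : (hi : ℝ) < 2 ^ 49 := by exact_mod_cast h3
  have g4 : (0 : ℝ) ≤ lo := by positivity
  exact far_two hp hp9 hq hr (by linarith) (by linarith) (by nlinarith) (by nlinarith)

theorem FarI_three {p lo hi : ℕ} (hp : 10 ≤ p) (h1 : 588282701325271 + hi ≤ 2 ^ 50)
    (h2 : 2 ^ 50 ≤ 675539944105574 + lo) : FarI p lo hi := by
  intro q r hq hr x0 k1 k2
  have g1 : (588282701325271 : ℝ) + hi ≤ 2 ^ 50 := by exact_mod_cast h1
  have g2 : (2 : ℝ) ^ 50 ≤ 675539944105574 + lo := by exact_mod_cast h2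
  exact far_three hp hq hr (by linarith) (by linarith)

/-- **THE QUARTERS OF A TASK**, affine line -/
theorem h3_a {p q0 q1 r0 r1 E0 E1 E2 lo hi e : ℕ} {a : Lb} {Q R : List (ℕ × ℕ)} {l l' : List B2}
    (ha : a.has p) (hp : 3 ≤ p) (hp48 : p ≤ 48) (hQ : chP q0 q1 Q = true)
    (hR : chP r0 r1 R = true) (hq0 : 10 ≤ q0) (hL : lnA p E0 E1 E2 lo hi Q R = true)
    (hhi : hi < 2 ^ 49) (hF : FarI p lo hi) (h1 : cov2 Q R l = true) (h2 : cov2 Q R l' = true)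
    (c1 : ∀ b ∈ l, TcL (Lx (.a E0 E1 E2)) a (Lb.tl b.1.1 b.1.2) (Lb.tl b.2.1 b.2.2) 0 e)
    (c2 : ∀ b ∈ l', TcL (Lx (.a E0 E2 E1)) a (Lb.tl b.2.1 b.2.2) (Lb.tl b.1.1 b.1.2) 0 e)
    (he : 2251799813685248 ≤ e) {q r : ℕ} (hT : inT ⟨q0, q1, r0, r1, .a E0 E1 E2⟩ q r = true)
    (hqr : q ≤ r) :
    QX p q r (Lx (.a E0 E1 E2) p q r) ∧ QX p r q (Lx (.a E0 E1 E2) p q r) := by
  unfold inT at hT
  rw [Bool.and_eq_true] at hT
  obtain ⟨t1, t2⟩ := inR_t hT.1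
  obtain ⟨t3, t4⟩ := inR_t hT.2
  have hb := lnA_ok hL hp hp48 hQ hR t1 t2 t3 t4 hqr
  have hhi' : (hi : ℝ) < 2 ^ 49 := by exact_mod_cast hhi
  have g4 : (0 : ℝ) ≤ lo := by positivity
  have x1 : -2 < Lx (.a E0 E1 E2) p q r := by nlinarith [hb.2]
  have x2 : Lx (.a E0 E1 E2) p q r ≤ 2 := by nlinarith [hb.1]
  have he' : (8 : ℝ) ≤ (e : ℝ) / 2 ^ 48 := by
    rw [le_div_iff₀ (by positivity)]
    have : (2251799813685248 : ℝ) ≤ e := by exact_mod_cast he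
    linarith
  have q10 : 10 ≤ q := by have : q0 ≤ q := t1; omega
  have r10 : 10 ≤ r := q10.trans hqr
  constructor
  · obtain ⟨b, hb1, hb2, hb3⟩ := cov2_ok hQ hR h1 t1 t2 t3 t4 hqr
    refine qx_of_cells hp (by omega) (by omega) x1 x2 (by norm_num : (0 : ℝ) ≤ 8) ?_
      (hF q r q10 r10 _ hb.1 hb.2)
    exact tc_sub (c1 b hb1 p q r ha hb2 hb3 x1 x2) (by norm_num) he'
  · obtain ⟨b, hb1, hb2, hb3⟩ := cov2_ok hQ hR h2 t1 t2 t3 t4 hqr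
    refine qx_of_cells hp (by omega) (by omega) x1 x2 (by norm_num : (0 : ℝ) ≤ 8) ?_
      (hF r q r10 q10 _ hb.1 hb.2)
    have k := c2 b hb1 p r q ha hb3 hb2
    rw [Lx_swap] at k
    exact tc_sub (k x1 x2) (by norm_num) he'

/-- **THE QUARTERS OF A TASK**, constant line -/
theorem h3_c {p q0 q1 r0 r1 n e : ℕ} {a : Lb} {Q R : List (ℕ × ℕ)} {l l' : List B2}
    (ha : a.has p) (hp : 3 ≤ p) (hQ : chP q0 q1 Q = true)
    (hR : chP r0 r1 R = true) (hq0 : 10 ≤ q0) (hn : n < 2 ^ 49) (hF : FarI p n n)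
    (h1 : cov2 Q R l = true) (h2 : cov2 Q R l' = true)
    (c1 : ∀ b ∈ l, Tc (Xc n) a (Lb.tl b.1.1 b.1.2) (Lb.tl b.2.1 b.2.2) 0 e)
    (c2 : ∀ b ∈ l', Tc (Xc n) a (Lb.tl b.2.1 b.2.2) (Lb.tl b.1.1 b.1.2) 0 e)
    (he : 2251799813685248 ≤ e) {q r : ℕ} (hT : inT ⟨q0, q1, r0, r1, .c n⟩ q r = true)
    (hqr : q ≤ r) :
    QX p q r (Lx (.c n) p q r) ∧ QX p r q (Lx (.c n) p q r) := by
  unfold inT at hT
  rw [Bool.and_eq_true] at hT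
  obtain ⟨t1, t2⟩ := inR_t hT.1
  obtain ⟨t3, t4⟩ := inR_t hT.2
  have hn' : (n : ℝ) < 2 ^ 49 := by exact_mod_cast hn
  have g4 : (0 : ℝ) ≤ n := by positivity
  rw [Lx_Xc]
  have e1 : Xc n p q r = -((n : ℝ) / 2 ^ 48) := by unfold Xc; rw [neg_div]
  have e2 : -(2 ^ 48 * (Xc n p q r)) = n := by rw [e1]; field_simp
  have x1 : -2 < Xc n p q r := by
    rw [e1]
    have : (n : ℝ) / 2 ^ 48 < 2 := by rw [div_lt_iff₀ (by positivity)]; linarith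
    linarith
  have x2 : Xc n p q r ≤ 2 := by
    rw [e1]
    have : 0 ≤ (n : ℝ) / 2 ^ 48 := by positivity
    linarith
  have he' : (8 : ℝ) ≤ (e : ℝ) / 2 ^ 48 := by
    rw [le_div_iff₀ (by positivity)]
    have : (2251799813685248 : ℝ) ≤ e := by exact_mod_cast he
    linarith
  have q10 : 10 ≤ q := by have : q0 ≤ q := t1; omega
  have r10 : 10 ≤ r := q10.trans hqr
  constructor
  · obtain ⟨b, hb1, hb2, hb3⟩ := cov2_ok hQ hR h1 t1 t2 t3 t4 hqr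
    refine qx_of_cells hp (by omega) (by omega) x1 x2 (by norm_num : (0 : ℝ) ≤ 8) ?_
      (hF q r q10 r10 _ e2.ge e2.le)
    exact tc_sub (c1 b hb1 p q r ha hb2 hb3) (by norm_num) he'
  · obtain ⟨b, hb1, hb2, hb3⟩ := cov2_ok hQ hR h2 t1 t2 t3 t4 hqr
    refine qx_of_cells hp (by omega) (by omega) x1 x2 (by norm_num : (0 : ℝ) ≤ 8) ?_
      (hF r q r10 q10 _ e2.ge e2.le)
    exact tc_sub (c2 b hb1 p r q ha hb3 hb2) (by norm_num) he'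

end Pool.Agent.Helper81.MIT
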