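import Pool.Agent.Helper81.MIT.Pt

/-!
The triples near the diagonal: the final statement from the quarters on the lines close to a number.
-/

set_option autoImplicit false
set_option exponentiation.threshold 4000
noncomputable section
namespace Pool.Agent.Helper81.MIT

open Pool.Agent.Helper6.MONO (Kp xA fB fBx Thr FinAt)
open Pool.Agent.Helper6.MONO.QTR (QX)

/-- type A -/
theorem pt_10_10_10 (h : ∀ x0 : ℝ, |2 ^ 48 * x0 - (-519774541169504)| ≤ 64 → Thr 10 10 10 x0 →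
    QX 10 10 10 x0) : FinAt 10 10 10 := by
  refine fin_ptA (by norm_num) (by norm_num) (by norm_num) (by norm_num) (X := -519774541169504)
    (n := 64) (by norm_num) (by norm_num) (by norm_num) ?_ ?_ ?_ (fun x0 k hT => ⟨h x0 k hT, h x0 k hT⟩)
  · norm_num [kbx, Pool.Agent.Helper6.MONO.kb]
  · norm_num [kbx, Pool.Agent.Helper6.MONO.kb]
  · norm_num [fBx, kbx, Pool.Agent.Helper6.MONO.kb]

/-- type A -/
theorem pt_10_10_11 (h : ∀ x0 : ℝ, |2 ^ 48 * x0 - (-517818169445998)| ≤ 64 → Thr 10 10 11 x0 →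
    QX 10 10 11 x0) : FinAt 10 10 11 := by
  refine fin_ptA (by norm_num) (by norm_num) (by norm_num) (by norm_num) (X := -517818169445998)
    (n := 64) (by norm_num) (by norm_num) (by norm_num) ?_ ?_ ?_ (fun x0 k hT => ⟨h x0 k hT, h x0 k hT⟩)
  · norm_num [kbx, Pool.Agent.Helper6.MONO.kb]
  · norm_num [kbx, Pool.Agent.Helper6.MONO.kb]
  · norm_num [fBx, kbx, Pool.Agent.Helper6.MONO.kb]

/-- type A -/
theorem pt_10_11_11 (h : ∀ x0 : ℝ, |2 ^ 48 * x0 - (-522638888159706)| ≤ 64 → Thr 10 11 11 x0 →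
    QX 10 11 11 x0) : FinAt 10 11 11 := by
  refine fin_ptA (by norm_num) (by norm_num) (by norm_num) (by norm_num) (X := -522638888159706)
    (n := 64) (by norm_num) (by norm_num) (by norm_num) ?_ ?_ ?_ (fun x0 k hT => ⟨h x0 k hT, (h x0 k hT).rot2⟩)
  · norm_num [kbx, Pool.Agent.Helper6.MONO.kb]
  · norm_num [kbx, Pool.Agent.Helper6.MONO.kb]
  · norm_num [fBx, kbx, Pool.Agent.Helper6.MONO.kb]

theorem ptd_11_11_11 : PtD (kbx 11) (kbx 11) (kbx 11) (-526230987637360) 64 (-379741484041418876 / 2 ^ 60) (-379741484041304187 / 2 ^ 60) := by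
  refine ⟨by norm_num, by norm_num, by norm_num, by norm_num, by norm_num, ?_, ?_, ?_, ?_⟩
  · rintro c (rfl | rfl) <;> norm_num [NN, kbx, Pool.Agent.Helper6.MONO.kb]
  · rintro c (rfl | rfl) <;> norm_num [NN, kbx, Pool.Agent.Helper6.MONO.kb]
  · norm_num [HH, kbx, Pool.Agent.Helper6.MONO.kb]
  · norm_num [NN, kbx, Pool.Agent.Helper6.MONO.kb]

/-- type B -/
theorem pt_11_11_11 (h : ∀ x0 : ℝ, |2 ^ 48 * x0 - (-526230987637360)| ≤ 64 → Thr 11 11 11 x0 →
    fB 11 11 11 x0 = 0 → QX 11 11 11 x0) : FinAt 11 11 11 :=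
  fin_ptB (by norm_num) (by norm_num) (by norm_num) (by norm_num) ptd_11_11_11 (by norm_num)
    (by norm_num [HH, kbx, Pool.Agent.Helper6.MONO.kb])
    (by norm_num [HH, kbx, Pool.Agent.Helper6.MONO.kb])
    (by norm_num [NN, kbx, Pool.Agent.Helper6.MONO.kb])
    (fun x0 k hT hB => ⟨h x0 k hT hB, h x0 k hT hB⟩)

/-- type A -/
theorem pt_11_11_12 (h : ∀ x0 : ℝ, |2 ^ 48 * x0 - (-525947583595187)| ≤ 64 → Thr 11 11 12 x0 →
    QX 11 11 12 x0) : FinAt 11 11 12 := by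
  refine fin_ptA (by norm_num) (by norm_num) (by norm_num) (by norm_num) (X := -525947583595187)
    (n := 64) (by norm_num) (by norm_num) (by norm_num) ?_ ?_ ?_ (fun x0 k hT => ⟨h x0 k hT, h x0 k hT⟩)
  · norm_num [kbx, Pool.Agent.Helper6.MONO.kb]
  · norm_num [kbx, Pool.Agent.Helper6.MONO.kb]
  · norm_num [fBx, kbx, Pool.Agent.Helper6.MONO.kb]

/-- type A -/
theorem pt_11_11_13 (h : ∀ x0 : ℝ, |2 ^ 48 * x0 - (-524760122756531)| ≤ 64 → Thr 11 11 13 x0 →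
    QX 11 11 13 x0) : FinAt 11 11 13 := by
  refine fin_ptA (by norm_num) (by norm_num) (by norm_num) (by norm_num) (X := -524760122756531)
    (n := 64) (by norm_num) (by norm_num) (by norm_num) ?_ ?_ ?_ (fun x0 k hT => ⟨h x0 k hT, h x0 k hT⟩)
  · norm_num [kbx, Pool.Agent.Helper6.MONO.kb]
  · norm_num [kbx, Pool.Agent.Helper6.MONO.kb]
  · norm_num [fBx, kbx, Pool.Agent.Helper6.MONO.kb]

theorem ptd_11_12_12 : PtD (kbx 11) (kbx 12) (kbx 12) (-527450410111083) 64 (-370986246918980330 / 2 ^ 60) (-370986246918865641 / 2 ^ 60) := by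
  refine ⟨by norm_num, by norm_num, by norm_num, by norm_num, by norm_num, ?_, ?_, ?_, ?_⟩
  · rintro c (rfl | rfl) <;> norm_num [NN, kbx, Pool.Agent.Helper6.MONO.kb]
  · rintro c (rfl | rfl) <;> norm_num [NN, kbx, Pool.Agent.Helper6.MONO.kb]
  · norm_num [HH, kbx, Pool.Agent.Helper6.MONO.kb]
  · norm_num [NN, kbx, Pool.Agent.Helper6.MONO.kb]

/-- type B -/
theorem pt_11_12_12 (h : ∀ x0 : ℝ, |2 ^ 48 * x0 - (-527450410111083)| ≤ 64 → Thr 11 12 12 x0 →
    fB 11 12 12 x0 = 0 → QX 11 12 12 x0) : FinAt 11 12 12 :=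
  fin_ptB (by norm_num) (by norm_num) (by norm_num) (by norm_num) ptd_11_12_12 (by norm_num)
    (by norm_num [HH, kbx, Pool.Agent.Helper6.MONO.kb])
    (by norm_num [HH, kbx, Pool.Agent.Helper6.MONO.kb])
    (by norm_num [NN, kbx, Pool.Agent.Helper6.MONO.kb])
    (fun x0 k hT hB => ⟨h x0 k hT hB, (h x0 k hT hB).rot2⟩)

theorem ptd_12_12_12 : PtD (kbx 12) (kbx 12) (kbx 12) (-528076481262331) 64 (-365461472675740159 / 2 ^ 60) (-365461472675625470 / 2 ^ 60) := by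
  refine ⟨by norm_num, by norm_num, by norm_num, by norm_num, by norm_num, ?_, ?_, ?_, ?_⟩
  · rintro c (rfl | rfl) <;> norm_num [NN, kbx, Pool.Agent.Helper6.MONO.kb]
  · rintro c (rfl | rfl) <;> norm_num [NN, kbx, Pool.Agent.Helper6.MONO.kb]
  · norm_num [HH, kbx, Pool.Agent.Helper6.MONO.kb]
  · norm_num [NN, kbx, Pool.Agent.Helper6.MONO.kb]

/-- type B -/
theorem pt_12_12_12 (h : ∀ x0 : ℝ, |2 ^ 48 * x0 - (-528076481262331)| ≤ 64 → Thr 12 12 12 x0 →
    fB 12 12 12 x0 = 0 → QX 12 12 12 x0) : FinAt 12 12 12 :=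
  fin_ptB (by norm_num) (by norm_num) (by norm_num) (by norm_num) ptd_12_12_12 (by norm_num)
    (by norm_num [HH, kbx, Pool.Agent.Helper6.MONO.kb])
    (by norm_num [HH, kbx, Pool.Agent.Helper6.MONO.kb])
    (by norm_num [NN, kbx, Pool.Agent.Helper6.MONO.kb])
    (fun x0 k hT hB => ⟨h x0 k hT hB, h x0 k hT hB⟩)

theorem ptd_12_12_13 : PtD (kbx 12) (kbx 12) (kbx 13) (-528531034854177) 64 (-362162506950634969 / 2 ^ 60) (-362162506950520280 / 2 ^ 60) := by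
  refine ⟨by norm_num, by norm_num, by norm_num, by norm_num, by norm_num, ?_, ?_, ?_, ?_⟩
  · rintro c (rfl | rfl) <;> norm_num [NN, kbx, Pool.Agent.Helper6.MONO.kb]
  · rintro c (rfl | rfl) <;> norm_num [NN, kbx, Pool.Agent.Helper6.MONO.kb]
  · norm_num [HH, kbx, Pool.Agent.Helper6.MONO.kb]
  · norm_num [NN, kbx, Pool.Agent.Helper6.MONO.kb]

/-- type B -/
theorem pt_12_12_13 (h : ∀ x0 : ℝ, |2 ^ 48 * x0 - (-528531034854177)| ≤ 64 → Thr 12 12 13 x0 →
    fB 12 12 13 x0 = 0 → QX 12 12 13 x0) : FinAt 12 12 13 :=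
  fin_ptB (by norm_num) (by norm_num) (by norm_num) (by norm_num) ptd_12_12_13 (by norm_num)
    (by norm_num [HH, kbx, Pool.Agent.Helper6.MONO.kb])
    (by norm_num [HH, kbx, Pool.Agent.Helper6.MONO.kb])
    (by norm_num [NN, kbx, Pool.Agent.Helper6.MONO.kb])
    (fun x0 k hT hB => ⟨h x0 k hT hB, h x0 k hT hB⟩)

theorem ptd_12_13_13 : PtD (kbx 12) (kbx 13) (kbx 13) (-528991923336971) 64 (-358417484904953364 / 2 ^ 60) (-358417484904838675 / 2 ^ 60) := by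
  refine ⟨by norm_num, by norm_num, by norm_num, by norm_num, by norm_num, ?_, ?_, ?_, ?_⟩
  · rintro c (rfl | rfl) <;> norm_num [NN, kbx, Pool.Agent.Helper6.MONO.kb]
  · rintro c (rfl | rfl) <;> norm_num [NN, kbx, Pool.Agent.Helper6.MONO.kb]
  · norm_num [HH, kbx, Pool.Agent.Helper6.MONO.kb]
  · norm_num [NN, kbx, Pool.Agent.Helper6.MONO.kb]

/-- type B -/
theorem pt_12_13_13 (h : ∀ x0 : ℝ, |2 ^ 48 * x0 - (-528991923336971)| ≤ 64 → Thr 12 13 13 x0 →
    fB 12 13 13 x0 = 0 → QX 12 13 13 x0) : FinAt 12 13 13 :=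
  fin_ptB (by norm_num) (by norm_num) (by norm_num) (by norm_num) ptd_12_13_13 (by norm_num)
    (by norm_num [HH, kbx, Pool.Agent.Helper6.MONO.kb])
    (by norm_num [HH, kbx, Pool.Agent.Helper6.MONO.kb])
    (by norm_num [NN, kbx, Pool.Agent.Helper6.MONO.kb])
    (fun x0 k hT hB => ⟨h x0 k hT hB, (h x0 k hT hB).rot2⟩)

theorem ptd_13_13_13 : PtD (kbx 13) (kbx 13) (kbx 13) (-529458346935868) 64 (-354260481775543787 / 2 ^ 60) (-354260481775429098 / 2 ^ 60) := by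
  refine ⟨by norm_num, by norm_num, by norm_num, by norm_num, by norm_num, ?_, ?_, ?_, ?_⟩
  · rintro c (rfl | rfl) <;> norm_num [NN, kbx, Pool.Agent.Helper6.MONO.kb]
  · rintro c (rfl | rfl) <;> norm_num [NN, kbx, Pool.Agent.Helper6.MONO.kb]
  · norm_num [HH, kbx, Pool.Agent.Helper6.MONO.kb]
  · norm_num [NN, kbx, Pool.Agent.Helper6.MONO.kb]

/-- type B -/
theorem pt_13_13_13 (h : ∀ x0 : ℝ, |2 ^ 48 * x0 - (-529458346935868)| ≤ 64 → Thr 13 13 13 x0 →
    fB 13 13 13 x0 = 0 → QX 13 13 13 x0) : FinAt 13 13 13 :=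
  fin_ptB (by norm_num) (by norm_num) (by norm_num) (by norm_num) ptd_13_13_13 (by norm_num)
    (by norm_num [HH, kbx, Pool.Agent.Helper6.MONO.kb])
    (by norm_num [HH, kbx, Pool.Agent.Helper6.MONO.kb])
    (by norm_num [NN, kbx, Pool.Agent.Helper6.MONO.kb])
    (fun x0 k hT hB => ⟨h x0 k hT hB, h x0 k hT hB⟩)

theorem ptd_13_13_14 : PtD (kbx 13) (kbx 13) (kbx 14) (-529809469146156) 64 (-351534002804335557 / 2 ^ 60) (-351534002804220868 / 2 ^ 60) := by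
  refine ⟨by norm_num, by norm_num, by norm_num, by norm_num, by norm_num, ?_, ?_, ?_, ?_⟩
  · rintro c (rfl | rfl) <;> norm_num [NN, kbx, Pool.Agent.Helper6.MONO.kb]
  · rintro c (rfl | rfl) <;> norm_num [NN, kbx, Pool.Agent.Helper6.MONO.kb]
  · norm_num [HH, kbx, Pool.Agent.Helper6.MONO.kb]
  · norm_num [NN, kbx, Pool.Agent.Helper6.MONO.kb]

/-- type B -/
theorem pt_13_13_14 (h : ∀ x0 : ℝ, |2 ^ 48 * x0 - (-529809469146156)| ≤ 64 → Thr 13 13 14 x0 →
    fB 13 13 14 x0 = 0 → QX 13 13 14 x0) : FinAt 13 13 14 :=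
  fin_ptB (by norm_num) (by norm_num) (by norm_num) (by norm_num) ptd_13_13_14 (by norm_num)
    (by norm_num [HH, kbx, Pool.Agent.Helper6.MONO.kb])
    (by norm_num [HH, kbx, Pool.Agent.Helper6.MONO.kb])
    (by norm_num [NN, kbx, Pool.Agent.Helper6.MONO.kb])
    (fun x0 k hT hB => ⟨h x0 k hT hB, h x0 k hT hB⟩)

end Pool.Agent.Helper81.MIT
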