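import Pool.Agent.Helper81.MIT.Pt
import Pool.Agent.Helper81.MIT.K30
import Pool.Agent.Helper84.UC.P

/-!
One triple of orders up to `40`: the final statement from the statement on every line close to a
given number.
-/

set_option autoImplicit false
set_option exponentiation.threshold 4000
noncomputable section
namespace Pool.Agent.Helper81.MIT

open Pool.Agent.Helper6.MONO (Kp Kp_ge1 xA xA_max' fB fB_eq fBx Thr certB FinAt g_FIN' thr_Kp2 ZF)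
open Pool.Agent.Helper6.MONO.QTR (QX zf_of_qx)
open Pool.Agent.Helper21.XB (hB xBc SS KK fBx_xBc hB_PQR)
open Pool.Agent.Helper84.ST

/-- the data of a weight from order `10` on -/
theorem KW.of2 {M : ℕ} (h1 : 10 ≤ M) (h2 : M ≤ 40) :
    KW M (kby M) (4 - ((kby M : ℝ) / 2 ^ 48) ^ 2) := by
  have h := kapy M (by omega) h2
  rw [abs_le] at h
  refine ⟨by rw [sub_div]; linarith [h.1], by rw [add_div]; linarith [h.2], ?_, ?_, rfl, ?_, ?_⟩ <;>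
    interval_cases M <;> norm_num [kby, kbx, Pool.Agent.Helper6.MONO.kb]

/-- **ONE TRIPLE** -/
theorem fin_ptZ {p q r m0 m1 m2 : ℕ} (h0 : KW p m0 (4 - ((m0 : ℝ) / 2 ^ 48) ^ 2))
    (h1 : KW q m1 (4 - ((m1 : ℝ) / 2 ^ 48) ^ 2)) (h2 : KW r m2 (4 - ((m2 : ℝ) / 2 ^ 48) ^ 2))
    (hp : 10 ≤ p) (hpq : p ≤ q) (hqr : q ≤ r)
    {X n c1 c2 : ℝ} (hD : PtD m0 m1 m2 X n c1 c2) (hX : -(2 ^ 49) < X - n)
    (hlo : xBc (SS (Kp p) (Kp q) (Kp r)) (KK (Kp p) (Kp q) (Kp r)) c2 < xA p q r ∨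
      fB p q r (xBc (SS (Kp p) (Kp q) (Kp r)) (KK (Kp p) (Kp q) (Kp r)) c2) < 0)
    (h : ∀ x0 : ℝ, |2 ^ 48 * x0 - X| ≤ n →
      xBc (SS (Kp p) (Kp q) (Kp r)) (KK (Kp p) (Kp q) (Kp r)) c2 ≤ x0 → Thr p q r x0 →
      ZF p q r x0) : FinAt p q r := by
  have hK := pt_K h0 h1 h2
  have x1 := pt_X h0 h1 h2 hD.hX hD.hn (hD.k1 c1 (Or.inl rfl)) (hD.k2 c1 (Or.inl rfl))
  have x2 := pt_X h0 h1 h2 hD.hX hD.hn (hD.k1 c2 (Or.inr rfl)) (hD.k2 c2 (Or.inr rfl))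
  have hb := pt_h h0 h1 h2 hD.hc1 (hD.hcc.trans hD.hc2)
  have ha := pt_AG h0 h1 h2
  have hn := pt_N h0 h1 h2 c1
  have hX0 := hD.hX
  have hn0 := hD.hn
  have a1 := hD.a1
  have g1 := hD.h1
  have e1 := KK_xBc (S := SS (Kp p) (Kp q) (Kp r)) (c := c1) hK.ne'
  have e2 := KK_xBc (S := SS (Kp p) (Kp q) (Kp r)) (c := c2) hK.ne'
  have cc : -1 ≤ c1 + c2 := by linarith [hD.hc1, hD.hcc]
  have cc2 := hD.hcc
  have q1 := hD.hc1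
  set S := SS (Kp p) (Kp q) (Kp r) with hS
  set K := KK (Kp p) (Kp q) (Kp r) with hKd
  set lo := xBc S K c2 with hlod
  set hi := xBc S K c1 with hhid
  rw [abs_le] at x1 x2 hb ha hn
  have lh : lo ≤ hi := by
    have : K * lo ≤ K * hi := by
      rw [e1, e2]
      nlinarith
    exact le_of_mul_le_mul_left this hK
  have hA : xA p q r ≤ hi := by
    have : K * xA p q r ≤ K * hi := by linarith [ha.2, hn.1]
    exact le_of_mul_le_mul_left this hK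
  have hB1 : hB S K c1 ≤ 0 := by linarith [hb.2]
  have hBh : 0 ≤ fB p q r hi := by
    have e : fB p q r hi = hB S K c1 * (hB S K c1 - 4 * (2 * c1 + 1) ^ 3) := by
      rw [fB_eq, hhid]
      exact fBx_xBc hK.ne'
    rw [e]
    have k1 : 0 < 2 * c1 + 1 := by linarith
    have k2 : 0 ≤ 4 * (2 * c1 + 1) ^ 3 := by positivity
    nlinarith
  refine g_FIN' p q r (by omega) (by omega) (by omega) (certB (by omega) hpq hqr lo hi ?_ lh ?_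
    hlo hA hBh ?_)
  · nlinarith [x2.1]
  · nlinarith [x1.2]
  · intro x0 k1 k2 hT
    exact h x0 (by rw [abs_le]; constructor <;> nlinarith [x1.2, x2.1]) k1 hT

/-- **TYPE B**: `fB x0 = 0` -/
theorem fin_ptBZ {p q r m0 m1 m2 : ℕ} (h0 : KW p m0 (4 - ((m0 : ℝ) / 2 ^ 48) ^ 2))
    (h1 : KW q m1 (4 - ((m1 : ℝ) / 2 ^ 48) ^ 2)) (h2 : KW r m2 (4 - ((m2 : ℝ) / 2 ^ 48) ^ 2))
    (hp : 10 ≤ p) (hpq : p ≤ q) (hqr : q ≤ r)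
    {X n c1 c2 : ℝ} (hD : PtD m0 m1 m2 X n c1 c2) (hX : -(2 ^ 49) < X - n)
    (hlo : 30 / 2 ^ 48 < HH (4 - ((m0 : ℝ) / 2 ^ 48) ^ 2) (4 - ((m1 : ℝ) / 2 ^ 48) ^ 2)
        (4 - ((m2 : ℝ) / 2 ^ 48) ^ 2) c2)
    (hlo2 : HH (4 - ((m0 : ℝ) / 2 ^ 48) ^ 2) (4 - ((m1 : ℝ) / 2 ^ 48) ^ 2)
        (4 - ((m2 : ℝ) / 2 ^ 48) ^ 2) c2 + 30 / 2 ^ 48 < 4 * (2 * c2 + 1) ^ 3)
    (hlA : (4 - ((m2 : ℝ) / 2 ^ 48) ^ 2) - (4 - (4 - ((m0 : ℝ) / 2 ^ 48) ^ 2)) *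
        (4 - (4 - ((m1 : ℝ) / 2 ^ 48) ^ 2)) + 76 / 2 ^ 48 <
      NN (4 - ((m0 : ℝ) / 2 ^ 48) ^ 2) (4 - ((m1 : ℝ) / 2 ^ 48) ^ 2)
        (4 - ((m2 : ℝ) / 2 ^ 48) ^ 2) c2)
    (h : ∀ x0 : ℝ, |2 ^ 48 * x0 - X| ≤ n → Thr p q r x0 → fB p q r x0 = 0 →
      ZF p q r x0) : FinAt p q r := by
  have hK := pt_K h0 h1 h2
  have ha := pt_AG h0 h1 h2
  have hn := pt_N h0 h1 h2 c2
  have hb := pt_h h0 h1 h2 (hD.hc1.trans hD.hcc) hD.hc2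
  rw [abs_le] at ha hn hb
  have hA : xA p q r < xBc (SS (Kp p) (Kp q) (Kp r)) (KK (Kp p) (Kp q) (Kp r)) c2 := by
    refine lt_of_mul_lt_mul_left ?_ hK.le
    linarith [ha.2, hn.1]
  refine fin_ptZ h0 h1 h2 hp hpq hqr hD hX (Or.inr ?_) (fun x0 k k2 hT => h x0 k hT ?_)
  · have e : fB p q r (xBc (SS (Kp p) (Kp q) (Kp r)) (KK (Kp p) (Kp q) (Kp r)) c2) =
        hB (SS (Kp p) (Kp q) (Kp r)) (KK (Kp p) (Kp q) (Kp r)) c2 *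
          (hB (SS (Kp p) (Kp q) (Kp r)) (KK (Kp p) (Kp q) (Kp r)) c2 - 4 * (2 * c2 + 1) ^ 3) := by
      rw [fB_eq]
      exact fBx_xBc hK.ne'
    rw [e]
    exact mul_neg_of_pos_of_neg (by linarith [hb.1]) (by linarith [hb.2])
  · obtain ⟨j1, j2⟩ := xA_max' (by omega : 3 ≤ p) hpq hqr
    rcases hT.eq with e | e | e | e
    · exact absurd e (by intro e; rw [e] at k2; linarith)
    · exact absurd e (by intro e; rw [e] at k2; linarith)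
    · exact absurd e (by intro e; rw [e] at k2; linarith)
    · exact e

/-! ### type A, all orders -/

/-- the data of one weight -/
structure KV (M m : ℕ) : Prop where
  M3 : 3 ≤ M
  k : |Kp M - (m : ℝ) / 2 ^ 48| ≤ 1 / 2 ^ 48
  m1 : 281474976710656 ≤ m
  m2 : m ≤ 562949953421311

theorem KV.of {M : ℕ} (h1 : 3 ≤ M) (h2 : M ≤ 40) : KV M (kby M) := by
  refine ⟨h1, kapy M h1 h2, ?_, ?_⟩ <;>
    interval_cases M <;> norm_num [kby, kbx, Pool.Agent.Helper6.MONO.kb]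

section
variable {M m : ℕ} (h : KV M m)
include h

theorem KV.lo : ((m : ℝ) - 1) / 2 ^ 48 ≤ Kp M := by
  have := (abs_le.1 h.k).1
  rw [sub_div]
  linarith
theorem KV.hi : Kp M ≤ ((m : ℝ) + 1) / 2 ^ 48 := by
  have := (abs_le.1 h.k).2
  rw [add_div]
  linarith
theorem KV.ge1 : 1 ≤ Kp M := Kp_ge1 h.M3
theorem KV.lt2 : Kp M ≤ 2 := (thr_Kp2 M h.M3).2.le
theorem KV.w : 1 ≤ (m : ℝ) / 2 ^ 48 ∧ (m : ℝ) / 2 ^ 48 ≤ 2 := by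
  have h1 : (281474976710656 : ℝ) ≤ m := by exact_mod_cast h.m1
  have h2 : (m : ℝ) ≤ 562949953421311 := by exact_mod_cast h.m2
  constructor
  · rw [le_div_iff₀ (by positivity)]
    linarith
  · rw [div_le_iff₀ (by positivity)]
    linarith
theorem KV.sq : |Kp M ^ 2 - ((m : ℝ) / 2 ^ 48) ^ 2| ≤ 4 / 2 ^ 48 := by
  have e : Kp M ^ 2 - ((m : ℝ) / 2 ^ 48) ^ 2 =
      (Kp M - (m : ℝ) / 2 ^ 48) * (Kp M + (m : ℝ) / 2 ^ 48) := by ring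
  have a := h.w
  have b := h.ge1
  have c := h.lt2
  rw [e, abs_mul]
  have k2 : |Kp M + (m : ℝ) / 2 ^ 48| ≤ 4 := by rw [abs_le]; constructor <;> linarith
  have k3 := mul_le_mul h.k k2 (abs_nonneg _) (by positivity)
  refine k3.trans ?_
  norm_num
end

section
variable {p q r m0 m1 m2 : ℕ} (h0 : KV p m0) (h1 : KV q m1) (h2 : KV r m2)
include h0 h1 h2

theorem kv_Kl : ((m0 : ℝ) - 1) * ((m1 : ℝ) - 1) * ((m2 : ℝ) - 1) / 2 ^ 144 ≤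
    KK (Kp p) (Kp q) (Kp r) := by
  have k0 : (281474976710656 : ℝ) ≤ m0 := by exact_mod_cast h0.m1
  have k1 : (281474976710656 : ℝ) ≤ m1 := by exact_mod_cast h1.m1
  have k2 : (281474976710656 : ℝ) ≤ m2 := by exact_mod_cast h2.m1
  have e : ((m0 : ℝ) - 1) * ((m1 : ℝ) - 1) * ((m2 : ℝ) - 1) / 2 ^ 144 =
      (((m0 : ℝ) - 1) / 2 ^ 48) * (((m1 : ℝ) - 1) / 2 ^ 48) * (((m2 : ℝ) - 1) / 2 ^ 48) := by ring
  rw [e]
  unfold KK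
  have g0 := h0.ge1
  have g1 := h1.ge1
  have p1 : 0 ≤ ((m1 : ℝ) - 1) / 2 ^ 48 := div_nonneg (by linarith) (by positivity)
  have p2 : 0 ≤ ((m2 : ℝ) - 1) / 2 ^ 48 := div_nonneg (by linarith) (by positivity)
  exact mul_le_mul (mul_le_mul h0.lo h1.lo p1 (by linarith)) h2.lo p2 (by positivity)

theorem kv_Kh : KK (Kp p) (Kp q) (Kp r) ≤
    ((m0 : ℝ) + 1) * ((m1 : ℝ) + 1) * ((m2 : ℝ) + 1) / 2 ^ 144 := by
  have e : ((m0 : ℝ) + 1) * ((m1 : ℝ) + 1) * ((m2 : ℝ) + 1) / 2 ^ 144 =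
      (((m0 : ℝ) + 1) / 2 ^ 48) * (((m1 : ℝ) + 1) / 2 ^ 48) * (((m2 : ℝ) + 1) / 2 ^ 48) := by ring
  rw [e]
  unfold KK
  have g1 := h1.ge1
  have g2 := h2.ge1
  have p0 : 0 ≤ ((m0 : ℝ) + 1) / 2 ^ 48 := by positivity
  have p1 : 0 ≤ ((m1 : ℝ) + 1) / 2 ^ 48 := by positivity
  exact mul_le_mul (mul_le_mul h0.hi h1.hi (by linarith) p0) h2.hi (by linarith) (mul_nonneg p0 p1)

theorem kv_K : 1 ≤ KK (Kp p) (Kp q) (Kp r) := by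
  have g0 := h0.ge1
  have g1 := h1.ge1
  have g2 := h2.ge1
  unfold KK
  have := mul_le_mul g0 g1 (by norm_num) (by linarith)
  have := mul_le_mul this g2 (by norm_num) (by nlinarith)
  linarith

theorem kv_AG : |KK (Kp p) (Kp q) (Kp r) * xA p q r - ((4 - ((m2 : ℝ) / 2 ^ 48) ^ 2) -
    (4 - (4 - ((m0 : ℝ) / 2 ^ 48) ^ 2)) * (4 - (4 - ((m1 : ℝ) / 2 ^ 48) ^ 2)))| ≤ 46 / 2 ^ 48 := by
  have hK := kv_K h0 h1 h2
  have g0 := h0.ge1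
  have g0' := h0.lt2
  have g1 := h1.ge1
  have g1' := h1.lt2
  have e : KK (Kp p) (Kp q) (Kp r) * xA p q r = 4 - Kp r ^ 2 - Kp p ^ 2 * Kp q ^ 2 := by
    have : xA p q r = (4 - Kp r ^ 2 - Kp p ^ 2 * Kp q ^ 2) / KK (Kp p) (Kp q) (Kp r) := rfl
    rw [this]
    field_simp
  rw [e]
  have s0 := h0.sq
  have s1 := h1.sq
  have s2 := abs_le.1 h2.sq
  have w0 := h0.w
  set W0 := ((m0 : ℝ) / 2 ^ 48) ^ 2 with hW0
  set W1 := ((m1 : ℝ) / 2 ^ 48) ^ 2 with hW1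
  set W2 := ((m2 : ℝ) / 2 ^ 48) ^ 2 with hW2
  have b0 : |W0| ≤ 4 := by rw [abs_le, hW0]; constructor <;> nlinarith [w0.1, w0.2]
  have b1 : |Kp q ^ 2| ≤ 4 := by rw [abs_le]; constructor <;> nlinarith
  have k := abs_le.1 (mul_lip b1 b0 s0 s1)
  have : (4 : ℝ) * (4 / 2 ^ 48) + 4 * (4 / 2 ^ 48) + 4 / 2 ^ 48 ≤ 46 / 2 ^ 48 := by norm_num
  rw [abs_le]
  constructor <;> linarith [k.1, k.2, s2.1, s2.2]

theorem kv_fB {x : ℝ} (hx : -2 ≤ x) (hx' : x ≤ 2) :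
    |fB p q r x - fBx (((m0 : ℝ) / 2 ^ 48) ^ 2 + ((m1 : ℝ) / 2 ^ 48) ^ 2 +
      ((m2 : ℝ) / 2 ^ 48) ^ 2 - 3) ((m0 : ℝ) * (m1 : ℝ) * (m2 : ℝ) / 2 ^ 144) x| ≤ 1 / 2 ^ 28 := by
  rw [fB_eq]
  have eK : (m0 : ℝ) * (m1 : ℝ) * (m2 : ℝ) / 2 ^ 144 =
      ((m0 : ℝ) / 2 ^ 48) * ((m1 : ℝ) / 2 ^ 48) * ((m2 : ℝ) / 2 ^ 48) := by ring
  rw [eK]
  obtain ⟨a1, a2⟩ := h0.w
  obtain ⟨b1, b2⟩ := h1.w
  obtain ⟨c1, c2⟩ := h2.w
  have g0 := h0.ge1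
  have g1 := h1.ge1
  have g2 := h2.ge1
  have dS' : |(Kp p ^ 2 + Kp q ^ 2 + Kp r ^ 2 - 3) - (((m0 : ℝ) / 2 ^ 48) ^ 2 +
      ((m1 : ℝ) / 2 ^ 48) ^ 2 + ((m2 : ℝ) / 2 ^ 48) ^ 2 - 3)| ≤ 16 / 2 ^ 48 := by
    have d0 := abs_le.1 h0.sq
    have d1 := abs_le.1 h1.sq
    have d2 := abs_le.1 h2.sq
    have : (4 : ℝ) / 2 ^ 48 * 3 ≤ 16 / 2 ^ 48 := by norm_num
    rw [abs_le]
    constructor <;> linarith [d0.1, d0.2, d1.1, d1.2, d2.1, d2.2]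
  have S1 := sq9 g0 h0.lt2 g1 h1.lt2 g2 h2.lt2
  have S2 := sq9 a1 a2 b1 b2 c1 c2
  have K1 := cube9 (by linarith : 0 ≤ Kp p) h0.lt2 (by linarith : 0 ≤ Kp q) h1.lt2
    (by linarith : 0 ≤ Kp r) h2.lt2
  have K2 := cube9 (by linarith) a2 (by linarith) b2 (by linarith) c2
  have dK := pt_dK (abs_le.2 ⟨by linarith, h0.lt2⟩) (abs_le.2 ⟨by linarith, h1.lt2⟩)
    (abs_le.2 ⟨by linarith, h2.lt2⟩) (abs_le.2 ⟨by linarith, a2⟩)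
    (abs_le.2 ⟨by linarith, b2⟩) h0.k h1.k h2.k
  have L := fBx_lip S1.1 S1.2 S2.1 S2.2 K1.1 K1.2 K2.1 K2.2 hx hx' dS' dK
  refine L.trans ?_
  norm_num
end

/-- **TYPE A**: `x0 = x_A` -/
theorem fin_ptAZ {p q r m0 m1 m2 : ℕ} (h0 : KV p m0) (h1 : KV q m1) (h2 : KV r m2)
    (hp : 3 ≤ p) (hpq : p ≤ q) (hqr : q ≤ r)
    {X n : ℝ} (hX : -(2 ^ 49) < X - n) (hX2 : X + n ≤ 0) (hn : 0 ≤ n)
    (k1 : (X - n) * (((m0 : ℝ) - 1) * ((m1 : ℝ) - 1) * ((m2 : ℝ) - 1) / 2 ^ 144) + 46 <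
      2 ^ 48 * ((4 - ((m2 : ℝ) / 2 ^ 48) ^ 2) - (4 - (4 - ((m0 : ℝ) / 2 ^ 48) ^ 2)) *
        (4 - (4 - ((m1 : ℝ) / 2 ^ 48) ^ 2))))
    (k2 : 2 ^ 48 * ((4 - ((m2 : ℝ) / 2 ^ 48) ^ 2) - (4 - (4 - ((m0 : ℝ) / 2 ^ 48) ^ 2)) *
        (4 - (4 - ((m1 : ℝ) / 2 ^ 48) ^ 2))) + 46 ≤
      (X + n) * (((m0 : ℝ) + 1) * ((m1 : ℝ) + 1) * ((m2 : ℝ) + 1) / 2 ^ 144))
    (k3 : 1 / 2 ^ 28 ≤ fBx (((m0 : ℝ) / 2 ^ 48) ^ 2 + ((m1 : ℝ) / 2 ^ 48) ^ 2 +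
      ((m2 : ℝ) / 2 ^ 48) ^ 2 - 3) ((m0 : ℝ) * (m1 : ℝ) * (m2 : ℝ) / 2 ^ 144)
        ((X + n) / 2 ^ 48))
    (h : ∀ x0 : ℝ, |2 ^ 48 * x0 - X| ≤ n → Thr p q r x0 → ZF p q r x0) :
    FinAt p q r := by
  have hK := kv_K h0 h1 h2
  have hK0 : 0 < KK (Kp p) (Kp q) (Kp r) := by linarith
  have ha := kv_AG h0 h1 h2
  have a1 := kv_Kl h0 h1 h2
  have a2 := kv_Kh h0 h1 h2
  rw [abs_le] at ha
  set K := KK (Kp p) (Kp q) (Kp r) with hKd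
  set Kl := ((m0 : ℝ) - 1) * ((m1 : ℝ) - 1) * ((m2 : ℝ) - 1) / 2 ^ 144 with hKl
  set Kh := ((m0 : ℝ) + 1) * ((m1 : ℝ) + 1) * ((m2 : ℝ) + 1) / 2 ^ 144 with hKh
  set G := (4 - ((m2 : ℝ) / 2 ^ 48) ^ 2) - (4 - (4 - ((m0 : ℝ) / 2 ^ 48) ^ 2)) *
        (4 - (4 - ((m1 : ℝ) / 2 ^ 48) ^ 2)) with hG
  have lo : (X - n) / 2 ^ 48 < xA p q r := by
    refine lt_of_mul_lt_mul_left ?_ hK0.le
    have t1 : (X - n) * K ≤ (X - n) * Kl := mul_le_mul_of_nonpos_left a1 (by linarith)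
    have t2 : K * ((X - n) / 2 ^ 48) = ((X - n) * K) / 2 ^ 48 := by ring
    rw [t2, div_lt_iff₀ (by positivity)]
    have t3 := ha.1
    have t4 : 2 ^ 48 * (-(46 / 2 ^ 48) : ℝ) = -46 := by norm_num
    nlinarith
  have hi : xA p q r ≤ (X + n) / 2 ^ 48 := by
    refine le_of_mul_le_mul_left ?_ hK0
    have t1 : (X + n) * Kh ≤ (X + n) * K := mul_le_mul_of_nonpos_left a2 hX2
    have t2 : K * ((X + n) / 2 ^ 48) = ((X + n) * K) / 2 ^ 48 := by ring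
    rw [t2, le_div_iff₀ (by positivity)]
    have t3 := ha.2
    have t4 : 2 ^ 48 * ((46 / 2 ^ 48) : ℝ) = 46 := by norm_num
    nlinarith
  have hm2 : -2 < (X - n) / 2 ^ 48 := by rw [lt_div_iff₀ (by positivity)]; linarith
  have h2' : (X + n) / 2 ^ 48 ≤ 2 := by rw [div_le_iff₀ (by positivity)]; linarith
  have hlh : (X - n) / 2 ^ 48 ≤ (X + n) / 2 ^ 48 :=
    div_le_div_of_nonneg_right (by linarith) (by positivity)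
  have hB : 0 ≤ fB p q r ((X + n) / 2 ^ 48) := by
    have L := (abs_le.1 (kv_fB h0 h1 h2 (x := (X + n) / 2 ^ 48) (by linarith) h2')).1
    linarith
  refine g_FIN' p q r (by omega) (by omega) (by omega) (certB (by omega) hpq hqr
    ((X - n) / 2 ^ 48) ((X + n) / 2 ^ 48) hm2 hlh h2' (Or.inl lo) hi hB ?_)
  intro x0 j1 j2 hT
  rw [div_le_iff₀ (by positivity)] at j1
  rw [le_div_iff₀ (by positivity)] at j2
  exact h x0 (by rw [abs_le]; constructor <;> linarith) hT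

/-! ### the statement of a line from the quarters -/

section
variable {p q r : ℕ} {x0 : ℝ}

theorem zf_Q (hp : 3 ≤ p) (hpq : p ≤ q) (hqr : q ≤ r) (hr : 4 ≤ r) (hT : Thr p q r x0)
    (h1 : QX p q r x0) (h2 : QX q p r x0) : ZF p q r x0 :=
  zf_of_qx hp hpq hqr (fun h => by omega) hT.gt hT.A1 h1 h2

theorem zf_QS (hp : 3 ≤ p) (hpq : p ≤ q) (hqr : q ≤ r) (hr : 4 ≤ r) (hT : Thr p q r x0)
    (h1 : QXS p q r x0) (h2 : QXS q p r x0) : ZF p q r x0 :=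
  zf_of_qxS hp hpq hqr (fun h => by omega) hT.gt hT.A1 h1 h2

/-- the first two orders are equal -/
theorem zf_Q1 (hp : 3 ≤ p) (hpr : p ≤ r) (hr : 4 ≤ r) (hT : Thr p p r x0)
    (h : QX p p r x0) : ZF p p r x0 := zf_Q hp le_rfl hpr hr hT h h

/-- the last two orders are equal -/
theorem zf_Q2 (hp : 3 ≤ p) (hpq : p ≤ q) (hr : 4 ≤ q) (hT : Thr p q q x0)
    (h : QX p q q x0) : ZF p q q x0 := zf_Q hp hpq le_rfl hr hT h h.rot2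

theorem zf_QS1 (hp : 3 ≤ p) (hpr : p ≤ r) (hr : 4 ≤ r) (hT : Thr p p r x0)
    (h : QXS p p r x0) : ZF p p r x0 := zf_QS hp le_rfl hpr hr hT h h

theorem zf_QS2 (hp : 3 ≤ p) (hpq : p ≤ q) (hr : 4 ≤ q) (hT : Thr p q q x0)
    (h : QXS p q q x0) : ZF p q q x0 := zf_QS hp hpq le_rfl hr hT h h.rot2
end

end Pool.Agent.Helper81.MIT
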