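import Pool.Agent.Helper81.MIT.Exa
import Pool.Agent.Helper81.MIT.Gbx
import Pool.Agent.Helper30.W2.Tk

/-!
THE LINES `x0 = (E0 - E1 κ_q ^ 2 - E2 κ_r ^ 2) / (κ_p κ_q κ_r)`: the model, the modules, the
quarters.
-/

set_option autoImplicit false
set_option exponentiation.threshold 4000
noncomputable section
namespace Pool.Agent.Helper81.MIT

open Pool.Agent.Helper90.C75 (Vt)
open Pool.Agent.Helper90.KMT (TOK PT AOK)
open Pool.Agent.Helper90.KMO (UU)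
open Pool.Agent.Helper86.CX (Cx P9 VR)
open Pool.Agent.Helper86.CT (Alg Rw Mo Mc Mq clsOK mkCls Vx LT2 CellT chkPcT cst mulM subM invM
  invOK xAOK)
open Pool.Agent.Helper39.SLT (T4)
open Pool.Agent.Helper6.MONO (kk mm Kp xA)
open Pool.Agent.Helper6.MONO.QTR (TCell QX Far)
open Pool.Agent.Helper21.KRN (TProg XM expand xOK PtR)
open Pool.Agent.Helper21.KTE (MZ KS wfK CLD sideT)
open Pool.Agent.Helper30.W2 (Ln Lx)
open Complex ComplexConjugate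

/-- the model of the line -/
def xLM {α : Type} (A : Alg α) (E0 E1 E2 : Nat) (k k' h : Mo α) : Mo α :=
  mulM A (subM A (subM A (cst A E0 (nat_lit 0)) (mulM A (cst A E1 (nat_lit 0)) (mulM A k' k')))
    (mulM A (cst A E2 (nat_lit 0)) (mulM A h h))) (invM A (mulM A (mulM A k k') h))

section
variable {D : ℕ} {α β p' v γ : Type} {lC : α → Vt (D + 1) → Cx} {lf : α → Vt (D + 1) → ℂ}
  {mf : (ℕ → ℝ) → β → (ℕ → ℝ) → ℝ} {lp : p' → Vt (D + 1) → P9} {lv : v → Vt (D + 1) → VR}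
  {lg : γ → Vt (D + 1) → ℕ} {Sa : α → List Bool → Prop} {Sp : p' → List Bool → Prop}
  {Sv : v → List Bool → Prop} {Sg : γ → List Bool → Prop} {M : Mc α β p' v γ}
  {S : Pool.Agent.Helper86.CT.Sv p'} {W : Vx β} {yy : ℕ → ℕ → α} {qd : ℕ → Cx → Cx → Cx → α}
  {rt : α → Bool}

/-- a constant `n / 2 ^ 48` -/
theorem TOK_n {t : ℕ → ℝ} (hA : AOK (D + 1) lf M.A) (ht : PT (D + 1) t) (n : ℕ) :
    TOK (D + 1) lf t (((n : ℝ) / 2 ^ 48 : ℝ) : ℂ) (cst M.A n (nat_lit 0)) := by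
  refine TOK.cst' hA ht ?_
  unfold UU
  push_cast
  norm_num
  ring

/-- the law of the line -/
theorem TOK_xL {t : ℕ → ℝ} (hA : AOK (D + 1) lf M.A) (ht : PT (D + 1) t) {E0 E1 E2 : ℕ}
    {a b c : ℝ} {Ka Kb Kc : Mo α} (ha : TOK (D + 1) lf t (a : ℂ) Ka)
    (hb : TOK (D + 1) lf t (b : ℂ) Kb) (hc : TOK (D + 1) lf t (c : ℂ) Kc)
    (hok : xAOK M.A Ka Kb Kc = true) :
    TOK (D + 1) lf t ((((E0 : ℝ) / 2 ^ 48 - (E1 : ℝ) / 2 ^ 48 * b ^ 2 - (E2 : ℝ) / 2 ^ 48 * c ^ 2) /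
      (a * b * c) : ℝ) : ℂ) (xLM M.A E0 E1 E2 Ka Kb Kc) := by
  have hi := TOK.inv hA ht ((ha.mul hA ht hb).mul hA ht hc) hok
  have h1 := ((((TOK_n hA ht E0).sub hA ((TOK_n hA ht E1).mul hA ht (hb.mul hA ht hb))).sub hA
    ((TOK_n hA ht E2).mul hA ht (hc.mul hA ht hc))).mul hA ht hi.1)
  refine h1.congr ?_
  push_cast
  ring

/-- **THE MODULE ON THE LINE** -/
theorem tcell_TL {X : XM α v}
    (hZ : MZ D lC lf mf lp lv lg Sa Sp Sv Sg M X.Q X.c X.r S W yy qd rt)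
    {s0 s1 s2 : KS} {a b c : Lb} {E0 E1 E2 : ℕ}
    (hd : MDT D M qd rt X (xLM M.A E0 E1 E2 X.k0 X.k1 X.k2) s0 s1 s2 a b c)
    (hA : xAOK M.A X.k0 X.k1 X.k2 = true)
    {l : List (CellT α β)} (hl : l ≠ []) {sl : List ℕ} {le : List LT2}
    (hs : l.all (sideT W le) = true) {kx : ℕ → T4 → ℕ} {BE BO : List ℕ} {G : TProg}
    (hM : modX kx a b c BE BO G sl le = true) {y e : ℕ}
    (H : chkPcT M S W yy (mkCls M.A X.k0 X.k1 X.k2) (expand X G)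
      (xLM M.A E0 E1 E2 X.k0 X.k1 X.k2) sl le e l y = true)
    {p q r : ℕ} (ha : a.has p) (hb : b.has q) (hc : c.has r)
    (hx : -2 < Lx (.a E0 E1 E2) p q r) (hx2 : Lx (.a E0 E1 E2) p q r ≤ 2) :
    TCell p q r (Lx (.a E0 E1 E2) p q r) ((y : ℝ) / 2 ^ 48) ((e : ℝ) / 2 ^ 48) := by
  refine tcell_T hZ hd hl hs hM H ha hb hc hx hx2 ?_
  intro t ht k0 k1 k2
  rw [Pool.Agent.Helper30.W2.Lx_a]
  exact TOK_xL hZ.m.a ht k0 k1 k2 hA

end

/-- cells on the line `X` for all orders of the labels, line in `(-2, 2]` assumed -/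
def TcL (X : ℕ → ℕ → ℕ → ℝ) (a b c : Lb) (y e : ℕ) : Prop :=
  ∀ p q r : ℕ, a.has p → b.has q → c.has r → -2 < X p q r → X p q r ≤ 2 →
    TCell p q r (X p q r) ((y : ℝ) / 2 ^ 48) ((e : ℝ) / 2 ^ 48)

section
variable {X : ℕ → ℕ → ℕ → ℝ} {a b c : Lb} {y e y' e' : ℕ}

theorem TcL.join (h1 : TcL X a b c y e) (h2 : TcL X a b c y' e') (h : y' ≤ e) (h' : y' ≤ e') :
    TcL X a b c y e' := by
  intro p q r hp hq hr g1 g2
  have k1 := h1 p q r hp hq hr g1 g2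
  have k2 := h2 p q r hp hq hr g1 g2
  have g : (y' : ℝ) / 2 ^ 48 ≤ (e : ℝ) / 2 ^ 48 := by
    have : (y' : ℝ) ≤ e := by exact_mod_cast h
    exact div_le_div_of_nonneg_right this (by positivity)
  have g' : (y' : ℝ) / 2 ^ 48 ≤ (e' : ℝ) / 2 ^ 48 := by
    have : (y' : ℝ) ≤ e' := by exact_mod_cast h'
    exact div_le_div_of_nonneg_right this (by positivity)
  have k3 : TCell p q r (X p q r) ((e : ℝ) / 2 ^ 48) ((e' : ℝ) / 2 ^ 48) ∨ (e' : ℝ) / 2 ^ 48 ≤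
      (e : ℝ) / 2 ^ 48 := by
    rcases le_total ((e' : ℝ) / 2 ^ 48) ((e : ℝ) / 2 ^ 48) with h | h
    · exact Or.inr h
    · exact Or.inl (tc_sub k2 g le_rfl)
  rcases k3 with k3 | k3
  · exact k1.join k3
  · exact tc_sub k1 le_rfl k3

theorem TcL.sub (h1 : TcL X a b c y e) (h : y ≤ y') (h' : e' ≤ e) : TcL X a b c y' e' := by
  intro p q r hp hq hr k1 k2
  have g1 : (y : ℝ) ≤ y' := by exact_mod_cast h
  have g2 : (e' : ℝ) ≤ e := by exact_mod_cast h'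
  exact tc_sub (h1 p q r hp hq hr k1 k2) (div_le_div_of_nonneg_right g1 (by positivity))
    (div_le_div_of_nonneg_right g2 (by positivity))

theorem TcL.box {a' b' c' : Lb} (h1 : TcL X a b c y e) (ha : a'.le a) (hb : b'.le b)
    (hc : c'.le c) : TcL X a' b' c' y e := fun p q r hp hq hr =>
  h1 p q r (ha p hp) (hb q hq) (hc r hr)

theorem Tc.toL (h : Tc X a b c y e) : TcL X a b c y e := fun p q r hp hq hr _ _ => h p q r hp hq hr
end

theorem Lx_swap (E0 E1 E2 p q r : ℕ) : Lx (.a E0 E2 E1) p r q = Lx (.a E0 E1 E2) p q r := by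
  rw [Pool.Agent.Helper30.W2.Lx_a, Pool.Agent.Helper30.W2.Lx_a]
  congr 1 <;> ring

/-- the number on a constant line -/
theorem Lx_Xc (n p q r : ℕ) : Lx (.c n) p q r = Xc n p q r := by
  rw [Pool.Agent.Helper30.W2.Lx_c]
  unfold Xc
  rw [neg_div]

end Pool.Agent.Helper81.MIT
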