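import Pool.Agent.Helper84.XL.C
import Pool.Agent.Helper81.MIT.LinX

/-!
ROWS: two orders known, one tail; the module of middle cells on a line given by a quadratic
polynomial of the weight of the tail.
-/

set_option autoImplicit false
set_option exponentiation.threshold 4000
noncomputable section
namespace Pool.Agent.Helper81.MIT

open Pool.Agent.Helper90.C75 (Vt)
open Pool.Agent.Helper90.KMO (zv)
open Pool.Agent.Helper86.C75 (Z)
open Pool.Agent.Helper86.CX (Cx P9 VR)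
open Pool.Agent.Helper86.CT (Alg Rw Mo Mc Mq clsOK mkCls Vx LT2 CellT chkPcT xAM xAOK)
open Pool.Agent.Helper39.SLT (T4)
open Pool.Agent.Helper6.MONO (kk mm Kp xA xA_gt xA_le2 xA_swap)
open Pool.Agent.Helper6.MONO.QTR (TCell)
open Pool.Agent.Helper21.KRN (TProg XM expand xOK PtR)
open Pool.Agent.Helper21.KTE (MZ KS wfK CLD sideT cls_pt)
open Pool.Agent.Helper84.XL (q3 par XH qM modXO cld_O)
open Complex ComplexConjugate

section
variable {D : ℕ} {α β p' v γ : Type} {lC : α → Vt (D + 1) → Cx} {lf : α → Vt (D + 1) → ℂ}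
  {mf : (ℕ → ℝ) → β → (ℕ → ℝ) → ℝ} {lp : p' → Vt (D + 1) → P9} {lv : v → Vt (D + 1) → VR}
  {lg : γ → Vt (D + 1) → ℕ} {Sa : α → List Bool → Prop} {Sp : p' → List Bool → Prop}
  {Sv : v → List Bool → Prop} {Sg : γ → List Bool → Prop} {M : Mc α β p' v γ}
  {S : Pool.Agent.Helper86.CT.Sv p'} {W : Vx β} {yy : ℕ → ℕ → α} {qd : ℕ → Cx → Cx → Cx → α}
  {rt : α → Bool}

/-- **THE MODULE ON A LINE** given by a quadratic polynomial of the last weight -/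
theorem tcell_TO {X : XM α v}
    (hZ : MZ D lC lf mf lp lv lg Sa Sp Sv Sg M X.Q X.c X.r S W yy qd rt)
    {s0 s1 : KS} {lo hi n : ℕ} {XA XB XC : Z} {a b c : Lb}
    (hx : modXO M rt qd D X XA XB XC n s0 s1 lo hi a b c = true)
    (e0 : X.k0 = s0.mo M.A qd) (e1 : X.k1 = s1.mo M.A qd)
    (e2 : X.k2 = (KS.T 0 lo hi).mo M.A qd)
    {l : List (CellT α β)} (hl : l ≠ []) {sl : List ℕ} {le : List LT2}
    (hs : l.all (sideT W le) = true) {kx : ℕ → T4 → ℕ} {BE BO : List ℕ} {G : TProg}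
    (hM : modX kx a b c BE BO G sl le = true) {y e : ℕ}
    (H : chkPcT M S W yy (mkCls M.A X.k0 X.k1 X.k2) (expand X G) (qM M.A qd XA XB XC n)
      sl le e l y = true)
    {p q r : ℕ} (ha : a.has p) (hb : b.has q) (hc : c.has r) {x0 : ℝ} (h1 : -2 < x0)
    (h2 : x0 ≤ 2) (hX : XH XA XB XC lo hi n r x0) :
    TCell p q r x0 ((y : ℝ) / 2 ^ 48) ((e : ℝ) / 2 ^ 48) := by
  have hC := cld_O hZ ha hb hc hx e0 e1 e2 hX
  refine tcellX ha hb hc hM h1 h2 ?_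
  intro z h k0 k1 k2 hz hui hE
  have p48 : (0 : ℝ) < 2 ^ 48 := by positivity
  exact cls_pt hZ hC hl hs H (h := h) (by rw [div_le_iff₀ p48] at k1; linarith)
    (by rw [le_div_iff₀ p48] at k2; linarith) hz hE hui

end

/-- cells on a line given by a quadratic polynomial of the last weight -/
def TcO (XA XB XC : Z) (lo hi n : ℕ) (a b c : Lb) (y e : ℕ) : Prop :=
  ∀ p q r : ℕ, a.has p → b.has q → c.has r → ∀ x0 : ℝ, -2 < x0 → x0 ≤ 2 →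
    XH XA XB XC lo hi n r x0 → TCell p q r x0 ((y : ℝ) / 2 ^ 48) ((e : ℝ) / 2 ^ 48)

/-- orders of two boxes in order -/
theorem lt_box {l h l' h' M M' : ℕ} (h1 : (Lb.tl l h).has M) (h2 : (Lb.tl l' h').has M')
    (hl : h < l') : M ≤ M' := by
  by_contra hc
  push Not at hc
  have g := Pool.Agent.Helper6.MONO.Kp_mono (M := M') (N := M) (by have := h2.1; omega) hc.le
  have g1 := h1.2.2
  have g2 := h2.2.1
  have g3 : (h : ℝ) < l' := by exact_mod_cast hl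
  nlinarith

/-- the line `xA` on two pieces of known orders and a tail: `lo ≤ - 2 ^ 48 xA ≤ hi` -/
def xaB (lo hi : ℕ) (i j k : ℕ × ℕ) : Bool :=
  okZ i && (okZ j && (okZ k && (Nat.ble (Nat.add (Nat.mul lo (Nat.mul (Nat.mul (oHi i.2)
      (oHi j.2)) (oHi k.2))) (Nat.pow 2 194))
    (Nat.add (Nat.mul (Nat.mul (oLo i.1) (oLo i.1)) (Nat.mul (oLo j.1) (oLo j.1)))
      (Nat.mul (Nat.pow 2 96) (Nat.mul (oLo k.1) (oLo k.1)))) &&
  Nat.ble (Nat.add (Nat.mul (Nat.mul (oHi i.2) (oHi i.2)) (Nat.mul (oHi j.2) (oHi j.2)))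
      (Nat.mul (Nat.pow 2 96) (Nat.mul (oHi k.2) (oHi k.2))))
    (Nat.add (Nat.mul hi (Nat.mul (Nat.mul (oLo i.1) (oLo j.1)) (oLo k.1))) (Nat.pow 2 194)))))
where okZ (P : ℕ × ℕ) : Bool := Nat.ble 3 P.1 && Nat.ble P.1 48 && Nat.ble P.2 48

theorem okZ_ok {P : ℕ × ℕ} (h : xaB.okZ P = true) {M : ℕ} (hM : inP P M) :
    (oLo P.1 : ℝ) ≤ 2 ^ 48 * Kp M ∧ 2 ^ 48 * Kp M ≤ (oHi P.2 : ℝ) ∧ 3 ≤ M := by
  unfold xaB.okZ at h
  simp only [Bool.and_eq_true] at h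
  obtain ⟨⟨h1, h2⟩, h3⟩ := h
  have h1 := Nat.le_of_ble_eq_true h1
  have h2 := Nat.le_of_ble_eq_true h2
  have h3 := Nat.le_of_ble_eq_true h3
  have hM1 := hM.1
  exact ⟨oLo_ok h1 h2 hM.1, oHi_ok (by omega) (hM.2.imp id (fun h => ⟨h3, h⟩)), by omega⟩

theorem xaB_ok {lo hi : ℕ} {i j k : ℕ × ℕ} (h : xaB lo hi i j k = true) {p q r : ℕ}
    (hp : inP i p) (hq : inP j q) (hr : inP k r) :
    (lo : ℝ) ≤ -(2 ^ 48 * xA p q r) ∧ -(2 ^ 48 * xA p q r) ≤ (hi : ℝ) := by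
  unfold xaB at h
  simp only [Bool.and_eq_true] at h
  obtain ⟨g0, g1, g2, g3, g4⟩ := h
  obtain ⟨c1, c2, p3⟩ := okZ_ok g0 hp
  obtain ⟨a1, a2, q3⟩ := okZ_ok g1 hq
  obtain ⟨b1, b2, r3⟩ := okZ_ok g2 hr
  have kp := (Pool.Agent.Helper6.MONO.thr_Kp2 p p3).1
  have kq := (Pool.Agent.Helper6.MONO.thr_Kp2 q q3).1
  have kr := (Pool.Agent.Helper6.MONO.thr_Kp2 r r3).1
  have kp0 : 0 < Kp p := by linarith
  have kq0 : 0 < Kp q := by linarith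
  have kr0 : 0 < Kp r := by linarith
  have g3' := Nat.le_of_ble_eq_true g3
  have g4' := Nat.le_of_ble_eq_true g4
  have G3 : (lo : ℝ) * (((oHi i.2 : ℝ) * oHi j.2) * oHi k.2) + 2 ^ 194 ≤
      ((oLo i.1 : ℝ) * oLo i.1) * ((oLo j.1 : ℝ) * oLo j.1) + 2 ^ 96 *
        ((oLo k.1 : ℝ) * oLo k.1) := by exact_mod_cast g3'
  have G4 : ((oHi i.2 : ℝ) * oHi i.2) * ((oHi j.2 : ℝ) * oHi j.2) + 2 ^ 96 *
      ((oHi k.2 : ℝ) * oHi k.2) ≤ (hi : ℝ) * (((oLo i.1 : ℝ) * oLo j.1) * oLo k.1) + 2 ^ 194 := by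
    exact_mod_cast g4'
  obtain ⟨u, hu⟩ : ∃ u, u = 2 ^ 48 * Kp q := ⟨_, rfl⟩
  obtain ⟨v, hv⟩ : ∃ v, v = 2 ^ 48 * Kp r := ⟨_, rfl⟩
  obtain ⟨w, hw⟩ : ∃ w, w = 2 ^ 48 * Kp p := ⟨_, rfl⟩
  rw [← hu] at a1 a2
  rw [← hv] at b1 b2
  rw [← hw] at c1 c2
  have u0 : 0 < u := by rw [hu]; positivity
  have v0 : 0 < v := by rw [hv]; positivity
  have w0 : 0 < w := by rw [hw]; positivity
  have e1 : -(2 ^ 48 * xA p q r) =
      ((w * w) * (u * u) + 2 ^ 96 * (v * v) - 2 ^ 194) / (w * u * v) := by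
    rw [Pool.Agent.Helper6.MONO.xA_eq, hu, hv, hw]
    field_simp
    ring
  rw [e1]
  have l0 : (0 : ℝ) ≤ oLo j.1 := by positivity
  have l1 : (0 : ℝ) ≤ oLo k.1 := by positivity
  have l2 : (0 : ℝ) ≤ oLo i.1 := by positivity
  have k0 : (oLo i.1 : ℝ) * oLo i.1 ≤ w * w := mul_le_mul c1 c1 l2 w0.le
  have k1 : (oLo j.1 : ℝ) * oLo j.1 ≤ u * u := mul_le_mul a1 a1 l0 u0.le
  have k2 : (oLo k.1 : ℝ) * oLo k.1 ≤ v * v := mul_le_mul b1 b1 l1 v0.le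
  have k0' : w * w ≤ (oHi i.2 : ℝ) * oHi i.2 := mul_le_mul c2 c2 w0.le (by linarith)
  have k3 : u * u ≤ (oHi j.2 : ℝ) * oHi j.2 := mul_le_mul a2 a2 u0.le (by linarith)
  have k4 : v * v ≤ (oHi k.2 : ℝ) * oHi k.2 := mul_le_mul b2 b2 v0.le (by linarith)
  have k5 : ((oLo i.1 : ℝ) * oLo j.1) * oLo k.1 ≤ w * u * v :=
    mul_le_mul (mul_le_mul c1 a1 l0 w0.le) b1 l1 (by positivity)
  have k6 : w * u * v ≤ ((oHi i.2 : ℝ) * oHi j.2) * oHi k.2 :=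
    mul_le_mul (mul_le_mul c2 a2 u0.le (by linarith)) b2 v0.le
      (mul_nonneg (by linarith) (by linarith))
  have m1 : ((oLo i.1 : ℝ) * oLo i.1) * ((oLo j.1 : ℝ) * oLo j.1) ≤ (w * w) * (u * u) :=
    mul_le_mul k0 k1 (by positivity) (by positivity)
  have m2 : (w * w) * (u * u) ≤ ((oHi i.2 : ℝ) * oHi i.2) * ((oHi j.2 : ℝ) * oHi j.2) :=
    mul_le_mul k0' k3 (by positivity) (by positivity)
  have m5 := mul_le_mul_of_nonneg_left k5 (by positivity : (0 : ℝ) ≤ hi)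
  have m6 := mul_le_mul_of_nonneg_left k6 (by positivity : (0 : ℝ) ≤ lo)
  constructor
  · rw [le_div_iff₀ (by positivity)]
    linarith
  · rw [div_le_iff₀ (by positivity)]
    linarith

end Pool.Agent.Helper81.MIT
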