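import Pool.Agent.Helper81.MIT.TopT5
import Pool.Agent.Helper81.MIT.Pt2
import Pool.Agent.Helper81.MIT.Row
import Pool.Agent.Helper81.MIT.LinQ
import Pool.Agent.Helper57.U2.E
import Pool.Agent.Helper55.XT.C

/-!
The last steps: quarters with star shaped regions from near cells (with or without twins), middle
cells and the far part; rows (two known orders, one tail) on `xA` and on the curve of `fB`; single
triples.
-/

set_option autoImplicit false
set_option exponentiation.threshold 4000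
noncomputable section
namespace Pool.Agent.Helper81.MIT

open Pool.Agent.Helper6.MONO (Kp xA xA_swap xA_gt xA_le2 fB fB_swap fB_rot Thr FinAt ZF CertAt g_FIN')
open Pool.Agent.Helper6.MONO.QTR (QX TCell Far)
open Pool.Agent.Helper6.CXT (far_rot2)
open Pool.Agent.Helper21.XB (xBp xBp_swap)
open Pool.Agent.Helper57.U2 (TCellU)
open Pool.Agent.Helper84.ST
open Pool.Agent.Helper84.UC (qxS_of_cu CU)
open Pool.Agent.Helper84.XL (q3 par XH)
open Pool.Agent.Helper90.KMO (zv)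
open Pool.Agent.Helper86.C75 (Z)
open Pool.Agent.Helper55.XT (xtE xtX xt_E xt_X)

section
variable {p q r : ℕ} {x0 : ℝ}

theorem tcu_sub {a b a' b' : ℝ} (h : TCellU p q r x0 a b) (ha : a ≤ a') (hb : b' ≤ b) :
    TCellU p q r x0 a' b' := by
  obtain ⟨C, h⟩ := h
  exact ⟨C, fun w hw h1 h2 => h w hw (ha.trans h1) (h2.trans hb)⟩

/-- near cells and middle cells -/
theorem tcu_join {a b a' b' : ℝ} (h1 : TCellU p q r x0 a b) (h2 : TCellU p q r x0 a' b')
    (h : a' ≤ b) (hb : b ≤ b') : TCellU p q r x0 a b' := h1.join (tcu_sub h2 h le_rfl)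

/-- THE QUARTER from near cells, middle cells and the far part -/
theorem qxS_nm (hp : 3 ≤ p) (hq : 3 ≤ q) (hr : 3 ≤ r) (h1 : -2 < x0) (h2 : x0 ≤ 2)
    {y a e : ℝ} (n : TCellU p q r x0 0 y) (m : TCell p q r x0 a e) (hy : a ≤ y) (hy8 : y ≤ 8)
    (he : 8 ≤ e) (f : Far p q r x0 8) : QXS p q r x0 := by
  have k : TCellU p q r x0 0 8 := tcu_join n (tcu_sub (TCellU.of_t m) le_rfl he) hy hy8
  exact qxS_of_cu hp hq hr h1 h2 (by norm_num : (0 : ℝ) ≤ 8) (k.cu hp hq hr) f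

/-- the plain version -/
theorem qx_nm (hp : 3 ≤ p) (hq : 3 ≤ q) (hr : 3 ≤ r) (h1 : -2 < x0) (h2 : x0 ≤ 2)
    {y a e : ℝ} (n : TCell p q r x0 0 y) (m : TCell p q r x0 a e) (hy : a ≤ y) (hy8 : y ≤ 8)
    (he : 8 ≤ e) (f : Far p q r x0 8) : QX p q r x0 := by
  have k : TCell p q r x0 0 8 := n.join (tc_sub m hy he)
  exact Pool.Agent.Helper6.MONO.QTR.qx_of_cells hp hq hr h1 h2 (by norm_num : (0 : ℝ) ≤ 8) k f

/-- the threshold of the class with the last two orders exchanged -/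
theorem thr_mir (h : Thr p q r x0) : Thr p r q x0 := h.swap.rot

theorem fB_mir (p q r : ℕ) (x : ℝ) : fB p r q x = fB p q r x := by
  rw [← fB_rot p r q, ← fB_swap]
  exact fB_rot p q r x

/-- the threshold of the class with the first two orders exchanged -/
theorem fB_sw (h : fB p q r x0 = 0) : fB q p r x0 = 0 := by rw [fB_swap]; exact h

theorem fB_mi (h : fB p q r x0 = 0) : fB p r q x0 = 0 := by rw [fB_mir]; exact h

/-! ### the far part -/

/-- the far part of the class `(q, p, r)` -/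
theorem FarI.mir {p lo hi : ℕ} (h : FarI p lo hi) (hq : 10 ≤ q) (hr : 10 ≤ r)
    (h1 : (lo : ℝ) ≤ -(2 ^ 48 * x0)) (h2 : -(2 ^ 48 * x0) ≤ (hi : ℝ)) : Far q p r x0 8 :=
  far_rot2 (h r q hr hq x0 h1 h2)

/-- `|2 ^ 48 x0 + X| ≤ n` gives the bounds of the far part -/
theorem far_pt {p lo hi : ℕ} (h : FarI p lo hi) (hq : 10 ≤ q) (hr : 10 ≤ r) {X n : ℕ}
    (hX : |2 ^ 48 * x0 - (-(X : ℝ))| ≤ (n : ℝ)) (h1 : lo + n ≤ X) (h2 : X + n ≤ hi) :
    Far p q r x0 8 := by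
  have g1 : (lo : ℝ) + n ≤ X := by exact_mod_cast h1
  have g2 : (X : ℝ) + n ≤ hi := by exact_mod_cast h2
  obtain ⟨a, b⟩ := abs_le.1 hX
  exact h q r hq hr x0 (by linarith) (by linarith)

/-! ### rows on the exact line -/

/-- **A ROW ON `xA`**: the final statement of `(p, q, r)` from the near and middle cells of the
classes `(p, q, T)` and `(q, p, T)` -/
theorem row_A (hp : 3 ≤ p) (hpq : p ≤ q) (hqr : q ≤ r) (hr : 10 ≤ r) {y a e y' a' e' : ℝ}
    (n1 : TCellU p q r (xA p q r) 0 y) (m1 : TCell p q r (xA p q r) a e)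
    (n2 : TCellU q p r (xA q p r) 0 y') (m2 : TCell q p r (xA q p r) a' e')
    (hy : a ≤ y) (hy8 : y ≤ 8) (he : 8 ≤ e) (hy' : a' ≤ y') (hy8' : y' ≤ 8) (he' : 8 ≤ e')
    (f1 : Far p q r (xA p q r) 8) (f2 : Far q p r (xA q p r) 8) : FinAt p q r := by
  have hq := hp.trans hpq
  have hr3 := hq.trans hqr
  exact fin_xAS hp hpq hqr hr
    (qxS_nm hp hq hr3 (xA_gt hp hq hqr) (xA_le2 hp hq hr3) n1 m1 hy hy8 he f1)
    (qxS_nm hq hp hr3 (xA_gt hq hp (hpq.trans hqr)) (xA_le2 hq hp hr3) n2 m2 hy' hy8' he' f2)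

/-- **A ROW ON THE CURVE `fB = 0`** -/
theorem row_B (hp : 3 ≤ p) (hpq : p ≤ q) (hqr : q ≤ r) (hr : 10 ≤ r) {y a e y' a' e' : ℝ}
    {x0 : ℝ} (hT : Thr p q r x0) (hC : ZF p q r x0 → CertAt p q r)
    (n1 : TCellU p q r x0 0 y) (m1 : TCell p q r x0 a e)
    (n2 : TCellU q p r x0 0 y') (m2 : TCell q p r x0 a' e')
    (hy : a ≤ y) (hy8 : y ≤ 8) (he : 8 ≤ e) (hy' : a' ≤ y') (hy8' : y' ≤ 8) (he' : 8 ≤ e')
    (f1 : Far p q r x0 8) (f2 : Far q p r x0 8) : FinAt p q r := by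
  have hq := hp.trans hpq
  have hr3 := hq.trans hqr
  refine g_FIN' p q r hp hq hr3 (hC (zf_QS hp hpq hqr (by omega) hT ?_ ?_))
  · exact qxS_nm hp hq hr3 hT.gt hT.le n1 m1 hy hy8 he f1
  · exact qxS_nm hq hp hr3 hT.gt hT.le n2 m2 hy' hy8' he' f2
end

/-- the far part from a quadratic polynomial: the value lies between the smallest and the largest
control -/
theorem q3_in {x y z s l h : ℝ} (s0 : 0 ≤ s) (s1 : s ≤ 1) (a1 : l ≤ x) (a2 : l ≤ y) (a3 : l ≤ z)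
    (b1 : x ≤ h) (b2 : y ≤ h) (b3 : z ≤ h) : l ≤ q3 x y z s ∧ q3 x y z s ≤ h := by
  unfold q3
  have k1 : 0 ≤ (1 - s) ^ 2 := sq_nonneg _
  have k2 : 0 ≤ 2 * s * (1 - s) := by nlinarith
  have k3 : 0 ≤ s ^ 2 := sq_nonneg _
  have k4 : (1 - s) ^ 2 + 2 * s * (1 - s) + s ^ 2 = 1 := by ring
  constructor
  · nlinarith
  · nlinarith

end Pool.Agent.Helper81.MIT
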