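import Pool.Agent.Helper81.MIT.Crt
import Pool.Agent.Helper21.CT.KRP
import Pool.Agent.Helper12.CX.BRG

/-!
Row MIT: the middle cells of the classes with tails, the numbering of the forms is a parameter
(`kxT`: one form for every state and type, `kx0`: one form for every state). Definitions.
-/

set_option autoImplicit false
noncomputable section
namespace Pool.Agent.Helper81.MIT

open Pool.Agent.Helper21.SUP (GS DG DG_nx)
open Pool.Agent.Helper21.SUP renaming nx → nxs
open Pool.Agent.Helper39.SLT (T4 ML)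
open Pool.Agent.Helper6.MONO (V3 mm kk Kp RMb omS zw LNI_mm)
open Pool.Agent.Helper86.CX (Hm ev)
open Pool.Agent.Helper6.PRG (gsF giS tys tN gsF_giS mem_tys)
open Pool.Agent.Helper21.KRN (RI PI TProg eT oT rT lT RunIn KResT kap cκ)
open Pool.Agent.Helper86.CT (LT2)

/-- one form for every state and every type -/
def kxT (p q r : ℕ) (i : ℕ) (T : T4) : ℕ := offT p q r i + tposT (ML p q r (gsF i)) T

/-- one form for every state -/
def kx0 (i : ℕ) (_ : T4) : ℕ := i

/-- the number of the form of a state and a type -/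
def kE (kx : ℕ → T4 → ℕ) (p q r : ℕ) (s : GS) (T : T4) : ℕ := kx (giS s) (cut (ML p q r s) T)

/-- the runs from the state number `i` -/
def covSX (kx : ℕ → T4 → ℕ) (p q r : ℕ) (BE BO : List ℕ) (G : TProg) (i : ℕ) : Bool :=
  (msT (mm p q r (gsF i).1 (gsF i).2.1)).all fun m =>
    (tysT (ML p q r (gsF i))).all fun T =>
      if T.low (ML p q r (gsF i)) ≤ m then
        hasRun p q r BE BO G (gsF i) m
          (kx (giS (nxs (gsF i) m)) (cut (mm p q r (gsF i).1 (gsF i).2.1)
            (T4.next (mm p q r (gsF i).1 (gsF i).2.1) m))) (kx i T)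
      else true

/-- the reference tests of the state number `i` -/
def covRX (kx : ℕ → T4 → ℕ) (p q r : ℕ) (G : TProg) (i : ℕ) : Bool :=
  (tysT (ML p q r (gsF i))).all fun T =>
    (decide (T = T4.two) && decide (ML p q r (gsF i) ≤ 3)) || (rT G i).any fun x => x == kx i T

/-- the tests of the `L` vector at the states with label `3` -/
def covPX (kx : ℕ → T4 → ℕ) (p q r : ℕ) (G : TProg) (i : ℕ) : Bool :=
  if ML p q r (gsF i) = 3 then (lT G i).any fun x => x == kx i T4.two else true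

/-- the static tests -/
def covTX (kx : ℕ → T4 → ℕ) (p q r : ℕ) (l : List ℕ) (i : ℕ) : Bool :=
  (tysT (ML p q r (gsF i))).all fun T => l.any fun k => k == kx i T

/-- the slit tests -/
def covLX (kx : ℕ → T4 → ℕ) (a b c : Lb) (l : List LT2) (i : ℕ) : Bool :=
  hasLT (lbE a b c (edN (gsF i).1 (gsF i).2.1)) l (kx i T4.two) &&
    hasLT (lbE a b c (edN (gsF i).1 (gsF i).2.1)) l (kx i T4.three)

/-- THE TEST OF THE LISTS OF A CLASS WITH THE LABELS `a b c` -/
def modX (kx : ℕ → T4 → ℕ) (a b c : Lb) (BE BO : List ℕ) (G : TProg) (sl : List ℕ)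
    (le : List LT2) : Bool :=
  brOK BE BO && (List.range 6).all fun i => covSX kx a.rp b.rp c.rp BE BO G i &&
    (covRX kx a.rp b.rp c.rp G i && (covPX kx a.rp b.rp c.rp G i &&
      (covTX kx a.rp b.rp c.rp sl i && covLX kx a b c le i)))

/-! ### lemmas -/

variable {p q r : ℕ} {kx : ℕ → T4 → ℕ}

theorem cut_two (M : ℕ) : cut M T4.two = T4.two := by
  unfold cut
  rw [if_neg]
  rintro ⟨-, h⟩
  cases h

theorem cut_three (M : ℕ) : cut M T4.three = T4.three := by
  unfold cut
  rw [if_neg]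
  rintro ⟨-, h⟩
  cases h

theorem cut_rep (M : ℕ) (T : T4) : cut (rep M) T = cut M T := by
  unfold cut
  by_cases h : 10 ≤ M
  · simp [h, rep_ge.2 h]
  · rw [rep_of_lt (by omega)]

/-- the target type for the tested length -/
theorem cut_next {M m : ℕ} (hM : 3 ≤ M) (h2 : 2 ≤ m) :
    cut (rep M) (T4.next (rep M) (cutm M m)) = cut M (T4.next M m) := by
  rw [cut_rep]
  by_cases h10 : 10 ≤ M
  · rw [rep_of_ge h10]
    unfold cutm
    split_ifs with h4
    · have e3 : T4.next 10 (4 + m % 2) = T4.oth := by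
        unfold T4.next
        rw [if_neg (by omega), if_neg (by omega), if_neg (by omega)]
      rw [e3]
      unfold T4.next
      rw [if_neg (by omega), if_neg (by omega)]
      split_ifs
      · simp [cut, h10]
      · rfl
    · have h5 : m = 2 ∨ m = 3 := by omega
      rcases h5 with rfl | rfl
      · rfl
      · rfl
  · rw [rep_of_lt (by omega)]
    unfold cutm
    rw [if_neg fun h' => h10 h'.1]

theorem covSX_run {BE BO : List ℕ} {G : TProg}
    (hc : ∀ i < 6, covSX kx (rep p) (rep q) (rep r) BE BO G i = true) (hp : 3 ≤ p) (hq : 3 ≤ q)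
    (hr : 3 ≤ r) {s : GS} (hs : DG s) {T : T4} (hT : T.ok (ML p q r s)) {m : ℕ}
    (h1 : T.low (ML p q r s) ≤ m) (h2 : m ≤ mm p q r s.1 s.2.1) :
    hasRun (rep p) (rep q) (rep r) BE BO G s m
      (kE kx p q r (nxs s m) (T4.next (mm p q r s.1 s.2.1) m)) (kE kx p q r s T) = true := by
  obtain ⟨e, hi⟩ := gsF_giS s hs
  have h3 := hc (giS s) hi
  unfold covSX at h3
  rw [e, mm_rep p q r _ _ hs.1, msT_rep, List.all_eq_true] at h3
  have hm2 : 2 ≤ m := (low_ge2 _ T).trans h1
  have h5 := h3 _ (cutm_mem hm2 h2)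
  rw [ML_rep p q r hs, tysT_rep, List.all_eq_true] at h5
  have h6 := h5 _ (cut_mem hT)
  have hM3 : 3 ≤ ML p q r s := LNI_mm hp hq hr _ _ (fun e => hs.2.2 e.symm)
  have hM3' : 3 ≤ mm p q r s.1 s.2.1 := LNI_mm hp hq hr _ _ hs.1
  have hlow : (cut (ML p q r s) T).low (ML p q r s) ≤ cutm (mm p q r s.1 s.2.1) m := by
    refine (cut_low T).trans ?_
    unfold cutm
    split_ifs
    · exact (low_le3 _ T).trans (by omega)
    · exact h1
  rw [low_rep _ hM3, if_pos hlow, cut_next hM3' hm2] at h6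
  have hpar : nxs s (cutm (mm p q r s.1 s.2.1) m) = nxs s m := by
    unfold cutm
    split_ifs
    · exact nxs_par s (by omega)
    · rfl
  have hML : ML p q r (nxs s m) = mm p q r s.1 s.2.1 :=
    Pool.Agent.Helper39.SLT.ML_nx (p := p) (q := q) (r := r) s m
  have h7 := hasRun_cutm (p := rep p) (q := rep q) (r := rep r) BE BO G s m
    (kE kx p q r (nxs s m) (T4.next (mm p q r s.1 s.2.1) m)) (kE kx p q r s T)
  rw [mm_rep p q r _ _ hs.1, cutm_rep] at h7
  rw [← h7]
  unfold kE
  rw [hML]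
  rw [hpar] at h6
  exact h6

theorem covRX_at {G : TProg} (h : ∀ i < 6, covRX kx (rep p) (rep q) (rep r) G i = true) {s : GS}
    (hs : DG s) {T : T4} (hT : T.ok (ML p q r s)) (hT2 : T ≠ T4.two ∨ 4 ≤ ML p q r s) :
    kE kx p q r s T ∈ rT G (giS s) := by
  obtain ⟨e, hi⟩ := gsF_giS s hs
  have h3 := h (giS s) hi
  unfold covRX at h3
  rw [e, ML_rep p q r hs, tysT_rep, List.all_eq_true] at h3
  have h4 := h3 _ (cut_mem hT)
  rw [Bool.or_eq_true] at h4
  rcases h4 with h4 | h4
  · rw [Bool.and_eq_true, decide_eq_true_eq, decide_eq_true_eq] at h4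
    exfalso
    obtain ⟨h5, h6⟩ := h4
    have h7 : ML p q r s ≤ 3 := by
      unfold rep at h6
      omega
    rcases hT2 with h8 | h8
    · apply h8
      unfold cut at h5
      rw [if_neg fun h' => by omega] at h5
      exact h5
    · omega
  · rw [List.any_eq_true] at h4
    obtain ⟨x, hx, h6⟩ := h4
    rw [beq_iff_eq] at h6
    unfold kE
    rwa [← h6]

theorem covPX_at {G : TProg} (h : ∀ i < 6, covPX kx (rep p) (rep q) (rep r) G i = true) {s : GS}
    (hs : DG s) (h3 : ML p q r s = 3) : kE kx p q r s T4.two ∈ lT G (giS s) := by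
  obtain ⟨e, hi⟩ := gsF_giS s hs
  have h4 := h (giS s) hi
  unfold covPX at h4
  have h5 : ML (rep p) (rep q) (rep r) s = 3 := by
    rw [ML_rep p q r hs, h3]
    rfl
  rw [e, if_pos h5, List.any_eq_true] at h4
  obtain ⟨x, hx, h6⟩ := h4
  rw [beq_iff_eq] at h6
  unfold kE
  rw [cut_two]
  rwa [← h6]

theorem covTX_at {l : List ℕ} (h : ∀ i < 6, covTX kx (rep p) (rep q) (rep r) l i = true) {s : GS}
    (hs : DG s) {T : T4} (hT : T.ok (ML p q r s)) : kE kx p q r s T ∈ l := by
  obtain ⟨e, hi⟩ := gsF_giS s hs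
  have h3 := h (giS s) hi
  unfold covTX at h3
  rw [e, ML_rep p q r hs, tysT_rep, List.all_eq_true] at h3
  have h4 := h3 _ (cut_mem hT)
  rw [List.any_eq_true] at h4
  obtain ⟨x, hx, h6⟩ := h4
  rw [beq_iff_eq] at h6
  unfold kE
  rwa [← h6]

theorem covLX_at {a b c : Lb} {l : List LT2} (h : ∀ i < 6, covLX kx a b c l i = true) {s : GS}
    (hs : DG s) {K : ℕ → Hm ℝ} (hK : SlitT p q r a b c K l) :
    SlitOK (K (kE kx p q r s T4.two)) (kk p q r s.1 s.2.1) ∧
      SlitOK (K (kE kx p q r s T4.three)) (kk p q r s.1 s.2.1) := by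
  obtain ⟨e, hi⟩ := gsF_giS s hs
  have h3 := h (giS s) hi
  unfold covLX at h3
  rw [e, Bool.and_eq_true] at h3
  have key : ∀ k, hasLT (lbE a b c (edN s.1 s.2.1)) l k = true →
      SlitOK (K k) (kk p q r s.1 s.2.1) := by
    intro k hk
    unfold hasLT at hk
    rw [List.any_eq_true] at hk
    obtain ⟨x, hx, h6⟩ := hk
    rw [Bool.and_eq_true, beq_iff_eq] at h6
    rw [← h6.1]
    exact hK x hx _ _ hs.1 h6.2
  unfold kE
  rw [cut_two, cut_three]
  exact ⟨key _ h3.1, key _ h3.2⟩

end Pool.Agent.Helper81.MIT
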