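import Pool.Agent.Helper81.MIT.Fin2
import Pool.Agent.Helper81.TK.GT1

/-!
THREE TAILS from order `14` on: the final statements from the near cells.
-/

set_option autoImplicit false
set_option exponentiation.threshold 4000
noncomputable section
namespace Pool.Agent.Helper81.MIT

open Pool.Agent.Helper6.MONO (FinAt xA)
open Pool.Agent.Helper6.MONO.QTR (TCell Far)
open Pool.Agent.Helper6.CXT (far_xB)
open Pool.Agent.Helper21.XB (xBp thr_xBp)
open Pool.Agent.Helper57.U2 (TCellU)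
open Pool.Agent.Helper84.ST
open Pool.Agent.Helper84.UC (fin_3S)

/-- the middle cells `[.2565, 8]` -/
theorem mid14 {p q r : ℕ} (hp : 14 ≤ p) (hq : 14 ≤ q) (hr : 14 ≤ r) :
    TCell p q r (xBp p q r) ((72198331526284 : ℕ) / 2 ^ 48) 8 := by
  have hL : ∀ M : ℕ, 14 ≤ M → (Lb.tl 548835622649856 562949953421312).has M := fun M hM =>
    tl_all (N := 14) (by norm_num) (by norm_num)
      (by norm_num [kbx, Pool.Agent.Helper6.MONO.kb]) le_rfl hM
  have h := (Pool.Agent.Helper81.TK.E_T_T_T_mid14b.T.join Pool.Agent.Helper81.TK.E_T_T_T_mid14.T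
    (by norm_num) (by norm_num)) p q r (hL p hp) (hL q hq) (hL r hr)
  exact tc_sub h le_rfl (by norm_num)

/-- **THREE TAILS**: near cells up to `y ≥ .2565` -/
theorem h4 {y : ℝ} (hy : ((72198331526284 : ℕ) : ℝ) / 2 ^ 48 ≤ y) (hy8 : y ≤ 8)
    (near : ∀ p q r : ℕ, 14 ≤ p → 14 ≤ q → p ≤ r → q ≤ r → TCellU p q r (xBp p q r) 0 y) :
    ∀ p q r : ℕ, 14 ≤ p → p ≤ q → q ≤ r → FinAt p q r := by
  refine fin_3S le_rfl (fun p q r hp hq hpr hqr => ?_)
  have hr := hp.trans hpr
  have hT := thr_xBp hp hq hr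
  exact qxS_nm (by omega) (by omega) (by omega) hT.gt hT.le (near p q r hp hq hpr hqr)
    (mid14 hp hq hr) hy hy8 le_rfl (far_xB hp hq hr)

end Pool.Agent.Helper81.MIT
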