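import Pool.Agent.Helper81.MIT.H4
import Pool.Agent.Helper81.MIT.Gbx

/-!
THREE TAILS from order `14` on: near cells on boxes of the three weights, joined in height per box
and covered level by level.
-/

set_option autoImplicit false
noncomputable section
namespace Pool.Agent.Helper81.MIT

open Pool.Agent.Helper6.MONO (FinAt)
open Pool.Agent.Helper6.MONO.QTR (TCell)
open Pool.Agent.Helper21.XB (xBp)
open Pool.Agent.Helper57.U2 (TCellU)

/-- near cells on `xBp` for all orders of a box -/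
def TcU3 (b : B3) (y e : ℕ) : Prop :=
  ∀ p q r : ℕ, b.has p q r → 14 ≤ p → 14 ≤ q → 14 ≤ r →
    TCellU p q r (xBp p q r) ((y : ℝ) / 2 ^ 48) ((e : ℝ) / 2 ^ 48)

theorem cst_le {a b : ℕ} (h : a ≤ b) : (a : ℝ) / 2 ^ 48 ≤ (b : ℝ) / 2 ^ 48 :=
  div_le_div_of_nonneg_right (by exact_mod_cast h) (by positivity)

theorem TcU3.sub {b : B3} {y e y' e' : ℕ} (h : TcU3 b y e) (hy : y ≤ y') (he : e' ≤ e) :
    TcU3 b y' e' := fun p q r hb hp hq hr =>
  tcu_sub (h p q r hb hp hq hr) (cst_le hy) (cst_le he)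

theorem TcU3.join {b : B3} {y e y' e' : ℕ} (h1 : TcU3 b y e) (h2 : TcU3 b y' e') (h : y' ≤ e)
    (he : e ≤ e') : TcU3 b y e' := fun p q r hb hp hq hr =>
  tcu_join (h1 p q r hb hp hq hr) (h2 p q r hb hp hq hr) (cst_le h) (cst_le he)

/-- one level from its boxes -/
theorem lvl3 {y e : ℕ} {P : List (ℕ × ℕ)} {l : List B3} (hP : chP 14 0 P = true)
    (h : cov3 P P P l = true) (hl : ∀ b ∈ l, TcU3 b y e) {p q r : ℕ} (hp : 14 ≤ p) (hq : 14 ≤ q)
    (hpr : p ≤ r) (hqr : q ≤ r) :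
    TCellU p q r (xBp p q r) ((y : ℝ) / 2 ^ 48) ((e : ℝ) / 2 ^ 48) := by
  obtain ⟨b, hb, hb'⟩ := boxes_tail hP h hp hq hpr hqr
  exact hl b hb p q r hb' hp hq (hp.trans hpr)

end Pool.Agent.Helper81.MIT
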