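import Pool.Agent.Helper81.MIT.TopT4

/-!
One triple of orders up to `15`: the final statement from the quarters on every line close to a
given number, by the signs at the two ends of an interval.
-/

set_option autoImplicit false
set_option exponentiation.threshold 4000
noncomputable section
namespace Pool.Agent.Helper81.MIT

open Pool.Agent.Helper6.MONO (Kp xA xA_max' fB fB_eq fBx Thr certB FinAt g_FIN' thr_Kp2)
open Pool.Agent.Helper6.MONO.QTR (QX zf_of_qx)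
open Pool.Agent.Helper21.XB (hB xBc SS KK fBx_xBc hB_PQR)

/-- the cubic equation in the numbers `e = 4 - κ ^ 2` -/
def HH (e f g x : ℝ) : ℝ := 16 * x ^ 3 + 4 * (9 - (e + f + g)) * x ^ 2 +
  (24 - 4 * (e + f + g)) * x + 4 + e ^ 2 + f ^ 2 + g ^ 2 - 2 * (e * f + f * g + g * e) + e * f * g

theorem HH_rot (e f g x : ℝ) : HH f g e x = HH e f g x := by unfold HH; ring

theorem HH_lip1 {e e0 f g x : ℝ} (he : 0 ≤ e) (he' : e ≤ 2 / 5) (h0 : 0 ≤ e0) (h0' : e0 ≤ 2 / 5)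
    (hf : 0 ≤ f) (hf' : f ≤ 2 / 5) (hg : 0 ≤ g) (hg' : g ≤ 2 / 5) (hx : -(49 / 100) ≤ x)
    (hx' : x ≤ 0) : |HH e f g x - HH e0 f g x| ≤ 2 * |e - e0| := by
  have e1 : HH e f g x - HH e0 f g x =
      (e - e0) * (-4 * x ^ 2 - 4 * x + (e + e0) - 2 * (f + g) + f * g) := by
    unfold HH
    ring
  rw [e1, abs_mul, mul_comm]
  refine mul_le_mul_of_nonneg_right ?_ (abs_nonneg _)
  rw [abs_le]
  have k1 := mul_nonneg hf hg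
  have k2 := mul_nonneg (sub_nonneg.2 hf') (sub_nonneg.2 hg')
  constructor <;> nlinarith

theorem HH_lip {e e0 f f0 g g0 x d : ℝ} (he : 0 ≤ e) (he' : e ≤ 2 / 5) (h0 : 0 ≤ e0)
    (h0' : e0 ≤ 2 / 5) (hf : 0 ≤ f) (hf' : f ≤ 2 / 5) (h1 : 0 ≤ f0) (h1' : f0 ≤ 2 / 5)
    (hg : 0 ≤ g) (hg' : g ≤ 2 / 5) (h2 : 0 ≤ g0) (h2' : g0 ≤ 2 / 5) (hx : -(49 / 100) ≤ x)
    (hx' : x ≤ 0) (de : |e - e0| ≤ d) (df : |f - f0| ≤ d) (dg : |g - g0| ≤ d) :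
    |HH e f g x - HH e0 f0 g0 x| ≤ 6 * d := by
  have a1 := HH_lip1 he he' h0 h0' hf hf' hg hg' hx hx'
  have a2 := HH_lip1 (f := g) (g := e0) hf hf' h1 h1' hg hg' h0 h0' hx hx'
  have a3 := HH_lip1 (f := e0) (g := f0) hg hg' h2 h2' h0 h0' h1 h1' hx hx'
  rw [HH_rot e0 f g x, HH_rot e0 f0 g x] at a2
  have r1 : HH g e0 f0 x = HH e0 f0 g x := by unfold HH; ring
  have r2 : HH g0 e0 f0 x = HH e0 f0 g0 x := by unfold HH; ring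
  rw [r1, r2] at a3
  have e1 : HH e f g x - HH e0 f0 g0 x = (HH e f g x - HH e0 f g x) +
      (HH e0 f g x - HH e0 f0 g x) + (HH e0 f0 g x - HH e0 f0 g0 x) := by ring
  rw [e1]
  have t1 := abs_add_le (HH e f g x - HH e0 f g x + (HH e0 f g x - HH e0 f0 g x))
    (HH e0 f0 g x - HH e0 f0 g0 x)
  have t2 := abs_add_le (HH e f g x - HH e0 f g x) (HH e0 f g x - HH e0 f0 g x)
  linarith

/-- the data of one weight: `m` close to `2 ^ 48 κ`, `u` close to `4 - κ ^ 2` -/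
structure KW (M : ℕ) (m : ℕ) (u : ℝ) : Prop where
  lo : ((m : ℝ) - 1) / 2 ^ 48 ≤ Kp M
  hi : Kp M ≤ ((m : ℝ) + 1) / 2 ^ 48
  m1 : 281474976710656 ≤ m
  m2 : m ≤ 562949953421311
  eu : u = 4 - ((m : ℝ) / 2 ^ 48) ^ 2
  u0 : 0 ≤ u
  u1 : u ≤ 399 / 1000

theorem KW.of {M : ℕ} (h1 : 10 ≤ M) (h2 : M ≤ 15) : KW M (kbx M) (4 - ((kbx M : ℝ) / 2 ^ 48) ^ 2) := by
  have h := kapx M (by omega) h2
  rw [abs_le] at h
  refine ⟨by rw [sub_div]; linarith [h.1], by rw [add_div]; linarith [h.2], ?_, ?_, rfl, ?_, ?_⟩ <;>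
    interval_cases M <;> norm_num [kbx, Pool.Agent.Helper6.MONO.kb]

section
variable {M m : ℕ} {u : ℝ} (h : KW M m u)
include h

theorem KW.pos : 0 < Kp M := by
  have h1 : (281474976710656 : ℝ) ≤ m := by exact_mod_cast h.m1
  refine lt_of_lt_of_le ?_ h.lo
  rw [lt_div_iff₀ (by positivity)]
  linarith

theorem KW.lt2 : Kp M ≤ 2 := by
  refine h.hi.trans ?_
  have h1 : (m : ℝ) ≤ 562949953421311 := by exact_mod_cast h.m2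
  rw [div_le_iff₀ (by positivity)]
  linarith

theorem KW.d : |(4 - Kp M ^ 2) - u| ≤ 5 / 2 ^ 48 := by
  have h1 : (281474976710656 : ℝ) ≤ m := by exact_mod_cast h.m1
  have h2 : (m : ℝ) ≤ 562949953421311 := by exact_mod_cast h.m2
  have a := h.lo
  have b := h.hi
  have c := h.pos
  have c2 := h.lt2
  set w : ℝ := (m : ℝ) / 2 ^ 48 with hw
  have w1 : w ≤ 2 := by rw [hw, div_le_iff₀ (by positivity)]; linarith
  have w0 : 1 ≤ w := by rw [hw, le_div_iff₀ (by positivity)]; linarith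
  rw [sub_div] at a
  rw [add_div] at b
  have e1 : (4 - Kp M ^ 2) - u = (w - Kp M) * (w + Kp M) := by
    rw [h.eu]
    ring
  rw [e1, abs_mul]
  have k1 : |w - Kp M| ≤ 1 / 2 ^ 48 := by rw [abs_le]; constructor <;> linarith
  have k2 : |w + Kp M| ≤ 4 := by rw [abs_le]; constructor <;> linarith
  have k3 := mul_le_mul k1 k2 (abs_nonneg _) (by positivity)
  refine k3.trans ?_
  norm_num

theorem KW.e0 : 0 ≤ 4 - Kp M ^ 2 := by nlinarith [h.pos, h.lt2]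
theorem KW.e1 : 4 - Kp M ^ 2 ≤ 2 / 5 := by
  have := (abs_le.1 h.d).2
  have h1 := h.u1
  have : (5 : ℝ) / 2 ^ 48 ≤ 1 / 1000 := by norm_num
  linarith
end

/-- the numerator `2 (1 - 2 c - 2 c ^ 2 - S)` at the approximate weights -/
def NN (e f g x : ℝ) : ℝ := 2 * (1 - 2 * x - 2 * x ^ 2 - (9 - (e + f + g)))

section
variable {p q r m0 m1 m2 : ℕ} {u0 u1 u2 : ℝ} (h0 : KW p m0 u0) (h1 : KW q m1 u1)
  (h2 : KW r m2 u2)
include h0 h1 h2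

theorem pt_h {c : ℝ} (c1 : -(49 / 100) ≤ c) (c2 : c ≤ 0) :
    |hB (SS (Kp p) (Kp q) (Kp r)) (KK (Kp p) (Kp q) (Kp r)) c - HH u0 u1 u2 c| ≤ 30 / 2 ^ 48 := by
  have e : hB (SS (Kp p) (Kp q) (Kp r)) (KK (Kp p) (Kp q) (Kp r)) c =
      HH (4 - Kp p ^ 2) (4 - Kp q ^ 2) (4 - Kp r ^ 2) c := by
    rw [hB_PQR]
    rfl
  rw [e]
  have h := HH_lip h0.e0 h0.e1 h0.u0 (by linarith [h0.u1]) h1.e0 h1.e1 h1.u0 (by linarith [h1.u1])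
    h2.e0 h2.e1 h2.u0 (by linarith [h2.u1]) c1 c2 h0.d h1.d h2.d
  refine h.trans ?_
  norm_num

theorem pt_K : 0 < KK (Kp p) (Kp q) (Kp r) := mul_pos (mul_pos h0.pos h1.pos) h2.pos

theorem pt_Kl : ((m0 : ℝ) - 1) * ((m1 : ℝ) - 1) * ((m2 : ℝ) - 1) / 2 ^ 144 ≤
    KK (Kp p) (Kp q) (Kp r) := by
  have k0 : (281474976710656 : ℝ) ≤ m0 := by exact_mod_cast h0.m1
  have k1 : (281474976710656 : ℝ) ≤ m1 := by exact_mod_cast h1.m1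
  have k2 : (281474976710656 : ℝ) ≤ m2 := by exact_mod_cast h2.m1
  have e : ((m0 : ℝ) - 1) * ((m1 : ℝ) - 1) * ((m2 : ℝ) - 1) / 2 ^ 144 =
      (((m0 : ℝ) - 1) / 2 ^ 48) * (((m1 : ℝ) - 1) / 2 ^ 48) * (((m2 : ℝ) - 1) / 2 ^ 48) := by ring
  rw [e]
  unfold KK
  have p0 : 0 ≤ ((m0 : ℝ) - 1) / 2 ^ 48 := div_nonneg (by linarith) (by positivity)
  have p1 : 0 ≤ ((m1 : ℝ) - 1) / 2 ^ 48 := div_nonneg (by linarith) (by positivity)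
  have p2 : 0 ≤ ((m2 : ℝ) - 1) / 2 ^ 48 := div_nonneg (by linarith) (by positivity)
  exact mul_le_mul (mul_le_mul h0.lo h1.lo p1 h0.pos.le) h2.lo p2
    (mul_nonneg h0.pos.le h1.pos.le)

theorem pt_Kh : KK (Kp p) (Kp q) (Kp r) ≤
    ((m0 : ℝ) + 1) * ((m1 : ℝ) + 1) * ((m2 : ℝ) + 1) / 2 ^ 144 := by
  have e : ((m0 : ℝ) + 1) * ((m1 : ℝ) + 1) * ((m2 : ℝ) + 1) / 2 ^ 144 =
      (((m0 : ℝ) + 1) / 2 ^ 48) * (((m1 : ℝ) + 1) / 2 ^ 48) * (((m2 : ℝ) + 1) / 2 ^ 48) := by ring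
  rw [e]
  unfold KK
  have p0 : 0 ≤ ((m0 : ℝ) + 1) / 2 ^ 48 := by positivity
  have p1 : 0 ≤ ((m1 : ℝ) + 1) / 2 ^ 48 := by positivity
  exact mul_le_mul (mul_le_mul h0.hi h1.hi h1.pos.le p0) h2.hi h2.pos.le (mul_nonneg p0 p1)

theorem pt_N (c : ℝ) : |KK (Kp p) (Kp q) (Kp r) * xBc (SS (Kp p) (Kp q) (Kp r))
    (KK (Kp p) (Kp q) (Kp r)) c - NN u0 u1 u2 c| ≤ 30 / 2 ^ 48 := by
  have hK := pt_K h0 h1 h2
  have e : KK (Kp p) (Kp q) (Kp r) * xBc (SS (Kp p) (Kp q) (Kp r))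
      (KK (Kp p) (Kp q) (Kp r)) c - NN u0 u1 u2 c = 2 * ((4 - Kp p ^ 2) - u0) +
        2 * ((4 - Kp q ^ 2) - u1) + 2 * ((4 - Kp r ^ 2) - u2) := by
    unfold xBc NN SS
    field_simp
    ring
  rw [e]
  have d0 := abs_le.1 h0.d
  have d1 := abs_le.1 h1.d
  have d2 := abs_le.1 h2.d
  rw [abs_le]
  constructor <;> linarith [d0.1, d0.2, d1.1, d1.2, d2.1, d2.2]

/-- the point `xBc c` is close to `X` (negative) -/
theorem pt_X {c X n : ℝ} (hX : X + n ≤ 0)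
    (hn : 0 ≤ n)
    (k1 : (X - n) * (((m0 : ℝ) - 1) * ((m1 : ℝ) - 1) * ((m2 : ℝ) - 1) / 2 ^ 144) ≤
      2 ^ 48 * NN u0 u1 u2 c - 30)
    (k2 : 2 ^ 48 * NN u0 u1 u2 c + 30 ≤
      (X + n) * (((m0 : ℝ) + 1) * ((m1 : ℝ) + 1) * ((m2 : ℝ) + 1) / 2 ^ 144)) :
    |2 ^ 48 * xBc (SS (Kp p) (Kp q) (Kp r)) (KK (Kp p) (Kp q) (Kp r)) c - X| ≤ n := by
  have hK := pt_K h0 h1 h2
  have a1 := pt_Kl h0 h1 h2
  have a2 := pt_Kh h0 h1 h2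
  have a3 := abs_le.1 (pt_N h0 h1 h2 c)
  set K := KK (Kp p) (Kp q) (Kp r)
  set x := xBc (SS (Kp p) (Kp q) (Kp r)) K c
  set Kl := ((m0 : ℝ) - 1) * ((m1 : ℝ) - 1) * ((m2 : ℝ) - 1) / 2 ^ 144
  set Kh := ((m0 : ℝ) + 1) * ((m1 : ℝ) + 1) * ((m2 : ℝ) + 1) / 2 ^ 144
  have b1 : K * (X - n) ≤ K * (2 ^ 48 * x) := by
    have t1 : (X - n) * K ≤ (X - n) * Kl := mul_le_mul_of_nonpos_left a1 (by linarith)
    have t2 := a3.1
    have t3 : 2 ^ 48 * NN u0 u1 u2 c - 30 ≤ 2 ^ 48 * (K * x) := by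
      have : 2 ^ 48 * (-(30 / 2 ^ 48) : ℝ) = -30 := by norm_num
      nlinarith
    nlinarith
  have b2 : K * (2 ^ 48 * x) ≤ K * (X + n) := by
    have t1 : (X + n) * Kh ≤ (X + n) * K := mul_le_mul_of_nonpos_left a2 hX
    have t2 := a3.2
    have t3 : 2 ^ 48 * (K * x) ≤ 2 ^ 48 * NN u0 u1 u2 c + 30 := by
      have : 2 ^ 48 * (30 / 2 ^ 48 : ℝ) = 30 := by norm_num
      nlinarith
    nlinarith
  have b3 := le_of_mul_le_mul_left b1 hK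
  have b4 := le_of_mul_le_mul_left b2 hK
  rw [abs_le]
  constructor <;> linarith

theorem pt_AG : |KK (Kp p) (Kp q) (Kp r) * xA p q r - (u2 - (4 - u0) * (4 - u1))| ≤ 46 / 2 ^ 48 := by
  have hK := pt_K h0 h1 h2
  have e : KK (Kp p) (Kp q) (Kp r) * xA p q r = (4 - Kp r ^ 2) -
      (4 - (4 - Kp p ^ 2)) * (4 - (4 - Kp q ^ 2)) := by
    rw [Pool.Agent.Helper6.MONO.xA_eq]
    have n0 := h0.pos.ne'
    have n1 := h1.pos.ne'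
    have n2 := h2.pos.ne'
    unfold KK
    field_simp
    ring
  rw [e]
  have d0 := abs_le.1 h0.d
  have d1 := abs_le.1 h1.d
  have d2 := abs_le.1 h2.d
  have a0 := h0.e0
  have b0 := h1.u0
  have b1 := h1.u1
  have a1 := h0.e1
  set s0 := (4 - Kp p ^ 2) - u0 with hs0
  set s1 := (4 - Kp q ^ 2) - u1 with hs1
  set s2 := (4 - Kp r ^ 2) - u2 with hs2
  have e2 : (4 - Kp r ^ 2) - (4 - (4 - Kp p ^ 2)) * (4 - (4 - Kp q ^ 2)) -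
      (u2 - (4 - u0) * (4 - u1)) = s2 + (4 - u1) * s0 + (4 - (4 - Kp p ^ 2)) * s1 := by
    rw [hs0, hs1, hs2]
    ring
  rw [e2]
  have k0 : |(4 - u1) * s0| ≤ 4 * (5 / 2 ^ 48) := by
    rw [abs_mul]
    refine mul_le_mul ?_ h0.d (abs_nonneg _) (by norm_num)
    rw [abs_le]
    constructor <;> linarith
  have k1 : |(4 - (4 - Kp p ^ 2)) * s1| ≤ 4 * (5 / 2 ^ 48) := by
    rw [abs_mul]
    refine mul_le_mul ?_ h1.d (abs_nonneg _) (by norm_num)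
    rw [abs_le]
    constructor <;> linarith
  have k0' := abs_le.1 k0
  have k1' := abs_le.1 k1
  rw [abs_le]
  constructor <;> linarith [k0'.1, k0'.2, k1'.1, k1'.2, d2.1, d2.2]

end

/-- the numbers of one triple: `X` (negative), radius `n`, `c1 < c2` -/
structure PtD (m0 m1 m2 : ℕ) (X n c1 c2 : ℝ) : Prop where
  hX : X + n ≤ 0
  hn : 0 ≤ n
  hc1 : -(49 / 100) ≤ c1
  hc2 : c2 ≤ 0
  hcc : c1 ≤ c2
  k1 : ∀ c, c = c1 ∨ c = c2 →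
    (X - n) * (((m0 : ℝ) - 1) * ((m1 : ℝ) - 1) * ((m2 : ℝ) - 1) / 2 ^ 144) ≤
      2 ^ 48 * NN (4 - ((m0 : ℝ) / 2 ^ 48) ^ 2) (4 - ((m1 : ℝ) / 2 ^ 48) ^ 2)
        (4 - ((m2 : ℝ) / 2 ^ 48) ^ 2) c - 30
  k2 : ∀ c, c = c1 ∨ c = c2 →
    2 ^ 48 * NN (4 - ((m0 : ℝ) / 2 ^ 48) ^ 2) (4 - ((m1 : ℝ) / 2 ^ 48) ^ 2)
        (4 - ((m2 : ℝ) / 2 ^ 48) ^ 2) c + 30 ≤
      (X + n) * (((m0 : ℝ) + 1) * ((m1 : ℝ) + 1) * ((m2 : ℝ) + 1) / 2 ^ 144)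
  h1 : HH (4 - ((m0 : ℝ) / 2 ^ 48) ^ 2) (4 - ((m1 : ℝ) / 2 ^ 48) ^ 2)
        (4 - ((m2 : ℝ) / 2 ^ 48) ^ 2) c1 + 30 / 2 ^ 48 ≤ 0
  a1 : (4 - ((m2 : ℝ) / 2 ^ 48) ^ 2) - (4 - (4 - ((m0 : ℝ) / 2 ^ 48) ^ 2)) *
        (4 - (4 - ((m1 : ℝ) / 2 ^ 48) ^ 2)) + 76 / 2 ^ 48 ≤
      NN (4 - ((m0 : ℝ) / 2 ^ 48) ^ 2) (4 - ((m1 : ℝ) / 2 ^ 48) ^ 2)
        (4 - ((m2 : ℝ) / 2 ^ 48) ^ 2) c1

theorem KK_xBc {S K c : ℝ} (hK : K ≠ 0) : K * xBc S K c = 2 * (1 - 2 * c - 2 * c ^ 2 - S) := by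
  unfold xBc
  field_simp

/-- **ONE TRIPLE** -/
theorem fin_pt {p q r : ℕ} (hp : 10 ≤ p) (hpq : p ≤ q) (hqr : q ≤ r) (hr : r ≤ 15)
    {X n c1 c2 : ℝ} (hD : PtD (kbx p) (kbx q) (kbx r) X n c1 c2) (hX : -(2 ^ 49) < X - n)
    (hlo : xBc (SS (Kp p) (Kp q) (Kp r)) (KK (Kp p) (Kp q) (Kp r)) c2 < xA p q r ∨
      fB p q r (xBc (SS (Kp p) (Kp q) (Kp r)) (KK (Kp p) (Kp q) (Kp r)) c2) < 0)
    (h : ∀ x0 : ℝ, |2 ^ 48 * x0 - X| ≤ n →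
      xBc (SS (Kp p) (Kp q) (Kp r)) (KK (Kp p) (Kp q) (Kp r)) c2 ≤ x0 → Thr p q r x0 →
      QX p q r x0 ∧ QX q p r x0) : FinAt p q r := by
  have h0 := KW.of hp (hpq.trans (hqr.trans hr))
  have h1 := KW.of (hp.trans hpq) (hqr.trans hr)
  have h2 := KW.of (hp.trans (hpq.trans hqr)) hr
  have hK := pt_K h0 h1 h2
  have x1 := pt_X h0 h1 h2 hD.hX hD.hn (hD.k1 c1 (Or.inl rfl)) (hD.k2 c1 (Or.inl rfl))
  have x2 := pt_X h0 h1 h2 hD.hX hD.hn (hD.k1 c2 (Or.inr rfl)) (hD.k2 c2 (Or.inr rfl))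
  have hb := pt_h h0 h1 h2 hD.hc1 (hD.hcc.trans hD.hc2)
  have ha := pt_AG h0 h1 h2
  have hn := pt_N h0 h1 h2 c1
  have hX0 := hD.hX
  have hn0 := hD.hn
  have a1 := hD.a1
  have g1 := hD.h1
  have e1 := KK_xBc (S := SS (Kp p) (Kp q) (Kp r)) (c := c1) hK.ne'
  have e2 := KK_xBc (S := SS (Kp p) (Kp q) (Kp r)) (c := c2) hK.ne'
  have cc : -1 ≤ c1 + c2 := by linarith [hD.hc1, hD.hcc]
  have cc2 := hD.hcc
  have q1 := hD.hc1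
  set S := SS (Kp p) (Kp q) (Kp r) with hS
  set K := KK (Kp p) (Kp q) (Kp r) with hKd
  set lo := xBc S K c2 with hlod
  set hi := xBc S K c1 with hhid
  rw [abs_le] at x1 x2 hb ha hn
  have lh : lo ≤ hi := by
    have : K * lo ≤ K * hi := by
      rw [e1, e2]
      nlinarith
    exact le_of_mul_le_mul_left this hK
  have hA : xA p q r ≤ hi := by
    have : K * xA p q r ≤ K * hi := by linarith [ha.2, hn.1]
    exact le_of_mul_le_mul_left this hK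
  have hB1 : hB S K c1 ≤ 0 := by linarith [hb.2]
  have hBh : 0 ≤ fB p q r hi := by
    have e : fB p q r hi = hB S K c1 * (hB S K c1 - 4 * (2 * c1 + 1) ^ 3) := by
      rw [fB_eq, hhid]
      exact fBx_xBc hK.ne'
    rw [e]
    have k1 : 0 < 2 * c1 + 1 := by linarith
    have k2 : 0 ≤ 4 * (2 * c1 + 1) ^ 3 := by positivity
    nlinarith
  refine g_FIN' p q r (by omega) (by omega) (by omega) (certB (by omega) hpq hqr lo hi ?_ lh ?_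
    hlo hA hBh ?_)
  · nlinarith [x2.1]
  · nlinarith [x1.2]
  · intro x0 k1 k2 hT
    have h3 := h x0 (by rw [abs_le]; constructor <;> nlinarith [x1.2, x2.1]) k1 hT
    exact zf_of_qx (by omega) hpq hqr (fun h => by omega) hT.gt hT.A1 h3.1 h3.2

/-! ### type A -/

theorem mul_lip {a a0 b b0 A B d1 d2 : ℝ} (hb : |b| ≤ B) (ha : |a0| ≤ A) (h1 : |a - a0| ≤ d1)
    (h2 : |b - b0| ≤ d2) : |a * b - a0 * b0| ≤ B * d1 + A * d2 := by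
  have e : a * b - a0 * b0 = b * (a - a0) + a0 * (b - b0) := by ring
  rw [e]
  refine (abs_add_le _ _).trans ?_
  rw [abs_mul, abs_mul]
  have k1 := mul_le_mul hb h1 (abs_nonneg _) ((abs_nonneg _).trans hb)
  have k2 := mul_le_mul ha h2 (abs_nonneg _) ((abs_nonneg _).trans ha)
  linarith

/-- the discriminant with approximate weights -/
theorem fBx_lip {S S0 K K0 x d : ℝ} (hS : 0 ≤ S) (hS' : S ≤ 9) (hS0 : 0 ≤ S0) (hS0' : S0 ≤ 9)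
    (hK : 0 ≤ K) (hK' : K ≤ 9) (hK0 : 0 ≤ K0) (hK0' : K0 ≤ 9) (hx : -2 ≤ x) (hx' : x ≤ 2)
    (dS : |S - S0| ≤ d) (dK : |K - K0| ≤ d) :
    |fBx S K x - fBx S0 K0 x| ≤ 65536 * d := by
  have hd : 0 ≤ d := (abs_nonneg _).trans dS
  have aS : |S| ≤ 9 := abs_le.2 ⟨by linarith, hS'⟩
  have aS0 : |S0| ≤ 9 := abs_le.2 ⟨by linarith, hS0'⟩
  have aK : |K| ≤ 9 := abs_le.2 ⟨by linarith, hK'⟩
  have aK0 : |K0| ≤ 9 := abs_le.2 ⟨by linarith, hK0'⟩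
  have ax : |x| ≤ 2 := abs_le.2 ⟨hx, hx'⟩
  have s2 := mul_lip aS aS0 dS dS
  have k2 := mul_lip aK aK0 dK dK
  have sk := mul_lip aS aK0 dK dS
  have q1 : |S * S| ≤ 81 := by rw [abs_mul]; nlinarith [abs_nonneg S]
  have q1' : |S0 * S0| ≤ 81 := by rw [abs_mul]; nlinarith [abs_nonneg S0]
  have q2 : |K * K| ≤ 81 := by rw [abs_mul]; nlinarith [abs_nonneg K]
  have q2' : |K0 * K0| ≤ 81 := by rw [abs_mul]; nlinarith [abs_nonneg K0]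
  have q3 : |K * S| ≤ 81 := by rw [abs_mul]; nlinarith [abs_nonneg K, abs_nonneg S]
  have q3' : |K0 * S0| ≤ 81 := by rw [abs_mul]; nlinarith [abs_nonneg K0, abs_nonneg S0]
  have s3 := mul_lip aS q1' s2 dS
  have s2k := mul_lip aK q1' s2 dK
  have sk2 := mul_lip aS q2' k2 dS
  have k3 := mul_lip aK q2' k2 dK
  -- the trace
  have ksx : |x * (K * S - K0 * S0)| ≤ 36 * d := by
    rw [abs_mul]
    have := mul_le_mul ax sk (abs_nonneg _) (by norm_num)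
    linarith
  set T := S ^ 2 + K ^ 2 + K * S * x with hT
  set T0 := S0 ^ 2 + K0 ^ 2 + K0 * S0 * x with hT0
  have t1 : |T - T0| ≤ 72 * d := by
    have e : T - T0 = (S * S - S0 * S0) + (K * K - K0 * K0) + x * (K * S - K0 * S0) := by
      rw [hT, hT0]
      ring
    rw [e]
    have a1 := abs_add_le ((S * S - S0 * S0) + (K * K - K0 * K0)) (x * (K * S - K0 * S0))
    have a2 := abs_add_le (S * S - S0 * S0) (K * K - K0 * K0)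
    linarith
  have bT : |T| ≤ 324 := by
    have b1 := abs_le.1 q3
    have b2 : |K * S * x| ≤ 162 := by
      rw [abs_mul]
      have := mul_le_mul q3 ax (abs_nonneg _) (by norm_num)
      linarith
    have b3 := abs_le.1 b2
    have b4 := abs_le.1 q1
    have b5 := abs_le.1 q2
    rw [abs_le, hT]
    constructor <;> nlinarith
  have bT0 : |T0| ≤ 324 := by
    have b2 : |K0 * S0 * x| ≤ 162 := by
      rw [abs_mul]
      have := mul_le_mul q3' ax (abs_nonneg _) (by norm_num)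
      linarith
    have b3 := abs_le.1 b2
    have b4 := abs_le.1 q1'
    have b5 := abs_le.1 q2'
    rw [abs_le, hT0]
    constructor <;> nlinarith
  have t2 := mul_lip bT bT0 t1 t1
  -- Chebyshev
  have c2 : |x ^ 2 / 2 - 1| ≤ 1 := by rw [abs_le]; constructor <;> nlinarith
  have c3 : |(x ^ 3 - 3 * x) / 2| ≤ 1 := by
    rw [abs_le]
    constructor
    · nlinarith [mul_nonneg (by linarith : 0 ≤ 2 + x) (sq_nonneg (x - 1))]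
    · nlinarith [mul_nonneg (by linarith : 0 ≤ 2 - x) (sq_nonneg (x + 1))]
  have m1 : |x * (S * S * K - S0 * S0 * K0)| ≤ 486 * d := by
    rw [abs_mul]
    have := mul_le_mul ax s2k (abs_nonneg _) (by norm_num)
    linarith
  have m2 : |(x ^ 2 / 2 - 1) * (K * K * S - K0 * K0 * S0)| ≤ 243 * d := by
    rw [abs_mul]
    have := mul_le_mul c2 sk2 (abs_nonneg _) (by norm_num)
    linarith
  have m3 : |((x ^ 3 - 3 * x) / 2) * (K * K * K - K0 * K0 * K0)| ≤ 243 * d := by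
    rw [abs_mul]
    have := mul_le_mul c3 k3 (abs_nonneg _) (by norm_num)
    linarith
  have e : fBx S K x - fBx S0 K0 x = (T * T - T0 * T0) + 8 * (S * S * S - S0 * S0 * S0) +
      12 * (x * (S * S * K - S0 * S0 * K0)) + 24 * ((x ^ 2 / 2 - 1) *
        (K * K * S - K0 * K0 * S0)) + 8 * (((x ^ 3 - 3 * x) / 2) * (K * K * K - K0 * K0 * K0)) +
      18 * (T - T0) := by
    rw [hT, hT0]
    unfold fBx
    ring
  rw [e]
  rw [abs_le] at t2 s3 m1 m2 m3 t1 ⊢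
  constructor
  · linarith [t2.1, s3.1, m1.1, m2.1, m3.1, t1.1]
  · linarith [t2.2, s3.2, m1.2, m2.2, m3.2, t1.2]

/-- one weight -/
theorem KW.k {M m : ℕ} {u : ℝ} (h : KW M m u) : |Kp M - (m : ℝ) / 2 ^ 48| ≤ 1 / 2 ^ 48 := by
  have a := h.lo
  have b := h.hi
  rw [sub_div] at a
  rw [add_div] at b
  rw [abs_le]
  constructor <;> linarith

theorem KW.w {M m : ℕ} {u : ℝ} (h : KW M m u) : 1 ≤ (m : ℝ) / 2 ^ 48 ∧ (m : ℝ) / 2 ^ 48 ≤ 2 := by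
  have h1 : (281474976710656 : ℝ) ≤ m := by exact_mod_cast h.m1
  have h2 : (m : ℝ) ≤ 562949953421311 := by exact_mod_cast h.m2
  constructor
  · rw [le_div_iff₀ (by positivity)]
    linarith
  · rw [div_le_iff₀ (by positivity)]
    linarith

theorem pt_dK {a b c a' b' c' : ℝ} (ha : |a| ≤ 2) (hb : |b| ≤ 2) (hc : |c| ≤ 2) (ha' : |a'| ≤ 2)
    (hb' : |b'| ≤ 2) (da : |a - a'| ≤ 1 / 2 ^ 48) (db : |b - b'| ≤ 1 / 2 ^ 48)
    (dc : |c - c'| ≤ 1 / 2 ^ 48) : |a * b * c - a' * b' * c'| ≤ 16 / 2 ^ 48 := by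
  have k1 := mul_lip hb ha' da db
  have k2 : |a' * b'| ≤ 4 := by
    rw [abs_mul]
    have := mul_le_mul ha' hb' (abs_nonneg _) (by norm_num)
    linarith
  have k3 := mul_lip hc k2 k1 dc
  refine k3.trans ?_
  norm_num

theorem cube9 {a b c : ℝ} (a0 : 0 ≤ a) (a2 : a ≤ 2) (b0 : 0 ≤ b) (b2 : b ≤ 2) (c0 : 0 ≤ c)
    (c2 : c ≤ 2) : 0 ≤ a * b * c ∧ a * b * c ≤ 9 := by
  have h1 := mul_le_mul a2 b2 b0 (by norm_num : (0 : ℝ) ≤ 2)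
  have h2 := mul_le_mul h1 c2 c0 (by norm_num : (0 : ℝ) ≤ 2 * 2)
  exact ⟨by positivity, by linarith⟩

theorem sq9 {a b c : ℝ} (a0 : 1 ≤ a) (a2 : a ≤ 2) (b0 : 1 ≤ b) (b2 : b ≤ 2) (c0 : 1 ≤ c)
    (c2 : c ≤ 2) : 0 ≤ a ^ 2 + b ^ 2 + c ^ 2 - 3 ∧ a ^ 2 + b ^ 2 + c ^ 2 - 3 ≤ 9 := by
  constructor <;> nlinarith

/-- the discriminant at the approximate weights -/
theorem fB_near {p q r m0 m1 m2 : ℕ} {u0 u1 u2 : ℝ} (h0 : KW p m0 u0) (h1 : KW q m1 u1)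
    (h2 : KW r m2 u2) {x : ℝ} (hx : -2 ≤ x) (hx' : x ≤ 2) :
    |fB p q r x - fBx (((m0 : ℝ) / 2 ^ 48) ^ 2 + ((m1 : ℝ) / 2 ^ 48) ^ 2 +
      ((m2 : ℝ) / 2 ^ 48) ^ 2 - 3) ((m0 : ℝ) * (m1 : ℝ) * (m2 : ℝ) / 2 ^ 144) x| ≤ 1 / 2 ^ 28 := by
  rw [fB_eq]
  have eK : (m0 : ℝ) * (m1 : ℝ) * (m2 : ℝ) / 2 ^ 144 =
      ((m0 : ℝ) / 2 ^ 48) * ((m1 : ℝ) / 2 ^ 48) * ((m2 : ℝ) / 2 ^ 48) := by ring
  rw [eK]
  obtain ⟨a1, a2⟩ := h0.w
  obtain ⟨b1, b2⟩ := h1.w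
  obtain ⟨c1, c2⟩ := h2.w
  have dS' : |(Kp p ^ 2 + Kp q ^ 2 + Kp r ^ 2 - 3) - (((m0 : ℝ) / 2 ^ 48) ^ 2 +
      ((m1 : ℝ) / 2 ^ 48) ^ 2 + ((m2 : ℝ) / 2 ^ 48) ^ 2 - 3)| ≤ 16 / 2 ^ 48 := by
    have g0 := h0.eu
    have g1 := h1.eu
    have g2 := h2.eu
    have d0 := abs_le.1 h0.d
    have d1 := abs_le.1 h1.d
    have d2 := abs_le.1 h2.d
    have : (5 : ℝ) / 2 ^ 48 * 3 ≤ 16 / 2 ^ 48 := by norm_num
    rw [abs_le]
    constructor <;> linarith [d0.1, d0.2, d1.1, d1.2, d2.1, d2.2]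
  have kp1 : ∀ {M m : ℕ} {u : ℝ}, KW M m u → 1 ≤ Kp M := fun {M m u} h => by
    have := h.e1
    have := h.pos
    nlinarith
  have S1 := sq9 (kp1 h0) h0.lt2 (kp1 h1) h1.lt2 (kp1 h2) h2.lt2
  have S2 := sq9 a1 a2 b1 b2 c1 c2
  have K1 := cube9 h0.pos.le h0.lt2 h1.pos.le h1.lt2 h2.pos.le h2.lt2
  have K2 := cube9 (by linarith) a2 (by linarith) b2 (by linarith) c2
  have dK := pt_dK (abs_le.2 ⟨by linarith [h0.pos], h0.lt2⟩) (abs_le.2 ⟨by linarith [h1.pos], h1.lt2⟩)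
    (abs_le.2 ⟨by linarith [h2.pos], h2.lt2⟩) (abs_le.2 ⟨by linarith, a2⟩)
    (abs_le.2 ⟨by linarith, b2⟩) h0.k h1.k h2.k
  have L := fBx_lip S1.1 S1.2 S2.1 S2.2 K1.1 K1.2 K2.1 K2.2 hx hx' dS' dK
  refine L.trans ?_
  norm_num

/-- the interval `[(X - n) / 2 ^ 48, (X + n) / 2 ^ 48]` -/
theorem fin_lh {p q r : ℕ} (hp : 10 ≤ p) (hpq : p ≤ q) (hqr : q ≤ r) {X n : ℝ}
    (hX : -(2 ^ 49) < X - n) (hX2 : X + n ≤ 0) (hn : 0 ≤ n) (lo : (X - n) / 2 ^ 48 < xA p q r)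
    (hi : xA p q r ≤ (X + n) / 2 ^ 48) (hB : 0 ≤ fB p q r ((X + n) / 2 ^ 48))
    (h : ∀ x0 : ℝ, |2 ^ 48 * x0 - X| ≤ n → Thr p q r x0 → QX p q r x0 ∧ QX q p r x0) :
    FinAt p q r := by
  have hm2 : -2 < (X - n) / 2 ^ 48 := by rw [lt_div_iff₀ (by positivity)]; linarith
  have h2' : (X + n) / 2 ^ 48 ≤ 2 := by rw [div_le_iff₀ (by positivity)]; linarith
  have hlh : (X - n) / 2 ^ 48 ≤ (X + n) / 2 ^ 48 :=
    div_le_div_of_nonneg_right (by linarith) (by positivity)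
  refine g_FIN' p q r (by omega) (by omega) (by omega) (certB (by omega) hpq hqr
    ((X - n) / 2 ^ 48) ((X + n) / 2 ^ 48) hm2 hlh h2' (Or.inl lo) hi hB ?_)
  intro x0 j1 j2 hT
  rw [div_le_iff₀ (by positivity)] at j1
  rw [le_div_iff₀ (by positivity)] at j2
  have h3 := h x0 (by rw [abs_le]; constructor <;> linarith) hT
  exact zf_of_qx (by omega) hpq hqr (fun h => by omega) hT.gt hT.A1 h3.1 h3.2

/-- **TYPE A**: `x0 = x_A` -/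
theorem fin_ptA {p q r : ℕ} (hp : 10 ≤ p) (hpq : p ≤ q) (hqr : q ≤ r) (hr : r ≤ 15)
    {X n : ℝ} (hX : -(2 ^ 49) < X - n) (hX2 : X + n ≤ 0) (hn : 0 ≤ n)
    (k1 : (X - n) * (((kbx p : ℝ) - 1) * ((kbx q : ℝ) - 1) * ((kbx r : ℝ) - 1) / 2 ^ 144) + 46 <
      2 ^ 48 * ((4 - ((kbx r : ℝ) / 2 ^ 48) ^ 2) - (4 - (4 - ((kbx p : ℝ) / 2 ^ 48) ^ 2)) *
        (4 - (4 - ((kbx q : ℝ) / 2 ^ 48) ^ 2))))
    (k2 : 2 ^ 48 * ((4 - ((kbx r : ℝ) / 2 ^ 48) ^ 2) - (4 - (4 - ((kbx p : ℝ) / 2 ^ 48) ^ 2)) *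
        (4 - (4 - ((kbx q : ℝ) / 2 ^ 48) ^ 2))) + 46 ≤
      (X + n) * (((kbx p : ℝ) + 1) * ((kbx q : ℝ) + 1) * ((kbx r : ℝ) + 1) / 2 ^ 144))
    (k3 : 1 / 2 ^ 28 ≤ fBx (((kbx p : ℝ) / 2 ^ 48) ^ 2 + ((kbx q : ℝ) / 2 ^ 48) ^ 2 +
      ((kbx r : ℝ) / 2 ^ 48) ^ 2 - 3) ((kbx p : ℝ) * (kbx q : ℝ) * (kbx r : ℝ) / 2 ^ 144)
        ((X + n) / 2 ^ 48))
    (h : ∀ x0 : ℝ, |2 ^ 48 * x0 - X| ≤ n → Thr p q r x0 → QX p q r x0 ∧ QX q p r x0) :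
    FinAt p q r := by
  have h0 := KW.of hp (hpq.trans (hqr.trans hr))
  have h1 := KW.of (hp.trans hpq) (hqr.trans hr)
  have h2 := KW.of (hp.trans (hpq.trans hqr)) hr
  have hK := pt_K h0 h1 h2
  have ha := pt_AG h0 h1 h2
  have a1 := pt_Kl h0 h1 h2
  have a2 := pt_Kh h0 h1 h2
  rw [abs_le] at ha
  set K := KK (Kp p) (Kp q) (Kp r) with hKd
  set Kl := ((kbx p : ℝ) - 1) * ((kbx q : ℝ) - 1) * ((kbx r : ℝ) - 1) / 2 ^ 144 with hKl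
  set Kh := ((kbx p : ℝ) + 1) * ((kbx q : ℝ) + 1) * ((kbx r : ℝ) + 1) / 2 ^ 144 with hKh
  set G := (4 - ((kbx r : ℝ) / 2 ^ 48) ^ 2) - (4 - (4 - ((kbx p : ℝ) / 2 ^ 48) ^ 2)) *
        (4 - (4 - ((kbx q : ℝ) / 2 ^ 48) ^ 2)) with hG
  have lo : (X - n) / 2 ^ 48 < xA p q r := by
    refine lt_of_mul_lt_mul_left ?_ hK.le
    have t1 : (X - n) * K ≤ (X - n) * Kl := mul_le_mul_of_nonpos_left a1 (by linarith)
    have t2 : K * ((X - n) / 2 ^ 48) = ((X - n) * K) / 2 ^ 48 := by ring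
    rw [t2, div_lt_iff₀ (by positivity)]
    have t3 := ha.1
    have t4 : 2 ^ 48 * (-(46 / 2 ^ 48) : ℝ) = -46 := by norm_num
    nlinarith
  have hi : xA p q r ≤ (X + n) / 2 ^ 48 := by
    refine le_of_mul_le_mul_left ?_ hK
    have t1 : (X + n) * Kh ≤ (X + n) * K := mul_le_mul_of_nonpos_left a2 hX2
    have t2 : K * ((X + n) / 2 ^ 48) = ((X + n) * K) / 2 ^ 48 := by ring
    rw [t2, le_div_iff₀ (by positivity)]
    have t3 := ha.2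
    have t4 : 2 ^ 48 * ((46 / 2 ^ 48) : ℝ) = 46 := by norm_num
    nlinarith
  have hm2 : -2 < (X - n) / 2 ^ 48 := by rw [lt_div_iff₀ (by positivity)]; linarith
  have h2' : (X + n) / 2 ^ 48 ≤ 2 := by rw [div_le_iff₀ (by positivity)]; linarith
  have hlh : (X - n) / 2 ^ 48 ≤ (X + n) / 2 ^ 48 :=
    div_le_div_of_nonneg_right (by linarith) (by positivity)
  have hB : 0 ≤ fB p q r ((X + n) / 2 ^ 48) := by
    have L := (abs_le.1 (fB_near h0 h1 h2 (x := (X + n) / 2 ^ 48) (by linarith) h2')).1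
    linarith
  exact fin_lh hp hpq hqr hX hX2 hn lo hi hB h

/-- **TYPE B**: `fB x0 = 0` -/
theorem fin_ptB {p q r : ℕ} (hp : 10 ≤ p) (hpq : p ≤ q) (hqr : q ≤ r) (hr : r ≤ 15)
    {X n c1 c2 : ℝ} (hD : PtD (kbx p) (kbx q) (kbx r) X n c1 c2) (hX : -(2 ^ 49) < X - n)
    (hlo : 30 / 2 ^ 48 < HH (4 - ((kbx p : ℝ) / 2 ^ 48) ^ 2) (4 - ((kbx q : ℝ) / 2 ^ 48) ^ 2)
        (4 - ((kbx r : ℝ) / 2 ^ 48) ^ 2) c2)
    (hlo2 : HH (4 - ((kbx p : ℝ) / 2 ^ 48) ^ 2) (4 - ((kbx q : ℝ) / 2 ^ 48) ^ 2)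
        (4 - ((kbx r : ℝ) / 2 ^ 48) ^ 2) c2 + 30 / 2 ^ 48 < 4 * (2 * c2 + 1) ^ 3)
    (hlA : (4 - ((kbx r : ℝ) / 2 ^ 48) ^ 2) - (4 - (4 - ((kbx p : ℝ) / 2 ^ 48) ^ 2)) *
        (4 - (4 - ((kbx q : ℝ) / 2 ^ 48) ^ 2)) + 76 / 2 ^ 48 <
      NN (4 - ((kbx p : ℝ) / 2 ^ 48) ^ 2) (4 - ((kbx q : ℝ) / 2 ^ 48) ^ 2)
        (4 - ((kbx r : ℝ) / 2 ^ 48) ^ 2) c2)
    (h : ∀ x0 : ℝ, |2 ^ 48 * x0 - X| ≤ n → Thr p q r x0 → fB p q r x0 = 0 →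
      QX p q r x0 ∧ QX q p r x0) : FinAt p q r := by
  have h0 := KW.of hp (hpq.trans (hqr.trans hr))
  have h1 := KW.of (hp.trans hpq) (hqr.trans hr)
  have h2 := KW.of (hp.trans (hpq.trans hqr)) hr
  have hK := pt_K h0 h1 h2
  have ha := pt_AG h0 h1 h2
  have hn := pt_N h0 h1 h2 c2
  have hb := pt_h h0 h1 h2 (hD.hc1.trans hD.hcc) hD.hc2
  rw [abs_le] at ha hn hb
  have hA : xA p q r < xBc (SS (Kp p) (Kp q) (Kp r)) (KK (Kp p) (Kp q) (Kp r)) c2 := by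
    refine lt_of_mul_lt_mul_left ?_ hK.le
    linarith [ha.2, hn.1]
  refine fin_pt hp hpq hqr hr hD hX (Or.inr ?_) (fun x0 k k2 hT => h x0 k hT ?_)
  · have e : fB p q r (xBc (SS (Kp p) (Kp q) (Kp r)) (KK (Kp p) (Kp q) (Kp r)) c2) =
        hB (SS (Kp p) (Kp q) (Kp r)) (KK (Kp p) (Kp q) (Kp r)) c2 *
          (hB (SS (Kp p) (Kp q) (Kp r)) (KK (Kp p) (Kp q) (Kp r)) c2 - 4 * (2 * c2 + 1) ^ 3) := by
      rw [fB_eq]
      exact fBx_xBc hK.ne'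
    rw [e]
    exact mul_neg_of_pos_of_neg (by linarith [hb.1]) (by linarith [hb.2])
  · obtain ⟨j1, j2⟩ := xA_max' (by omega : 3 ≤ p) hpq hqr
    rcases hT.eq with e | e | e | e
    · exact absurd e (by intro e; rw [e] at k2; linarith)
    · exact absurd e (by intro e; rw [e] at k2; linarith)
    · exact absurd e (by intro e; rw [e] at k2; linarith)
    · exact e

end Pool.Agent.Helper81.MIT
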