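import Pool.Agent.Helper81.MIT.Box

/-!
The thresholds of the classes with orders `≥ 10` lie to the left of `-1.85`.
-/

set_option autoImplicit false
noncomputable section
namespace Pool.Agent.Helper81.MIT

open Pool.Agent.Helper6.MONO (kk mm Kp xA kb Kp_mono thr_Kp2 fB fBx fB_eq)

/-- the discriminant as a difference -/
theorem fBx_sq (S K x : ℝ) : fBx S K x =
    (K ^ 2 - S ^ 2 + 3 * S - 9 - (S - 6) * (3 - 2 * S - K * x)) ^ 2 -
      4 * (3 - 2 * S - K * x) ^ 3 := by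
  unfold fBx
  ring

/-- positivity in terms of `e = 4 - κ²` -/
theorem fBx_pos {e f g K x : ℝ} (he : 0 ≤ e) (he' : e ≤ 191 / 500) (hf : 0 ≤ f)
    (hf' : f ≤ 191 / 500) (hg : 0 ≤ g) (hg' : g ≤ 191 / 500) (hK : 0 < K)
    (hQ : K ^ 2 = (4 - e) * (4 - f) * (4 - g)) (hx : -(37 / 20) ≤ x) :
    0 < fBx (9 - (e + f + g)) K x := by
  rw [fBx_sq]
  set S := 9 - (e + f + g) with hS
  set σ := 3 - 2 * S - K * x with hσ
  set E1 := e + f + g with hE1
  -- products
  have p1 : 0 ≤ e * f := mul_nonneg he hf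
  have p2 : 0 ≤ f * g := mul_nonneg hf hg
  have p3 : 0 ≤ g * e := mul_nonneg hg he
  have p4 : 0 ≤ e * f * g := mul_nonneg p1 hg
  have r1 : e * f * g ≤ e * f * (191 / 500) := mul_le_mul_of_nonneg_left hg' p1
  have r2 : f * g * e ≤ f * g * (191 / 500) := mul_le_mul_of_nonneg_left he' p2
  have r3 : g * e * f ≤ g * e * (191 / 500) := mul_le_mul_of_nonneg_left hf' p3
  have t2 : f * g * e = e * f * g := by ring
  have t3 : g * e * f = e * f * g := by ring
  have s1 : e * e ≤ e * (191 / 500) := mul_le_mul_of_nonneg_left he' he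
  have s2 : f * f ≤ f * (191 / 500) := mul_le_mul_of_nonneg_left hf' hf
  have s3 : g * g ≤ g * (191 / 500) := mul_le_mul_of_nonneg_left hg' hg
  have q1 : e * f ≤ e * (191 / 500) := mul_le_mul_of_nonneg_left hf' he
  have q2 : f * g ≤ f * (191 / 500) := mul_le_mul_of_nonneg_left hg' hf
  have q3 : g * e ≤ g * (191 / 500) := mul_le_mul_of_nonneg_left he' hg
  -- the constant term
  have hA : K ^ 2 - S ^ 2 + 3 * S - 9 = 1 - E1 + 4 * (e * f + f * g + g * e) - e * f * g -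
      (e * e + f * f + g * g + 2 * (e * f + f * g + g * e)) := by
    rw [hQ, hS, hE1]
    ring
  have hApos : 0 < K ^ 2 - S ^ 2 + 3 * S - 9 := by
    rw [hA, hE1]
    have m1 := mul_nonneg (sub_nonneg.2 he') (sub_nonneg.2 hf')
    have m2 := mul_nonneg (sub_nonneg.2 hf') (sub_nonneg.2 hg')
    have m3 := mul_nonneg (sub_nonneg.2 hg') (sub_nonneg.2 he')
    have n1 : (191 / 500 - e) * (191 / 500 - f) = 36481 / 250000 - 191 / 500 * e -
        191 / 500 * f + e * f := by ring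
    have n2 : (191 / 500 - f) * (191 / 500 - g) = 36481 / 250000 - 191 / 500 * f -
        191 / 500 * g + f * g := by ring
    have n3 : (191 / 500 - g) * (191 / 500 - e) = 36481 / 250000 - 191 / 500 * g -
        191 / 500 * e + g * e := by ring
    linarith
  rcases le_or_gt σ 0 with h0 | h0
  · have g1 : 0 ≤ -σ ^ 3 := by
      have : -σ ^ 3 = (-σ) ^ 3 := by ring
      rw [this]
      exact pow_nonneg (by linarith) 3
    have g2 : 0 < K ^ 2 - S ^ 2 + 3 * S - 9 - (S - 6) * σ := by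
      have h6 : 0 ≤ S - 6 := by
        rw [hS, hE1]
        linarith
      have : (S - 6) * σ ≤ 0 := mul_nonpos_of_nonneg_of_nonpos h6 h0
      linarith
    have g3 := pow_pos g2 2
    linarith
  · -- the bound of `K`
    have hK2 : K ≤ (K ^ 2 + 49) / 14 := by
      have h := sq_nonneg (K - 7)
      have e1 : (K - 7) ^ 2 = K ^ 2 - 14 * K + 49 := by ring
      linarith
    have hQ2 : K ^ 2 = 64 - 16 * E1 + 4 * (e * f + f * g + g * e) - e * f * g := by
      rw [hQ, hE1]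
      ring
    have hKx : -(K * x) ≤ 37 / 20 * K := by
      have h := mul_nonneg hK.le (by linarith : (0 : ℝ) ≤ x + 37 / 20)
      have e1 : K * (x + 37 / 20) = K * x + 37 / 20 * K := by ring
      linarith
    have hσ1 : σ ≤ -15 + 2 * E1 + 37 / 20 * ((K ^ 2 + 49) / 14) := by
      rw [hσ, hS]
      linarith
    rw [hQ2] at hσ1
    have hσ2 : σ ≤ 361 / 10000 := by
      rw [hE1] at hσ1
      linarith
    have h6 : S - 6 ≤ 3 := by
      rw [hS, hE1]
      linarith
    have g1 : (S - 6) * σ ≤ 3 * σ := mul_le_mul_of_nonneg_right h6 h0.le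
    have g2 : 38 / 100 * σ < K ^ 2 - S ^ 2 + 3 * S - 9 - (S - 6) * σ := by
      have : 338 / 100 * σ < K ^ 2 - S ^ 2 + 3 * S - 9 := by
        rw [hA]
        rw [hE1] at hσ1 ⊢
        linarith
      linarith
    have g3 : (38 / 100 * σ) ^ 2 < (K ^ 2 - S ^ 2 + 3 * S - 9 - (S - 6) * σ) ^ 2 :=
      pow_lt_pow_left₀ g2 (by positivity) (by norm_num)
    have g4 : 4 * σ ^ 3 ≤ (38 / 100 * σ) ^ 2 := by
      have e1 : 4 * σ ^ 3 = 4 * (σ * σ ^ 2) := by ring
      have e2 : (38 / 100 * σ) ^ 2 = 4 * (361 / 10000 * σ ^ 2) := by ring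
      rw [e1, e2]
      have h2 := mul_le_mul_of_nonneg_right hσ2 (sq_nonneg σ)
      linarith
    linarith

/-- positivity of `fB` for orders `≥ 10` to the right of `-1.85` -/
theorem fB_pos {p q r : ℕ} (hp : 10 ≤ p) (hq : 10 ≤ q) (hr : 10 ≤ r) {x : ℝ}
    (hx : -(37 / 20) ≤ x) : 0 < fB p q r x := by
  have key : ∀ M : ℕ, 10 ≤ M → 0 ≤ 4 - Kp M ^ 2 ∧ 4 - Kp M ^ 2 ≤ 191 / 500 ∧ 0 < Kp M := by
    intro M hM
    have h1 := Kp_lo hM
    have h2 := (thr_Kp2 M (by omega)).2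
    have h3 : (1.902112 : ℝ) ≤ Kp M := by
      have : (535397221549391 : ℝ) / 2 ^ 48 ≤ Kp M := by
        rw [div_le_iff₀ (by positivity)]
        linarith
      exact le_trans (by norm_num) this
    refine ⟨by nlinarith, by nlinarith, by linarith⟩
  obtain ⟨a1, a2, a3⟩ := key p hp
  obtain ⟨b1, b2, b3⟩ := key q hq
  obtain ⟨c1, c2, c3⟩ := key r hr
  have h := fBx_pos a1 a2 b1 b2 c1 c2 (K := Kp p * Kp q * Kp r) (by positivity) (by ring) hx
  rw [fB_eq]
  have e : Kp p ^ 2 + Kp q ^ 2 + Kp r ^ 2 - 3 =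
      9 - ((4 - Kp p ^ 2) + (4 - Kp q ^ 2) + (4 - Kp r ^ 2)) := by ring
  rw [e]
  exact h

end Pool.Agent.Helper81.MIT
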