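import Pool.Agent.Helper30.W2.Tt
import Pool.Agent.Helper81.MIT.Fin2

/-!
THE FINAL STATEMENT, FORM 7: per smallest order `p`: the windows of its tasks, the quarters of its
tasks (star shaped regions allowed), the exceptional orders; the arcs of one tail (star shaped
regions allowed); the ladder `p ≤ P`.
-/

set_option autoImplicit false
noncomputable section
namespace Pool.Agent.Helper81.MIT

open Pool.Agent.Helper6.MONO (xA xA_gt xA_le2 fB FinAt ST_FIN finW finWC)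
open Pool.Agent.Helper6.MONO.QTR (QX)
open Pool.Agent.Helper6.MONO.W2 (Win)
open Pool.Agent.Helper84.ST (QXS qxS_of)
open Pool.Agent.Helper30.W2
open Pool.Agent.Helper91.BX (QB)

/-- the two quarters of all orders of the tasks of `p` -/
def H3S (p : ℕ) : Prop := ∀ t ∈ Tt p, ∀ q r : ℕ, inT t q r = true → q ≤ r →
  QXS p q r (Lx t.l p q r) ∧ QXS p r q (Lx t.l p q r)

theorem H3S.of {p : ℕ} (h : ∀ t ∈ Tt p, ∀ q r : ℕ, inT t q r = true → q ≤ r →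
    QX p q r (Lx t.l p q r) ∧ QX p r q (Lx t.l p q r)) : H3S p :=
  fun t ht q r hi hqr => ⟨qxS_of (h t ht q r hi hqr).1, qxS_of (h t ht q r hi hqr).2⟩

/-- the windows of the tasks of `p` -/
def HWS (p : ℕ) : Prop := (p ≤ 9 → ClT QT p (Tt p)) ∧ (10 ≤ p → ClT (QB p) p (Tt p))

/-- the exceptional orders of `p` -/
def HDS (p : ℕ) : Prop := ∀ q r : ℕ, 10 ≤ q → p ≤ q → q ≤ r → DX p q r → FinAt p q r

/-- **THE CLASS `p`**: the final statement for all orders `q, r ≥ 10` -/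
theorem fin_p {p : ℕ} (hp : 3 ≤ p) (hp13 : p ≤ 13) (hW : HWS p) (H3 : H3S p) (HD : HDS p) :
    ∀ q r : ℕ, 10 ≤ q → p ≤ q → q ≤ r → FinAt p q r := by
  intro q r hq hpq hqr
  by_cases hD : DX p q r
  · exact HD q r hq hpq hqr hD
  · have hx : xA p q r ≤ Xl (Tt p) p q r ∧ Xl (Tt p) p q r ≤ 2 ∧ WinAt p q r (Xl (Tt p) p q r) := by
      rcases Nat.lt_or_ge p 10 with h | h
      · have w := Xl_win (hW.1 (by omega)) hp hpq hqr
        refine ⟨w.1, w.2.1, fun _ => ?_, fun h' => absurd h' (by omega)⟩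
        exact w.2.2 (xA p q r) le_rfl w.1 (fun _ _ _ => trivial)
      · have w := Xl_win (hW.2 h) hp hpq hqr
        refine ⟨w.1, w.2.1, fun h' => absurd h' (by omega), fun _ x0 hx hxm hQ => ?_⟩
        exact w.2.2 x0 hx hxm (fun x h1 h2 => hQ x h1 h2.le)
    have h3 : QXS p q r (Xl (Tt p) p q r) ∧ QXS p r q (Xl (Tt p) p q r) := by
      refine Xl_ind (P := fun x => QXS p q r x ∧ QXS p r q x) ?_ ?_
      · intro h0
        obtain ⟨t, ht, hi⟩ := Tt_all hp hp13 hq hpq hqr hD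
        rw [h0 t ht] at hi
        exact absurd hi (by decide)
      · exact fun t ht hi => H3 t ht q r hi hqr
    exact fin_lineS hp hq hpq hqr hx.1 hx.2.1 h3.1 h3.2 hx.2.2

theorem inT_b {q0 q1 r0 r1 q r : ℕ} {l : Ln} (h : inT ⟨q0, q1, r0, r1, l⟩ q r = true) :
    (q0 ≤ q ∧ (q1 = 0 ∨ q ≤ q1)) ∧ (r0 ≤ r ∧ (r1 = 0 ∨ r ≤ r1)) := by
  unfold inT at h
  simp only [Bool.and_eq_true] at h
  exact ⟨inR_t h.1, inR_t h.2⟩

/-- no exceptional orders for `p ≤ 8` -/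
theorem hds8 {p : ℕ} (hp : 3 ≤ p) (hp8 : p ≤ 8) : HDS p := by
  intro q r _ _ _ h
  obtain ⟨t, ht, -⟩ := h
  interval_cases p <;> exact absurd ht List.not_mem_nil

/-- **ONE TAIL** -/
theorem fin_T7 {P : ℕ} (H2 : ∀ a b : ℕ, 3 ≤ a → a ≤ 9 → 3 ≤ b → b ≤ 9 → (a ≤ P ∨ b ≤ P) →
    ∀ r, 10 ≤ r → QXS a b r (xA a b r)) :
    ∀ p q r : ℕ, 3 ≤ p → p ≤ P → p ≤ q → q ≤ 9 → 10 ≤ r → FinAt p q r := by
  intro p q r hp hP hpq hq hr
  exact fin_xAS hp hpq (by omega) hr (H2 p q hp (by omega) (by omega) hq (Or.inl hP) r hr)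
    (H2 q p (by omega) hq hp (by omega) (Or.inr hP) r hr)

/-- **THE LADDER**: the smallest order at most `P` -/
theorem fin_le7 {P : ℕ} (hP : P ≤ 13)
    (H1 : ∀ p q r : ℕ, 3 ≤ p → p ≤ q → q ≤ r → r ≤ 9 → ¬ (p = 3 ∧ q = 3 ∧ r = 3) → FinAt p q r)
    (H2 : ∀ a b : ℕ, 3 ≤ a → a ≤ 9 → 3 ≤ b → b ≤ 9 → (a ≤ P ∨ b ≤ P) →
      ∀ r, 10 ≤ r → QXS a b r (xA a b r))
    (H3 : ∀ p : ℕ, 3 ≤ p → p ≤ P → ∀ q r : ℕ, 10 ≤ q → p ≤ q → q ≤ r → FinAt p q r) :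
    ∀ p q r : ℕ, 3 ≤ p → p ≤ q → q ≤ r → p ≤ P → ¬ (p = 3 ∧ q = 3 ∧ r = 3) → FinAt p q r := by
  intro p q r h3 hpq hqr hp hne
  rcases Nat.lt_or_ge 9 r with h9 | h9
  · rcases Nat.lt_or_ge 9 q with hq | hq
    · exact H3 p h3 hp q r hq hpq hqr
    · exact fin_T7 H2 p q r h3 hp hpq hq (by omega)
  · exact H1 p q r h3 hpq hqr h9 hne

/-- **THE FINAL STATEMENT, FORM 7** -/
theorem top7
    (H1 : ∀ p q r : ℕ, 3 ≤ p → p ≤ q → q ≤ r → r ≤ 9 → ¬ (p = 3 ∧ q = 3 ∧ r = 3) → FinAt p q r)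
    (H2 : ∀ a b : ℕ, 3 ≤ a → a ≤ 9 → 3 ≤ b → b ≤ 9 → ∀ r, 10 ≤ r → QXS a b r (xA a b r))
    (H3 : ∀ p : ℕ, 3 ≤ p → p ≤ 13 → ∀ q r : ℕ, 10 ≤ q → p ≤ q → q ≤ r → FinAt p q r)
    (H4 : ∀ p q r : ℕ, 14 ≤ p → p ≤ q → q ≤ r → FinAt p q r) : ST_FIN := by
  refine top_tails5 H1 ?_ ?_ H4
  · intro p q r hp hpq hq hr
    exact fin_T7 (P := 9) (fun a b h1 h2 h3 h4 _ => H2 a b h1 h2 h3 h4) p q r hp (by omega) hpq hq
      hr
  · exact fun p q r hp hp13 hq hpq hqr => H3 p hp hp13 q r hq hpq hqr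

end Pool.Agent.Helper81.MIT
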