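import Pool.Agent.Helper81.MIT.Tri
import Pool.Agent.Helper12.CW.WB0

/-!
The assembly of the classes with tails: lines `Re x = m p` for two tails.
-/

set_option autoImplicit false
set_option exponentiation.threshold 4000
noncomputable section
namespace Pool.Agent.Helper81.MIT

open Pool.Agent.Helper6.MONO (kk mm Kp xA kb kap_enc Kp_mono thr_Kp2 FinAt finA finW finWC top_split
  ST_FIN fB)
open Pool.Agent.Helper6.MONO.QTR (TCell Far QX)
open Pool.Agent.Helper6.MONO.W2 (Win)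
open Pool.Agent.Helper21.XB (xBp)

/-! ### `xA` below the lines -/

/-- a bound of `xA`: `u` below the weights of `p`, `w` below the weights of `q` and `r` -/
theorem xA_le_of {p q r : ℕ} {u w n : ℝ} (hp : 3 ≤ p) (hq : 3 ≤ q) (hr : 3 ≤ r) (hu : 0 < u)
    (hw : 0 < w) (hn : 0 ≤ n) (hu' : u ≤ Kp p) (hwq : w ≤ Kp q) (hwr : w ≤ Kp r)
    (h1 : n ≤ u * w)
    (h2 : (n * u * w ≤ 2 * w ∧ 4 - w ^ 2 + n * u * w * w - u ^ 2 * w ^ 2 ≤ 0) ∨
      (4 ≤ n * u * w ∧ 2 * (n * u * w) ≤ u ^ 2 * w ^ 2)) : xA p q r ≤ -n := by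
  have r2 := (thr_Kp2 r hr).2
  rw [Pool.Agent.Helper6.MONO.xA_eq]
  have kp : 0 < Kp p := by linarith
  have kq : 0 < Kp q := by linarith
  have kr : 0 < Kp r := by linarith
  rw [div_le_iff₀ (by positivity)]
  -- the product of the first two weights
  have hs : u * w ≤ Kp p * Kp q := mul_le_mul hu' hwq hw.le kp.le
  set s := Kp p * Kp q with hs'
  set t := u * w with ht'
  set k := Kp r with hk'
  have ht : 0 < t := mul_pos hu hw
  have e : Kp p ^ 2 * Kp q ^ 2 = s ^ 2 := by rw [hs']; ring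
  rw [e]
  -- monotone in `s`
  have m1 : n * k ≤ s + t := by nlinarith
  have m2 : -(s ^ 2) + n * s * k ≤ -(t ^ 2) + n * t * k := by nlinarith
  have m3 : 4 - k ^ 2 + n * t * k - t ^ 2 ≤ 0 := by
    rcases h2 with ⟨g1, g2⟩ | ⟨g1, g2⟩
    · have a1 : n * t ≤ 2 * w := by nlinarith
      have a2 : 4 - w ^ 2 + n * t * w - t ^ 2 ≤ 0 := by nlinarith
      nlinarith
    · have a1 : 4 ≤ n * t := by nlinarith
      have a2 : 2 * (n * t) ≤ t ^ 2 := by nlinarith
      nlinarith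
  linarith

/-- the lines of the classes with two tails, upper bound of the numbers (in units `2 ^ (-48)`) -/
def Nx : ℕ → ℕ
  | 3 => 250512729272483
  | 4 => 374361719025172
  | 5 => 430656714367303
  | 6 => 461618961805475
  | 7 => 478507460408115
  | 8 => 492581209243648
  | 9 => 501025458544967
  | 10 => 506654958079180
  | 11 => 515099207380500
  | _ => 520728706914713

theorem Kp_low {N M : ℕ} (h3 : 3 ≤ N) (h15 : N ≤ 15) (hM : N ≤ M) {u : ℝ}
    (hu : u ≤ ((kbx N : ℝ) - 1) / 2 ^ 48) : u ≤ Kp M := by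
  have h1 := kapx N h3 h15
  have h2 := Kp_mono (M := N) (N := M) h3 hM
  rw [abs_le] at h1
  have h4 := h1.1
  rw [sub_div] at hu
  linarith

/-- the line is to the right of `xA` -/
theorem xA_line {p q r : ℕ} (hp : 3 ≤ p) (hp15 : p ≤ 15) (hq : 10 ≤ q) (hpq : p ≤ q) (hqr : q ≤ r) :
    xA p q r ≤ -((Nx p : ℕ) : ℝ) / 2 ^ 48 := by
  have key : ∀ (N : ℕ) (u w : ℝ), 3 ≤ N → N ≤ 15 → N ≤ p → 0 < u → 0 < w →
      u ≤ ((kbx N : ℝ) - 1) / 2 ^ 48 → (∃ N', 10 ≤ N' ∧ N' ≤ 15 ∧ N' ≤ q ∧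
        w ≤ ((kbx N' : ℝ) - 1) / 2 ^ 48) → ((Nx p : ℕ) : ℝ) / 2 ^ 48 ≤ u * w →
      ((((Nx p : ℕ) : ℝ) / 2 ^ 48 * u * w ≤ 2 * w ∧
        4 - w ^ 2 + ((Nx p : ℕ) : ℝ) / 2 ^ 48 * u * w * w - u ^ 2 * w ^ 2 ≤ 0) ∨
      (4 ≤ ((Nx p : ℕ) : ℝ) / 2 ^ 48 * u * w ∧
        2 * (((Nx p : ℕ) : ℝ) / 2 ^ 48 * u * w) ≤ u ^ 2 * w ^ 2)) →
      xA p q r ≤ -((Nx p : ℕ) : ℝ) / 2 ^ 48 := by
    intro N u w n3 n12 nN hu hw hu' ⟨N', m10, m12, mq, hw'⟩ h1 h2
    rw [neg_div]
    exact xA_le_of hp (by omega) (by omega) hu hw (by positivity) (Kp_low n3 n12 nN hu')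
      (Kp_low (by omega) m12 mq hw') (Kp_low (by omega) m12 (by omega) hw') h1 h2
  interval_cases p
  · exact key 3 (9999 / 10000) (19021 / 10000) (by norm_num) (by norm_num) (by norm_num) (by norm_num)
      (by norm_num) (by norm_num [kbx, kb]) ⟨10, by norm_num, by norm_num, by omega,
        by norm_num [kbx, kb]⟩ (by norm_num [Nx]) (Or.inl ⟨by norm_num [Nx], by norm_num [Nx]⟩)
  · exact key 4 (14142 / 10000) (19021 / 10000) (by norm_num) (by norm_num) (by norm_num) (by norm_num)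
      (by norm_num) (by norm_num [kbx, kb]) ⟨10, by norm_num, by norm_num, by omega,
        by norm_num [kbx, kb]⟩ (by norm_num [Nx]) (Or.inl ⟨by norm_num [Nx], by norm_num [Nx]⟩)
  · exact key 5 (16180 / 10000) (19021 / 10000) (by norm_num) (by norm_num) (by norm_num) (by norm_num)
      (by norm_num) (by norm_num [kbx, kb]) ⟨10, by norm_num, by norm_num, by omega,
        by norm_num [kbx, kb]⟩ (by norm_num [Nx]) (Or.inr ⟨by norm_num [Nx], by norm_num [Nx]⟩)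
  · exact key 6 (17320 / 10000) (19021 / 10000) (by norm_num) (by norm_num) (by norm_num) (by norm_num)
      (by norm_num) (by norm_num [kbx, kb]) ⟨10, by norm_num, by norm_num, by omega,
        by norm_num [kbx, kb]⟩ (by norm_num [Nx]) (Or.inr ⟨by norm_num [Nx], by norm_num [Nx]⟩)
  · exact key 7 (18019 / 10000) (19021 / 10000) (by norm_num) (by norm_num) (by norm_num) (by norm_num)
      (by norm_num) (by norm_num [kbx, kb]) ⟨10, by norm_num, by norm_num, by omega,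
        by norm_num [kbx, kb]⟩ (by norm_num [Nx]) (Or.inr ⟨by norm_num [Nx], by norm_num [Nx]⟩)
  · exact key 8 (18477 / 10000) (19021 / 10000) (by norm_num) (by norm_num) (by norm_num) (by norm_num)
      (by norm_num) (by norm_num [kbx, kb]) ⟨10, by norm_num, by norm_num, by omega,
        by norm_num [kbx, kb]⟩ (by norm_num [Nx]) (Or.inr ⟨by norm_num [Nx], by norm_num [Nx]⟩)
  · exact key 9 (18793 / 10000) (19021 / 10000) (by norm_num) (by norm_num) (by norm_num) (by norm_num)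
      (by norm_num) (by norm_num [kbx, kb]) ⟨10, by norm_num, by norm_num, by omega,
        by norm_num [kbx, kb]⟩ (by norm_num [Nx]) (Or.inr ⟨by norm_num [Nx], by norm_num [Nx]⟩)
  · exact key 10 (19021 / 10000) (19021 / 10000) (by norm_num) (by norm_num) (by norm_num) (by norm_num)
      (by norm_num) (by norm_num [kbx, kb]) ⟨10, by norm_num, by norm_num, by omega,
        by norm_num [kbx, kb]⟩ (by norm_num [Nx]) (Or.inr ⟨by norm_num [Nx], by norm_num [Nx]⟩)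
  · exact key 11 (19189 / 10000) (19189 / 10000) (by norm_num) (by norm_num) (by norm_num) (by norm_num)
      (by norm_num) (by norm_num [kbx, kb]) ⟨11, by norm_num, by norm_num, by omega,
        by norm_num [kbx, kb]⟩ (by norm_num [Nx]) (Or.inr ⟨by norm_num [Nx], by norm_num [Nx]⟩)
  · exact key 12 (19318 / 10000) (19318 / 10000) (by norm_num) (by norm_num) (by norm_num) (by norm_num)
      (by norm_num) (by norm_num [kbx, kb]) ⟨12, by norm_num, by norm_num, by omega,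
        by norm_num [kbx, kb]⟩ (by norm_num [Nx]) (Or.inr ⟨by norm_num [Nx], by norm_num [Nx]⟩)
  · exact key 13 (19418 / 10000) (19418 / 10000) (by norm_num) (by norm_num) (by norm_num) (by norm_num)
      (by norm_num) (by norm_num [kbx, kb]) ⟨13, by norm_num, by norm_num, by omega,
        by norm_num [kbx, kb]⟩ (by norm_num [Nx]) (Or.inr ⟨by norm_num [Nx], by norm_num [Nx]⟩)
  · exact key 14 (19498 / 10000) (19498 / 10000) (by norm_num) (by norm_num) (by norm_num) (by norm_num)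
      (by norm_num) (by norm_num [kbx, kb]) ⟨14, by norm_num, by norm_num, by omega,
        by norm_num [kbx, kb]⟩ (by norm_num [Nx]) (Or.inr ⟨by norm_num [Nx], by norm_num [Nx]⟩)
  · exact key 15 (19562 / 10000) (19562 / 10000) (by norm_num) (by norm_num) (by norm_num) (by norm_num)
      (by norm_num) (by norm_num [kbx, kb]) ⟨15, by norm_num, by norm_num, by omega,
        by norm_num [kbx, kb]⟩ (by norm_num [Nx]) (Or.inr ⟨by norm_num [Nx], by norm_num [Nx]⟩)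

/-- THE FINAL STATEMENT: exact orders, one tail (line `xA`), two tails (lines `-mN p / 2 ^ 48`,
windows from `xA` for `p ≤ 9`, from the threshold for `10 ≤ p ≤ 15`), three tails (line `x_B`) -/
theorem top_tails {mN : ℕ → ℕ} (hN : ∀ p, 3 ≤ p → p ≤ 15 → mN p ≤ Nx p)
    (H1 : ∀ p q r : ℕ, 3 ≤ p → p ≤ q → q ≤ r → r ≤ 9 → ¬ (p = 3 ∧ q = 3 ∧ r = 3) → FinAt p q r)
    (H2 : ∀ a b : ℕ, 3 ≤ a → a ≤ 9 → 3 ≤ b → b ≤ 9 → ∀ r, 10 ≤ r → QX a b r (xA a b r))
    (H3 : ∀ p : ℕ, 3 ≤ p → p ≤ 15 → ∀ q r : ℕ, 10 ≤ q → 10 ≤ r → p ≤ q → p ≤ r →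
      QX p q r (-((mN p : ℕ) : ℝ) / 2 ^ 48))
    (HW : ∀ p : ℕ, 3 ≤ p → p ≤ 9 → ∀ q r : ℕ, 10 ≤ q → q ≤ r →
      Win p q r (xA p q r) (-((mN p : ℕ) : ℝ) / 2 ^ 48))
    (HB : ∀ p : ℕ, 10 ≤ p → p ≤ 15 → ∀ q r : ℕ, p ≤ q → q ≤ r → ∀ x0 : ℝ, xA p q r ≤ x0 →
      x0 ≤ -((mN p : ℕ) : ℝ) / 2 ^ 48 →
      (∀ x : ℝ, x0 < x → x ≤ -((mN p : ℕ) : ℝ) / 2 ^ 48 → 0 ≤ fB p q r x) →
      Win p q r x0 (-((mN p : ℕ) : ℝ) / 2 ^ 48))
    (H4 : ∀ p q r : ℕ, 16 ≤ p → 16 ≤ q → p ≤ r → q ≤ r → QX p q r (xBp p q r)) : ST_FIN := by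
  have two : ∀ p : ℕ, 3 ≤ p → p ≤ 15 → ∀ q r : ℕ, 10 ≤ q → p ≤ q → q ≤ r → FinAt p q r := by
    intro p hp hp15 q r hq hpq hqr
    have hm : -((Nx p : ℕ) : ℝ) / 2 ^ 48 ≤ -((mN p : ℕ) : ℝ) / 2 ^ 48 := by
      have : ((mN p : ℕ) : ℝ) ≤ ((Nx p : ℕ) : ℝ) := by exact_mod_cast hN p hp hp15
      exact div_le_div_of_nonneg_right (by linarith) (by positivity)
    have hm2 : -((mN p : ℕ) : ℝ) / 2 ^ 48 ≤ 2 := by
      have : (0 : ℝ) ≤ ((mN p : ℕ) : ℝ) / 2 ^ 48 := by positivity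
      rw [neg_div]
      linarith
    have g1 := H3 p hp hp15 q r hq (by omega) hpq (by omega)
    have g2 := (H3 p hp hp15 r q (by omega) hq (by omega) hpq).rot2
    rcases Nat.lt_or_ge p 10 with h | h
    · exact finW hp hpq hqr (fun h => by omega) ((xA_line hp hp15 hq hpq hqr).trans hm) hm2 g1 g2
        (HW p hp (by omega) q r hq hqr)
    · exact finWC hp hpq hqr (fun h => by omega) hm2 ((xA_line hp hp15 hq hpq hqr).trans hm) g1 g2
        (HB p h hp15 q r hpq hqr)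
  refine top_split H1 ?_ ?_ ?_
  · intro p q r hp hpq hq hr
    exact fin_T hp hpq hq (H2 p q hp (by omega) (by omega) hq)
      (H2 q p (by omega) hq hp (by omega)) r hr
  · intro p q r hp hp9 hq hqr
    exact two p hp (by omega) q r hq (by omega) hqr
  · intro p q r hp hpq hqr
    rcases Nat.lt_or_ge p 16 with h | h
    · exact two p (by omega) (by omega) q r (by omega) hpq hqr
    · exact fin_3 (by norm_num) H4 p q r h hpq hqr

end Pool.Agent.Helper81.MIT
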