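import Pool.Agent.Helper81.MIT.TopT

/-!
The assembly of the classes with tails, with a set `D` of triples treated apart.
-/

set_option autoImplicit false
set_option exponentiation.threshold 4000
noncomputable section
namespace Pool.Agent.Helper81.MIT

open Pool.Agent.Helper6.MONO (kk mm Kp xA FinAt finW finWC top_split ST_FIN fB)
open Pool.Agent.Helper6.MONO.QTR (QX)
open Pool.Agent.Helper6.MONO.W2 (Win)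
open Pool.Agent.Helper21.XB (xBp)

/-- TWO TAILS OR THREE, `p ≤ 15`: from the quarters on the line `-mN p / 2 ^ 48` and the windows -/
theorem two_of {mN : ℕ → ℕ} (hN : ∀ p, 3 ≤ p → p ≤ 15 → mN p ≤ Nx p)
    (H3 : ∀ p : ℕ, 3 ≤ p → p ≤ 15 → ∀ q r : ℕ, 10 ≤ q → 10 ≤ r → p ≤ q → p ≤ r →
      QX p q r (-((mN p : ℕ) : ℝ) / 2 ^ 48)) {p q r : ℕ} (hp : 3 ≤ p) (hp15 : p ≤ 15)
    (hq : 10 ≤ q) (hpq : p ≤ q) (hqr : q ≤ r)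
    (HW : p ≤ 9 → Win p q r (xA p q r) (-((mN p : ℕ) : ℝ) / 2 ^ 48))
    (HB : 10 ≤ p → ∀ x0 : ℝ, xA p q r ≤ x0 → x0 ≤ -((mN p : ℕ) : ℝ) / 2 ^ 48 →
      (∀ x : ℝ, x0 < x → x ≤ -((mN p : ℕ) : ℝ) / 2 ^ 48 → 0 ≤ fB p q r x) →
      Win p q r x0 (-((mN p : ℕ) : ℝ) / 2 ^ 48)) : FinAt p q r := by
  have hm : -((Nx p : ℕ) : ℝ) / 2 ^ 48 ≤ -((mN p : ℕ) : ℝ) / 2 ^ 48 := by
    have : ((mN p : ℕ) : ℝ) ≤ ((Nx p : ℕ) : ℝ) := by exact_mod_cast hN p hp hp15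
    exact div_le_div_of_nonneg_right (by linarith) (by positivity)
  have hm2 : -((mN p : ℕ) : ℝ) / 2 ^ 48 ≤ 2 := by
    have : (0 : ℝ) ≤ ((mN p : ℕ) : ℝ) / 2 ^ 48 := by positivity
    rw [neg_div]
    linarith
  have g1 := H3 p hp hp15 q r hq (by omega) hpq (by omega)
  have g2 := (H3 p hp hp15 r q (by omega) hq (by omega) hpq).rot2
  rcases Nat.lt_or_ge p 10 with h | h
  · exact finW hp hpq hqr (fun h => by omega) ((xA_line hp hp15 hq hpq hqr).trans hm) hm2 g1 g2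
      (HW (by omega))
  · exact finWC hp hpq hqr (fun h => by omega) hm2 ((xA_line hp hp15 hq hpq hqr).trans hm) g1 g2
      (HB h)

/-- THE FINAL STATEMENT with a set `D` of triples with `10 ≤ p ≤ 15` treated apart -/
theorem top_tails2 {mN : ℕ → ℕ} (hN : ∀ p, 3 ≤ p → p ≤ 15 → mN p ≤ Nx p)
    (D : ℕ → ℕ → ℕ → Prop)
    (H1 : ∀ p q r : ℕ, 3 ≤ p → p ≤ q → q ≤ r → r ≤ 9 → ¬ (p = 3 ∧ q = 3 ∧ r = 3) → FinAt p q r)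
    (H2 : ∀ a b : ℕ, 3 ≤ a → a ≤ 9 → 3 ≤ b → b ≤ 9 → ∀ r, 10 ≤ r → QX a b r (xA a b r))
    (H3 : ∀ p : ℕ, 3 ≤ p → p ≤ 15 → ∀ q r : ℕ, 10 ≤ q → 10 ≤ r → p ≤ q → p ≤ r →
      QX p q r (-((mN p : ℕ) : ℝ) / 2 ^ 48))
    (HW : ∀ p : ℕ, 3 ≤ p → p ≤ 9 → ∀ q r : ℕ, 10 ≤ q → q ≤ r →
      Win p q r (xA p q r) (-((mN p : ℕ) : ℝ) / 2 ^ 48))
    (HB : ∀ p : ℕ, 10 ≤ p → p ≤ 15 → ∀ q r : ℕ, p ≤ q → q ≤ r → ¬ D p q r →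
      ∀ x0 : ℝ, xA p q r ≤ x0 → x0 ≤ -((mN p : ℕ) : ℝ) / 2 ^ 48 →
      (∀ x : ℝ, x0 < x → x ≤ -((mN p : ℕ) : ℝ) / 2 ^ 48 → 0 ≤ fB p q r x) →
      Win p q r x0 (-((mN p : ℕ) : ℝ) / 2 ^ 48))
    (HD : ∀ p q r : ℕ, 10 ≤ p → p ≤ 15 → p ≤ q → q ≤ r → D p q r → FinAt p q r)
    (H4 : ∀ p q r : ℕ, 16 ≤ p → 16 ≤ q → p ≤ r → q ≤ r → QX p q r (xBp p q r)) : ST_FIN := by
  classical
  refine top_split H1 ?_ ?_ ?_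
  · intro p q r hp hpq hq hr
    exact fin_T hp hpq hq (H2 p q hp (by omega) (by omega) hq)
      (H2 q p (by omega) hq hp (by omega)) r hr
  · intro p q r hp hp9 hq hqr
    exact two_of hN H3 hp (by omega) hq (by omega) hqr (fun _ => HW p hp hp9 q r hq hqr)
      (fun h => absurd h (by omega))
  · intro p q r hp hpq hqr
    rcases Nat.lt_or_ge p 16 with h | h
    · by_cases hD : D p q r
      · exact HD p q r hp (by omega) hpq hqr hD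
      · exact two_of hN H3 (by omega) (by omega) (by omega) hpq hqr (fun h => absurd h (by omega))
          (fun _ => HB p hp (by omega) q r hpq hqr hD)
    · exact fin_3 (by norm_num) H4 p q r h hpq hqr

/-- the same with `D = {r ≤ R}` -/
theorem top_tails3 {mN : ℕ → ℕ} (hN : ∀ p, 3 ≤ p → p ≤ 15 → mN p ≤ Nx p) (R : ℕ)
    (H1 : ∀ p q r : ℕ, 3 ≤ p → p ≤ q → q ≤ r → r ≤ 9 → ¬ (p = 3 ∧ q = 3 ∧ r = 3) → FinAt p q r)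
    (H2 : ∀ a b : ℕ, 3 ≤ a → a ≤ 9 → 3 ≤ b → b ≤ 9 → ∀ r, 10 ≤ r → QX a b r (xA a b r))
    (H3 : ∀ p : ℕ, 3 ≤ p → p ≤ 15 → ∀ q r : ℕ, 10 ≤ q → 10 ≤ r → p ≤ q → p ≤ r →
      QX p q r (-((mN p : ℕ) : ℝ) / 2 ^ 48))
    (HW : ∀ p : ℕ, 3 ≤ p → p ≤ 9 → ∀ q r : ℕ, 10 ≤ q → q ≤ r →
      Win p q r (xA p q r) (-((mN p : ℕ) : ℝ) / 2 ^ 48))
    (HB : ∀ p : ℕ, 10 ≤ p → p ≤ 15 → ∀ q r : ℕ, p ≤ q → q ≤ r → R < r →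
      ∀ x0 : ℝ, xA p q r ≤ x0 → x0 ≤ -((mN p : ℕ) : ℝ) / 2 ^ 48 →
      (∀ x : ℝ, x0 < x → x ≤ -((mN p : ℕ) : ℝ) / 2 ^ 48 → 0 ≤ fB p q r x) →
      Win p q r x0 (-((mN p : ℕ) : ℝ) / 2 ^ 48))
    (HD : ∀ p q r : ℕ, 10 ≤ p → p ≤ 15 → p ≤ q → q ≤ r → r ≤ R → FinAt p q r)
    (H4 : ∀ p q r : ℕ, 16 ≤ p → 16 ≤ q → p ≤ r → q ≤ r → QX p q r (xBp p q r)) : ST_FIN :=
  top_tails2 hN (fun _ _ r => r ≤ R) H1 H2 H3 HW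
    (fun p h1 h2 q r h3 h4 h5 => HB p h1 h2 q r h3 h4 (by omega)) HD H4

end Pool.Agent.Helper81.MIT
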