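import Pool.Agent.Helper81.MIT.TopT2

/-!
The assembly of the classes with tails: lines depending on all three orders, three tails from
order 14 on, a list of triples treated apart.
-/

set_option autoImplicit false
set_option exponentiation.threshold 4000
noncomputable section
namespace Pool.Agent.Helper81.MIT

open Pool.Agent.Helper6.MONO (kk mm Kp xA FinAt finW finWC top_split ST_FIN fB)
open Pool.Agent.Helper6.MONO.QTR (QX)
open Pool.Agent.Helper6.MONO.W2 (Win)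
open Pool.Agent.Helper21.XB (xBp)

/-- the triples near the diagonal treated apart -/
def D0 : List (ℕ × ℕ × ℕ) := [(10, 10, 10), (10, 10, 11), (10, 11, 11), (11, 11, 11), (11, 11, 12),
  (11, 11, 13), (11, 12, 12), (12, 12, 12), (12, 12, 13), (12, 13, 13), (13, 13, 13), (13, 13, 14)]

/-- TWO TAILS OR THREE: any line `-m / 2 ^ 48` to the right of `xA` -/
theorem two_at {m p q r : ℕ} (hp : 3 ≤ p) (hp15 : p ≤ 15) (hq : 10 ≤ q) (hpq : p ≤ q)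
    (hqr : q ≤ r) (hA : xA p q r ≤ -(m : ℝ) / 2 ^ 48) (g1 : QX p q r (-(m : ℝ) / 2 ^ 48))
    (g2 : QX p r q (-(m : ℝ) / 2 ^ 48))
    (HW : p ≤ 9 → Win p q r (xA p q r) (-(m : ℝ) / 2 ^ 48))
    (HB : 10 ≤ p → ∀ x0 : ℝ, xA p q r ≤ x0 → x0 ≤ -(m : ℝ) / 2 ^ 48 →
      (∀ x : ℝ, x0 < x → x ≤ -(m : ℝ) / 2 ^ 48 → 0 ≤ fB p q r x) →
      Win p q r x0 (-(m : ℝ) / 2 ^ 48)) : FinAt p q r := by
  have hm2 : -(m : ℝ) / 2 ^ 48 ≤ 2 := by
    have : (0 : ℝ) ≤ (m : ℝ) / 2 ^ 48 := by positivity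
    rw [neg_div]
    linarith
  rcases Nat.lt_or_ge p 10 with h | h
  · exact finW hp hpq hqr (fun h => by omega) hA hm2 g1 g2.rot2 (HW (by omega))
  · exact finWC hp hpq hqr (fun h => by omega) hm2 hA g1 g2.rot2 (HB h)

/-- THE FINAL STATEMENT, FORM 4: lines `-m p q r / 2 ^ 48` for `p ≤ 13`, three tails from order
`14` on, the triples of `D` with `10 ≤ p ≤ 13` apart -/
theorem top_tails4 (m : ℕ → ℕ → ℕ → ℕ)
    (hm : ∀ p q r : ℕ, 3 ≤ p → p ≤ 13 → 10 ≤ q → p ≤ q → q ≤ r →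
      xA p q r ≤ -((m p q r : ℕ) : ℝ) / 2 ^ 48)
    (D : ℕ → ℕ → ℕ → Prop)
    (H1 : ∀ p q r : ℕ, 3 ≤ p → p ≤ q → q ≤ r → r ≤ 9 → ¬ (p = 3 ∧ q = 3 ∧ r = 3) → FinAt p q r)
    (H2 : ∀ a b : ℕ, 3 ≤ a → a ≤ 9 → 3 ≤ b → b ≤ 9 → ∀ r, 10 ≤ r → QX a b r (xA a b r))
    (H3 : ∀ p q r : ℕ, 3 ≤ p → p ≤ 13 → 10 ≤ q → p ≤ q → q ≤ r →
      QX p q r (-((m p q r : ℕ) : ℝ) / 2 ^ 48) ∧ QX p r q (-((m p q r : ℕ) : ℝ) / 2 ^ 48))
    (HW : ∀ p q r : ℕ, 3 ≤ p → p ≤ 9 → 10 ≤ q → q ≤ r →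
      Win p q r (xA p q r) (-((m p q r : ℕ) : ℝ) / 2 ^ 48))
    (HB : ∀ p q r : ℕ, 10 ≤ p → p ≤ 13 → p ≤ q → q ≤ r → ¬ D p q r →
      ∀ x0 : ℝ, xA p q r ≤ x0 → x0 ≤ -((m p q r : ℕ) : ℝ) / 2 ^ 48 →
      (∀ x : ℝ, x0 < x → x ≤ -((m p q r : ℕ) : ℝ) / 2 ^ 48 → 0 ≤ fB p q r x) →
      Win p q r x0 (-((m p q r : ℕ) : ℝ) / 2 ^ 48))
    (HD : ∀ p q r : ℕ, 10 ≤ p → p ≤ 13 → p ≤ q → q ≤ r → D p q r → FinAt p q r)
    (H4 : ∀ p q r : ℕ, 14 ≤ p → 14 ≤ q → p ≤ r → q ≤ r → QX p q r (xBp p q r)) : ST_FIN := by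
  classical
  refine top_split H1 ?_ ?_ ?_
  · intro p q r hp hpq hq hr
    exact fin_T hp hpq hq (H2 p q hp (by omega) (by omega) hq)
      (H2 q p (by omega) hq hp (by omega)) r hr
  · intro p q r hp hp9 hq hqr
    have h := H3 p q r hp (by omega) hq (by omega) hqr
    exact two_at hp (by omega) hq (by omega) hqr (hm p q r hp (by omega) hq (by omega) hqr) h.1 h.2
      (fun _ => HW p q r hp hp9 hq hqr) (fun h => absurd h (by omega))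
  · intro p q r hp hpq hqr
    rcases Nat.lt_or_ge p 14 with h | h
    · by_cases hD : D p q r
      · exact HD p q r hp (by omega) hpq hqr hD
      · have h3 := H3 p q r (by omega) (by omega) (by omega) hpq hqr
        exact two_at (by omega) (by omega) (by omega) hpq hqr
          (hm p q r (by omega) (by omega) (by omega) hpq hqr) h3.1 h3.2
          (fun h => absurd h (by omega)) (fun _ => HB p q r hp (by omega) hpq hqr hD)
    · exact fin_3 (by norm_num) H4 p q r h hpq hqr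

/-! ### lines depending on the boxes of the second and third order -/

/-- `0` for orders up to `14`, `1` above -/
def bx (M : ℕ) : ℕ := if M < 15 then 0 else 1

theorem bx_lo {M : ℕ} (h : M < 15) : bx M = 0 := if_pos h
theorem bx_hi {M : ℕ} (h : 15 ≤ M) : bx M = 1 := if_neg (by omega)

/-- `xA` below a line, orders in the boxes: `u` below the weight of `p`, `w` below the weight of
the orders `≥ N'` -/
theorem xA_lineN {p q r N' n : ℕ} {u w : ℝ} (hp : 3 ≤ p) (hp15 : p ≤ 15) (hN : 10 ≤ N')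
    (hN' : N' ≤ 15) (hq : N' ≤ q) (hr : N' ≤ r) (hu : 0 < u) (hw : 0 < w)
    (hu' : u ≤ ((kbx p : ℝ) - 1) / 2 ^ 48) (hw' : w ≤ ((kbx N' : ℝ) - 1) / 2 ^ 48)
    (h1 : (n : ℝ) / 2 ^ 48 ≤ u * w)
    (h2 : ((n : ℝ) / 2 ^ 48 * u * w ≤ 2 * w ∧
        4 - w ^ 2 + (n : ℝ) / 2 ^ 48 * u * w * w - u ^ 2 * w ^ 2 ≤ 0) ∨
      (4 ≤ (n : ℝ) / 2 ^ 48 * u * w ∧ 2 * ((n : ℝ) / 2 ^ 48 * u * w) ≤ u ^ 2 * w ^ 2)) :
    xA p q r ≤ -(n : ℝ) / 2 ^ 48 := by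
  rw [neg_div]
  exact xA_le_of hp (by omega) (by omega) hu hw (by positivity) (Kp_low hp hp15 le_rfl hu')
    (Kp_low (by omega) hN' hq hw') (Kp_low (by omega) hN' hr hw') h1 h2

end Pool.Agent.Helper81.MIT
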