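import Pool.Agent.Helper81.MIT.PtD0
import Pool.Agent.Helper84.UC.P

/-!
The assembly of the classes with tails: the final statement of a triple from a line with any real
abscissa (quarters of both kinds), or from the exact line.
-/

set_option autoImplicit false
set_option exponentiation.threshold 4000
noncomputable section
namespace Pool.Agent.Helper81.MIT

open Pool.Agent.Helper6.MONO (kk mm Kp xA xA_gt xA_swap FinAt finW finWC finAt_nc top_split ST_FIN fB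
  fBx Thr)
open Pool.Agent.Helper6.MONO.QTR (QX)
open Pool.Agent.Helper6.MONO.W2 (Win nc_all')
open Pool.Agent.Helper84.ST
open Pool.Agent.Helper84.UC (finWS finAS)

/-- plan W with `fB ≥ 0` on the window, star shaped quarters -/
theorem finWCS {p q r : ℕ} (hp : 3 ≤ p) (hpq : p ≤ q) (hqr : q ≤ r)
    (hne : ¬ (p = 3 ∧ q = 3 ∧ r = 3)) {m : ℝ} (hm2 : m ≤ 2) (hmA : xA p q r ≤ m)
    (h1 : QXS p q r m) (h2 : QXS q p r m)
    (hW : ∀ x0 : ℝ, xA p q r ≤ x0 → x0 ≤ m → (∀ x : ℝ, x0 < x → x ≤ m → 0 ≤ fB p q r x) →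
      Win p q r x0 m) : FinAt p q r := by
  have hq : 3 ≤ q := hp.trans hpq
  have hr : 3 ≤ r := hq.trans hqr
  have hgt := xA_gt hp hq hqr
  set T : Set ℝ := {x : ℝ | x ≤ m ∧ (x < xA p q r ∨ fB p q r x < 0)} with hT
  have hbd : BddAbove T := ⟨m, fun x hx => hx.1⟩
  have hTA : ∀ x : ℝ, x < xA p q r → x ∈ T := fun x hx => ⟨hx.le.trans hmA, Or.inl hx⟩
  have hne0 : T.Nonempty := ⟨xA p q r - 1, hTA _ (by linarith)⟩
  set x0 : ℝ := sSup T with hx0
  have hxA0 : xA p q r ≤ x0 := by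
    by_contra hc
    push Not at hc
    have := le_csSup hbd (hTA ((x0 + xA p q r) / 2) (by linarith))
    linarith
  have hxm : x0 ≤ m := csSup_le hne0 (fun x hx => hx.1)
  refine finAt_nc p q r hp hq hr x0 (fun x1 hx1 => ?_) (fun z z' hz hz' hx hzz => ?_)
  · obtain ⟨x, hx, hx'⟩ := exists_lt_of_lt_csSup hne0 hx1
    exact ⟨x, hx'.le, le_csSup hbd hx, hx.1.trans hm2, hx.2⟩
  · refine nc_all' hp hq hr (by linarith) hxm hm2 (zf_of_qxS hp hpq hqr hne (by linarith) hmA h1 h2)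
      (hW x0 hxA0 hxm (fun x hx hxm' => ?_)) hz hz' hx hzz
    by_contra hc
    push Not at hc
    have := le_csSup hbd (show x ∈ T from ⟨hxm', Or.inr hc⟩)
    linarith

section
variable {p q r : ℕ} {l : ℝ}

/-- the window of a line: exact threshold for small `p`, the last bad point for `p ≥ 10` -/
def WinAt (p q r : ℕ) (l : ℝ) : Prop :=
  (p ≤ 9 → Win p q r (xA p q r) l) ∧ (10 ≤ p → ∀ x0 : ℝ, xA p q r ≤ x0 → x0 ≤ l →
    (∀ x : ℝ, x0 < x → x ≤ l → 0 ≤ fB p q r x) → Win p q r x0 l)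

/-- TWO TAILS OR THREE: any line to the right of `xA` -/
theorem fin_line (hp : 3 ≤ p) (hq : 10 ≤ q) (hpq : p ≤ q) (hqr : q ≤ r) (hA : xA p q r ≤ l)
    (hl : l ≤ 2) (g1 : QX p q r l) (g2 : QX p r q l) (hW : WinAt p q r l) : FinAt p q r := by
  rcases Nat.lt_or_ge p 10 with h | h
  · exact finW hp hpq hqr (fun h => by omega) hA hl g1 g2.rot2 (hW.1 (by omega))
  · exact finWC hp hpq hqr (fun h => by omega) hl hA g1 g2.rot2 (hW.2 h)

/-- the same with star shaped quarters -/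
theorem fin_lineS (hp : 3 ≤ p) (hq : 10 ≤ q) (hpq : p ≤ q) (hqr : q ≤ r) (hA : xA p q r ≤ l)
    (hl : l ≤ 2) (g1 : QXS p q r l) (g2 : QXS p r q l) (hW : WinAt p q r l) : FinAt p q r := by
  rcases Nat.lt_or_ge p 10 with h | h
  · exact finWS hp hpq hqr (fun h => by omega) hA hl g1 g2.rot2 (hW.1 (by omega))
  · exact finWCS hp hpq hqr (fun h => by omega) hl hA g1 g2.rot2 (hW.2 h)

/-- the exact line `xA`, one order at least `10` -/
theorem fin_xA (hp : 3 ≤ p) (hpq : p ≤ q) (hqr : q ≤ r) (hr : 10 ≤ r)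
    (g1 : QX p q r (xA p q r)) (g2 : QX q p r (xA q p r)) : FinAt p q r := by
  rw [xA_swap] at g2
  exact Pool.Agent.Helper6.MONO.finA hp hpq hqr (fun h => by omega) g1 g2

/-- the exact line, star shaped quarters -/
theorem fin_xAS (hp : 3 ≤ p) (hpq : p ≤ q) (hqr : q ≤ r) (hr : 10 ≤ r)
    (g1 : QXS p q r (xA p q r)) (g2 : QXS q p r (xA q p r)) : FinAt p q r := by
  rw [xA_swap] at g2
  exact finAS hp hpq hqr (fun h => by omega) g1 g2
end

/-- THE FINAL STATEMENT, FORM 5: final statements per class -/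
theorem top_tails5
    (H1 : ∀ p q r : ℕ, 3 ≤ p → p ≤ q → q ≤ r → r ≤ 9 → ¬ (p = 3 ∧ q = 3 ∧ r = 3) → FinAt p q r)
    (H2 : ∀ p q r : ℕ, 3 ≤ p → p ≤ q → q ≤ 9 → 10 ≤ r → FinAt p q r)
    (H3 : ∀ p q r : ℕ, 3 ≤ p → p ≤ 13 → 10 ≤ q → p ≤ q → q ≤ r → FinAt p q r)
    (H4 : ∀ p q r : ℕ, 14 ≤ p → p ≤ q → q ≤ r → FinAt p q r) : ST_FIN := by
  refine top_split H1 H2 (fun p q r hp hp9 hq hqr => H3 p q r hp (by omega) hq (by omega) hqr) ?_
  intro p q r hp hpq hqr
  rcases Nat.lt_or_ge p 14 with h | h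
  · exact H3 p q r (by omega) (by omega) (by omega) hpq hqr
  · exact H4 p q r h hpq hqr

end Pool.Agent.Helper81.MIT
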